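import Mathlib

/-!
# ES13/ADef: simple allowable sequences (definitions, MP_d79f1f_co)
-/

namespace ES13

/-- `w p` is the index at position `p`. The move from `w` to `w'` reverses the blocks of
consecutive positions `b.1, ..., b.2`, `b ∈ B` (at least one block, pairwise non-overlapping), and
changes nothing else. -/
structure IsMove {N : ℕ} (w w' : Equiv.Perm (Fin N)) (B : Finset (Fin N × Fin N)) : Prop where
  ne : B.Nonempty
  lt : ∀ b ∈ B, b.1 < b.2
  disj : ∀ b ∈ B, ∀ c ∈ B, b ≠ c → b.2 < c.1 ∨ c.2 < b.1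
  inside : ∀ b ∈ B, ∀ p q : Fin N, b.1 ≤ p → p ≤ b.2 →
    (p : ℕ) + (q : ℕ) = (b.1 : ℕ) + (b.2 : ℕ) → w' q = w p
  outside : ∀ p : Fin N, (∀ b ∈ B, ¬ (b.1 ≤ p ∧ p ≤ b.2)) → w' p = w p

/-- index `i` precedes index `j` in the word `w` -/
def before {N : ℕ} (w : Equiv.Perm (Fin N)) (i j : Fin N) : Prop := w.symm i < w.symm j

/-- the relative order of `i, j` is different in `w` and `w'` -/
def Reverses {N : ℕ} (w w' : Equiv.Perm (Fin N)) (i j : Fin N) : Prop :=
  (before w i j ∧ before w' j i) ∨ (before w j i ∧ before w' i j)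

/-- Allowable sequence: periodic, every step is a move, and condition (ii): whenever a move
reverses the pair `(i, j)`, every pair `(k, l)` which is not reversed in that same move is
reversed by some later move occurring before the next move that reverses `(i, j)`. -/
structure Allowable {N : ℕ} (π : ℤ → Equiv.Perm (Fin N)) : Prop where
  periodic : ∃ T : ℤ, 0 < T ∧ ∀ t, π (t + T) = π t
  move : ∀ t, ∃ B, IsMove (π t) (π (t + 1)) B
  once : ∀ t i j, Reverses (π t) (π (t + 1)) i j → ∀ k l, k ≠ l →
    ¬ Reverses (π t) (π (t + 1)) k l →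
    ∃ u, t < u ∧ Reverses (π u) (π (u + 1)) k l ∧
      ∀ v, t < v → v ≤ u → ¬ Reverses (π v) (π (v + 1)) i j

/-- every substring reversed in every move has length exactly two -/
def Simple {N : ℕ} (π : ℤ → Equiv.Perm (Fin N)) : Prop :=
  ∀ t, ∃ B, IsMove (π t) (π (t + 1)) B ∧ ∀ b ∈ B, (b.2 : ℕ) = (b.1 : ℕ) + 1

/-- the set `S` of indices is in convex position in the sequence -/
def ConvexPosition {N : ℕ} (π : ℤ → Equiv.Perm (Fin N)) (S : Finset (Fin N)) : Prop :=
  ∀ s ∈ S, ∃ t, ∀ s' ∈ S, s' ≠ s → before (π t) s s'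

/-- `f_c(n)`: the least `F` such that for every `N > F` every simple allowable `N`-sequence has a
set of `n` indices in convex position. (No allowable `1`-sequence exists, hence the condition is
stated for all `N > F` and not only for `N = F + 1`; otherwise `F = 0` would be vacuous.) -/
noncomputable def fc (n : ℕ) : ℕ :=
  sInf {F : ℕ | ∀ N : ℕ, F < N → ∀ π : ℤ → Equiv.Perm (Fin N), Allowable π → Simple π →
    ∃ S : Finset (Fin N), S.card = n ∧ ConvexPosition π S}

end ES13
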