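import Mathlib

/-!
# ES13/ChooseSq (MP_d79f1f_co)
A binomial estimate. PROOF. (2/5)^a C(a+u,a) <= (1 + 2/5)^(a+u) (one term of the binomial
theorem, add_pow), so C(a+u,a) <= (7/5)^(a+u) (5/2)^a = (7/2)^a (7/5)^u (real or rational numbers) and
C(a+u,a)^2 <= (49/4)^a (49/25)^u <= 16^a 2^u = 2^(4a+u).
(Integer version: 5^(a+u) (2)^a C(a+u,a) ... or multiply out: 2^a 5^u C(a+u,a) <= 7^(a+u).)
Alternatively by induction from 2^a 5^u C(a+u,a) <= 7^(a+u) (Pascal: C(a+u,a) = C(a-1+u,a-1)+C(a+u-1,a),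
2^a 5^u C <= 2 * 7^(a+u-1) + 5 * 7^(a+u-1) = 7^(a+u)).
-/

namespace ES13

variable {α : Type*}

theorem choose_sq_le (a u : ℕ) : ((a + u).choose a) ^ 2 ≤ 2 ^ (4 * a + u) := by
  have h1 : 2 ^ a * 5 ^ u * (a + u).choose a ≤ 7 ^ (a + u) := by
    have h2 := add_pow 2 5 (a + u)
    norm_num at h2
    rw [h2]
    have h3 := Finset.single_le_sum
      (f := fun k => 2 ^ k * 5 ^ (a + u - k) * (a + u).choose k) (fun _ _ => Nat.zero_le _)
      (Finset.mem_range.2 (show a < a + u + 1 by omega))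
    simp only [Nat.add_sub_cancel_left] at h3
    exact h3
  have h4 := Nat.pow_le_pow_left h1 2
  have h5 : (7 ^ (a + u)) ^ 2 ≤ (2 ^ a * 5 ^ u) ^ 2 * 2 ^ (4 * a + u) := by
    have e1 : (7 ^ (a + u)) ^ 2 = 49 ^ a * 49 ^ u := by
      rw [← pow_mul, mul_comm (a + u) 2, pow_mul, pow_add]
      norm_num
    have e2 : (2 ^ a * 5 ^ u) ^ 2 * 2 ^ (4 * a + u) = 64 ^ a * 50 ^ u := by
      rw [mul_pow, ← pow_mul, ← pow_mul, mul_comm a 2, mul_comm u 2, pow_mul, pow_mul, pow_add,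
        pow_mul, show (64 : ℕ) = 2 ^ 2 * 2 ^ 4 by norm_num, show (50 : ℕ) = 5 ^ 2 * 2 by norm_num,
        mul_pow, mul_pow]
      ring
    rw [e1, e2]
    exact Nat.mul_le_mul (Nat.pow_le_pow_left (by norm_num) a) (Nat.pow_le_pow_left (by norm_num) u)
  rw [mul_pow] at h4
  exact Nat.le_of_mul_le_mul_left (h4.trans h5) (by positivity)

end ES13
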