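import Pool.Agent.ES13.DMap

/-!
# ES13/CountRel (MP_d79f1f_co)
Counting with several relations.
-/

namespace ES13

variable {α : Type*}

theorem countRel {ι : Type*} [Fintype ι] (r : ι → α → α → Prop) (c₁ c₂ : ι → α → α → α → Prop)
    (Q : Finset α) (x y : ι → ℕ)
    (hcov : ∀ p ∈ Q, ∀ q ∈ Q, p ≠ q → ∃ i, r i p q ∨ r i q p)
    (hc : ∀ i, ∀ p ∈ Q, ∀ q ∈ Q, ∀ s ∈ Q, r i p q → r i q s → c₁ i p q s ∨ c₂ i p q s)
    (hx : ∀ i p e, ChF (r i) (c₁ i) Q p e → e ≤ x i)
    (hy : ∀ i p e, ChF (r i) (c₂ i) Q p e → e ≤ y i) :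
    Q.card ≤ ∏ i, (x i + y i).choose (x i) := by
  classical
  choose D hD1 hD2 using fun i => dmap (r i) (c₁ i) (c₂ i) Q (x i) (y i) (hc i) (hx i) (hy i)
  have hcard : (Fintype.piFinset fun i => (Finset.range (x i + y i)).powersetCard (x i)).card =
      ∏ i, (x i + y i).choose (x i) := by
    rw [Fintype.card_piFinset]
    refine Finset.prod_congr rfl fun i _ => ?_
    rw [Finset.card_powersetCard, Finset.card_range]
  rw [← hcard]
  refine Finset.card_le_card_of_injOn (fun p i => D i p) ?_ ?_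
  · intro p hp
    rw [Finset.mem_coe, Fintype.mem_piFinset]
    intro i
    exact hD1 i p hp
  · intro p hp q hq hpq
    by_contra hne
    obtain ⟨i, hi | hi⟩ := hcov p hp q hq hne
    · exact hD2 i p hp q hq hi (congrFun hpq i)
    · exact hD2 i q hq p hp hi (congrFun hpq i).symm

end ES13
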