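import Mathlib

/-!
# ES13/Labels (MP_d79f1f_co)
* exists_label: for p in Q the set of e with A p e is nonempty (0) and bounded by B; take its
maximum (Nat.findGreatest, Classical.decPred, or Nat.sSup_mem); L p = 0 for p outside Q.
* popular: pigeonhole. The label vectors of the elements of Q lie in
Fintype.piFinset (fun _ : Fin m => range (n+1)), which has (n+1)^m elements; Q is the disjoint
union of the fibres (Finset.card_eq_sum_card_fiberwise), so some fibre Q' has
Q.card <= (n+1)^m * Q'.card (Finset.exists_max_image over the image of L, or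
Finset.exists_le_card_fiber_of_mul_le_card_of_maps_to). It is nonempty since Q.card > 0.
-/

namespace ES13

variable {α : Type*}

theorem exists_label (Q : Finset α) (A : α → ℕ → Prop) (B : ℕ) (h0 : ∀ p ∈ Q, A p 0)
    (hB : ∀ p ∈ Q, ∀ e, A p e → e ≤ B) :
    ∃ L : α → ℕ, ∀ p ∈ Q, L p ≤ B ∧ A p (L p) ∧ ∀ e, A p e → e ≤ L p := by
  classical
  refine ⟨fun p => Nat.findGreatest (A p) B, fun p hp => ⟨Nat.findGreatest_le B, ?_, ?_⟩⟩
  · exact Nat.findGreatest_spec (P := A p) (Nat.zero_le B) (h0 p hp)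
  · intro e he
    exact Nat.le_findGreatest (hB p hp e he) he

theorem popular (Q : Finset α) (hQ : Q.Nonempty) (m n : ℕ) (L : α → Fin m → ℕ)
    (hL : ∀ p ∈ Q, ∀ i, L p i ≤ n) :
    ∃ c : Fin m → ℕ, ∃ Q' : Finset α, Q' ⊆ Q ∧ Q'.Nonempty ∧ (∀ p ∈ Q', L p = c) ∧
      Q.card ≤ (n + 1) ^ m * Q'.card := by
  classical
  obtain ⟨T, hT⟩ : ∃ T : Finset (Fin m → ℕ),
      T = Fintype.piFinset (fun _ : Fin m => Finset.range (n + 1)) := ⟨_, rfl⟩
  have hTc : T.card = (n + 1) ^ m := by
    rw [hT, Fintype.card_piFinset]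
    simp
  have hmem : ∀ p ∈ Q, L p ∈ T := by
    intro p hp
    rw [hT, Fintype.mem_piFinset]
    intro i
    exact Finset.mem_range.2 (Nat.lt_succ_of_le (hL p hp i))
  have hTne : T.Nonempty := by
    obtain ⟨p, hp⟩ := hQ
    exact ⟨L p, hmem p hp⟩
  obtain ⟨c, -, hc⟩ := Finset.exists_max_image T (fun c => (Q.filter (fun p => L p = c)).card) hTne
  have h1 : Q.card ≤ (n + 1) ^ m * (Q.filter (fun p => L p = c)).card := by
    rw [Finset.card_eq_sum_card_fiberwise hmem, ← hTc, ← smul_eq_mul]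
    exact Finset.sum_le_card_nsmul T _ _ (fun x hx => hc x hx)
  refine ⟨c, Q.filter (fun p => L p = c), Finset.filter_subset _ _, ?_, ?_, h1⟩
  · rw [← Finset.card_pos]
    by_contra hcon
    have h2 : (Q.filter (fun p => L p = c)).card = 0 := Nat.eq_zero_of_not_pos hcon
    rw [h2, mul_zero] at h1
    exact absurd (Finset.card_pos.2 hQ) (by omega)
  · intro p hp
    exact (Finset.mem_filter.1 hp).2

end ES13
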