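import Pool.Agent.ES13.Basic
import Pool.Agent.ES13.CountRel
import Pool.Agent.ES13.ChooseSq
import Pool.Agent.ES13.Labels

/-!
# ES13/AbsB (MP_d79f1f_co)
The counting lemma, case SW. Purely combinatorial, similar to AbsC but simpler.
PROOF. If Q is empty the left side is 0. Let Q be nonempty.
(1) Four labels: A_1 = ChF R cw, A_2 = ChF R (flip3 cw), A_3 = ChF S (flip3 cw), A_4 = ChF (rv L) cw
over Q. Bounded by n (h3, h4, h1 with e1 = 0, h2 with e1 = 0). exists_label, and popular with m = 4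
gives Q'' nonempty inside Q with constant labels L_1..L_4 and Q.card <= (n+1)^4 Q''.card.
For any p in Q'': L_1 + L_3 <= r2 (h1), L_2 + L_4 <= l2 (h2), L_1 <= r1 (h3), L_2 <= l1 (h4).
(2) countRel on Q'' with index type Fin 4, relations R, S, rv L, J2, colours cw, flip3 cw and
(x,y) = (L_1,L_2), (a1,L_3), (L_4,a1), (a1,a2). Cover and colours as in AbsC: p != q in Q'' gives
X p q or X q p (hX.tot), then hcov; r p q, r q s imply p, q, s distinct (hX) and hO.tot. Result: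
 card Q'' <= C(L_1+L_2,L_1) C(a1+L_3,a1) C(L_4+a1,L_4) C(a1+a2,a1), and C(L_4+a1,L_4) = C(a1+L_4,a1).
(3) Squares: C(L_1+L_2,L_1)^2 <= 2^(2L_1+2L_2), choose_sq_le for the two middle ones
2^(4a1+L_3), 2^(4a1+L_4), and C(a1+a2,a1)^2 <= 2^(2a1+2a2). The exponent is
2L_1+2L_2+L_3+L_4+10a1+2a2 <= r1+l1+r2+l2+10a1+2a2.
(4) (card Q)^2 <= (n+1)^8 (card Q'')^2 <= (n+1)^16 (card Q'')^2.
-/

namespace ES13

variable {α : Type*}

theorem absB (cw : α → α → α → Prop) (X R S L J2 : α → α → Prop) (Q : Finset α)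
    (n r1 l1 r2 l2 a1 a2 : ℕ) (hO : Ori cw) (hX : STO X Q)
    (hsub : ∀ p ∈ Q, ∀ q ∈ Q, R p q ∨ S p q ∨ L p q ∨ J2 p q → X p q)
    (hcov : ∀ p ∈ Q, ∀ q ∈ Q, X p q → R p q ∨ S p q ∨ L p q ∨ J2 p q)
    (h1 : ∀ p e1 e2, ChF R cw Q p e1 → ChF S (flip3 cw) Q p e2 → e1 + e2 ≤ r2)
    (h2 : ∀ p e1 e2, ChF R (flip3 cw) Q p e1 → ChF (rv L) cw Q p e2 → e1 + e2 ≤ l2)
    (h3 : ∀ p e, ChF R cw Q p e → e ≤ r1) (h4 : ∀ p e, ChF R (flip3 cw) Q p e → e ≤ l1)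
    (haS : ∀ p e, ChF S cw Q p e → e ≤ a1) (haL : ∀ p e, ChF (rv L) (flip3 cw) Q p e → e ≤ a1)
    (haJ : ∀ p e, ChF J2 cw Q p e → e ≤ a1) (ha2 : ∀ p e, ChF J2 (flip3 cw) Q p e → e ≤ a2)
    (hn : r1 ≤ n ∧ l1 ≤ n ∧ r2 ≤ n ∧ l2 ≤ n) :
    Q.card ^ 2 ≤ (n + 1) ^ 16 * 2 ^ (r1 + l1 + r2 + l2 + 10 * a1 + 4 * a2) := by
  rcases Q.eq_empty_or_nonempty with hQ | hQ
  · rw [hQ]
    simp
  obtain ⟨hn1, hn2, hn3, hn4⟩ := hn
  obtain ⟨L1, hL1⟩ := exists_label Q (fun p e => ChF R cw Q p e) n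
    (fun p hp => chF_zero hp) (fun p _ e he => (h3 p e he).trans hn1)
  obtain ⟨L2, hL2⟩ := exists_label Q (fun p e => ChF R (flip3 cw) Q p e) n
    (fun p hp => chF_zero hp) (fun p _ e he => (h4 p e he).trans hn2)
  obtain ⟨L3, hL3⟩ := exists_label Q (fun p e => ChF S (flip3 cw) Q p e) n
    (fun p hp => chF_zero hp) (fun p hp e he => by
      have := h1 p 0 e (chF_zero hp) he
      omega)
  obtain ⟨L4, hL4⟩ := exists_label Q (fun p e => ChF (rv L) cw Q p e) n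
    (fun p hp => chF_zero hp) (fun p hp e he => by
      have := h2 p 0 e (chF_zero hp) he
      omega)
  obtain ⟨c, Q', hsubQ, hne, hconst, hcard⟩ := popular Q hQ 4 n
    (fun p => ![L1 p, L2 p, L3 p, L4 p]) (by
      intro p hp i
      fin_cases i
      · exact (hL1 p hp).1
      · exact (hL2 p hp).1
      · exact (hL3 p hp).1
      · exact (hL4 p hp).1)
  have k1 : ∀ p ∈ Q', L1 p = c 0 := fun p hp => congrFun (hconst p hp) 0
  have k2 : ∀ p ∈ Q', L2 p = c 1 := fun p hp => congrFun (hconst p hp) 1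
  have k3 : ∀ p ∈ Q', L3 p = c 2 := fun p hp => congrFun (hconst p hp) 2
  have k4 : ∀ p ∈ Q', L4 p = c 3 := fun p hp => congrFun (hconst p hp) 3
  have up : ∀ (r : α → α → Prop) (d : α → α → α → Prop) (p : α) (e : ℕ),
      ChF r d Q' p e → ChF r d Q p e := fun r d p e h =>
    chF_mono h hsubQ (fun _ _ _ _ h => h) (fun _ _ _ _ _ _ h => h)
  obtain ⟨p0, hp0⟩ := hne
  have m1 : c 0 + c 2 ≤ r2 := by
    rw [← k1 p0 hp0, ← k3 p0 hp0]
    exact h1 p0 _ _ (hL1 p0 (hsubQ hp0)).2.1 (hL3 p0 (hsubQ hp0)).2.1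
  have m2 : c 1 + c 3 ≤ l2 := by
    rw [← k2 p0 hp0, ← k4 p0 hp0]
    exact h2 p0 _ _ (hL2 p0 (hsubQ hp0)).2.1 (hL4 p0 (hsubQ hp0)).2.1
  have m3 : c 0 ≤ r1 := by
    rw [← k1 p0 hp0]
    exact h3 p0 _ (hL1 p0 (hsubQ hp0)).2.1
  have m4 : c 1 ≤ l1 := by
    rw [← k2 p0 hp0]
    exact h4 p0 _ (hL2 p0 (hsubQ hp0)).2.1
  have b1 : ∀ p e, ChF R cw Q' p e → e ≤ c 0 := by
    intro p e h
    have hp := chF_mem h
    rw [← k1 p hp]
    exact (hL1 p (hsubQ hp)).2.2 e (up _ _ _ _ h)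
  have b2 : ∀ p e, ChF R (flip3 cw) Q' p e → e ≤ c 1 := by
    intro p e h
    have hp := chF_mem h
    rw [← k2 p hp]
    exact (hL2 p (hsubQ hp)).2.2 e (up _ _ _ _ h)
  have b3 : ∀ p e, ChF S (flip3 cw) Q' p e → e ≤ c 2 := by
    intro p e h
    have hp := chF_mem h
    rw [← k3 p hp]
    exact (hL3 p (hsubQ hp)).2.2 e (up _ _ _ _ h)
  have b4 : ∀ p e, ChF (rv L) cw Q' p e → e ≤ c 3 := by
    intro p e h
    have hp := chF_mem h
    rw [← k4 p hp]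
    exact (hL4 p (hsubQ hp)).2.2 e (up _ _ _ _ h)
  have colour : ∀ p ∈ Q', ∀ q ∈ Q', ∀ s ∈ Q', X p q → X q s → cw p q s ∨ flip3 cw p q s := by
    intro p hp q hq s hs h5 h6
    have hpQ := hsubQ hp
    have hqQ := hsubQ hq
    have hsQ := hsubQ hs
    have h7 := hX.trans p hpQ q hqQ s hsQ h5 h6
    exact hO.tot p q s (sto_ne hX hpQ h5) (sto_ne hX hqQ h6) (sto_ne hX hpQ h7)
  have colour' : ∀ p ∈ Q', ∀ q ∈ Q', ∀ s ∈ Q', X q p → X s q → cw p q s ∨ flip3 cw p q s := by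
    intro p hp q hq s hs h5 h6
    have hpQ := hsubQ hp
    have hqQ := hsubQ hq
    have hsQ := hsubQ hs
    have h7 := hX.trans s hsQ q hqQ p hpQ h6 h5
    exact hO.tot p q s (sto_ne hX hqQ h5).symm (sto_ne hX hsQ h6).symm (sto_ne hX hsQ h7).symm
  have hcount := countRel (ι := Fin 4) ![R, S, rv L, J2] (fun _ => cw) (fun _ => flip3 cw) Q'
    ![c 0, a1, c 3, a1] ![c 1, c 2, a1, a2] (by
      intro p hp q hq hpq
      rcases hX.tot p (hsubQ hp) q (hsubQ hq) hpq with h | h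
      · rcases hcov p (hsubQ hp) q (hsubQ hq) h with h5 | h5 | h5 | h5
        · exact ⟨0, Or.inl h5⟩
        · exact ⟨1, Or.inl h5⟩
        · exact ⟨2, Or.inr h5⟩
        · exact ⟨3, Or.inl h5⟩
      · rcases hcov q (hsubQ hq) p (hsubQ hp) h with h5 | h5 | h5 | h5
        · exact ⟨0, Or.inr h5⟩
        · exact ⟨1, Or.inr h5⟩
        · exact ⟨2, Or.inl h5⟩
        · exact ⟨3, Or.inr h5⟩) (by
      intro i p hp q hq s hs
      fin_cases i
      · intro (h5 : R p q) (h6 : R q s)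
        exact colour p hp q hq s hs (hsub _ (hsubQ hp) _ (hsubQ hq) (Or.inl h5))
          (hsub _ (hsubQ hq) _ (hsubQ hs) (Or.inl h6))
      · intro (h5 : S p q) (h6 : S q s)
        exact colour p hp q hq s hs (hsub _ (hsubQ hp) _ (hsubQ hq) (Or.inr (Or.inl h5)))
          (hsub _ (hsubQ hq) _ (hsubQ hs) (Or.inr (Or.inl h6)))
      · intro (h5 : L q p) (h6 : L s q)
        exact colour' p hp q hq s hs
          (hsub _ (hsubQ hq) _ (hsubQ hp) (Or.inr (Or.inr (Or.inl h5))))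
          (hsub _ (hsubQ hs) _ (hsubQ hq) (Or.inr (Or.inr (Or.inl h6))))
      · intro (h5 : J2 p q) (h6 : J2 q s)
        exact colour p hp q hq s hs
          (hsub _ (hsubQ hp) _ (hsubQ hq) (Or.inr (Or.inr (Or.inr h5))))
          (hsub _ (hsubQ hq) _ (hsubQ hs) (Or.inr (Or.inr (Or.inr h6))))) (by
      intro i p e
      fin_cases i
      · exact b1 p e
      · exact fun h => haS p e (up _ _ _ _ h)
      · exact b4 p e
      · exact fun h => haJ p e (up _ _ _ _ h)) (by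
      intro i p e
      fin_cases i
      · exact b2 p e
      · exact b3 p e
      · exact fun h => haL p e (up _ _ _ _ h)
      · exact fun h => ha2 p e (up _ _ _ _ h))
  rw [Fin.prod_univ_four] at hcount
  have hcount' : Q'.card ≤ (c 0 + c 1).choose (c 0) * (a1 + c 2).choose a1 *
      (c 3 + a1).choose (c 3) * (a1 + a2).choose a1 := hcount
  have s1 : ((c 0 + c 1).choose (c 0)) ^ 2 ≤ 2 ^ (2 * (c 0 + c 1)) := by
    rw [mul_comm 2, pow_mul]
    exact Nat.pow_le_pow_left (Nat.choose_le_two_pow _ _) 2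
  have s2 := choose_sq_le a1 (c 2)
  have s3 : ((c 3 + a1).choose (c 3)) ^ 2 ≤ 2 ^ (4 * a1 + c 3) := by
    rw [show (c 3 + a1).choose (c 3) = (a1 + c 3).choose a1 by
      rw [add_comm (c 3) a1]; exact (Nat.choose_symm_add).symm]
    exact choose_sq_le a1 (c 3)
  have s4 : ((a1 + a2).choose a1) ^ 2 ≤ 2 ^ (2 * (a1 + a2)) := by
    rw [mul_comm 2, pow_mul]
    exact Nat.pow_le_pow_left (Nat.choose_le_two_pow _ _) 2
  have s5 : Q'.card ^ 2 ≤ 2 ^ (r1 + l1 + r2 + l2 + 10 * a1 + 4 * a2) := by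
    calc Q'.card ^ 2 ≤ ((c 0 + c 1).choose (c 0) * (a1 + c 2).choose a1 *
          (c 3 + a1).choose (c 3) * (a1 + a2).choose a1) ^ 2 := Nat.pow_le_pow_left hcount' 2
      _ = ((c 0 + c 1).choose (c 0)) ^ 2 * ((a1 + c 2).choose a1) ^ 2 *
          ((c 3 + a1).choose (c 3)) ^ 2 * ((a1 + a2).choose a1) ^ 2 := by
        rw [mul_pow, mul_pow, mul_pow]
      _ ≤ 2 ^ (2 * (c 0 + c 1)) * 2 ^ (4 * a1 + c 2) * 2 ^ (4 * a1 + c 3) *
          2 ^ (2 * (a1 + a2)) := by gcongr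
      _ = 2 ^ (2 * (c 0 + c 1) + (4 * a1 + c 2) + (4 * a1 + c 3) + 2 * (a1 + a2)) := by
        rw [← pow_add, ← pow_add, ← pow_add]
      _ ≤ 2 ^ (r1 + l1 + r2 + l2 + 10 * a1 + 4 * a2) := by
        apply Nat.pow_le_pow_right (by norm_num)
        omega
  calc Q.card ^ 2 ≤ ((n + 1) ^ 4 * Q'.card) ^ 2 := Nat.pow_le_pow_left hcard 2
    _ = (n + 1) ^ 8 * Q'.card ^ 2 := by ring
    _ ≤ (n + 1) ^ 16 * 2 ^ (r1 + l1 + r2 + l2 + 10 * a1 + 4 * a2) := by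
      apply Nat.mul_le_mul _ s5
      exact Nat.pow_le_pow_right (by omega) (by norm_num)

end ES13
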