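import Pool.Agent.ES13.Basic
import Pool.Agent.ES13.CountRel
import Pool.Agent.ES13.ChooseSq
import Pool.Agent.ES13.Labels

/-!
# ES13/AbsC (MP_d79f1f_co)
The counting lemma, case NW. Purely combinatorial.
PROOF. If Q is empty the left side is 0. Let Q be nonempty.
(1) Eight labels. Consider the eight families A_1 = ChF U cw, A_2 = ChF U (flip3 cw), A_3 = ChF F cw,
A_4 = ChF F (flip3 cw), A_5 = ChF (rv U) cw, A_6 = ChF (rv U) (flip3 cw), A_7 = ChF (rv F) cw,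
A_8 = ChF (rv F) (flip3 cw) (all over Q). For p in Q each holds for e = 0 (chF_zero) and A_i p e
implies e <= n: in h1 take p' = p, e2 = 0 (ChB _ _ Q p p 0 holds, constant sequence) and put the
other lengths equal to 0: A_1, A_4 <= r2; h2: A_5, A_8 <= l2; h3: A_6, A_3 <= r1; h4: A_7, A_2 <= l1.
exists_label gives L_i with A_i p (L_i p) and maximal.
(2) popular with m = 8 (L : a -> Fin 8 -> N) gives Q'' nonempty inside Q with constant labels
L_1, ..., L_8 (numbers) and Q.card <= (n+1)^8 Q''.card.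
(3) u1 := largest e such that there are p, p' with ChB (rv J1) cw Q'' p p' e; u2 := largest e such
that there are p, p' with ChB J2 (flip3 cw) Q'' p p' e. (e = 0 occurs as Q'' is nonempty; bounded by
h1, h4 through chB_mono from Q'' to Q.) Take p, p' (in Q'', chB_mem) realising u1: h1 with
e1 = L_4, e2 = u1, e3 = L_1 gives L_4 + u1 + L_1 <= r2. In the same way h4: L_7 + u2 + L_2 <= l1. For any
p in Q'': h2: L_5 + L_8 <= l2, h3: L_6 + L_3 <= r1. Sum: L_1 + ... + L_8 + u1 + u2 <= r1+l1+r2+l2.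
(4) countRel on Q'' with index type Fin 4, relations U, F, J1, J2, colours cw, flip3 cw and
(x,y) = (L_1,L_2), (L_3,L_4), (a1,u1), (a2,u2). Cover: p != q in Q'' gives X p q or X q p (hX.tot),
then hcov. Colours: r p q, r q s imply X p q, X q s (hsub), so p, q, s are distinct (hX.irr, trans)
and hO.tot gives cw p q s or cw q p s = flip3 cw p q s. Bounds: a chain in Q'' is a chain in Q
(chF_mono). For J1 and colour flip3 cw: ChF J1 (flip3 cw) Q'' p e means ChB J1 (flip3 cw) Q'' p q e for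
some q; chB_reverse (for c = flip3 cw, ori_flip; flip3 (flip3 cw) = cw by rfl) gives
ChB (rv J1) cw Q'' q p e, so e <= u1. For J2: directly e <= u2. Result:
 card Q'' <= C(L_1+L_2,L_1) C(L_3+L_4,L_3) C(a1+u1,a1) C(a2+u2,a2).
(5) The same with rv U, rv F in place of U, F:
 card Q'' <= C(L_5+L_6,L_5) C(L_7+L_8,L_7) C(a1+u1,a1) C(a2+u2,a2).
(colours for rv U: rv U p q, rv U q s imply X q p, X s q; distinct again.)
(6) Multiply: C(x+y,x) <= 2^(x+y) (Nat.choose_le_two_pow) and choose_sq_le: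
 (card Q'')^2 <= 2^(L_1+...+L_8) * 2^(4 a1+u1) * 2^(4 a2+u2) <= 2^(r1+l1+r2+l2+4 a1+4 a2).
(7) (card Q)^2 <= (n+1)^16 (card Q'')^2 and 4 a1 <= 10 a1.
-/

namespace ES13

variable {α : Type*}

theorem cnt4 (cw : α → α → α → Prop) (R1 R2 R3 R4 : α → α → Prop) (Q : Finset α)
    (x1 y1 x2 y2 x3 y3 x4 y4 : ℕ) (hO : Ori cw)
    (hd : ∀ p ∈ Q, ∀ q ∈ Q, ∀ s ∈ Q, (R1 p q ∧ R1 q s) ∨ (R2 p q ∧ R2 q s) ∨ (R3 p q ∧ R3 q s) ∨
      (R4 p q ∧ R4 q s) → p ≠ q ∧ q ≠ s ∧ p ≠ s)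
    (hcov : ∀ p ∈ Q, ∀ q ∈ Q, p ≠ q →
      (R1 p q ∨ R1 q p) ∨ (R2 p q ∨ R2 q p) ∨ (R3 p q ∨ R3 q p) ∨ (R4 p q ∨ R4 q p))
    (hx1 : ∀ p e, ChF R1 cw Q p e → e ≤ x1) (hy1 : ∀ p e, ChF R1 (flip3 cw) Q p e → e ≤ y1)
    (hx2 : ∀ p e, ChF R2 cw Q p e → e ≤ x2) (hy2 : ∀ p e, ChF R2 (flip3 cw) Q p e → e ≤ y2)
    (hx3 : ∀ p e, ChF R3 cw Q p e → e ≤ x3) (hy3 : ∀ p e, ChF R3 (flip3 cw) Q p e → e ≤ y3)
    (hx4 : ∀ p e, ChF R4 cw Q p e → e ≤ x4) (hy4 : ∀ p e, ChF R4 (flip3 cw) Q p e → e ≤ y4) :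
    Q.card ≤ (x1 + y1).choose x1 * (x2 + y2).choose x2 * (x3 + y3).choose x3 *
      (x4 + y4).choose x4 := by
  have key := countRel (ι := Fin 4) (![R1, R2, R3, R4]) (fun _ => cw) (fun _ => flip3 cw) Q
    (![x1, x2, x3, x4]) (![y1, y2, y3, y4]) ?_ ?_ ?_ ?_
  · rw [Fin.prod_univ_four] at key
    exact key
  · intro p hp q hq hpq
    rcases hcov p hp q hq hpq with h | h | h | h
    · exact ⟨0, h⟩
    · exact ⟨1, h⟩
    · exact ⟨2, h⟩
    · exact ⟨3, h⟩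
  · intro i p hp q hq s hs h1 h2
    have hne : p ≠ q ∧ q ≠ s ∧ p ≠ s := by
      apply hd p hp q hq s hs
      fin_cases i
      · exact Or.inl ⟨h1, h2⟩
      · exact Or.inr (Or.inl ⟨h1, h2⟩)
      · exact Or.inr (Or.inr (Or.inl ⟨h1, h2⟩))
      · exact Or.inr (Or.inr (Or.inr ⟨h1, h2⟩))
    exact hO.tot p q s hne.1 hne.2.1 hne.2.2
  · intro i p e h
    fin_cases i
    · exact hx1 p e h
    · exact hx2 p e h
    · exact hx3 p e h
    · exact hx4 p e h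
  · intro i p e h
    fin_cases i
    · exact hy1 p e h
    · exact hy2 p e h
    · exact hy3 p e h
    · exact hy4 p e h

theorem largest (A : ℕ → Prop) (B : ℕ) (h0 : A 0) (hB : ∀ e, A e → e ≤ B) :
    ∃ u, A u ∧ ∀ e, A e → e ≤ u := by
  classical
  refine ⟨Nat.findGreatest A B, ?_, ?_⟩
  · exact Nat.findGreatest_spec (P := A) (Nat.zero_le B) h0
  · intro e he
    exact Nat.le_findGreatest (hB e he) he

theorem final_num (k n r1 l1 r2 l2 a1 a2 u1 u2 : ℕ) (c0 c1 c2 c3 c4 c5 c6 c7 : ℕ)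
    (hs1 : c3 + u1 + c0 ≤ r2) (hs2 : c6 + u2 + c1 ≤ l1) (hs3 : c4 + c7 ≤ l2) (hs4 : c5 + c2 ≤ r1)
    (hP1 : k ≤ (c0 + c1).choose c0 * (c2 + c3).choose c2 * (a1 + u1).choose a1 *
      (a2 + u2).choose a2)
    (hP2 : k ≤ (c4 + c5).choose c4 * (c6 + c7).choose c6 * (a1 + u1).choose a1 *
      (a2 + u2).choose a2) :
    k ^ 2 ≤ 2 ^ (r1 + l1 + r2 + l2 + 10 * a1 + 4 * a2) := by
  have e1 : (c0 + c1).choose c0 ≤ 2 ^ (c0 + c1) := Nat.choose_le_two_pow _ _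
  have e2 : (c2 + c3).choose c2 ≤ 2 ^ (c2 + c3) := Nat.choose_le_two_pow _ _
  have e3 : (c4 + c5).choose c4 ≤ 2 ^ (c4 + c5) := Nat.choose_le_two_pow _ _
  have e4 : (c6 + c7).choose c6 ≤ 2 ^ (c6 + c7) := Nat.choose_le_two_pow _ _
  have e5 := choose_sq_le a1 u1
  have e6 := choose_sq_le a2 u2
  calc k ^ 2 = k * k := sq k
    _ ≤ ((c0 + c1).choose c0 * (c2 + c3).choose c2 * (a1 + u1).choose a1 *
      (a2 + u2).choose a2) * ((c4 + c5).choose c4 * (c6 + c7).choose c6 * (a1 + u1).choose a1 *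
      (a2 + u2).choose a2) := Nat.mul_le_mul hP1 hP2
    _ = ((c0 + c1).choose c0 * (c2 + c3).choose c2) * ((c4 + c5).choose c4 *
      (c6 + c7).choose c6) * (((a1 + u1).choose a1) ^ 2 * ((a2 + u2).choose a2) ^ 2) := by ring
    _ ≤ (2 ^ (c0 + c1) * 2 ^ (c2 + c3)) * (2 ^ (c4 + c5) * 2 ^ (c6 + c7)) *
      (2 ^ (4 * a1 + u1) * 2 ^ (4 * a2 + u2)) := by
        apply Nat.mul_le_mul
        · apply Nat.mul_le_mul
          · exact Nat.mul_le_mul e1 e2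
          · exact Nat.mul_le_mul e3 e4
        · exact Nat.mul_le_mul e5 e6
    _ = 2 ^ (((c0 + c1) + (c2 + c3)) + ((c4 + c5) + (c6 + c7)) +
      ((4 * a1 + u1) + (4 * a2 + u2))) := by
        simp only [pow_add]
    _ ≤ 2 ^ (r1 + l1 + r2 + l2 + 10 * a1 + 4 * a2) := by
        apply Nat.pow_le_pow_right (by norm_num)
        omega

theorem absC (cw : α → α → α → Prop) (X U F J1 J2 : α → α → Prop) (Q : Finset α)
    (n r1 l1 r2 l2 a1 a2 : ℕ) (hO : Ori cw) (hX : STO X Q)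
    (hsub : ∀ p ∈ Q, ∀ q ∈ Q, U p q ∨ F p q ∨ J1 p q ∨ J2 p q → X p q)
    (hcov : ∀ p ∈ Q, ∀ q ∈ Q, X p q → U p q ∨ F p q ∨ J1 p q ∨ J2 p q)
    (h1 : ∀ p p' e1 e2 e3, ChF F (flip3 cw) Q p e1 → ChB (rv J1) cw Q p p' e2 →
      ChF U cw Q p' e3 → e1 + e2 + e3 ≤ r2)
    (h2 : ∀ p e1 e2, ChF (rv U) cw Q p e1 → ChF (rv F) (flip3 cw) Q p e2 → e1 + e2 ≤ l2)
    (h3 : ∀ p e1 e2, ChF (rv U) (flip3 cw) Q p e1 → ChF F cw Q p e2 → e1 + e2 ≤ r1)
    (h4 : ∀ p p' e1 e2 e3, ChF (rv F) cw Q p e1 → ChB J2 (flip3 cw) Q p p' e2 →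
      ChF U (flip3 cw) Q p' e3 → e1 + e2 + e3 ≤ l1)
    (ha1 : ∀ p e, ChF J1 cw Q p e → e ≤ a1) (ha2 : ∀ p e, ChF J2 cw Q p e → e ≤ a2)
    (hn : r1 ≤ n ∧ l1 ≤ n ∧ r2 ≤ n ∧ l2 ≤ n) :
    Q.card ^ 2 ≤ (n + 1) ^ 16 * 2 ^ (r1 + l1 + r2 + l2 + 10 * a1 + 4 * a2) := by
  rcases Q.eq_empty_or_nonempty with hQ | hQ
  · subst hQ
    simp
  obtain ⟨hr1, hl1, hr2, hl2⟩ := hn
  have hB0 : ∀ (r : α → α → Prop) (c : α → α → α → Prop) (p : α), p ∈ Q → ChB r c Q p p 0 :=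
    fun r c p hp => ⟨fun _ => p, rfl, rfl, fun _ _ => hp,
      fun i hi => absurd hi (Nat.not_lt_zero i), fun i hi => absurd hi (by omega)⟩
  obtain ⟨L1, hL1⟩ := exists_label Q (fun p e => ChF U cw Q p e) n
    (fun p hp => chF_zero hp) (fun p hp e he => by
      have := h1 p p 0 0 e (chF_zero hp) (hB0 _ _ p hp) he
      omega)
  obtain ⟨L2, hL2⟩ := exists_label Q (fun p e => ChF U (flip3 cw) Q p e) n
    (fun p hp => chF_zero hp) (fun p hp e he => by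
      have := h4 p p 0 0 e (chF_zero hp) (hB0 _ _ p hp) he
      omega)
  obtain ⟨L3, hL3⟩ := exists_label Q (fun p e => ChF F cw Q p e) n
    (fun p hp => chF_zero hp) (fun p hp e he => by
      have := h3 p 0 e (chF_zero hp) he
      omega)
  obtain ⟨L4, hL4⟩ := exists_label Q (fun p e => ChF F (flip3 cw) Q p e) n
    (fun p hp => chF_zero hp) (fun p hp e he => by
      have := h1 p p e 0 0 he (hB0 _ _ p hp) (chF_zero hp)
      omega)
  obtain ⟨L5, hL5⟩ := exists_label Q (fun p e => ChF (rv U) cw Q p e) n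
    (fun p hp => chF_zero hp) (fun p hp e he => by
      have := h2 p e 0 he (chF_zero hp)
      omega)
  obtain ⟨L6, hL6⟩ := exists_label Q (fun p e => ChF (rv U) (flip3 cw) Q p e) n
    (fun p hp => chF_zero hp) (fun p hp e he => by
      have := h3 p e 0 he (chF_zero hp)
      omega)
  obtain ⟨L7, hL7⟩ := exists_label Q (fun p e => ChF (rv F) cw Q p e) n
    (fun p hp => chF_zero hp) (fun p hp e he => by
      have := h4 p p e 0 0 he (hB0 _ _ p hp) (chF_zero hp)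
      omega)
  obtain ⟨L8, hL8⟩ := exists_label Q (fun p e => ChF (rv F) (flip3 cw) Q p e) n
    (fun p hp => chF_zero hp) (fun p hp e he => by
      have := h2 p 0 e (chF_zero hp) he
      omega)
  obtain ⟨c, Q', hQQ, hne', hc, hcard⟩ := popular Q hQ 8 n
    (fun p => ![L1 p, L2 p, L3 p, L4 p, L5 p, L6 p, L7 p, L8 p]) (fun p hp i => by
      fin_cases i
      · exact (hL1 p hp).1
      · exact (hL2 p hp).1
      · exact (hL3 p hp).1
      · exact (hL4 p hp).1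
      · exact (hL5 p hp).1
      · exact (hL6 p hp).1
      · exact (hL7 p hp).1
      · exact (hL8 p hp).1)
  have hc1 : ∀ p ∈ Q', L1 p = c 0 := fun p hp => congrFun (hc p hp) 0
  have hc2 : ∀ p ∈ Q', L2 p = c 1 := fun p hp => congrFun (hc p hp) 1
  have hc3 : ∀ p ∈ Q', L3 p = c 2 := fun p hp => congrFun (hc p hp) 2
  have hc4 : ∀ p ∈ Q', L4 p = c 3 := fun p hp => congrFun (hc p hp) 3
  have hc5 : ∀ p ∈ Q', L5 p = c 4 := fun p hp => congrFun (hc p hp) 4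
  have hc6 : ∀ p ∈ Q', L6 p = c 5 := fun p hp => congrFun (hc p hp) 5
  have hc7 : ∀ p ∈ Q', L7 p = c 6 := fun p hp => congrFun (hc p hp) 6
  have hc8 : ∀ p ∈ Q', L8 p = c 7 := fun p hp => congrFun (hc p hp) 7
  have mB : ∀ (r : α → α → Prop) (k : α → α → α → Prop) (p q : α) (e : ℕ),
      ChB r k Q' p q e → ChB r k Q p q e := fun r k p q e h =>
    chB_mono h hQQ (fun _ _ _ _ h => h) (fun _ _ _ _ _ _ h => h)
  have mF : ∀ (r : α → α → Prop) (k : α → α → α → Prop) (p : α) (e : ℕ),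
      ChF r k Q' p e → ChF r k Q p e := fun r k p e h =>
    chF_mono h hQQ (fun _ _ _ _ h => h) (fun _ _ _ _ _ _ h => h)
  obtain ⟨z, hz⟩ := hne'
  have hzQ := hQQ hz
  have hB0' : ∀ (r : α → α → Prop) (k : α → α → α → Prop), ChB r k Q' z z 0 :=
    fun r k => ⟨fun _ => z, rfl, rfl, fun _ _ => hz,
      fun i hi => absurd hi (Nat.not_lt_zero i), fun i hi => absurd hi (by omega)⟩
  obtain ⟨u1, ⟨p1, p1', hu1⟩, hu1m⟩ := largest (fun e => ∃ p p', ChB (rv J1) cw Q' p p' e) n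
    ⟨z, z, hB0' _ _⟩ (fun e ⟨p, p', h⟩ => by
      have hm := chB_mem (mB _ _ _ _ _ h)
      have := h1 p p' 0 e 0 (chF_zero hm.1) (mB _ _ _ _ _ h) (chF_zero hm.2)
      omega)
  obtain ⟨u2, ⟨p2, p2', hu2⟩, hu2m⟩ := largest (fun e => ∃ p p', ChB J2 (flip3 cw) Q' p p' e) n
    ⟨z, z, hB0' _ _⟩ (fun e ⟨p, p', h⟩ => by
      have hm := chB_mem (mB _ _ _ _ _ h)
      have := h4 p p' 0 e 0 (chF_zero hm.1) (mB _ _ _ _ _ h) (chF_zero hm.2)
      omega)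
  have hs1 : c 3 + u1 + c 0 ≤ r2 := by
    have hm := chB_mem hu1
    have := h1 p1 p1' (L4 p1) u1 (L1 p1') (hL4 p1 (hQQ hm.1)).2.1 (mB _ _ _ _ _ hu1)
      (hL1 p1' (hQQ hm.2)).2.1
    rwa [hc4 p1 hm.1, hc1 p1' hm.2] at this
  have hs2 : c 6 + u2 + c 1 ≤ l1 := by
    have hm := chB_mem hu2
    have := h4 p2 p2' (L7 p2) u2 (L2 p2') (hL7 p2 (hQQ hm.1)).2.1 (mB _ _ _ _ _ hu2)
      (hL2 p2' (hQQ hm.2)).2.1
    rwa [hc7 p2 hm.1, hc2 p2' hm.2] at this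
  have hs3 : c 4 + c 7 ≤ l2 := by
    have := h2 z (L5 z) (L8 z) (hL5 z hzQ).2.1 (hL8 z hzQ).2.1
    rwa [hc5 z hz, hc8 z hz] at this
  have hs4 : c 5 + c 2 ≤ r1 := by
    have := h3 z (L6 z) (L3 z) (hL6 z hzQ).2.1 (hL3 z hzQ).2.1
    rwa [hc6 z hz, hc3 z hz] at this
  -- distinctness from the order
  have dist1 : ∀ p ∈ Q', ∀ q ∈ Q', ∀ s ∈ Q', X p q → X q s → p ≠ q ∧ q ≠ s ∧ p ≠ s := by
    intro p hp q hq s hs hpq hqs
    refine ⟨?_, ?_, ?_⟩
    · exact sto_ne hX (hQQ hp) hpq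
    · exact sto_ne hX (hQQ hq) hqs
    · exact sto_ne hX (hQQ hp) (hX.trans p (hQQ hp) q (hQQ hq) s (hQQ hs) hpq hqs)
  have dist2 : ∀ p ∈ Q', ∀ q ∈ Q', ∀ s ∈ Q', X q p → X s q → p ≠ q ∧ q ≠ s ∧ p ≠ s := by
    intro p hp q hq s hs hpq hqs
    obtain ⟨h1, h2, h3⟩ := dist1 s hs q hq p hp hqs hpq
    exact ⟨h2.symm, h1.symm, h3.symm⟩
  have hJ1x : ∀ p e, ChF J1 cw Q' p e → e ≤ a1 := fun p e h => ha1 p e (mF _ _ _ _ h)
  have hJ2x : ∀ p e, ChF J2 cw Q' p e → e ≤ a2 := fun p e h => ha2 p e (mF _ _ _ _ h)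
  have hJ1y : ∀ p e, ChF J1 (flip3 cw) Q' p e → e ≤ u1 := by
    intro p e h
    obtain ⟨q, hq⟩ := h
    exact hu1m e ⟨q, p, chB_reverse (ori_flip hO) hq⟩
  have hJ2y : ∀ p e, ChF J2 (flip3 cw) Q' p e → e ≤ u2 := by
    intro p e h
    obtain ⟨q, hq⟩ := h
    exact hu2m e ⟨p, q, hq⟩
  have hP1 := cnt4 cw U F J1 J2 Q' (c 0) (c 1) (c 2) (c 3) a1 u1 a2 u2 hO
    (fun p hp q hq s hs h => by
      have hp' := hQQ hp
      have hq' := hQQ hq
      have hs' := hQQ hs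
      rcases h with ⟨ha, hb⟩ | ⟨ha, hb⟩ | ⟨ha, hb⟩ | ⟨ha, hb⟩
      · exact dist1 p hp q hq s hs (hsub p hp' q hq' (Or.inl ha)) (hsub q hq' s hs' (Or.inl hb))
      · exact dist1 p hp q hq s hs (hsub p hp' q hq' (Or.inr (Or.inl ha)))
          (hsub q hq' s hs' (Or.inr (Or.inl hb)))
      · exact dist1 p hp q hq s hs (hsub p hp' q hq' (Or.inr (Or.inr (Or.inl ha))))
          (hsub q hq' s hs' (Or.inr (Or.inr (Or.inl hb))))
      · exact dist1 p hp q hq s hs (hsub p hp' q hq' (Or.inr (Or.inr (Or.inr ha))))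
          (hsub q hq' s hs' (Or.inr (Or.inr (Or.inr hb)))))
    (fun p hp q hq hpq => by
      rcases hX.tot p (hQQ hp) q (hQQ hq) hpq with h | h
      · have := hcov p (hQQ hp) q (hQQ hq) h
        tauto
      · have := hcov q (hQQ hq) p (hQQ hp) h
        tauto)
    (fun p e h => by
      have hp := chF_mem h
      have := (hL1 p (hQQ hp)).2.2 e (mF _ _ _ _ h)
      rwa [hc1 p hp] at this)
    (fun p e h => by
      have hp := chF_mem h
      have := (hL2 p (hQQ hp)).2.2 e (mF _ _ _ _ h)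
      rwa [hc2 p hp] at this)
    (fun p e h => by
      have hp := chF_mem h
      have := (hL3 p (hQQ hp)).2.2 e (mF _ _ _ _ h)
      rwa [hc3 p hp] at this)
    (fun p e h => by
      have hp := chF_mem h
      have := (hL4 p (hQQ hp)).2.2 e (mF _ _ _ _ h)
      rwa [hc4 p hp] at this)
    hJ1x hJ1y hJ2x hJ2y
  have hP2 := cnt4 cw (rv U) (rv F) J1 J2 Q' (c 4) (c 5) (c 6) (c 7) a1 u1 a2 u2 hO
    (fun p hp q hq s hs h => by
      have hp' := hQQ hp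
      have hq' := hQQ hq
      have hs' := hQQ hs
      rcases h with ⟨ha, hb⟩ | ⟨ha, hb⟩ | ⟨ha, hb⟩ | ⟨ha, hb⟩
      · exact dist2 p hp q hq s hs (hsub q hq' p hp' (Or.inl ha)) (hsub s hs' q hq' (Or.inl hb))
      · exact dist2 p hp q hq s hs (hsub q hq' p hp' (Or.inr (Or.inl ha)))
          (hsub s hs' q hq' (Or.inr (Or.inl hb)))
      · exact dist1 p hp q hq s hs (hsub p hp' q hq' (Or.inr (Or.inr (Or.inl ha))))
          (hsub q hq' s hs' (Or.inr (Or.inr (Or.inl hb))))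
      · exact dist1 p hp q hq s hs (hsub p hp' q hq' (Or.inr (Or.inr (Or.inr ha))))
          (hsub q hq' s hs' (Or.inr (Or.inr (Or.inr hb)))))
    (fun p hp q hq hpq => by
      rcases hX.tot p (hQQ hp) q (hQQ hq) hpq with h | h
      · have := hcov p (hQQ hp) q (hQQ hq) h
        simp only [rv]
        tauto
      · have := hcov q (hQQ hq) p (hQQ hp) h
        simp only [rv]
        tauto)
    (fun p e h => by
      have hp := chF_mem h
      have := (hL5 p (hQQ hp)).2.2 e (mF _ _ _ _ h)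
      rwa [hc5 p hp] at this)
    (fun p e h => by
      have hp := chF_mem h
      have := (hL6 p (hQQ hp)).2.2 e (mF _ _ _ _ h)
      rwa [hc6 p hp] at this)
    (fun p e h => by
      have hp := chF_mem h
      have := (hL7 p (hQQ hp)).2.2 e (mF _ _ _ _ h)
      rwa [hc7 p hp] at this)
    (fun p e h => by
      have hp := chF_mem h
      have := (hL8 p (hQQ hp)).2.2 e (mF _ _ _ _ h)
      rwa [hc8 p hp] at this)
    hJ1x hJ1y hJ2x hJ2y
  have hfin := final_num Q'.card n r1 l1 r2 l2 a1 a2 u1 u2 (c 0) (c 1) (c 2) (c 3) (c 4) (c 5)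
    (c 6) (c 7) hs1 hs2 hs3 hs4 hP1 hP2
  calc Q.card ^ 2 ≤ ((n + 1) ^ 8 * Q'.card) ^ 2 := Nat.pow_le_pow_left hcard 2
    _ = (n + 1) ^ 16 * Q'.card ^ 2 := by ring
    _ ≤ (n + 1) ^ 16 * 2 ^ (r1 + l1 + r2 + l2 + 10 * a1 + 4 * a2) :=
        Nat.mul_le_mul_left _ hfin

end ES13
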