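import Pool.Agent.ES13.Def

/-!
# ES13/ExistsCw (MP_d79f1f_co)
PROOF. cap a b c := s b c < s a c. Define
 cw x y z := (lt x y and lt y z and cap x y z) or (lt y z and lt z x and cap y z x) or (lt z x and lt x y and cap z x y)
  or (lt x z and lt z y and not cap x z y) or (lt z y and lt y x and not cap z y x) or (lt y x and lt x z and not cap y x z).
cyc is clear from the form (permute the disjuncts). anti, tot: for distinct x, y, z exactly one of the six orders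
holds (STO); cw x y z in the order x < y < z is cap x y z and cw y x z in this order is not cap x y z, etc. If two of
x, y, z are equal then cw is false. For a < b < c: cw a b c <-> cap a b c.
Sig: a < b < c < d. By h the triple (a,b,c) is either up: s ab < s ac < s bc (cap false) or down:
s bc < s ac < s ab (cap true); the same for (a,b,d), (a,c,d), (b,c,d). Each of the 8 implications of Mono4 is
linear arithmetic in s ab, s ac, s ad, s bc, s bd, s cd (omega after rcases of the four instances of h).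
-/

namespace ES13

variable {α : Type*}

theorem exists_cw {β : Type*} [Fintype β] {lt : β → β → Prop} (hT : STO lt Finset.univ)
    (σ : β → β → ℤ) (hsym : ∀ i j, σ i j = σ j i)
    (h : ∀ a b c, lt a b → lt b c →
      (σ a b < σ a c ∧ σ a c < σ b c) ∨ (σ b c < σ a c ∧ σ a c < σ a b)) :
    ∃ cw : β → β → β → Prop, Ori cw ∧ Sig cw lt Finset.univ ∧
      ∀ a b c, lt a b → lt b c → (cw a b c ↔ σ b c < σ a c) := by
  obtain ⟨cw, hcw⟩ : ∃ cw : β → β → β → Prop, ∀ x y z, cw x y z ↔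
      ((lt x y ∧ lt y z ∧ σ y z < σ x z) ∨ (lt y z ∧ lt z x ∧ σ z x < σ y x) ∨
        (lt z x ∧ lt x y ∧ σ x y < σ z y) ∨ (lt x z ∧ lt z y ∧ ¬ σ z y < σ x y) ∨
        (lt z y ∧ lt y x ∧ ¬ σ y x < σ z x) ∨ (lt y x ∧ lt x z ∧ ¬ σ x z < σ y z)) :=
    ⟨_, fun _ _ _ => Iff.rfl⟩
  have htr : ∀ a b c, lt a b → lt b c → lt a c := fun a b c =>
    hT.trans a (Finset.mem_univ _) b (Finset.mem_univ _) c (Finset.mem_univ _)
  have has : ∀ a b, lt a b → ¬ lt b a := fun a b h1 h2 =>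
    hT.irr a (Finset.mem_univ _) (htr a b a h1 h2)
  have htot : ∀ a b, a ≠ b → lt a b ∨ lt b a := fun a b =>
    hT.tot a (Finset.mem_univ _) b (Finset.mem_univ _)
  have L : ∀ p q r, lt p q → lt q r →
      (cw p q r ↔ σ q r < σ p r) ∧ (cw q r p ↔ σ q r < σ p r) ∧ (cw r p q ↔ σ q r < σ p r) ∧
      (cw q p r ↔ ¬ σ q r < σ p r) ∧ (cw p r q ↔ ¬ σ q r < σ p r) ∧
      (cw r q p ↔ ¬ σ q r < σ p r) := by
    intro p q r h1 h2
    have h3 := htr p q r h1 h2
    have n1 := has p q h1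
    have n2 := has q r h2
    have n3 := has p r h3
    refine ⟨?_, ?_, ?_, ?_, ?_, ?_⟩ <;> rw [hcw] <;> simp [h1, h2, h3, n1, n2, n3]
  refine ⟨cw, ⟨?_, ?_, ?_⟩, ?_, fun a b c h1 h2 => (L a b c h1 h2).1⟩
  · intro a b c h1
    rw [hcw] at h1
    rcases h1 with ⟨h1, h2, h3⟩ | ⟨h1, h2, h3⟩ | ⟨h1, h2, h3⟩ | ⟨h1, h2, h3⟩ | ⟨h1, h2, h3⟩ |
      ⟨h1, h2, h3⟩
    · exact (L _ _ _ h1 h2).2.1.2 h3
    · exact (L _ _ _ h1 h2).1.2 h3
    · exact (L _ _ _ h1 h2).2.2.1.2 h3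
    · exact (L _ _ _ h1 h2).2.2.2.2.2.2 h3
    · exact (L _ _ _ h1 h2).2.2.2.1.2 h3
    · exact (L _ _ _ h1 h2).2.2.2.2.1.2 h3
  · intro a b c h1 hcon
    rw [hcw] at h1
    rcases h1 with ⟨h1, h2, h3⟩ | ⟨h1, h2, h3⟩ | ⟨h1, h2, h3⟩ | ⟨h1, h2, h3⟩ | ⟨h1, h2, h3⟩ |
      ⟨h1, h2, h3⟩
    · exact (L _ _ _ h1 h2).2.2.2.1.1 hcon h3
    · exact (L _ _ _ h1 h2).2.2.2.2.1.1 hcon h3
    · exact (L _ _ _ h1 h2).2.2.2.2.2.1 hcon h3
    · exact h3 ((L _ _ _ h1 h2).2.2.1.1 hcon)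
    · exact h3 ((L _ _ _ h1 h2).2.1.1 hcon)
    · exact h3 ((L _ _ _ h1 h2).1.1 hcon)
  · intro a b c hab hbc hac
    rcases htot a b hab with h1 | h1 <;> rcases htot b c hbc with h2 | h2 <;>
      rcases htot a c hac with h3 | h3
    · by_cases h4 : σ b c < σ a c
      · exact Or.inl ((L a b c h1 h2).1.2 h4)
      · exact Or.inr ((L a b c h1 h2).2.2.2.1.2 h4)
    · exact absurd h3 (has _ _ (htr _ _ _ h1 h2))
    · -- a < c < b
      by_cases h4 : σ c b < σ a b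
      · exact Or.inr ((L a c b h3 h2).2.2.1.2 h4)
      · exact Or.inl ((L a c b h3 h2).2.2.2.2.1.2 h4)
    · -- c < a < b
      by_cases h4 : σ a b < σ c b
      · exact Or.inl ((L c a b h3 h1).2.1.2 h4)
      · exact Or.inr ((L c a b h3 h1).2.2.2.2.2.2 h4)
    · -- b < a < c
      by_cases h4 : σ a c < σ b c
      · exact Or.inr ((L b a c h1 h3).1.2 h4)
      · exact Or.inl ((L b a c h1 h3).2.2.2.1.2 h4)
    · -- b < c < a
      by_cases h4 : σ c a < σ b a
      · exact Or.inl ((L b c a h2 h3).2.2.1.2 h4)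
      · exact Or.inr ((L b c a h2 h3).2.2.2.2.1.2 h4)
    · exact absurd h3 (has _ _ (htr _ _ _ h2 h1))
    · -- c < b < a
      by_cases h4 : σ b a < σ c a
      · exact Or.inr ((L c b a h2 h1).2.1.2 h4)
      · exact Or.inl ((L c b a h2 h1).2.2.2.2.2.2 h4)
  · intro a _ b _ c _ d _ hab hbc hcd
    have hac := htr _ _ _ hab hbc
    have hbd := htr _ _ _ hbc hcd
    have g1 := h a b c hab hbc
    have g2 := h a b d hab hbd
    have g3 := h a c d hac hcd
    have g4 := h b c d hbc hcd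
    unfold Mono4
    rw [(L a b c hab hbc).1, (L a b d hab hbd).1, (L a c d hac hcd).1, (L b c d hbc hcd).1]
    refine ⟨?_, ?_, ?_, ?_, ?_, ?_, ?_, ?_⟩ <;> intros <;> omega

end ES13
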