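import Pool.Agent.ES13.Before

/-!
# ES13/Once (MP_d79f1f_co)
-/

namespace ES13

variable {α : Type*}

private lemma Once_aux {N : ℕ} {π : ℤ → Equiv.Perm (Fin N)} (h : Allowable π) {i j k l : Fin N}
    (hij : i ≠ j) {t1 t2 : ℤ}
    (h0 : ∀ u, t1 < u → u < t2 → ¬ Reverses (π u) (π (u + 1)) i j) {u1 u2 : ℤ}
    (ha : t1 < u1) (hb : u1 < u2) (hc : u2 < t2) (h3 : Reverses (π u1) (π (u1 + 1)) k l)
    (h4 : Reverses (π u2) (π (u2 + 1)) k l) : False := by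
  obtain ⟨w, hw1, hw2, hw3⟩ := h.once u1 k l h3 i j hij (h0 u1 ha (by omega))
  have hw4 : w < u2 := by
    by_contra hcon
    exact hw3 u2 hb (by omega) h4
  exact h0 w (by omega) (by omega) hw2

theorem exactly_once {N : ℕ} {π : ℤ → Equiv.Perm (Fin N)} (h : Allowable π) {i j k l : Fin N}
    (hkl : k ≠ l) {t1 t2 : ℤ} (h12 : t1 < t2)
    (h1 : Reverses (π t1) (π (t1 + 1)) i j) (h2 : Reverses (π t2) (π (t2 + 1)) i j)
    (h0 : ∀ u, t1 < u → u < t2 → ¬ Reverses (π u) (π (u + 1)) i j)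
    (hk : ¬ Reverses (π t1) (π (t1 + 1)) k l) :
    ∃ u, t1 < u ∧ u < t2 ∧ Reverses (π u) (π (u + 1)) k l ∧
      ∀ v, t1 < v → v < t2 → Reverses (π v) (π (v + 1)) k l → v = u := by
  have hij : i ≠ j := by
    rintro rfl
    rcases h1 with ⟨h3, _⟩ | ⟨h3, _⟩
    · exact lt_irrefl _ h3
    · exact lt_irrefl _ h3
  obtain ⟨u, hu1, hu2, hu3⟩ := h.once t1 i j h1 k l hkl hk
  have hu4 : u < t2 := by
    by_contra hcon
    exact hu3 t2 h12 (by omega) h2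
  refine ⟨u, hu1, hu4, hu2, fun v hv1 hv2 hv3 => ?_⟩
  rcases lt_trichotomy v u with hlt | heq | hgt
  · exact (Once_aux h hij h0 hv1 hlt hu4 hv3 hu2).elim
  · exact heq
  · exact (Once_aux h hij h0 hu1 hgt hv2 hu2 hv3).elim

end ES13
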