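import Pool.Agent.ES13.SimpleMove
import Pool.Agent.ES13.Once

/-!
# ES13/FirstOf (MP_d79f1f_co)
a != b since Reverses a a is impossible.
* first_of_after: by simple_move (pair a, b at time tau, k = x) the pairs a, x (x in S, x != a, b) are not
 reversed at tau, so before (pi (tau+1)) a x too. If before (pi tau) a b take t = tau, otherwise
 before (pi (tau+1)) a b (Reverses) and take t = tau + 1.
* first_of_before: by exists_rev (Before) there is a reversal of a, b at a time > tau; let t2 be the first one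
 (t2 > tau, none in (tau, t2)). For x in S, x != a, b: the pair a, x is not reversed at tau (simple_move), so by
 exactly_once (i j := a b, k l := a x) there is exactly one reversal u of a, x in (tau, t2). With before_iff on
 [tau, u), the reversal at u, and [u+1, t2): before (pi t2) a x. Now apply first_of_after at time t2.
-/

namespace ES13

variable {α : Type*}

private theorem FirstOf_total {N : ℕ} (w : Equiv.Perm (Fin N)) {i j : Fin N} (h : i ≠ j) :
    before w i j ∨ before w j i := by
  unfold before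
  exact lt_or_gt_of_ne (fun h2 => h (w.symm.injective h2))

private theorem FirstOf_asymm {N : ℕ} {w : Equiv.Perm (Fin N)} {i j : Fin N}
    (h : before w i j) : ¬ before w j i := by
  unfold before at *
  exact lt_asymm h

private theorem FirstOf_ne {N : ℕ} {w w' : Equiv.Perm (Fin N)} {i j : Fin N}
    (h : Reverses w w' i j) : i ≠ j := by
  rintro rfl
  unfold Reverses before at h
  rcases h with h | h
  · exact lt_irrefl _ h.1
  · exact lt_irrefl _ h.1

private theorem FirstOf_least {P : ℤ → Prop} {t0 t : ℤ} (h0 : t0 ≤ t) (h : P t) :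
    ∃ s, t0 ≤ s ∧ P s ∧ ∀ u, t0 ≤ u → u < s → ¬ P u := by
  classical
  have hex : ∃ n : ℕ, P (t0 + n) := ⟨(t - t0).toNat, by
    rw [Int.toNat_of_nonneg (by omega)]
    rw [add_sub_cancel]
    exact h⟩
  refine ⟨t0 + (Nat.find hex : ℕ), by omega, Nat.find_spec hex, ?_⟩
  intro u hu1 hu2 hP
  have h1 : (u - t0).toNat < Nat.find hex := by omega
  apply Nat.find_min hex h1
  rw [Int.toNat_of_nonneg (by omega), add_sub_cancel]
  exact hP

theorem first_of_after {N : ℕ} {π : ℤ → Equiv.Perm (Fin N)} (h : Allowable π) (hs : Simple π)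
    {a b : Fin N} {τ : ℤ} (hab : Reverses (π τ) (π (τ + 1)) a b) {S : Finset (Fin N)}
    (hS : ∀ x ∈ S, x ≠ a → x ≠ b → before (π τ) a x) :
    ∃ t, ∀ x ∈ S, x ≠ a → before (π t) a x := by
  have hne : a ≠ b := FirstOf_ne hab
  rcases hab with hab' | hab'
  · refine ⟨τ, ?_⟩
    intro x hx hxa
    by_cases hxb : x = b
    · rw [hxb]
      exact hab'.1
    · exact hS x hx hxa hxb
  · refine ⟨τ + 1, ?_⟩
    intro x hx hxa
    by_cases hxb : x = b
    · rw [hxb]
      exact hab'.2
    · obtain ⟨h1, _, _⟩ := simple_move (hs τ) (Or.inr hab') hxa hxb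
      rcases FirstOf_total (π (τ + 1)) (Ne.symm hxa) with h2 | h2
      · exact h2
      · exact absurd (Or.inl ⟨hS x hx hxa hxb, h2⟩) h1

theorem first_of_before {N : ℕ} {π : ℤ → Equiv.Perm (Fin N)} (h : Allowable π) (hs : Simple π)
    {a b : Fin N} {τ : ℤ} (hab : Reverses (π τ) (π (τ + 1)) a b) {S : Finset (Fin N)}
    (hS : ∀ x ∈ S, x ≠ a → x ≠ b → before (π τ) x a) :
    ∃ t, ∀ x ∈ S, x ≠ a → before (π t) a x := by
  have hne : a ≠ b := FirstOf_ne hab
  obtain ⟨t, ht1, ht2⟩ := exists_rev h hne (τ + 1)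
  obtain ⟨t2, ht3, ht4, ht5⟩ := FirstOf_least
    (P := fun t => Reverses (π t) (π (t + 1)) a b) ht1 ht2
  refine first_of_after h hs (τ := t2) ht4 (S := S) ?_
  intro x hx hxa hxb
  obtain ⟨h1, _, _⟩ := simple_move (hs τ) hab hxa hxb
  obtain ⟨u, hu1, hu2, hu3, hu4⟩ := exactly_once h (k := a) (l := x) (Ne.symm hxa)
    (by omega : τ < t2) hab ht4 (fun u hu hu' => ht5 u (by omega) hu') h1
  have h2 := before_iff π (Ne.symm hxa) τ u (by omega) (by
    intro v hv1 hv2
    by_cases hv : v = τ
    · rw [hv]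
      exact h1
    · intro h3
      have h4 := hu4 v (by omega) (by omega) h3
      omega)
  have h3 : ¬ before (π u) a x := fun h4 =>
    FirstOf_asymm (hS x hx hxa hxb) (h2.2 h4)
  have h4 : before (π (u + 1)) a x := by
    rcases hu3 with h5 | h5
    · exact absurd h5.1 h3
    · exact h5.2
  refine (before_iff π (Ne.symm hxa) (u + 1) t2 (by omega) ?_).1 h4
  intro v hv1 hv2 h5
  have h6 := hu4 v (by omega) hv2 h5
  omega

end ES13
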