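import Mathlib

/-!
# ES13/Def: definitions for the upper bound on the Erdos-Szekeres function of
simple allowable sequences (MP_d79f1f_co)
-/

namespace ES13

variable {α : Type*}

/-- An orientation of the triples: cyclic, antisymmetric, total on distinct triples.
`cw a b c` reads: the triple `a, b, c` is oriented clockwise. -/
structure Ori (cw : α → α → α → Prop) : Prop where
  cyc : ∀ a b c, cw a b c → cw b c a
  anti : ∀ a b c, cw a b c → ¬ cw b a c
  tot : ∀ a b c, a ≠ b → b ≠ c → a ≠ c → cw a b c ∨ cw b a c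

/-- The mirror image of an orientation. -/
def flip3 (cw : α → α → α → Prop) : α → α → α → Prop := fun a b c => cw b a c

/-- The reversed relation. -/
def rv (r : α → α → Prop) : α → α → Prop := fun a b => r b a

/-- `lt` is a strict total order on `P`. -/
structure STO (lt : α → α → Prop) (P : Finset α) : Prop where
  irr : ∀ a ∈ P, ¬ lt a a
  trans : ∀ a ∈ P, ∀ b ∈ P, ∀ c ∈ P, lt a b → lt b c → lt a c
  tot : ∀ a ∈ P, ∀ b ∈ P, a ≠ b → lt a b ∨ lt b a

/-- The truth values `A, B, C, D` change at most once. -/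
def Mono4 (A B C D : Prop) : Prop :=
  (A → C → B) ∧ (B → A ∨ C) ∧ (A → D → B) ∧ (B → A ∨ D) ∧
  (A → D → C) ∧ (C → A ∨ D) ∧ (B → D → C) ∧ (C → B ∨ D)

/-- The signotope axiom for `cw` with respect to the order `lt` on `P`. -/
def Sig (cw : α → α → α → Prop) (lt : α → α → Prop) (P : Finset α) : Prop :=
  ∀ a ∈ P, ∀ b ∈ P, ∀ c ∈ P, ∀ d ∈ P, lt a b → lt b c → lt c d →
    Mono4 (cw a b c) (cw a b d) (cw a c d) (cw b c d)

/-- `x 0, ..., x (n-1)` is in clockwise cyclic position. -/
def CwSeq (cw : α → α → α → Prop) (n : ℕ) (x : ℕ → α) : Prop :=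
  ∀ i j k, i < j → j < k → k < n → cw (x i) (x j) (x k)

/-- No `n` terms of `V` are in clockwise cyclic position. -/
def NoConv (cw : α → α → α → Prop) (V : Finset α) (n : ℕ) : Prop :=
  ∀ x : ℕ → α, (∀ i < n, x i ∈ V) → ¬ CwSeq cw n x

/-- `ChB r c Q p q e`: there is a chain in `Q` from `p` to `q` with `e` edges, consecutive
elements are related by `r`, consecutive triples have colour `c`. -/
def ChB (r : α → α → Prop) (c : α → α → α → Prop) (Q : Finset α) (p q : α) (e : ℕ) : Prop :=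
  ∃ x : ℕ → α, x 0 = p ∧ x e = q ∧ (∀ i ≤ e, x i ∈ Q) ∧ (∀ i < e, r (x i) (x (i + 1))) ∧
    (∀ i, i + 2 ≤ e → c (x i) (x (i + 1)) (x (i + 2)))

/-- `ChF r c Q p e`: there is such a chain with `e` edges which starts in `p`. -/
def ChF (r : α → α → Prop) (c : α → α → α → Prop) (Q : Finset α) (p : α) (e : ℕ) : Prop :=
  ∃ q, ChB r c Q p q e

/-- both orders increase -/
def pos (X Y : α → α → Prop) : α → α → Prop := fun p q => X p q ∧ Y p q

/-- `X` increases, `Y` decreases -/
def neg (X Y : α → α → Prop) : α → α → Prop := fun p q => X p q ∧ Y q p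

/-- the order around the point `v` (used for points before `v`) -/
def aroundV (cw : α → α → α → Prop) (v : α) : α → α → Prop := fun p q => cw p q v

/-- the order around the point `h` (used for points after `h`) -/
def aroundH (cw : α → α → α → Prop) (h : α) : α → α → Prop := fun p q => cw q p h

/-- Skeleton with `m` gaps: `s 0 < s 1 < ... < s m` is a cap, and for `j < m` the set `Q j` lies
in the gap between `s j` and `s (j+1)` and every `q ∈ Q j` extends the skeleton to a cap. -/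
structure Skel (cw : α → α → α → Prop) (lt : α → α → Prop) (V : Finset α) (m : ℕ)
    (s : ℕ → α) (Q : ℕ → Finset α) : Prop where
  mem : ∀ j ≤ m, s j ∈ V
  inc : ∀ i j, i < j → j ≤ m → lt (s i) (s j)
  cap : ∀ i j k, i < j → j < k → k ≤ m → cw (s i) (s j) (s k)
  sub : ∀ j < m, Q j ⊆ V
  lo : ∀ j < m, ∀ q ∈ Q j, ∀ i ≤ j, lt (s i) q
  hi : ∀ j < m, ∀ q ∈ Q j, ∀ i, j < i → i ≤ m → lt q (s i)
  cap1 : ∀ j < m, ∀ q ∈ Q j, ∀ i i', i < i' → i' ≤ j → cw (s i) (s i') q
  cap2 : ∀ j < m, ∀ q ∈ Q j, ∀ i i', i ≤ j → j < i' → i' ≤ m → cw (s i) q (s i')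
  cap3 : ∀ j < m, ∀ q ∈ Q j, ∀ i i', j < i → i < i' → i' ≤ m → cw q (s i) (s i')

/-- Two orders `X`, `Y` on `P` compatible with the orientation `cw`. -/
structure BO (cw : α → α → α → Prop) (X Y : α → α → Prop) (P : Finset α) : Prop where
  ori : Ori cw
  stoX : STO X P
  stoY : STO Y P
  sigX : Sig cw X P
  sigY : Sig cw Y P
  f2a : ∀ p ∈ P, ∀ q ∈ P, ∀ r ∈ P, X p q → X q r → Y p q → Y r q → cw p q r
  f2b : ∀ p ∈ P, ∀ q ∈ P, ∀ r ∈ P, X p q → X q r → Y q p → Y q r → flip3 cw p q r

/-- `r, l, a` bound the number of edges of clockwise positive, counterclockwise positive and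
clockwise negative chains in `P`. -/
structure Bd (cw : α → α → α → Prop) (X Y : α → α → Prop) (P : Finset α) (r l a : ℕ) : Prop where
  hr : ∀ p e, ChF (pos X Y) cw P p e → e ≤ r
  hl : ∀ p e, ChF (pos X Y) (flip3 cw) P p e → e ≤ l
  ha : ∀ p e, ChF (neg X Y) cw P p e → e ≤ a

/-- monochromatic set of naturals -/
def MonoSet (c : ℕ → ℕ → ℕ → Prop) (A : Finset ℕ) : Prop :=
  ∀ i ∈ A, ∀ j ∈ A, ∀ k ∈ A, i < j → j < k → c i j k

theorem flip3_flip3 (cw : α → α → α → Prop) : flip3 (flip3 cw) = cw := rfl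

theorem rv_rv (r : α → α → Prop) : rv (rv r) = r := rfl

theorem pos_comm (X Y : α → α → Prop) (p q : α) : pos X Y p q ↔ pos Y X p q := And.comm

end ES13
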