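import Pool.Agent.ES13.Triple
import Pool.Agent.ES13.Def

/-!
# ES13/Side (MP_d79f1f_co)
PROOF. Write s for sigma, t = s a b, x < y for before (pi 0) x y (a strict total order). a, b, x are distinct
(cw a b x with cyc, anti: repeated entries are impossible). For x < y < z: sigma_triple gives either
up: s xy < s xz < s yz or down: s yz < s xz < s xy; and cw x y z <-> s yz < s xz, so cw x y z iff down;
cw y x z implies not cw x y z (anti), hence up. From h2 (k l := a b, t = s a b): before (pi t) x a <->
(t <= s x a and x < a) or (s x a < t and a < x); before (pi t) a x <-> (t <= s a x and a < x) or (s a x < t and x < a).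
Case a < b. (want before (pi t) x a)
 x < a < b: cw x a b (cyc), down: s ab < s xb < s xa: t <= s x a. ok
 a < x < b: cw x a b (cyc of cw a b x), so up for (a,x,b): s ax < s ab: s x a < t, a < x. ok
 a < b < x: cw a b x, down: s bx < s ax < s ab: s a x < t, a < x. ok
Case b < a. (want before (pi t) a x)
 x < b < a: cw b x a (cyc), so not cw x b a, up: s xb < s xa < s ba: s a x < t, x < a. ok
 b < x < a: cw b x a (cyc), down: s xa < s ba: s a x < t, x < a. ok
 b < a < x: cw a b x, so not cw b a x, up: s ba < s bx < s ax: t <= s a x, a < x. ok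
-/

namespace ES13

variable {α : Type*}

theorem side {N : ℕ} {π : ℤ → Equiv.Perm (Fin N)} (hs : Simple π)
    {σ : Fin N → Fin N → ℤ} (hsym : ∀ i j, σ i j = σ j i)
    (h1 : ∀ i j, i ≠ j → 0 ≤ σ i j ∧ Reverses (π (σ i j)) (π (σ i j + 1)) i j ∧
        ∀ t, 0 ≤ t → t < σ i j → ¬ Reverses (π t) (π (t + 1)) i j)
    (h2 : ∀ i j k l, i ≠ j → k ≠ l → ∀ t, 0 ≤ t → t ≤ σ k l →
        (before (π t) i j ↔ (t ≤ σ i j ∧ before (π 0) i j) ∨ (σ i j < t ∧ before (π 0) j i)))
    {cw : Fin N → Fin N → Fin N → Prop} (hO : Ori cw)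
    (hcw : ∀ a b c, before (π 0) a b → before (π 0) b c → (cw a b c ↔ σ b c < σ a c))
    {a b x : Fin N} (h : cw a b x) :
    (before (π 0) a b → before (π (σ a b)) x a) ∧ (before (π 0) b a → before (π (σ a b)) a x) := by
  have hne1 : a ≠ b := by
    rintro rfl
    exact hO.anti _ _ _ h h
  have c1 := hO.cyc _ _ _ h
  have c2 := hO.cyc _ _ _ c1
  have hne2 : b ≠ x := by
    rintro rfl
    exact hO.anti _ _ _ c1 c1
  have hne3 : a ≠ x := by
    rintro rfl
    exact hO.anti _ _ _ c2 c2
  have n0 := hO.anti _ _ _ h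
  have n1 := hO.anti _ _ _ c1
  have n2 := hO.anti _ _ _ c2
  have h0 : 0 ≤ σ a b := (h1 a b hne1).1
  have e1 := h2 x a a b hne3.symm hne1 (σ a b) h0 le_rfl
  have e2 := h2 a x a b hne3 hne1 (σ a b) h0 le_rfl
  have tot : ∀ i j : Fin N, i ≠ j → before (π 0) i j ∨ before (π 0) j i := by
    intro i j hij
    unfold before
    have h3 : (π 0).symm i ≠ (π 0).symm j := fun h4 => hij ((π 0).symm.injective h4)
    exact lt_or_gt_of_ne h3
  have s1 := hsym a x
  have s2 := hsym b x
  have s3 := hsym a b
  constructor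
  · intro hb
    rw [e1]
    rcases tot x a hne3.symm with hxa | hax
    · left
      refine ⟨?_, hxa⟩
      have k1 := (hcw x a b hxa hb).mp c2
      have k2 := sigma_triple hs hsym h1 h2 hxa hb
      omega
    · right
      refine ⟨?_, hax⟩
      rcases tot x b hne2.symm with hxb | hbx
      · have k1 : ¬ σ x b < σ a b := fun h4 => n2 ((hcw a x b hax hxb).mpr h4)
        have k2 := sigma_triple hs hsym h1 h2 hax hxb
        omega
      · have k1 := (hcw a b x hb hbx).mp h
        have k2 := sigma_triple hs hsym h1 h2 hb hbx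
        omega
  · intro hb
    rw [e2]
    rcases tot x a hne3.symm with hxa | hax
    · right
      refine ⟨?_, hxa⟩
      rcases tot x b hne2.symm with hxb | hbx
      · have k1 : ¬ σ b a < σ x a := fun h4 => n1 ((hcw x b a hxb hb).mpr h4)
        have k2 := sigma_triple hs hsym h1 h2 hxb hb
        omega
      · have k1 := (hcw b x a hbx hxa).mp c1
        have k2 := sigma_triple hs hsym h1 h2 hbx hxa
        omega
    · left
      refine ⟨?_, hax⟩
      have k1 : ¬ σ a x < σ b x := fun h4 => n0 ((hcw b a x hb hax).mpr h4)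
      have k2 := sigma_triple hs hsym h1 h2 hb hax
      omega

end ES13
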