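import Pool.Agent.ES13.Sigma
import Pool.Agent.ES13.ExistsCw
import Pool.Agent.ES13.Side
import Pool.Agent.ES13.FirstOf

/-!
# ES13/AllowMain (MP_d79f1f_co)
PROOF. lt i j := before (pi 0) i j, a strict total order on univ. exists_sigma, sigma_triple, exists_cw give
cw with Ori cw, Sig cw lt univ and hcw.
Let n >= 3 and CwSeq cw n x. x is injective on i < n (any two indices i < j < n belong to a triple of indices
< n, and the entries of a cw triple are distinct by cyc, anti). S = (range n).image x, card n. Let s = x i.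
a := x i, b := x (i+1) if i + 1 < n, b := x 0 if i = n - 1. For every j < n different from these two indices:
cw a b (x j): i + 1 < n: j > i + 1: direct; j < i: cw (x j) (x i) (x (i+1)), cyc. i = n - 1: cw (x 0) (x j) (x (n-1)),
cyc twice: cw (x (n-1)) (x 0) (x j). Let tau = s a b. If before (pi 0) a b: by side all x j (j other) satisfy
before (pi tau) (x j) a: first_of_before. Otherwise before (pi 0) b a: first_of_after. This gives t with a before
every other element of S (in ConvexPosition: for s' in S, s' != s).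
-/

namespace ES13

variable {α : Type*}

private lemma AllowMain_ne {cw : α → α → α → Prop} (h : Ori cw) {a b c : α} (hc : cw a b c) :
    a ≠ b ∧ b ≠ c ∧ a ≠ c := by
  refine ⟨?_, ?_, ?_⟩
  · rintro rfl
    exact h.anti _ _ _ hc hc
  · rintro rfl
    exact h.anti _ _ _ (h.cyc _ _ _ hc) (h.cyc _ _ _ hc)
  · rintro rfl
    exact h.anti _ _ _ (h.cyc _ _ _ (h.cyc _ _ _ hc)) (h.cyc _ _ _ (h.cyc _ _ _ hc))

theorem allowMain {N : ℕ} {π : ℤ → Equiv.Perm (Fin N)} (h : Allowable π) (hs : Simple π) :
    ∃ (cw : Fin N → Fin N → Fin N → Prop) (lt : Fin N → Fin N → Prop),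
      Ori cw ∧ STO lt Finset.univ ∧ Sig cw lt Finset.univ ∧
      ∀ n, 3 ≤ n → ∀ x : ℕ → Fin N, CwSeq cw n x →
        ∃ S : Finset (Fin N), S.card = n ∧ ConvexPosition π S := by
  obtain ⟨σ, hsym, h1, h2⟩ := exists_sigma h
  have hT : STO (fun i j : Fin N => before (π 0) i j) Finset.univ := by
    refine ⟨?_, ?_, ?_⟩
    · intro a _ hl
      exact lt_irrefl _ hl
    · intro a _ b _ c _ hab hbc
      exact lt_trans (α := Fin N) hab hbc
    · intro a _ b _ hab
      have hne : (π 0).symm a ≠ (π 0).symm b := fun hh => hab ((π 0).symm.injective hh)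
      exact lt_or_gt_of_ne hne
  obtain ⟨cw, hO, hSig, hcw⟩ := exists_cw hT σ hsym
    (fun a b c hab hbc => sigma_triple hs hsym h1 h2 hab hbc)
  refine ⟨cw, fun i j => before (π 0) i j, hO, hT, hSig, ?_⟩
  intro n hn x hx
  have inj1 : ∀ i j, i < j → j < n → x i ≠ x j := by
    intro i j hij hj
    by_cases hj1 : j + 1 < n
    · exact (AllowMain_ne hO (hx i j (j + 1) hij (by omega) hj1)).1
    · by_cases hi1 : i + 1 < j
      · exact (AllowMain_ne hO (hx i (i + 1) j (by omega) hi1 hj)).2.2
      · exact (AllowMain_ne hO (hx 0 i j (by omega) hij hj)).2.1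
  have inj2 : ∀ i j, i < n → j < n → i ≠ j → x i ≠ x j := by
    intro i j hi hj hij
    rcases lt_or_gt_of_ne hij with hlt | hgt
    · exact inj1 i j hlt hj
    · exact (inj1 j i hgt hi).symm
  refine ⟨(Finset.range n).image x, ?_, ?_⟩
  · rw [Finset.card_image_of_injOn, Finset.card_range]
    intro i hi j hj hij
    have hi' : i < n := by simpa using hi
    have hj' : j < n := by simpa using hj
    by_contra hne
    exact inj2 i j hi' hj' hne hij
  intro s hsS
  obtain ⟨i, hi, rfl⟩ := Finset.mem_image.1 hsS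
  rw [Finset.mem_range] at hi
  -- the next index
  obtain ⟨i', hi', hii', hcl⟩ : ∃ i', i' < n ∧ i ≠ i' ∧
      ∀ j, j < n → j ≠ i → j ≠ i' → cw (x i) (x i') (x j) := by
    by_cases hi1 : i + 1 < n
    · refine ⟨i + 1, hi1, by omega, ?_⟩
      intro j hj hji hji'
      rcases lt_or_gt_of_ne hji with hlt | hgt
      · exact hO.cyc _ _ _ (hx j i (i + 1) hlt (by omega) hi1)
      · exact hx i (i + 1) j (by omega) (by omega) hj
    · refine ⟨0, by omega, by omega, ?_⟩
      intro j hj hji hji'
      exact hO.cyc _ _ _ (hO.cyc _ _ _ (hx 0 j i (by omega) (by omega) hi))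
  have hab : x i ≠ x i' := inj2 i i' hi hi' hii'
  have hrev := (h1 (x i) (x i') hab).2.1
  have hall : ∀ y ∈ (Finset.range n).image x, y ≠ x i → y ≠ x i' → cw (x i) (x i') y := by
    intro y hy hya hyb
    obtain ⟨j, hj, rfl⟩ := Finset.mem_image.1 hy
    rw [Finset.mem_range] at hj
    exact hcl j hj (fun hh => hya (by rw [hh])) (fun hh => hyb (by rw [hh]))
  rcases hT.tot (x i) (Finset.mem_univ _) (x i') (Finset.mem_univ _) hab with hlt | hgt
  · exact first_of_before h hs hrev (fun y hy hya hyb =>
      (side hs hsym h1 h2 hO hcw (hall y hy hya hyb)).1 hlt)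
  · exact first_of_after h hs hrev (fun y hy hya hyb =>
      (side hs hsym h1 h2 hO hcw (hall y hy hya hyb)).2 hgt)

end ES13
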