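import Pool.Agent.ES13.Basic

/-!
# ES13/Around (MP_d79f1f_co)
The order around a point.
* around_v. aroundV cw v p q = cw p q v. For p, q in L different: p, q, v distinct (lt p v), tot gives
totality. irr: cw p p v is impossible (ori_ne). Transitivity: cw a b v, cw b c v for a, b, c in L
(distinct, else immediate); the six orders of a, b, c with respect to lt; e.g. a < b < c < v:
Mono4 (cw a b c) (cw a b v) (cw a c v) (cw b c v), B and D true, so C. Other orders: translate cw of
non increasing triples by cyc, anti, tot (cw b a v <-> not cw a b v) and use one Mono4.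
Sig: a, b, c, d in L with cw a b v, cw b c v, cw c d v, hence also cw a c v, cw a d v, cw b d v. For each
of the 24 orders of a, b, c, d (with respect to lt) the five Mono4 conditions of the sorted
5-tuple (its last element is v) imply Mono4 (cw a b c) (cw a b d) (cw a c d) (cw b c d) (checked by
computer on all 62 signotopes on 5 points). Suggestion for Lean: a generic proof: obtain the STO facts
and do all case distinctions automatically; or first prove the statement for Fin 5 / Bool data by
decide and transfer (encode the ten signs of the sorted 5-tuple as Bools).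
* around_h. Apply around_v to the reversed order lt' a b = lt b a and cw' = flip3 cw:
Ori by ori_flip; STO lt' V; Sig cw' lt' V: for a <' b <' c <' d, i.e. d < c < b < a, the signs
flip3 cw a b c = cw b a c <-> cw c b a etc. are the signs of the sorted tuple (d,c,b,a) in reversed
order, and Mono4 A B C D is symmetric under A<->D, B<->C. aroundV (flip3 cw) h p q = cw q p h =
aroundH cw h p q. This gives Sig (flip3 cw) (aroundH cw h) L; sig_flip gives Sig cw.
-/

namespace ES13

variable {α : Type*}

private lemma Around_norm {cw : α → α → α → Prop} (hO : Ori cw) {x y z : α} (h1 : x ≠ y)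
    (h2 : y ≠ z) (h3 : x ≠ z) : (cw y z x ↔ cw x y z) ∧ (cw z x y ↔ cw x y z) ∧
      (cw y x z ↔ ¬ cw x y z) ∧ (cw x z y ↔ ¬ cw x y z) ∧ (cw z y x ↔ ¬ cw x y z) := by
  have c1 : ∀ a b c, cw a b c ↔ cw b c a := fun a b c =>
    ⟨hO.cyc a b c, fun h => hO.cyc c a b (hO.cyc b c a h)⟩
  have c2 : cw y x z ↔ ¬ cw x y z :=
    ⟨fun h => hO.anti y x z h, fun h => (hO.tot x y z h1 h2 h3).resolve_left h⟩
  refine ⟨(c1 x y z).symm, c1 z x y, c2, ?_, ?_⟩
  · rw [← c2, c1 x z y, c1 z y x]
  · rw [← c2, c1 z y x]

private lemma Around_congr {A B C D A' B' C' D' : Prop} (h1 : A ↔ A') (h2 : B ↔ B') (h3 : C ↔ C')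
    (h4 : D ↔ D') (h : Mono4 A' B' C' D') : Mono4 A B C D := by
  rw [h1, h2, h3, h4]
  exact h

private lemma Around_p0123 {s012 s013 s01v s023 s02v s03v s123 s12v s13v s23v : Prop}
    (m0 : Mono4 s012 s013 s023 s123)
    (m1 : Mono4 s012 s01v s02v s12v)
    (m2 : Mono4 s013 s01v s03v s13v)
    (m3 : Mono4 s023 s02v s03v s23v)
    (m4 : Mono4 s123 s12v s13v s23v)
    (h1 : s01v) (h2 : s12v) (h3 : s23v) :
    Mono4 (s012) (s013) (s023) (s123) := by
  unfold Mono4 at *
  grind

private lemma Around_p0132 {s012 s013 s01v s023 s02v s03v s123 s12v s13v s23v : Prop}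
    (m0 : Mono4 s012 s013 s023 s123)
    (m1 : Mono4 s012 s01v s02v s12v)
    (m2 : Mono4 s013 s01v s03v s13v)
    (m3 : Mono4 s023 s02v s03v s23v)
    (m4 : Mono4 s123 s12v s13v s23v)
    (h1 : s01v) (h2 : s13v) (h3 : ¬ s23v) :
    Mono4 (s013) (s012) (¬ s023) (¬ s123) := by
  unfold Mono4 at *
  grind

private lemma Around_p0213 {s012 s013 s01v s023 s02v s03v s123 s12v s13v s23v : Prop}
    (m0 : Mono4 s012 s013 s023 s123)
    (m1 : Mono4 s012 s01v s02v s12v)
    (m2 : Mono4 s013 s01v s03v s13v)
    (m3 : Mono4 s023 s02v s03v s23v)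
    (m4 : Mono4 s123 s12v s13v s23v)
    (h1 : s02v) (h2 : ¬ s12v) (h3 : s13v) :
    Mono4 (¬ s012) (s023) (s013) (¬ s123) := by
  unfold Mono4 at *
  grind

private lemma Around_p0231 {s012 s013 s01v s023 s02v s03v s123 s12v s13v s23v : Prop}
    (m0 : Mono4 s012 s013 s023 s123)
    (m1 : Mono4 s012 s01v s02v s12v)
    (m2 : Mono4 s013 s01v s03v s13v)
    (m3 : Mono4 s023 s02v s03v s23v)
    (m4 : Mono4 s123 s12v s13v s23v)
    (h1 : s02v) (h2 : s23v) (h3 : ¬ s13v) :
    Mono4 (s023) (¬ s012) (¬ s013) (s123) := by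
  unfold Mono4 at *
  grind

private lemma Around_p0312 {s012 s013 s01v s023 s02v s03v s123 s12v s13v s23v : Prop}
    (m0 : Mono4 s012 s013 s023 s123)
    (m1 : Mono4 s012 s01v s02v s12v)
    (m2 : Mono4 s013 s01v s03v s13v)
    (m3 : Mono4 s023 s02v s03v s23v)
    (m4 : Mono4 s123 s12v s13v s23v)
    (h1 : s03v) (h2 : ¬ s13v) (h3 : s12v) :
    Mono4 (¬ s013) (¬ s023) (s012) (s123) := by
  unfold Mono4 at *
  grind

private lemma Around_p0321 {s012 s013 s01v s023 s02v s03v s123 s12v s13v s23v : Prop}
    (m0 : Mono4 s012 s013 s023 s123)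
    (m1 : Mono4 s012 s01v s02v s12v)
    (m2 : Mono4 s013 s01v s03v s13v)
    (m3 : Mono4 s023 s02v s03v s23v)
    (m4 : Mono4 s123 s12v s13v s23v)
    (h1 : s03v) (h2 : ¬ s23v) (h3 : ¬ s12v) :
    Mono4 (¬ s023) (¬ s013) (¬ s012) (¬ s123) := by
  unfold Mono4 at *
  grind

private lemma Around_p1023 {s012 s013 s01v s023 s02v s03v s123 s12v s13v s23v : Prop}
    (m0 : Mono4 s012 s013 s023 s123)
    (m1 : Mono4 s012 s01v s02v s12v)
    (m2 : Mono4 s013 s01v s03v s13v)
    (m3 : Mono4 s023 s02v s03v s23v)
    (m4 : Mono4 s123 s12v s13v s23v)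
    (h1 : ¬ s01v) (h2 : s02v) (h3 : s23v) :
    Mono4 (¬ s012) (¬ s013) (s123) (s023) := by
  unfold Mono4 at *
  grind

private lemma Around_p1032 {s012 s013 s01v s023 s02v s03v s123 s12v s13v s23v : Prop}
    (m0 : Mono4 s012 s013 s023 s123)
    (m1 : Mono4 s012 s01v s02v s12v)
    (m2 : Mono4 s013 s01v s03v s13v)
    (m3 : Mono4 s023 s02v s03v s23v)
    (m4 : Mono4 s123 s12v s13v s23v)
    (h1 : ¬ s01v) (h2 : s03v) (h3 : ¬ s23v) :
    Mono4 (¬ s013) (¬ s012) (¬ s123) (¬ s023) := by
  unfold Mono4 at *
  grind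

private lemma Around_p1203 {s012 s013 s01v s023 s02v s03v s123 s12v s13v s23v : Prop}
    (m0 : Mono4 s012 s013 s023 s123)
    (m1 : Mono4 s012 s01v s02v s12v)
    (m2 : Mono4 s013 s01v s03v s13v)
    (m3 : Mono4 s023 s02v s03v s23v)
    (m4 : Mono4 s123 s12v s13v s23v)
    (h1 : s12v) (h2 : ¬ s02v) (h3 : s03v) :
    Mono4 (s012) (s123) (¬ s013) (¬ s023) := by
  unfold Mono4 at *
  grind

private lemma Around_p1230 {s012 s013 s01v s023 s02v s03v s123 s12v s13v s23v : Prop}
    (m0 : Mono4 s012 s013 s023 s123)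
    (m1 : Mono4 s012 s01v s02v s12v)
    (m2 : Mono4 s013 s01v s03v s13v)
    (m3 : Mono4 s023 s02v s03v s23v)
    (m4 : Mono4 s123 s12v s13v s23v)
    (h1 : s12v) (h2 : s23v) (h3 : ¬ s03v) :
    Mono4 (s123) (s012) (s013) (s023) := by
  unfold Mono4 at *
  grind

private lemma Around_p1302 {s012 s013 s01v s023 s02v s03v s123 s12v s13v s23v : Prop}
    (m0 : Mono4 s012 s013 s023 s123)
    (m1 : Mono4 s012 s01v s02v s12v)
    (m2 : Mono4 s013 s01v s03v s13v)
    (m3 : Mono4 s023 s02v s03v s23v)
    (m4 : Mono4 s123 s12v s13v s23v)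
    (h1 : s13v) (h2 : ¬ s03v) (h3 : s02v) :
    Mono4 (s013) (¬ s123) (¬ s012) (s023) := by
  unfold Mono4 at *
  grind

private lemma Around_p1320 {s012 s013 s01v s023 s02v s03v s123 s12v s13v s23v : Prop}
    (m0 : Mono4 s012 s013 s023 s123)
    (m1 : Mono4 s012 s01v s02v s12v)
    (m2 : Mono4 s013 s01v s03v s13v)
    (m3 : Mono4 s023 s02v s03v s23v)
    (m4 : Mono4 s123 s12v s13v s23v)
    (h1 : s13v) (h2 : ¬ s23v) (h3 : ¬ s02v) :
    Mono4 (¬ s123) (s013) (s012) (¬ s023) := by
  unfold Mono4 at *
  grind

private lemma Around_p2013 {s012 s013 s01v s023 s02v s03v s123 s12v s13v s23v : Prop}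
    (m0 : Mono4 s012 s013 s023 s123)
    (m1 : Mono4 s012 s01v s02v s12v)
    (m2 : Mono4 s013 s01v s03v s13v)
    (m3 : Mono4 s023 s02v s03v s23v)
    (m4 : Mono4 s123 s12v s13v s23v)
    (h1 : ¬ s02v) (h2 : s01v) (h3 : s13v) :
    Mono4 (s012) (¬ s023) (¬ s123) (s013) := by
  unfold Mono4 at *
  grind

private lemma Around_p2031 {s012 s013 s01v s023 s02v s03v s123 s12v s13v s23v : Prop}
    (m0 : Mono4 s012 s013 s023 s123)
    (m1 : Mono4 s012 s01v s02v s12v)
    (m2 : Mono4 s013 s01v s03v s13v)
    (m3 : Mono4 s023 s02v s03v s23v)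
    (m4 : Mono4 s123 s12v s13v s23v)
    (h1 : ¬ s02v) (h2 : s03v) (h3 : ¬ s13v) :
    Mono4 (¬ s023) (s012) (s123) (¬ s013) := by
  unfold Mono4 at *
  grind

private lemma Around_p2103 {s012 s013 s01v s023 s02v s03v s123 s12v s13v s23v : Prop}
    (m0 : Mono4 s012 s013 s023 s123)
    (m1 : Mono4 s012 s01v s02v s12v)
    (m2 : Mono4 s013 s01v s03v s13v)
    (m3 : Mono4 s023 s02v s03v s23v)
    (m4 : Mono4 s123 s12v s13v s23v)
    (h1 : ¬ s12v) (h2 : ¬ s01v) (h3 : s03v) :
    Mono4 (¬ s012) (¬ s123) (¬ s023) (¬ s013) := by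
  unfold Mono4 at *
  grind

private lemma Around_p2130 {s012 s013 s01v s023 s02v s03v s123 s12v s13v s23v : Prop}
    (m0 : Mono4 s012 s013 s023 s123)
    (m1 : Mono4 s012 s01v s02v s12v)
    (m2 : Mono4 s013 s01v s03v s13v)
    (m3 : Mono4 s023 s02v s03v s23v)
    (m4 : Mono4 s123 s12v s13v s23v)
    (h1 : ¬ s12v) (h2 : s13v) (h3 : ¬ s03v) :
    Mono4 (¬ s123) (¬ s012) (s023) (s013) := by
  unfold Mono4 at *
  grind

private lemma Around_p2301 {s012 s013 s01v s023 s02v s03v s123 s12v s13v s23v : Prop}
    (m0 : Mono4 s012 s013 s023 s123)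
    (m1 : Mono4 s012 s01v s02v s12v)
    (m2 : Mono4 s013 s01v s03v s13v)
    (m3 : Mono4 s023 s02v s03v s23v)
    (m4 : Mono4 s123 s12v s13v s23v)
    (h1 : s23v) (h2 : ¬ s03v) (h3 : s01v) :
    Mono4 (s023) (s123) (s012) (s013) := by
  unfold Mono4 at *
  grind

private lemma Around_p2310 {s012 s013 s01v s023 s02v s03v s123 s12v s13v s23v : Prop}
    (m0 : Mono4 s012 s013 s023 s123)
    (m1 : Mono4 s012 s01v s02v s12v)
    (m2 : Mono4 s013 s01v s03v s13v)
    (m3 : Mono4 s023 s02v s03v s23v)
    (m4 : Mono4 s123 s12v s13v s23v)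
    (h1 : s23v) (h2 : ¬ s13v) (h3 : ¬ s01v) :
    Mono4 (s123) (s023) (¬ s012) (¬ s013) := by
  unfold Mono4 at *
  grind

private lemma Around_p3012 {s012 s013 s01v s023 s02v s03v s123 s12v s13v s23v : Prop}
    (m0 : Mono4 s012 s013 s023 s123)
    (m1 : Mono4 s012 s01v s02v s12v)
    (m2 : Mono4 s013 s01v s03v s13v)
    (m3 : Mono4 s023 s02v s03v s23v)
    (m4 : Mono4 s123 s12v s13v s23v)
    (h1 : ¬ s03v) (h2 : s01v) (h3 : s12v) :
    Mono4 (s013) (s023) (s123) (s012) := by
  unfold Mono4 at *
  grind

private lemma Around_p3021 {s012 s013 s01v s023 s02v s03v s123 s12v s13v s23v : Prop}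
    (m0 : Mono4 s012 s013 s023 s123)
    (m1 : Mono4 s012 s01v s02v s12v)
    (m2 : Mono4 s013 s01v s03v s13v)
    (m3 : Mono4 s023 s02v s03v s23v)
    (m4 : Mono4 s123 s12v s13v s23v)
    (h1 : ¬ s03v) (h2 : s02v) (h3 : ¬ s12v) :
    Mono4 (s023) (s013) (¬ s123) (¬ s012) := by
  unfold Mono4 at *
  grind

private lemma Around_p3102 {s012 s013 s01v s023 s02v s03v s123 s12v s13v s23v : Prop}
    (m0 : Mono4 s012 s013 s023 s123)
    (m1 : Mono4 s012 s01v s02v s12v)
    (m2 : Mono4 s013 s01v s03v s13v)
    (m3 : Mono4 s023 s02v s03v s23v)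
    (m4 : Mono4 s123 s12v s13v s23v)
    (h1 : ¬ s13v) (h2 : ¬ s01v) (h3 : s02v) :
    Mono4 (¬ s013) (s123) (s023) (¬ s012) := by
  unfold Mono4 at *
  grind

private lemma Around_p3120 {s012 s013 s01v s023 s02v s03v s123 s12v s13v s23v : Prop}
    (m0 : Mono4 s012 s013 s023 s123)
    (m1 : Mono4 s012 s01v s02v s12v)
    (m2 : Mono4 s013 s01v s03v s13v)
    (m3 : Mono4 s023 s02v s03v s23v)
    (m4 : Mono4 s123 s12v s13v s23v)
    (h1 : ¬ s13v) (h2 : s12v) (h3 : ¬ s02v) :
    Mono4 (s123) (¬ s013) (¬ s023) (s012) := by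
  unfold Mono4 at *
  grind

private lemma Around_p3201 {s012 s013 s01v s023 s02v s03v s123 s12v s13v s23v : Prop}
    (m0 : Mono4 s012 s013 s023 s123)
    (m1 : Mono4 s012 s01v s02v s12v)
    (m2 : Mono4 s013 s01v s03v s13v)
    (m3 : Mono4 s023 s02v s03v s23v)
    (m4 : Mono4 s123 s12v s13v s23v)
    (h1 : ¬ s23v) (h2 : ¬ s02v) (h3 : s01v) :
    Mono4 (¬ s023) (¬ s123) (s013) (s012) := by
  unfold Mono4 at *
  grind

private lemma Around_p3210 {s012 s013 s01v s023 s02v s03v s123 s12v s13v s23v : Prop}
    (m0 : Mono4 s012 s013 s023 s123)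
    (m1 : Mono4 s012 s01v s02v s12v)
    (m2 : Mono4 s013 s01v s03v s13v)
    (m3 : Mono4 s023 s02v s03v s23v)
    (m4 : Mono4 s123 s12v s13v s23v)
    (h1 : ¬ s23v) (h2 : ¬ s12v) (h3 : ¬ s01v) :
    Mono4 (¬ s123) (¬ s023) (¬ s013) (¬ s012) := by
  unfold Mono4 at *
  grind

private lemma Around_t012 {s012 s01v s02v s12v : Prop} (m : Mono4 s012 s01v s02v s12v)
    (h1 : s01v) (h2 : s12v) : s02v := by
  unfold Mono4 at *
  grind

private lemma Around_t021 {s012 s01v s02v s12v : Prop} (m : Mono4 s012 s01v s02v s12v)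
    (h1 : s02v) (h2 : ¬ s12v) : s01v := by
  unfold Mono4 at *
  grind

private lemma Around_t102 {s012 s01v s02v s12v : Prop} (m : Mono4 s012 s01v s02v s12v)
    (h1 : ¬ s01v) (h2 : s02v) : s12v := by
  unfold Mono4 at *
  grind

private lemma Around_t120 {s012 s01v s02v s12v : Prop} (m : Mono4 s012 s01v s02v s12v)
    (h1 : s12v) (h2 : ¬ s02v) : ¬ s01v := by
  unfold Mono4 at *
  grind

private lemma Around_t201 {s012 s01v s02v s12v : Prop} (m : Mono4 s012 s01v s02v s12v)
    (h1 : ¬ s02v) (h2 : s01v) : ¬ s12v := by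
  unfold Mono4 at *
  grind

private lemma Around_t210 {s012 s01v s02v s12v : Prop} (m : Mono4 s012 s01v s02v s12v)
    (h1 : ¬ s12v) (h2 : ¬ s01v) : ¬ s02v := by
  unfold Mono4 at *
  grind

private lemma Around_trans {cw : α → α → α → Prop} {lt : α → α → Prop} {V L : Finset α} (hO : Ori cw)
    (hT : STO lt V) (hSig : Sig cw lt V) {v : α} (hv : v ∈ V) (hLV : L ⊆ V)
    (hL : ∀ p ∈ L, lt p v) {a b c : α} (ha : a ∈ L) (hb : b ∈ L) (hc : c ∈ L)
    (hab : cw a b v) (hbc : cw b c v) : cw a c v := by
  have eab : a ≠ b := (ori_ne hO hab).1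
  have ebc : b ≠ c := (ori_ne hO hbc).1
  have eac : a ≠ c := by
    intro h
    rw [h] at hab
    exact hO.anti _ _ _ hab hbc
  have key : ∀ x0 ∈ L, ∀ x1 ∈ L, ∀ x2 ∈ L, lt x0 x1 → lt x1 x2 →
      Mono4 (cw x0 x1 x2) (cw x0 x1 v) (cw x0 x2 v) (cw x1 x2 v) := fun x0 h0 x1 h1 x2 h2 h01 h12 =>
    hSig x0 (hLV h0) x1 (hLV h1) x2 (hLV h2) v hv h01 h12 (hL x2 h2)
  have ne : ∀ x ∈ L, ∀ y ∈ L, lt x y → x ≠ y := fun x hx y _ h => sto_ne hT (hLV hx) h
  have nv : ∀ x ∈ L, x ≠ v := fun x hx => sto_ne hT (hLV hx) (hL x hx)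
  have tr : ∀ x ∈ L, ∀ y ∈ L, ∀ z ∈ L, lt x y → lt y z → lt x z := fun x hx y hy z hz h1 h2 =>
    hT.trans x (hLV hx) y (hLV hy) z (hLV hz) h1 h2
  rcases hT.tot b (hLV hb) a (hLV ha) eab.symm with h_ba | h_ab
  · rcases hT.tot c (hLV hc) b (hLV hb) ebc.symm with h_cb | h_bc
    · have n01v := Around_norm hO (ne c hc b hb h_cb) (nv b hb) (nv c hc)
      have n02v := Around_norm hO (ne c hc a ha (tr c hc b hb a ha h_cb h_ba)) (nv a ha) (nv c hc)
      have n12v := Around_norm hO (ne b hb a ha h_ba) (nv a ha) (nv b hb)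
      exact (n02v.2.2.1).2 (Around_t210 (key c hc b hb a ha h_cb h_ba)
        ((n12v.2.2.1).1 hab) ((n01v.2.2.1).1 hbc))
    · rcases hT.tot c (hLV hc) a (hLV ha) eac.symm with h_ca | h_ac
      · have n01v := Around_norm hO (ne b hb c hc h_bc) (nv c hc) (nv b hb)
        have n02v := Around_norm hO (ne b hb a ha (tr b hb c hc a ha h_bc h_ca)) (nv a ha) (nv b hb)
        have n12v := Around_norm hO (ne c hc a ha h_ca) (nv a ha) (nv c hc)
        exact (n12v.2.2.1).2 (Around_t201 (key b hb c hc a ha h_bc h_ca)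
          ((n02v.2.2.1).1 hab) ((Iff.rfl).1 hbc))
      · have n01v := Around_norm hO (ne b hb a ha h_ba) (nv a ha) (nv b hb)
        have n02v := Around_norm hO (ne b hb c hc (tr b hb a ha c hc h_ba h_ac)) (nv c hc) (nv b hb)
        have n12v := Around_norm hO (ne a ha c hc h_ac) (nv c hc) (nv a ha)
        exact (Iff.rfl).2 (Around_t102 (key b hb a ha c hc h_ba h_ac)
          ((n01v.2.2.1).1 hab) ((Iff.rfl).1 hbc))
  · rcases hT.tot c (hLV hc) a (hLV ha) eac.symm with h_ca | h_ac
    · have n01v := Around_norm hO (ne c hc a ha h_ca) (nv a ha) (nv c hc)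
      have n02v := Around_norm hO (ne c hc b hb (tr c hc a ha b hb h_ca h_ab)) (nv b hb) (nv c hc)
      have n12v := Around_norm hO (ne a ha b hb h_ab) (nv b hb) (nv a ha)
      exact (n01v.2.2.1).2 (Around_t120 (key c hc a ha b hb h_ca h_ab)
        ((Iff.rfl).1 hab) ((n02v.2.2.1).1 hbc))
    · rcases hT.tot c (hLV hc) b (hLV hb) ebc.symm with h_cb | h_bc
      · have n01v := Around_norm hO (ne a ha c hc h_ac) (nv c hc) (nv a ha)
        have n02v := Around_norm hO (ne a ha b hb (tr a ha c hc b hb h_ac h_cb)) (nv b hb) (nv a ha)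
        have n12v := Around_norm hO (ne c hc b hb h_cb) (nv b hb) (nv c hc)
        exact (Iff.rfl).2 (Around_t021 (key a ha c hc b hb h_ac h_cb)
          ((Iff.rfl).1 hab) ((n12v.2.2.1).1 hbc))
      · have n01v := Around_norm hO (ne a ha b hb h_ab) (nv b hb) (nv a ha)
        have n02v := Around_norm hO (ne a ha c hc (tr a ha b hb c hc h_ab h_bc)) (nv c hc) (nv a ha)
        have n12v := Around_norm hO (ne b hb c hc h_bc) (nv c hc) (nv b hb)
        exact (Iff.rfl).2 (Around_t012 (key a ha b hb c hc h_ab h_bc)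
          ((Iff.rfl).1 hab) ((Iff.rfl).1 hbc))

private lemma Around_sig {cw : α → α → α → Prop} {lt : α → α → Prop} {V L : Finset α} (hO : Ori cw)
    (hT : STO lt V) (hSig : Sig cw lt V) {v : α} (hv : v ∈ V) (hLV : L ⊆ V)
    (hL : ∀ p ∈ L, lt p v) {a b c d : α} (ha : a ∈ L) (hb : b ∈ L) (hc : c ∈ L) (hd : d ∈ L)
    (hab : cw a b v) (hbc : cw b c v) (hcd : cw c d v) :
    Mono4 (cw a b c) (cw a b d) (cw a c d) (cw b c d) := by
  have hac := Around_trans hO hT hSig hv hLV hL ha hb hc hab hbc
  have hbd := Around_trans hO hT hSig hv hLV hL hb hc hd hbc hcd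
  have had := Around_trans hO hT hSig hv hLV hL ha hc hd hac hcd
  have eab : a ≠ b := (ori_ne hO hab).1
  have ebc : b ≠ c := (ori_ne hO hbc).1
  have eac : a ≠ c := (ori_ne hO hac).1
  have ebd : b ≠ d := (ori_ne hO hbd).1
  have ead : a ≠ d := (ori_ne hO had).1
  have ecd : c ≠ d := (ori_ne hO hcd).1
  have key : ∀ x0 ∈ L, ∀ x1 ∈ L, ∀ x2 ∈ L, lt x0 x1 → lt x1 x2 →
      Mono4 (cw x0 x1 x2) (cw x0 x1 v) (cw x0 x2 v) (cw x1 x2 v) := fun x0 h0 x1 h1 x2 h2 h01 h12 =>
    hSig x0 (hLV h0) x1 (hLV h1) x2 (hLV h2) v hv h01 h12 (hL x2 h2)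
  have key4 : ∀ x0 ∈ L, ∀ x1 ∈ L, ∀ x2 ∈ L, ∀ x3 ∈ L, lt x0 x1 → lt x1 x2 → lt x2 x3 →
      Mono4 (cw x0 x1 x2) (cw x0 x1 x3) (cw x0 x2 x3) (cw x1 x2 x3) :=
    fun x0 h0 x1 h1 x2 h2 x3 h3 h01 h12 h23 =>
    hSig x0 (hLV h0) x1 (hLV h1) x2 (hLV h2) x3 (hLV h3) h01 h12 h23
  have ne : ∀ x ∈ L, ∀ y ∈ L, lt x y → x ≠ y := fun x hx y _ h => sto_ne hT (hLV hx) h
  have nv : ∀ x ∈ L, x ≠ v := fun x hx => sto_ne hT (hLV hx) (hL x hx)
  have tr : ∀ x ∈ L, ∀ y ∈ L, ∀ z ∈ L, lt x y → lt y z → lt x z := fun x hx y hy z hz h1 h2 =>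
    hT.trans x (hLV hx) y (hLV hy) z (hLV hz) h1 h2
  rcases hT.tot b (hLV hb) a (hLV ha) eab.symm with h_ba | h_ab
  · rcases hT.tot c (hLV hc) b (hLV hb) ebc.symm with h_cb | h_bc
    · rcases hT.tot d (hLV hd) c (hLV hc) ecd.symm with h_dc | h_cd
      · have l02 := tr d hd c hc b hb h_dc h_cb
        have l13 := tr c hc b hb a ha h_cb h_ba
        have l03 := tr d hd b hb a ha l02 h_ba
        have n012 := Around_norm hO (ne d hd c hc h_dc) (ne c hc b hb h_cb) (ne d hd b hb l02)
        have n013 := Around_norm hO (ne d hd c hc h_dc) (ne c hc a ha l13) (ne d hd a ha l03)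
        have n01v := Around_norm hO (ne d hd c hc h_dc) (nv c hc) (nv d hd)
        have n023 := Around_norm hO (ne d hd b hb l02) (ne b hb a ha h_ba) (ne d hd a ha l03)
        have n123 := Around_norm hO (ne c hc b hb h_cb) (ne b hb a ha h_ba) (ne c hc a ha l13)
        have n12v := Around_norm hO (ne c hc b hb h_cb) (nv b hb) (nv c hc)
        have n23v := Around_norm hO (ne b hb a ha h_ba) (nv a ha) (nv b hb)
        exact Around_congr (n123.2.2.2.2) (n023.2.2.2.2) (n013.2.2.2.2) (n012.2.2.2.2) (Around_p3210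
          (key4 d hd c hc b hb a ha h_dc h_cb h_ba)
          (key d hd c hc b hb h_dc h_cb)
          (key d hd c hc a ha h_dc l13)
          (key d hd b hb a ha l02 h_ba)
          (key c hc b hb a ha h_cb h_ba)
          ((n23v.2.2.1).1 hab) ((n12v.2.2.1).1 hbc) ((n01v.2.2.1).1 hcd))
      · rcases hT.tot d (hLV hd) b (hLV hb) ebd.symm with h_db | h_bd
        · have l02 := tr c hc d hd b hb h_cd h_db
          have l13 := tr d hd b hb a ha h_db h_ba
          have l03 := tr c hc b hb a ha l02 h_ba
          have n012 := Around_norm hO (ne c hc d hd h_cd) (ne d hd b hb h_db) (ne c hc b hb l02)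
          have n013 := Around_norm hO (ne c hc d hd h_cd) (ne d hd a ha l13) (ne c hc a ha l03)
          have n023 := Around_norm hO (ne c hc b hb l02) (ne b hb a ha h_ba) (ne c hc a ha l03)
          have n02v := Around_norm hO (ne c hc b hb l02) (nv b hb) (nv c hc)
          have n123 := Around_norm hO (ne d hd b hb h_db) (ne b hb a ha h_ba) (ne d hd a ha l13)
          have n23v := Around_norm hO (ne b hb a ha h_ba) (nv a ha) (nv b hb)
          exact Around_congr (n023.2.2.2.2) (n123.2.2.2.2) (n013.2.1) (n012.2.1) (Around_p3201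
            (key4 c hc d hd b hb a ha h_cd h_db h_ba)
            (key c hc d hd b hb h_cd h_db)
            (key c hc d hd a ha h_cd l13)
            (key c hc b hb a ha l02 h_ba)
            (key d hd b hb a ha h_db h_ba)
            ((n23v.2.2.1).1 hab) ((n02v.2.2.1).1 hbc) ((Iff.rfl).1 hcd))
        · rcases hT.tot d (hLV hd) a (hLV ha) ead.symm with h_da | h_ad
          · have l02 := tr c hc b hb d hd h_cb h_bd
            have l13 := tr b hb d hd a ha h_bd h_da
            have l03 := tr c hc d hd a ha l02 h_da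
            have n012 := Around_norm hO (ne c hc b hb h_cb) (ne b hb d hd h_bd) (ne c hc d hd l02)
            have n013 := Around_norm hO (ne c hc b hb h_cb) (ne b hb a ha l13) (ne c hc a ha l03)
            have n01v := Around_norm hO (ne c hc b hb h_cb) (nv b hb) (nv c hc)
            have n023 := Around_norm hO (ne c hc d hd l02) (ne d hd a ha h_da) (ne c hc a ha l03)
            have n123 := Around_norm hO (ne b hb d hd h_bd) (ne d hd a ha h_da) (ne b hb a ha l13)
            have n13v := Around_norm hO (ne b hb a ha l13) (nv a ha) (nv b hb)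
            exact Around_congr (n013.2.2.2.2) (n123.2.1) (n023.2.1) (n012.2.2.1) (Around_p3102
              (key4 c hc b hb d hd a ha h_cb h_bd h_da)
              (key c hc b hb d hd h_cb h_bd)
              (key c hc b hb a ha h_cb l13)
              (key c hc d hd a ha l02 h_da)
              (key b hb d hd a ha h_bd h_da)
              ((n13v.2.2.1).1 hab) ((n01v.2.2.1).1 hbc) ((Iff.rfl).1 hcd))
          · have l02 := tr c hc b hb a ha h_cb h_ba
            have l13 := tr b hb a ha d hd h_ba h_ad
            have l03 := tr c hc a ha d hd l02 h_ad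
            have n012 := Around_norm hO (ne c hc b hb h_cb) (ne b hb a ha h_ba) (ne c hc a ha l02)
            have n013 := Around_norm hO (ne c hc b hb h_cb) (ne b hb d hd l13) (ne c hc d hd l03)
            have n01v := Around_norm hO (ne c hc b hb h_cb) (nv b hb) (nv c hc)
            have n023 := Around_norm hO (ne c hc a ha l02) (ne a ha d hd h_ad) (ne c hc d hd l03)
            have n123 := Around_norm hO (ne b hb a ha h_ba) (ne a ha d hd h_ad) (ne b hb d hd l13)
            have n12v := Around_norm hO (ne b hb a ha h_ba) (nv a ha) (nv b hb)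
            exact Around_congr (n012.2.2.2.2) (n123.2.2.1) (n023.2.2.1) (n013.2.2.1) (Around_p2103
              (key4 c hc b hb a ha d hd h_cb h_ba h_ad)
              (key c hc b hb a ha h_cb h_ba)
              (key c hc b hb d hd h_cb l13)
              (key c hc a ha d hd l02 h_ad)
              (key b hb a ha d hd h_ba h_ad)
              ((n12v.2.2.1).1 hab) ((n01v.2.2.1).1 hbc) ((Iff.rfl).1 hcd))
    · rcases hT.tot c (hLV hc) a (hLV ha) eac.symm with h_ca | h_ac
      · rcases hT.tot d (hLV hd) b (hLV hb) ebd.symm with h_db | h_bd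
        · have l02 := tr d hd b hb c hc h_db h_bc
          have l13 := tr b hb c hc a ha h_bc h_ca
          have l03 := tr d hd c hc a ha l02 h_ca
          have n012 := Around_norm hO (ne d hd b hb h_db) (ne b hb c hc h_bc) (ne d hd c hc l02)
          have n013 := Around_norm hO (ne d hd b hb h_db) (ne b hb a ha l13) (ne d hd a ha l03)
          have n023 := Around_norm hO (ne d hd c hc l02) (ne c hc a ha h_ca) (ne d hd a ha l03)
          have n02v := Around_norm hO (ne d hd c hc l02) (nv c hc) (nv d hd)
          have n123 := Around_norm hO (ne b hb c hc h_bc) (ne c hc a ha h_ca) (ne b hb a ha l13)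
          have n13v := Around_norm hO (ne b hb a ha l13) (nv a ha) (nv b hb)
          exact Around_congr (n123.2.1) (n013.2.2.2.2) (n023.2.2.2.2) (n012.1) (Around_p3120
            (key4 d hd b hb c hc a ha h_db h_bc h_ca)
            (key d hd b hb c hc h_db h_bc)
            (key d hd b hb a ha h_db l13)
            (key d hd c hc a ha l02 h_ca)
            (key b hb c hc a ha h_bc h_ca)
            ((n13v.2.2.1).1 hab) ((Iff.rfl).1 hbc) ((n02v.2.2.1).1 hcd))
        · rcases hT.tot d (hLV hd) c (hLV hc) ecd.symm with h_dc | h_cd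
          · have l02 := tr b hb d hd c hc h_bd h_dc
            have l13 := tr d hd c hc a ha h_dc h_ca
            have l03 := tr b hb c hc a ha l02 h_ca
            have n012 := Around_norm hO (ne b hb d hd h_bd) (ne d hd c hc h_dc) (ne b hb c hc l02)
            have n013 := Around_norm hO (ne b hb d hd h_bd) (ne d hd a ha l13) (ne b hb a ha l03)
            have n023 := Around_norm hO (ne b hb c hc l02) (ne c hc a ha h_ca) (ne b hb a ha l03)
            have n03v := Around_norm hO (ne b hb a ha l03) (nv a ha) (nv b hb)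
            have n123 := Around_norm hO (ne d hd c hc h_dc) (ne c hc a ha h_ca) (ne d hd a ha l13)
            have n12v := Around_norm hO (ne d hd c hc h_dc) (nv c hc) (nv d hd)
            exact Around_congr (n023.2.1) (n013.2.1) (n123.2.2.2.2) (n012.2.2.2.1) (Around_p3021
              (key4 b hb d hd c hc a ha h_bd h_dc h_ca)
              (key b hb d hd c hc h_bd h_dc)
              (key b hb d hd a ha h_bd l13)
              (key b hb c hc a ha l02 h_ca)
              (key d hd c hc a ha h_dc h_ca)
              ((n03v.2.2.1).1 hab) ((Iff.rfl).1 hbc) ((n12v.2.2.1).1 hcd))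
          · rcases hT.tot d (hLV hd) a (hLV ha) ead.symm with h_da | h_ad
            · have l02 := tr b hb c hc d hd h_bc h_cd
              have l13 := tr c hc d hd a ha h_cd h_da
              have l03 := tr b hb d hd a ha l02 h_da
              have n013 := Around_norm hO (ne b hb c hc h_bc) (ne c hc a ha l13) (ne b hb a ha l03)
              have n023 := Around_norm hO (ne b hb d hd l02) (ne d hd a ha h_da) (ne b hb a ha l03)
              have n03v := Around_norm hO (ne b hb a ha l03) (nv a ha) (nv b hb)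
              have n123 := Around_norm hO (ne c hc d hd h_cd) (ne d hd a ha h_da) (ne c hc a ha l13)
              exact Around_congr (n013.2.1) (n023.2.1) (n123.2.1) (Iff.rfl) (Around_p3012
                (key4 b hb c hc d hd a ha h_bc h_cd h_da)
                (key b hb c hc d hd h_bc h_cd)
                (key b hb c hc a ha h_bc l13)
                (key b hb d hd a ha l02 h_da)
                (key c hc d hd a ha h_cd h_da)
                ((n03v.2.2.1).1 hab) ((Iff.rfl).1 hbc) ((Iff.rfl).1 hcd))
            · have l02 := tr b hb c hc a ha h_bc h_ca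
              have l13 := tr c hc a ha d hd h_ca h_ad
              have l03 := tr b hb a ha d hd l02 h_ad
              have n012 := Around_norm hO (ne b hb c hc h_bc) (ne c hc a ha h_ca) (ne b hb a ha l02)
              have n023 := Around_norm hO (ne b hb a ha l02) (ne a ha d hd h_ad) (ne b hb d hd l03)
              have n02v := Around_norm hO (ne b hb a ha l02) (nv a ha) (nv b hb)
              have n123 := Around_norm hO (ne c hc a ha h_ca) (ne a ha d hd h_ad) (ne c hc d hd l13)
              exact Around_congr (n012.2.1) (n023.2.2.1) (n123.2.2.1) (Iff.rfl) (Around_p2013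
                (key4 b hb c hc a ha d hd h_bc h_ca h_ad)
                (key b hb c hc a ha h_bc h_ca)
                (key b hb c hc d hd h_bc l13)
                (key b hb a ha d hd l02 h_ad)
                (key c hc a ha d hd h_ca h_ad)
                ((n02v.2.2.1).1 hab) ((Iff.rfl).1 hbc) ((Iff.rfl).1 hcd))
      · rcases hT.tot d (hLV hd) b (hLV hb) ebd.symm with h_db | h_bd
        · have l02 := tr d hd b hb a ha h_db h_ba
          have l13 := tr b hb a ha c hc h_ba h_ac
          have l03 := tr d hd a ha c hc l02 h_ac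
          have n012 := Around_norm hO (ne d hd b hb h_db) (ne b hb a ha h_ba) (ne d hd a ha l02)
          have n013 := Around_norm hO (ne d hd b hb h_db) (ne b hb c hc l13) (ne d hd c hc l03)
          have n023 := Around_norm hO (ne d hd a ha l02) (ne a ha c hc h_ac) (ne d hd c hc l03)
          have n03v := Around_norm hO (ne d hd c hc l03) (nv c hc) (nv d hd)
          have n123 := Around_norm hO (ne b hb a ha h_ba) (ne a ha c hc h_ac) (ne b hb c hc l13)
          have n12v := Around_norm hO (ne b hb a ha h_ba) (nv a ha) (nv b hb)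
          exact Around_congr (n123.2.2.1) (n012.2.2.2.2) (n023.1) (n013.1) (Around_p2130
            (key4 d hd b hb a ha c hc h_db h_ba h_ac)
            (key d hd b hb a ha h_db h_ba)
            (key d hd b hb c hc h_db l13)
            (key d hd a ha c hc l02 h_ac)
            (key b hb a ha c hc h_ba h_ac)
            ((n12v.2.2.1).1 hab) ((Iff.rfl).1 hbc) ((n03v.2.2.1).1 hcd))
        · rcases hT.tot d (hLV hd) a (hLV ha) ead.symm with h_da | h_ad
          · have l02 := tr b hb d hd a ha h_bd h_da
            have l13 := tr d hd a ha c hc h_da h_ac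
            have l03 := tr b hb a ha c hc l02 h_ac
            have n012 := Around_norm hO (ne b hb d hd h_bd) (ne d hd a ha h_da) (ne b hb a ha l02)
            have n013 := Around_norm hO (ne b hb d hd h_bd) (ne d hd c hc l13) (ne b hb c hc l03)
            have n023 := Around_norm hO (ne b hb a ha l02) (ne a ha c hc h_ac) (ne b hb c hc l03)
            have n02v := Around_norm hO (ne b hb a ha l02) (nv a ha) (nv b hb)
            have n123 := Around_norm hO (ne d hd a ha h_da) (ne a ha c hc h_ac) (ne d hd c hc l13)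
            have n13v := Around_norm hO (ne d hd c hc l13) (nv c hc) (nv d hd)
            exact Around_congr (n023.2.2.1) (n012.2.1) (n123.1) (n013.2.2.2.1) (Around_p2031
              (key4 b hb d hd a ha c hc h_bd h_da h_ac)
              (key b hb d hd a ha h_bd h_da)
              (key b hb d hd c hc h_bd l13)
              (key b hb a ha c hc l02 h_ac)
              (key d hd a ha c hc h_da h_ac)
              ((n02v.2.2.1).1 hab) ((Iff.rfl).1 hbc) ((n13v.2.2.1).1 hcd))
          · rcases hT.tot d (hLV hd) c (hLV hc) ecd.symm with h_dc | h_cd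
            · have l02 := tr b hb a ha d hd h_ba h_ad
              have l13 := tr a ha d hd c hc h_ad h_dc
              have l03 := tr b hb d hd c hc l02 h_dc
              have n012 := Around_norm hO (ne b hb a ha h_ba) (ne a ha d hd h_ad) (ne b hb d hd l02)
              have n013 := Around_norm hO (ne b hb a ha h_ba) (ne a ha c hc l13) (ne b hb c hc l03)
              have n01v := Around_norm hO (ne b hb a ha h_ba) (nv a ha) (nv b hb)
              have n023 := Around_norm hO (ne b hb d hd l02) (ne d hd c hc h_dc) (ne b hb c hc l03)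
              have n123 := Around_norm hO (ne a ha d hd h_ad) (ne d hd c hc h_dc) (ne a ha c hc l13)
              have n23v := Around_norm hO (ne d hd c hc h_dc) (nv c hc) (nv d hd)
              exact Around_congr (n013.2.2.1) (n012.2.2.1) (n123.2.2.2.1) (n023.2.2.2.1) (Around_p1032
                (key4 b hb a ha d hd c hc h_ba h_ad h_dc)
                (key b hb a ha d hd h_ba h_ad)
                (key b hb a ha c hc h_ba l13)
                (key b hb d hd c hc l02 h_dc)
                (key a ha d hd c hc h_ad h_dc)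
                ((n01v.2.2.1).1 hab) ((Iff.rfl).1 hbc) ((n23v.2.2.1).1 hcd))
            · have l02 := tr b hb a ha c hc h_ba h_ac
              have l13 := tr a ha c hc d hd h_ac h_cd
              have l03 := tr b hb c hc d hd l02 h_cd
              have n012 := Around_norm hO (ne b hb a ha h_ba) (ne a ha c hc h_ac) (ne b hb c hc l02)
              have n013 := Around_norm hO (ne b hb a ha h_ba) (ne a ha d hd l13) (ne b hb d hd l03)
              have n01v := Around_norm hO (ne b hb a ha h_ba) (nv a ha) (nv b hb)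
              exact Around_congr (n012.2.2.1) (n013.2.2.1) (Iff.rfl) (Iff.rfl) (Around_p1023
                (key4 b hb a ha c hc d hd h_ba h_ac h_cd)
                (key b hb a ha c hc h_ba h_ac)
                (key b hb a ha d hd h_ba l13)
                (key b hb c hc d hd l02 h_cd)
                (key a ha c hc d hd h_ac h_cd)
                ((n01v.2.2.1).1 hab) ((Iff.rfl).1 hbc) ((Iff.rfl).1 hcd))
  · rcases hT.tot c (hLV hc) a (hLV ha) eac.symm with h_ca | h_ac
    · rcases hT.tot d (hLV hd) c (hLV hc) ecd.symm with h_dc | h_cd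
      · have l02 := tr d hd c hc a ha h_dc h_ca
        have l13 := tr c hc a ha b hb h_ca h_ab
        have l03 := tr d hd a ha b hb l02 h_ab
        have n012 := Around_norm hO (ne d hd c hc h_dc) (ne c hc a ha h_ca) (ne d hd a ha l02)
        have n013 := Around_norm hO (ne d hd c hc h_dc) (ne c hc b hb l13) (ne d hd b hb l03)
        have n01v := Around_norm hO (ne d hd c hc h_dc) (nv c hc) (nv d hd)
        have n023 := Around_norm hO (ne d hd a ha l02) (ne a ha b hb h_ab) (ne d hd b hb l03)
        have n123 := Around_norm hO (ne c hc a ha h_ca) (ne a ha b hb h_ab) (ne c hc b hb l13)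
        have n13v := Around_norm hO (ne c hc b hb l13) (nv b hb) (nv c hc)
        exact Around_congr (n123.1) (n023.1) (n012.2.2.2.2) (n013.2.2.2.2) (Around_p2310
          (key4 d hd c hc a ha b hb h_dc h_ca h_ab)
          (key d hd c hc a ha h_dc h_ca)
          (key d hd c hc b hb h_dc l13)
          (key d hd a ha b hb l02 h_ab)
          (key c hc a ha b hb h_ca h_ab)
          ((Iff.rfl).1 hab) ((n13v.2.2.1).1 hbc) ((n01v.2.2.1).1 hcd))
      · rcases hT.tot d (hLV hd) a (hLV ha) ead.symm with h_da | h_ad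
        · have l02 := tr c hc d hd a ha h_cd h_da
          have l13 := tr d hd a ha b hb h_da h_ab
          have l03 := tr c hc a ha b hb l02 h_ab
          have n012 := Around_norm hO (ne c hc d hd h_cd) (ne d hd a ha h_da) (ne c hc a ha l02)
          have n013 := Around_norm hO (ne c hc d hd h_cd) (ne d hd b hb l13) (ne c hc b hb l03)
          have n023 := Around_norm hO (ne c hc a ha l02) (ne a ha b hb h_ab) (ne c hc b hb l03)
          have n03v := Around_norm hO (ne c hc b hb l03) (nv b hb) (nv c hc)
          have n123 := Around_norm hO (ne d hd a ha h_da) (ne a ha b hb h_ab) (ne d hd b hb l13)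
          exact Around_congr (n023.1) (n123.1) (n012.2.1) (n013.2.1) (Around_p2301
            (key4 c hc d hd a ha b hb h_cd h_da h_ab)
            (key c hc d hd a ha h_cd h_da)
            (key c hc d hd b hb h_cd l13)
            (key c hc a ha b hb l02 h_ab)
            (key d hd a ha b hb h_da h_ab)
            ((Iff.rfl).1 hab) ((n03v.2.2.1).1 hbc) ((Iff.rfl).1 hcd))
        · rcases hT.tot d (hLV hd) b (hLV hb) ebd.symm with h_db | h_bd
          · have l02 := tr c hc a ha d hd h_ca h_ad
            have l13 := tr a ha d hd b hb h_ad h_db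
            have l03 := tr c hc d hd b hb l02 h_db
            have n012 := Around_norm hO (ne c hc a ha h_ca) (ne a ha d hd h_ad) (ne c hc d hd l02)
            have n013 := Around_norm hO (ne c hc a ha h_ca) (ne a ha b hb l13) (ne c hc b hb l03)
            have n023 := Around_norm hO (ne c hc d hd l02) (ne d hd b hb h_db) (ne c hc b hb l03)
            have n03v := Around_norm hO (ne c hc b hb l03) (nv b hb) (nv c hc)
            have n123 := Around_norm hO (ne a ha d hd h_ad) (ne d hd b hb h_db) (ne a ha b hb l13)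
            exact Around_congr (n013.1) (n123.2.2.2.1) (n012.2.2.1) (n023.2.1) (Around_p1302
              (key4 c hc a ha d hd b hb h_ca h_ad h_db)
              (key c hc a ha d hd h_ca h_ad)
              (key c hc a ha b hb h_ca l13)
              (key c hc d hd b hb l02 h_db)
              (key a ha d hd b hb h_ad h_db)
              ((Iff.rfl).1 hab) ((n03v.2.2.1).1 hbc) ((Iff.rfl).1 hcd))
          · have l02 := tr c hc a ha b hb h_ca h_ab
            have l13 := tr a ha b hb d hd h_ab h_bd
            have l03 := tr c hc b hb d hd l02 h_bd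
            have n012 := Around_norm hO (ne c hc a ha h_ca) (ne a ha b hb h_ab) (ne c hc b hb l02)
            have n013 := Around_norm hO (ne c hc a ha h_ca) (ne a ha d hd l13) (ne c hc d hd l03)
            have n023 := Around_norm hO (ne c hc b hb l02) (ne b hb d hd h_bd) (ne c hc d hd l03)
            have n02v := Around_norm hO (ne c hc b hb l02) (nv b hb) (nv c hc)
            exact Around_congr (n012.1) (Iff.rfl) (n013.2.2.1) (n023.2.2.1) (Around_p1203
              (key4 c hc a ha b hb d hd h_ca h_ab h_bd)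
              (key c hc a ha b hb h_ca h_ab)
              (key c hc a ha d hd h_ca l13)
              (key c hc b hb d hd l02 h_bd)
              (key a ha b hb d hd h_ab h_bd)
              ((Iff.rfl).1 hab) ((n02v.2.2.1).1 hbc) ((Iff.rfl).1 hcd))
    · rcases hT.tot c (hLV hc) b (hLV hb) ebc.symm with h_cb | h_bc
      · rcases hT.tot d (hLV hd) a (hLV ha) ead.symm with h_da | h_ad
        · have l02 := tr d hd a ha c hc h_da h_ac
          have l13 := tr a ha c hc b hb h_ac h_cb
          have l03 := tr d hd c hc b hb l02 h_cb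
          have n012 := Around_norm hO (ne d hd a ha h_da) (ne a ha c hc h_ac) (ne d hd c hc l02)
          have n013 := Around_norm hO (ne d hd a ha h_da) (ne a ha b hb l13) (ne d hd b hb l03)
          have n023 := Around_norm hO (ne d hd c hc l02) (ne c hc b hb h_cb) (ne d hd b hb l03)
          have n02v := Around_norm hO (ne d hd c hc l02) (nv c hc) (nv d hd)
          have n123 := Around_norm hO (ne a ha c hc h_ac) (ne c hc b hb h_cb) (ne a ha b hb l13)
          have n23v := Around_norm hO (ne c hc b hb h_cb) (nv b hb) (nv c hc)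
          exact Around_congr (n123.2.2.2.1) (n013.1) (n012.1) (n023.2.2.2.2) (Around_p1320
            (key4 d hd a ha c hc b hb h_da h_ac h_cb)
            (key d hd a ha c hc h_da h_ac)
            (key d hd a ha b hb h_da l13)
            (key d hd c hc b hb l02 h_cb)
            (key a ha c hc b hb h_ac h_cb)
            ((Iff.rfl).1 hab) ((n23v.2.2.1).1 hbc) ((n02v.2.2.1).1 hcd))
        · rcases hT.tot d (hLV hd) c (hLV hc) ecd.symm with h_dc | h_cd
          · have l02 := tr a ha d hd c hc h_ad h_dc
            have l13 := tr d hd c hc b hb h_dc h_cb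
            have l03 := tr a ha c hc b hb l02 h_cb
            have n012 := Around_norm hO (ne a ha d hd h_ad) (ne d hd c hc h_dc) (ne a ha c hc l02)
            have n013 := Around_norm hO (ne a ha d hd h_ad) (ne d hd b hb l13) (ne a ha b hb l03)
            have n023 := Around_norm hO (ne a ha c hc l02) (ne c hc b hb h_cb) (ne a ha b hb l03)
            have n123 := Around_norm hO (ne d hd c hc h_dc) (ne c hc b hb h_cb) (ne d hd b hb l13)
            have n12v := Around_norm hO (ne d hd c hc h_dc) (nv c hc) (nv d hd)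
            have n23v := Around_norm hO (ne c hc b hb h_cb) (nv b hb) (nv c hc)
            exact Around_congr (n023.2.2.2.1) (n013.2.2.2.1) (n012.2.2.2.1) (n123.2.2.2.2) (Around_p0321
              (key4 a ha d hd c hc b hb h_ad h_dc h_cb)
              (key a ha d hd c hc h_ad h_dc)
              (key a ha d hd b hb h_ad l13)
              (key a ha c hc b hb l02 h_cb)
              (key d hd c hc b hb h_dc h_cb)
              ((Iff.rfl).1 hab) ((n23v.2.2.1).1 hbc) ((n12v.2.2.1).1 hcd))
          · rcases hT.tot d (hLV hd) b (hLV hb) ebd.symm with h_db | h_bd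
            · have l02 := tr a ha c hc d hd h_ac h_cd
              have l13 := tr c hc d hd b hb h_cd h_db
              have l03 := tr a ha d hd b hb l02 h_db
              have n013 := Around_norm hO (ne a ha c hc h_ac) (ne c hc b hb l13) (ne a ha b hb l03)
              have n023 := Around_norm hO (ne a ha d hd l02) (ne d hd b hb h_db) (ne a ha b hb l03)
              have n123 := Around_norm hO (ne c hc d hd h_cd) (ne d hd b hb h_db) (ne c hc b hb l13)
              have n13v := Around_norm hO (ne c hc b hb l13) (nv b hb) (nv c hc)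
              exact Around_congr (n013.2.2.2.1) (n023.2.2.2.1) (Iff.rfl) (n123.2.1) (Around_p0312
                (key4 a ha c hc d hd b hb h_ac h_cd h_db)
                (key a ha c hc d hd h_ac h_cd)
                (key a ha c hc b hb h_ac l13)
                (key a ha d hd b hb l02 h_db)
                (key c hc d hd b hb h_cd h_db)
                ((Iff.rfl).1 hab) ((n13v.2.2.1).1 hbc) ((Iff.rfl).1 hcd))
            · have l02 := tr a ha c hc b hb h_ac h_cb
              have l13 := tr c hc b hb d hd h_cb h_bd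
              have l03 := tr a ha b hb d hd l02 h_bd
              have n012 := Around_norm hO (ne a ha c hc h_ac) (ne c hc b hb h_cb) (ne a ha b hb l02)
              have n123 := Around_norm hO (ne c hc b hb h_cb) (ne b hb d hd h_bd) (ne c hc d hd l13)
              have n12v := Around_norm hO (ne c hc b hb h_cb) (nv b hb) (nv c hc)
              exact Around_congr (n012.2.2.2.1) (Iff.rfl) (Iff.rfl) (n123.2.2.1) (Around_p0213
                (key4 a ha c hc b hb d hd h_ac h_cb h_bd)
                (key a ha c hc b hb h_ac h_cb)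
                (key a ha c hc d hd h_ac l13)
                (key a ha b hb d hd l02 h_bd)
                (key c hc b hb d hd h_cb h_bd)
                ((Iff.rfl).1 hab) ((n12v.2.2.1).1 hbc) ((Iff.rfl).1 hcd))
      · rcases hT.tot d (hLV hd) a (hLV ha) ead.symm with h_da | h_ad
        · have l02 := tr d hd a ha b hb h_da h_ab
          have l13 := tr a ha b hb c hc h_ab h_bc
          have l03 := tr d hd b hb c hc l02 h_bc
          have n012 := Around_norm hO (ne d hd a ha h_da) (ne a ha b hb h_ab) (ne d hd b hb l02)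
          have n013 := Around_norm hO (ne d hd a ha h_da) (ne a ha c hc l13) (ne d hd c hc l03)
          have n023 := Around_norm hO (ne d hd b hb l02) (ne b hb c hc h_bc) (ne d hd c hc l03)
          have n03v := Around_norm hO (ne d hd c hc l03) (nv c hc) (nv d hd)
          exact Around_congr (Iff.rfl) (n012.1) (n013.1) (n023.1) (Around_p1230
            (key4 d hd a ha b hb c hc h_da h_ab h_bc)
            (key d hd a ha b hb h_da h_ab)
            (key d hd a ha c hc h_da l13)
            (key d hd b hb c hc l02 h_bc)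
            (key a ha b hb c hc h_ab h_bc)
            ((Iff.rfl).1 hab) ((Iff.rfl).1 hbc) ((n03v.2.2.1).1 hcd))
        · rcases hT.tot d (hLV hd) b (hLV hb) ebd.symm with h_db | h_bd
          · have l02 := tr a ha d hd b hb h_ad h_db
            have l13 := tr d hd b hb c hc h_db h_bc
            have l03 := tr a ha b hb c hc l02 h_bc
            have n012 := Around_norm hO (ne a ha d hd h_ad) (ne d hd b hb h_db) (ne a ha b hb l02)
            have n013 := Around_norm hO (ne a ha d hd h_ad) (ne d hd c hc l13) (ne a ha c hc l03)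
            have n123 := Around_norm hO (ne d hd b hb h_db) (ne b hb c hc h_bc) (ne d hd c hc l13)
            have n13v := Around_norm hO (ne d hd c hc l13) (nv c hc) (nv d hd)
            exact Around_congr (Iff.rfl) (n012.2.2.2.1) (n013.2.2.2.1) (n123.1) (Around_p0231
              (key4 a ha d hd b hb c hc h_ad h_db h_bc)
              (key a ha d hd b hb h_ad h_db)
              (key a ha d hd c hc h_ad l13)
              (key a ha b hb c hc l02 h_bc)
              (key d hd b hb c hc h_db h_bc)
              ((Iff.rfl).1 hab) ((Iff.rfl).1 hbc) ((n13v.2.2.1).1 hcd))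
          · rcases hT.tot d (hLV hd) c (hLV hc) ecd.symm with h_dc | h_cd
            · have l02 := tr a ha b hb d hd h_ab h_bd
              have l13 := tr b hb d hd c hc h_bd h_dc
              have l03 := tr a ha d hd c hc l02 h_dc
              have n023 := Around_norm hO (ne a ha d hd l02) (ne d hd c hc h_dc) (ne a ha c hc l03)
              have n123 := Around_norm hO (ne b hb d hd h_bd) (ne d hd c hc h_dc) (ne b hb c hc l13)
              have n23v := Around_norm hO (ne d hd c hc h_dc) (nv c hc) (nv d hd)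
              exact Around_congr (Iff.rfl) (Iff.rfl) (n023.2.2.2.1) (n123.2.2.2.1) (Around_p0132
                (key4 a ha b hb d hd c hc h_ab h_bd h_dc)
                (key a ha b hb d hd h_ab h_bd)
                (key a ha b hb c hc h_ab l13)
                (key a ha d hd c hc l02 h_dc)
                (key b hb d hd c hc h_bd h_dc)
                ((Iff.rfl).1 hab) ((Iff.rfl).1 hbc) ((n23v.2.2.1).1 hcd))
            · have l02 := tr a ha b hb c hc h_ab h_bc
              have l13 := tr b hb c hc d hd h_bc h_cd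
              have l03 := tr a ha c hc d hd l02 h_cd
              exact Around_congr (Iff.rfl) (Iff.rfl) (Iff.rfl) (Iff.rfl) (Around_p0123
                (key4 a ha b hb c hc d hd h_ab h_bc h_cd)
                (key a ha b hb c hc h_ab h_bc)
                (key a ha b hb d hd h_ab l13)
                (key a ha c hc d hd l02 h_cd)
                (key b hb c hc d hd h_bc h_cd)
                ((Iff.rfl).1 hab) ((Iff.rfl).1 hbc) ((Iff.rfl).1 hcd))

theorem around_v {cw : α → α → α → Prop} {lt : α → α → Prop} {V L : Finset α} (hO : Ori cw)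
    (hT : STO lt V) (hSig : Sig cw lt V) {v : α} (hv : v ∈ V) (hLV : L ⊆ V)
    (hL : ∀ p ∈ L, lt p v) : STO (aroundV cw v) L ∧ Sig cw (aroundV cw v) L := by
  refine ⟨⟨fun a _ h => (ori_ne hO h).1 rfl, fun a ha b hb c hc h1 h2 =>
    Around_trans hO hT hSig hv hLV hL ha hb hc h1 h2, fun a ha b hb h => ?_⟩, ?_⟩
  · exact hO.tot a b v h (sto_ne hT (hLV hb) (hL b hb)) (sto_ne hT (hLV ha) (hL a ha))
  · intro a ha b hb c hc d hd h1 h2 h3
    exact Around_sig hO hT hSig hv hLV hL ha hb hc hd h1 h2 h3

theorem around_h {cw : α → α → α → Prop} {lt : α → α → Prop} {V L : Finset α} (hO : Ori cw)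
    (hT : STO lt V) (hSig : Sig cw lt V) {h : α} (hh : h ∈ V) (hLV : L ⊆ V)
    (hL : ∀ p ∈ L, lt h p) : STO (aroundH cw h) L ∧ Sig cw (aroundH cw h) L := by
  have hO' := ori_flip hO
  have hT' : STO (rv lt) V := ⟨fun a ha => hT.irr a ha,
    fun a ha b hb c hc h1 h2 => hT.trans c hc b hb a ha h2 h1,
    fun a ha b hb h => (hT.tot a ha b hb h).symm⟩
  have c1 : ∀ a b c, cw a b c ↔ cw b c a := fun a b c =>
    ⟨hO.cyc a b c, fun h => hO.cyc c a b (hO.cyc b c a h)⟩
  have hSig' : Sig (flip3 cw) (rv lt) V := by
    intro a ha b hb c hc d hd h1 h2 h3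
    have m := hSig d hd c hc b hb a ha h3 h2 h1
    have e1 : flip3 cw a b c ↔ cw c b a := (c1 c b a).symm
    have e2 : flip3 cw a b d ↔ cw d b a := (c1 d b a).symm
    have e3 : flip3 cw a c d ↔ cw d c a := (c1 d c a).symm
    have e4 : flip3 cw b c d ↔ cw d c b := (c1 d c b).symm
    refine Around_congr e1 e2 e3 e4 ?_
    unfold Mono4 at *
    grind
  obtain ⟨r1, r2⟩ := around_v hO' hT' hSig' hh hLV hL
  exact ⟨r1, sig_flip hO' r1 r2⟩

end ES13
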