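import Pool.Agent.ES13.Basic

/-!
# ES13/ChainFull (MP_d79f1f_co)
A chain is completely monochromatic.
PROOF. lt (x i) (x j) for i < j <= e by transitivity (induction on j). Then, for the signotope axiom:
Mono4 A B C D with A, D true gives B, C true. Claim by induction on d: for i < j < k <= e with
k - i <= d: cw (x i) (x j) (x k). If k - i = 2: hypothesis. If k - i > 2: at least one of
j > i + 1, k > j + 1. If k > j + 1: use a = x i, b = x j, c = x (k-1)... more precisely
(x i, x j, x (k-1), x k): A = cw (x i)(x j)(x (k-1)) by induction, D = cw (x j)(x (k-1))(x k)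
by induction (k - j < k - i), so B = cw (x i)(x j)(x k). If j = k - 1 and j > i + 1: use
(x i, x (i+1), x j, x k): A = cw (x i)(x (i+1))(x j), D = cw (x (i+1))(x j)(x k) by induction,
so C = cw (x i)(x j)(x k).
-/

namespace ES13

variable {α : Type*}

theorem chainFull {cw : α → α → α → Prop} {lt : α → α → Prop} {Q : Finset α} (hT : STO lt Q)
    (hSig : Sig cw lt Q) {e : ℕ} {x : ℕ → α} (hx : ∀ i ≤ e, x i ∈ Q)
    (hlt : ∀ i < e, lt (x i) (x (i + 1)))
    (hc : ∀ i, i + 2 ≤ e → cw (x i) (x (i + 1)) (x (i + 2))) :
    (∀ i j, i < j → j ≤ e → lt (x i) (x j)) ∧ CwSeq cw (e + 1) x := by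
  have H1 : ∀ j i, i < j → j ≤ e → lt (x i) (x j) := by
    intro j
    induction j with
    | zero => intro i hi; omega
    | succ j ih =>
      intro i hi hj
      rcases Nat.lt_succ_iff_lt_or_eq.mp hi with h | h
      · exact hT.trans _ (hx i (by omega)) _ (hx j (by omega)) _ (hx (j + 1) hj)
          (ih i h (by omega)) (hlt j (by omega))
      · subst h
        exact hlt i (by omega)
  have H2 : ∀ d i j k, i < j → j < k → k ≤ e → k ≤ i + d → cw (x i) (x j) (x k) := by
    intro d
    induction d with
    | zero => intro i j k h1 h2 h3 h4; omega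
    | succ d ih =>
      intro i j k h1 h2 h3 h4
      by_cases hk : k = i + 2
      · have hj : j = i + 1 := by omega
        subst hk hj
        exact hc i h3
      · by_cases hj : j + 1 < k
        · have hS := hSig _ (hx i (by omega)) _ (hx j (by omega)) _ (hx (k - 1) (by omega)) _
            (hx k h3) (H1 _ _ h1 (by omega)) (H1 _ _ (by omega) (by omega))
            (H1 _ _ (by omega) h3)
          have hA := ih i j (k - 1) h1 (by omega) (by omega) (by omega)
          have hD := ih j (k - 1) k (by omega) (by omega) h3 (by omega)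
          exact hS.2.2.1 hA hD
        · have hjk : k = j + 1 := by omega
          have hS := hSig _ (hx i (by omega)) _ (hx (i + 1) (by omega)) _ (hx j (by omega)) _
            (hx k h3) (H1 _ _ (by omega) (by omega)) (H1 _ _ (by omega) (by omega))
            (H1 _ _ (by omega) h3)
          have hA := ih i (i + 1) j (by omega) (by omega) (by omega) (by omega)
          have hD := ih (i + 1) j k (by omega) (by omega) h3 (by omega)
          exact hS.2.2.2.2.1 hA hD
  refine ⟨fun i j h1 h2 => H1 j i h1 h2, fun i j k h1 h2 h3 => ?_⟩
  exact H2 k i j k h1 h2 (by omega) (by omega)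

end ES13
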