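import Pool.Agent.ES13.SkelL
import Pool.Agent.ES13.ChainFull

/-!
# ES13/UniteNeg (MP_d79f1f_co)
PROOF. First: if x is a chain as in ChF (neg ..) cw (Q (g+2)) (g = 4 i + c), then by skel_base and chainFull
(order aroundV, neg implies aroundV; also transitivity for aroundH reversed) CwSeq cw (e+1) x and
neg (x a) (x b) for all a < b <= e.
Induction on k: CLAIM: there is z : N -> a and M with (sum over i < k of e i) <= M, all z a (a < M) lie in
some Q (4 i + c + 2) with i < k, CwSeq cw M z, and for a < b < M and every r in Q j with
j >= 4 (k-1) + c + 2 + 3 (i.e. j >= 4 k + c + 1) and j < m: cw (z a) (z b) r. (Alternatively carry: for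
a < b < M either z a, z b are in the same part i and neg-related, or in parts i < i'.)
Step: part k (g = 4 k + c). If e k = 0 keep z, M. Otherwise the chain x with e k edges, put
z' = z followed by x 0, ..., x (e k), M' = M + e k + 1. Triples: two in z, one in x: the claim (the part
index 4 k + c + 2 is >= 4k + c + 1). One in z (call it r, in an earlier part i' < k), two in x: skel_L5
second half gives cw (x a) (x b) r (4 i' + c + 2 + 1 <= 4 k + c), cyclically cw r (x a) (x b).
New invariant: a, b both in x: skel_L5 first half (r in Q j, j >= 4(k+1)+c+1 = g + 5). a in z, b in x, r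
later: skel_triple (indices 4 i' + c + 2, 4 k + c + 2, j, differences >= 2). Both in z: the old claim.
At the end: if M >= n then z restricted to n terms contradicts hn. So sum e i <= M < n or M = 0.
(4 k + c + 1 <= m guarantees 4 i + c + 5 <= m for all i < k.)
-/

namespace ES13

variable {α : Type*}

/-- a chain of outer pairs: all pairs are outer and the chain is in cyclic position -/
private theorem unite_neg_chain {cw : α → α → α → Prop} {lt : α → α → Prop} {V : Finset α} {m : ℕ}
    {s : ℕ → α} {Q : ℕ → Finset α} (hO : Ori cw) (hT : STO lt V) (hSig : Sig cw lt V)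
    (h : Skel cw lt V m s Q) {g : ℕ} (hg : g + 5 ≤ m) {e : ℕ} {x : ℕ → α}
    (hx : ∀ i ≤ e, x i ∈ Q (g + 2))
    (hr : ∀ i < e, neg (aroundV cw (s (g + 5))) (aroundH cw (s g)) (x i) (x (i + 1)))
    (hc : ∀ i, i + 2 ≤ e → cw (x i) (x (i + 1)) (x (i + 2))) :
    (∀ i j, i < j → j ≤ e → cw (x i) (x j) (s (g + 5)) ∧ cw (x i) (x j) (s g)) ∧
      CwSeq cw (e + 1) x := by
  have hB := skel_base hO hT hSig h hg
  have h1 := chainFull hB.stoX hB.sigX hx (fun i hi => (hr i hi).1) hc
  refine ⟨fun i j hij hj => ⟨h1.1 i j hij hj, ?_⟩, h1.2⟩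
  -- transitivity for the other order
  have key : ∀ d i, i + d + 1 ≤ e → aroundH cw (s g) (x (i + d + 1)) (x i) := by
    intro d
    induction d with
    | zero =>
      intro i hi
      exact (hr i (by omega)).2
    | succ d ih =>
      intro i hi
      have a1 := ih i (by omega)
      have a2 := (hr (i + d + 1) (by omega)).2
      have a3 : i + (d + 1) + 1 = (i + d + 1) + 1 := by omega
      rw [a3]
      exact hB.stoY.trans _ (hx _ (by omega)) _ (hx _ (by omega)) _ (hx _ (by omega)) a2 a1
  obtain ⟨d, rfl⟩ : ∃ d, j = i + d + 1 := ⟨j - i - 1, by omega⟩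
  exact key d i hj

/-- clockwise outer chains of parts at distance at least two -/
theorem unite_neg {cw : α → α → α → Prop} {lt : α → α → Prop} {V : Finset α} {m : ℕ}
    {s : ℕ → α} {Q : ℕ → Finset α} {n : ℕ} (hO : Ori cw) (hT : STO lt V) (hSig : Sig cw lt V)
    (hn0 : 0 < n) (hn : NoConv cw V n) (h : Skel cw lt V m s Q) {k c : ℕ}
    (hk : 4 * k + c + 1 ≤ m) (p : ℕ → α) (e : ℕ → ℕ)
    (he : ∀ i < k, ChF (neg (aroundV cw (s (4 * i + c + 5))) (aroundH cw (s (4 * i + c)))) cw
      (Q (4 * i + c + 2)) (p i) (e i) ∨ e i = 0) :
    ∑ i ∈ Finset.range k, e i ≤ n := by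
  have claim : ∀ k', k' ≤ k → ∃ z : ℕ → α, ∃ M : ℕ, ∑ i ∈ Finset.range k', e i ≤ M ∧
      (∀ a < M, ∃ i < k', z a ∈ Q (4 * i + c + 2)) ∧ CwSeq cw M z ∧
      (∀ a b, a < b → b < M → ∀ j, 4 * k' + c + 1 ≤ j → j < m → ∀ r ∈ Q j,
        cw (z a) (z b) r) := by
    intro k'
    induction k' with
    | zero =>
      intro _
      refine ⟨fun _ => p 0, 0, by simp, fun a ha => absurd ha (Nat.not_lt_zero a), ?_, ?_⟩
      · intro i j l _ _ hl
        exact absurd hl (Nat.not_lt_zero l)
      · intro a b _ hb
        exact absurd hb (Nat.not_lt_zero b)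
    | succ k' ih =>
      intro hk'
      obtain ⟨z, M, h1, h2, h3, h4⟩ := ih (by omega)
      rcases he k' (by omega) with hch | h0
      · obtain ⟨q, x, hx0, hxe, hxQ, hxr, hxc⟩ := hch
        have hg : (4 * k' + c) + 5 ≤ m := by omega
        obtain ⟨c1, c2⟩ := unite_neg_chain hO hT hSig h hg hxQ hxr hxc
        refine ⟨fun a => if a < M then z a else x (a - M), M + (e k' + 1), ?_, ?_, ?_, ?_⟩
        · rw [Finset.sum_range_succ]
          omega
        · intro a ha
          by_cases haM : a < M
          · obtain ⟨i, hi, hz⟩ := h2 a haM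
            refine ⟨i, by omega, ?_⟩
            simpa [haM] using hz
          · refine ⟨k', by omega, ?_⟩
            simp only [haM, if_false]
            exact hxQ _ (by omega)
        · intro i j l hij hjl hl
          beta_reduce
          by_cases hlM : l < M
          · rw [if_pos (by omega), if_pos (by omega), if_pos hlM]
            exact h3 i j l hij hjl hlM
          · by_cases hjM : j < M
            · rw [if_pos (by omega), if_pos hjM, if_neg hlM]
              exact h4 i j hij hjM (4 * k' + c + 2) (by omega) (by omega) _ (hxQ _ (by omega))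
            · by_cases hiM : i < M
              · rw [if_pos hiM, if_neg hjM, if_neg hlM]
                obtain ⟨i', hi', hz⟩ := h2 i hiM
                have a1 := (skel_L5 hO hT hSig h hg (hxQ (j - M) (by omega))
                  (hxQ (l - M) (by omega)) (c1 (j - M) (l - M) (by omega) (by omega))).2
                  (4 * i' + c + 2) (by omega) (z i) hz
                exact hO.cyc _ _ _ (hO.cyc _ _ _ a1)
              · rw [if_neg hiM, if_neg hjM, if_neg hlM]
                exact c2 (i - M) (j - M) (l - M) (by omega) (by omega) (by omega)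
        · intro a b hab hb j hj hjm r hr
          beta_reduce
          by_cases hbM : b < M
          · rw [if_pos (by omega), if_pos hbM]
            exact h4 a b hab hbM j (by omega) hjm r hr
          · by_cases haM : a < M
            · rw [if_pos haM, if_neg hbM]
              obtain ⟨i', hi', hz⟩ := h2 a haM
              exact skel_triple hT hSig h (j := 4 * i' + c + 2) (j' := 4 * k' + c + 2) (j'' := j)
                (by omega) (by omega) hjm hz (hxQ _ (by omega)) hr
            · rw [if_neg haM, if_neg hbM]
              exact (skel_L5 hO hT hSig h hg (hxQ (a - M) (by omega))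
                (hxQ (b - M) (by omega)) (c1 (a - M) (b - M) (by omega) (by omega))).1
                j (by omega) hjm r hr
      · refine ⟨z, M, ?_, ?_, h3, ?_⟩
        · rw [Finset.sum_range_succ, h0]
          omega
        · intro a ha
          obtain ⟨i, hi, hz⟩ := h2 a ha
          exact ⟨i, by omega, hz⟩
        · intro a b hab hb j hj
          exact h4 a b hab hb j (by omega)
  obtain ⟨z, M, h1, h2, h3, -⟩ := claim k le_rfl
  by_contra hcon
  refine hn z ?_ (fun i j l hij hjl hl => h3 i j l hij hjl (by omega))
  intro i hi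
  obtain ⟨i', hi', hz⟩ := h2 i (by omega)
  exact h.sub _ (by omega) hz

end ES13
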