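import Pool.Agent.ES13.UnitePos
import Pool.Agent.ES13.UniteNeg

/-!
# ES13/ArrSum (MP_d79f1f_co)
PROOF. For i < k (g = 2 i, 2 i + 5 <= 2 k + 3) consider the part Q (2i+2). Every chain with e edges of colour cw
or flip3 cw and relation pos, or colour cw and relation neg, has e + 1 < n edges: by skel_base and
chainFull it is a CwSeq of length e + 1 for cw (or for flip3 cw, then use noConv_flip), with terms in V; if
e + 1 >= n this contradicts hn. So let r i = max of the e for which ChF (pos ..) cw (Q (2i+2)) p e holds for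
some p (0 if Q (2i+2) is empty), similarly l i (colour flip3 cw), a i (neg). r i, l i, a i <= n.
For i + 1 < k: r i + l (i+1) <= n: if both parts are nonempty take chains realising the maxima and
unite_pos with g = 2 i (g + 7 <= m); if one of them is empty the corresponding number is 0. So
 sum_{i<k} (r i + l i) = r (k-1) + l 0 + sum_{i<k-1} (r i + l (i+1)) <= 2 n + (k-1) n (k >= 1; trivial for
k = 0; Finset.sum_range_succ and Finset.sum_range_succ').
sum a i: split into even i = 2 i' (unite_neg with c = 0, number of parts k' = (k+1)/2: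
4 k' + 1 <= 2 k + 3) and odd i = 2 i' + 1 (c = 2, k' = k/2: 4 k' + 3 <= 2 k + 3): each sum is <= n.
(For the split: sum over range k of a i <= sum_{i' < (k+1)/2} a (2i') + sum_{i' < k/2} a (2i'+1), e.g. by
induction on k or Finset.sum over a disjoint union.) unite_neg wants, for i' < k', a chain with e i' edges or
e i' = 0. In unite_neg with c = 0 the base is s (4 i'), s (4 i' + 5), part Q (4 i' + 2): this is i = 2 i'.
-/

namespace ES13

variable {α : Type*}

private theorem arrSum_max (A : ℕ → Prop) (B : ℕ) (hB : ∀ e, A e → e ≤ B) :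
    ∃ M, M ≤ B ∧ (A M ∨ M = 0) ∧ ∀ e, A e → e ≤ M := by
  classical
  by_cases h : ∃ e, A e
  · obtain ⟨e, he⟩ := h
    exact ⟨Nat.findGreatest A B, Nat.findGreatest_le B,
      Or.inl (Nat.findGreatest_spec (hB e he) he), fun e' he' => Nat.le_findGreatest (hB e' he') he'⟩
  · exact ⟨0, Nat.zero_le _, Or.inr rfl, fun e he => absurd ⟨e, he⟩ h⟩

private theorem arrSum_chain {cw : α → α → α → Prop} {lt : α → α → Prop} {Q V : Finset α} {n : ℕ}
    (hT : STO lt Q) (hS : Sig cw lt Q) (hQV : Q ⊆ V) (hn : NoConv cw V n) {r : α → α → Prop}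
    (hr : ∀ a b, r a b → lt a b) {p : α} {e : ℕ} (h : ChF r cw Q p e) : e ≤ n := by
  obtain ⟨q, x, h0, he, hx, h1, h2⟩ := h
  obtain ⟨_, h3⟩ := chainFull hT hS hx (fun i hi => hr _ _ (h1 i hi)) h2
  by_contra hc
  refine hn x (fun i hi => hQV (hx i (by omega))) ?_
  intro i j k hij hjk hk
  exact h3 i j k hij hjk (by omega)

private theorem arrSum_split (a : ℕ → ℕ) : ∀ j : ℕ, ∑ i ∈ Finset.range (2 * j), a i =
    ∑ i ∈ Finset.range j, a (2 * i) + ∑ i ∈ Finset.range j, a (2 * i + 1) := by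
  intro j
  induction j with
  | zero => simp
  | succ j ih =>
    rw [show 2 * (j + 1) = 2 * j + 1 + 1 by ring, Finset.sum_range_succ, Finset.sum_range_succ, ih,
      Finset.sum_range_succ, Finset.sum_range_succ]
    ring

private theorem arrSum_split' (a : ℕ → ℕ) (k : ℕ) : ∑ i ∈ Finset.range k, a i =
    ∑ i ∈ Finset.range ((k + 1) / 2), a (2 * i) + ∑ i ∈ Finset.range (k / 2), a (2 * i + 1) := by
  obtain ⟨j, hj | hj⟩ : ∃ j, k = 2 * j ∨ k = 2 * j + 1 := ⟨k / 2, by omega⟩
  · subst hj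
    rw [show (2 * j + 1) / 2 = j by omega, show 2 * j / 2 = j by omega]
    exact arrSum_split a j
  · subst hj
    rw [show (2 * j + 1 + 1) / 2 = j + 1 by omega, show (2 * j + 1) / 2 = j by omega,
      Finset.sum_range_succ, arrSum_split a j, Finset.sum_range_succ]
    ring

theorem arrSum {cw : α → α → α → Prop} {lt : α → α → Prop} {V : Finset α}
    {s : ℕ → α} {Q : ℕ → Finset α} {n k : ℕ} (hO : Ori cw) (hT : STO lt V) (hSig : Sig cw lt V)
    (hn0 : 0 < n) (hn : NoConv cw V n) (h : Skel cw lt V (2 * k + 3) s Q) :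
    ∃ r l a : ℕ → ℕ,
      (∀ i < k, Bd cw (aroundV cw (s (2 * i + 5))) (aroundH cw (s (2 * i))) (Q (2 * i + 2))
        (r i) (l i) (a i)) ∧
      (∀ i < k, r i ≤ n ∧ l i ≤ n) ∧
      ∑ i ∈ Finset.range k, (r i + l i) ≤ (k + 1) * n ∧ ∑ i ∈ Finset.range k, a i ≤ 2 * n := by
  have hbase : ∀ i, i < k → BO cw (aroundV cw (s (2 * i + 5))) (aroundH cw (s (2 * i)))
      (Q (2 * i + 2)) := fun i hi => skel_base hO hT hSig h (by omega)
  have hsub : ∀ i, i < k → Q (2 * i + 2) ⊆ V := fun i hi => h.sub _ (by omega)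
  have hnf : NoConv (flip3 cw) V n := noConv_flip hO hn
  have hr : ∀ i, ∃ M, M ≤ n ∧ ((i < k ∧ ∃ p, ChF (pos (aroundV cw (s (2 * i + 5)))
      (aroundH cw (s (2 * i)))) cw (Q (2 * i + 2)) p M) ∨ M = 0) ∧
      ∀ e, (i < k ∧ ∃ p, ChF (pos (aroundV cw (s (2 * i + 5)))
      (aroundH cw (s (2 * i)))) cw (Q (2 * i + 2)) p e) → e ≤ M := by
    intro i
    apply arrSum_max (fun e => i < k ∧ ∃ p, ChF (pos (aroundV cw (s (2 * i + 5)))
      (aroundH cw (s (2 * i)))) cw (Q (2 * i + 2)) p e)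
    rintro e ⟨hi, p, hp⟩
    exact arrSum_chain (hbase i hi).stoX (hbase i hi).sigX (hsub i hi) hn
      (fun _ _ hab => hab.1) hp
  have hl : ∀ i, ∃ M, M ≤ n ∧ ((i < k ∧ ∃ p, ChF (pos (aroundV cw (s (2 * i + 5)))
      (aroundH cw (s (2 * i)))) (flip3 cw) (Q (2 * i + 2)) p M) ∨ M = 0) ∧
      ∀ e, (i < k ∧ ∃ p, ChF (pos (aroundV cw (s (2 * i + 5)))
      (aroundH cw (s (2 * i)))) (flip3 cw) (Q (2 * i + 2)) p e) → e ≤ M := by
    intro i
    apply arrSum_max (fun e => i < k ∧ ∃ p, ChF (pos (aroundV cw (s (2 * i + 5)))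
      (aroundH cw (s (2 * i)))) (flip3 cw) (Q (2 * i + 2)) p e)
    rintro e ⟨hi, p, hp⟩
    exact arrSum_chain (hbase i hi).stoX (sig_flip hO (hbase i hi).stoX (hbase i hi).sigX)
      (hsub i hi) hnf (fun _ _ hab => hab.1) hp
  have ha : ∀ i, ∃ M, M ≤ n ∧ ((i < k ∧ ∃ p, ChF (neg (aroundV cw (s (2 * i + 5)))
      (aroundH cw (s (2 * i)))) cw (Q (2 * i + 2)) p M) ∨ M = 0) ∧
      ∀ e, (i < k ∧ ∃ p, ChF (neg (aroundV cw (s (2 * i + 5)))
      (aroundH cw (s (2 * i)))) cw (Q (2 * i + 2)) p e) → e ≤ M := by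
    intro i
    apply arrSum_max (fun e => i < k ∧ ∃ p, ChF (neg (aroundV cw (s (2 * i + 5)))
      (aroundH cw (s (2 * i)))) cw (Q (2 * i + 2)) p e)
    rintro e ⟨hi, p, hp⟩
    exact arrSum_chain (hbase i hi).stoX (hbase i hi).sigX (hsub i hi) hn
      (fun _ _ hab => hab.1) hp
  choose r hr1 hr2 hr3 using hr
  choose l hl1 hl2 hl3 using hl
  choose a ha1 ha2 ha3 using ha
  refine ⟨r, l, a, ?_, fun i _ => ⟨hr1 i, hl1 i⟩, ?_, ?_⟩
  · intro i hi
    exact ⟨fun p e hp => hr3 i e ⟨hi, p, hp⟩, fun p e hp => hl3 i e ⟨hi, p, hp⟩,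
      fun p e hp => ha3 i e ⟨hi, p, hp⟩⟩
  · have hstep : ∀ i, i + 1 < k → r i + l (i + 1) ≤ n := by
      intro i hi
      rcases hr2 i with ⟨_, p, hp⟩ | h5
      · rcases hl2 (i + 1) with ⟨_, p', hp'⟩ | h6
        · have h7 := unite_pos (g := 2 * i) hO hT hSig hn h (by omega) hp (p' := p')
            (e' := l (i + 1)) hp'
          omega
        · rw [h6, add_zero]
          exact hr1 i
      · rw [h5, zero_add]
        exact hl1 (i + 1)
    rcases Nat.eq_zero_or_pos k with hk | hk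
    · subst hk
      simp
    · obtain ⟨m, rfl⟩ : ∃ m, k = m + 1 := ⟨k - 1, by omega⟩
      rw [Finset.sum_add_distrib, Finset.sum_range_succ, Finset.sum_range_succ' l]
      have h5 : ∑ i ∈ Finset.range m, r i + ∑ i ∈ Finset.range m, l (i + 1) ≤ m * n := by
        rw [← Finset.sum_add_distrib]
        calc ∑ i ∈ Finset.range m, (r i + l (i + 1)) ≤ ∑ i ∈ Finset.range m, n :=
              Finset.sum_le_sum (fun i hi => hstep i (by
                have := Finset.mem_range.1 hi
                omega))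
          _ = m * n := by rw [Finset.sum_const, Finset.card_range, smul_eq_mul]
      have h6 := hr1 m
      have h7 := hl1 0
      have h8 : (m + 1 + 1) * n = m * n + n + n := by ring
      rw [h8]
      omega
  · rw [arrSum_split' a k]
    have hp0 : ∀ i, ∃ p, i < k → ChF (neg (aroundV cw (s (2 * i + 5)))
        (aroundH cw (s (2 * i)))) cw (Q (2 * i + 2)) p (a i) ∨ a i = 0 := by
      intro i
      rcases ha2 i with ⟨_, p, hp⟩ | h5
      · exact ⟨p, fun _ => Or.inl hp⟩
      · exact ⟨s 0, fun _ => Or.inr h5⟩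
    choose p hp using hp0
    have h5 := unite_neg (k := (k + 1) / 2) (c := 0) hO hT hSig hn0 hn h (by omega)
      (fun i => p (2 * i)) (fun i => a (2 * i)) (by
        intro i hi
        have h6 := hp (2 * i) (by omega)
        rw [show 4 * i + 0 + 5 = 2 * (2 * i) + 5 by ring, show 4 * i + 0 = 2 * (2 * i) by ring]
        exact h6)
    have h7 := unite_neg (k := k / 2) (c := 2) hO hT hSig hn0 hn h (by omega)
      (fun i => p (2 * i + 1)) (fun i => a (2 * i + 1)) (by
        intro i hi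
        have h6 := hp (2 * i + 1) (by omega)
        rw [show 4 * i + 2 + 5 = 2 * (2 * i + 1) + 5 by ring, show 4 * i + 2 = 2 * (2 * i + 1) by ring]
        exact h6)
    omega

end ES13
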