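import Pool.Agent.ES13.Def

/-!
# ES13/Basic (MP_d79f1f_co)
Small facts about the definitions of ES13/Def. All are immediate.
* ori_flip: flip3 cw a b c unfolds to cw b a c. cyc: cw b a c -> cw a c b -> cw c b a (cyc twice).
* ori_ne: cw a a c contradicts anti (anti a a c); the other equalities after cyc.
* sig_flip: for a < b < c < d (all distinct by STO, sto_ne and transitivity) one has
  flip3 cw x y z <-> not (cw x y z) for the four triples (anti and tot), and Mono4 is invariant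
  under negating all four entries (tauto / by_cases).
* noConv_flip: given x with CwSeq (flip3 cw) n x, use x' i = x (n - 1 - i): for a < b < c < n
  flip3 cw (x a) (x b) (x c) = cw (x b) (x a) (x c), by cyc twice cw (x c) (x b) (x a).
* chB_reverse: x' i = x (e - i). For the colours: c (x i) (x (i+1)) (x (i+2)) gives by cyc
  c (x (i+1)) (x (i+2)) (x i), i.e. flip3 c (x (i+2)) (x (i+1)) (x i).
-/

namespace ES13

variable {α : Type*}

theorem ori_flip {cw : α → α → α → Prop} (h : Ori cw) : Ori (flip3 cw) := by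
  refine ⟨fun a b c hc => ?_, fun a b c hc hc' => ?_, fun a b c hab hbc hac => ?_⟩
  · have h1 : cw b a c := hc
    exact h.cyc _ _ _ (h.cyc _ _ _ h1)
  · exact h.anti b a c hc hc'
  · rcases h.tot a b c hab hbc hac with h1 | h1
    · exact Or.inr h1
    · exact Or.inl h1

theorem ori_ne {cw : α → α → α → Prop} (h : Ori cw) {a b c : α} (hc : cw a b c) :
    a ≠ b ∧ b ≠ c ∧ a ≠ c := by
  refine ⟨?_, ?_, ?_⟩
  · rintro rfl
    exact h.anti a a c hc hc
  · rintro rfl
    have h1 := h.cyc _ _ _ hc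
    exact h.anti b b a h1 h1
  · rintro rfl
    have h1 := h.cyc _ _ _ (h.cyc _ _ _ hc)
    exact h.anti a a b h1 h1

theorem sto_sub {lt : α → α → Prop} {P P' : Finset α} (h : STO lt P) (hP : P' ⊆ P) :
    STO lt P' :=
  ⟨fun a ha => h.irr a (hP ha),
    fun a ha b hb c hc => h.trans a (hP ha) b (hP hb) c (hP hc),
    fun a ha b hb => h.tot a (hP ha) b (hP hb)⟩

theorem sto_ne {lt : α → α → Prop} {P : Finset α} (h : STO lt P) {a b : α} (ha : a ∈ P)
    (hab : lt a b) : a ≠ b := by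
  rintro rfl
  exact h.irr a ha hab

theorem sig_sub {cw : α → α → α → Prop} {lt : α → α → Prop} {P P' : Finset α}
    (h : Sig cw lt P) (hP : P' ⊆ P) : Sig cw lt P' :=
  fun a ha b hb c hc d hd => h a (hP ha) b (hP hb) c (hP hc) d (hP hd)

private theorem flip_iff {cw : α → α → α → Prop} (hO : Ori cw) {a b c : α} (hab : a ≠ b)
    (hbc : b ≠ c) (hac : a ≠ c) : flip3 cw a b c ↔ ¬ cw a b c := by
  constructor
  · intro h h'
    exact hO.anti a b c h' h
  · intro h
    rcases hO.tot a b c hab hbc hac with h1 | h1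
    · exact absurd h1 h
    · exact h1

private theorem mono4_not {A B C D : Prop} (h : Mono4 A B C D) :
    Mono4 (¬ A) (¬ B) (¬ C) (¬ D) := by
  unfold Mono4 at h ⊢
  by_cases hA : A <;> by_cases hB : B <;> by_cases hC : C <;> by_cases hD : D <;>
    simp_all

theorem sig_flip {cw : α → α → α → Prop} {lt : α → α → Prop} {P : Finset α} (hO : Ori cw)
    (hS : STO lt P) (h : Sig cw lt P) : Sig (flip3 cw) lt P := by
  intro a ha b hb c hc d hd hab hbc hcd
  have hac := hS.trans a ha b hb c hc hab hbc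
  have hbd := hS.trans b hb c hc d hd hbc hcd
  have had := hS.trans a ha b hb d hd hab hbd
  have nab := sto_ne hS ha hab
  have nac := sto_ne hS ha hac
  have nad := sto_ne hS ha had
  have nbc := sto_ne hS hb hbc
  have nbd := sto_ne hS hb hbd
  have ncd := sto_ne hS hc hcd
  have e1 : flip3 cw a b c = ¬ cw a b c := propext (flip_iff hO nab nbc nac)
  have e2 : flip3 cw a b d = ¬ cw a b d := propext (flip_iff hO nab nbd nad)
  have e3 : flip3 cw a c d = ¬ cw a c d := propext (flip_iff hO nac ncd nad)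
  have e4 : flip3 cw b c d = ¬ cw b c d := propext (flip_iff hO nbc ncd nbd)
  rw [e1, e2, e3, e4]
  exact mono4_not (h a ha b hb c hc d hd hab hbc hcd)

theorem noConv_sub {cw : α → α → α → Prop} {V V' : Finset α} {n : ℕ}
    (h : NoConv cw V n) (hV : V' ⊆ V) : NoConv cw V' n :=
  fun x hx hc => h x (fun i hi => hV (hx i hi)) hc

theorem noConv_flip {cw : α → α → α → Prop} {V : Finset α} {n : ℕ} (hO : Ori cw)
    (h : NoConv cw V n) : NoConv (flip3 cw) V n := by
  intro x hx hc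
  apply h (fun i => x (n - 1 - i))
  · intro i hi
    exact hx _ (by omega)
  · intro i j k hij hjk hk
    have h1 : flip3 cw (x (n - 1 - k)) (x (n - 1 - j)) (x (n - 1 - i)) :=
      hc _ _ _ (by omega) (by omega) (by omega)
    have h2 : cw (x (n - 1 - j)) (x (n - 1 - k)) (x (n - 1 - i)) := h1
    exact hO.cyc _ _ _ (hO.cyc _ _ _ h2)

theorem chB_mono {r r' : α → α → Prop} {c c' : α → α → α → Prop} {Q Q' : Finset α} {p q : α}
    {e : ℕ} (h : ChB r c Q p q e) (hQ : Q ⊆ Q') (hr : ∀ a ∈ Q, ∀ b ∈ Q, r a b → r' a b)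
    (hc : ∀ a ∈ Q, ∀ b ∈ Q, ∀ d ∈ Q, c a b d → c' a b d) : ChB r' c' Q' p q e := by
  obtain ⟨x, h0, h1, h2, h3, h4⟩ := h
  exact ⟨x, h0, h1, fun i hi => hQ (h2 i hi),
    fun i hi => hr _ (h2 i (by omega)) _ (h2 (i + 1) (by omega)) (h3 i hi),
    fun i hi => hc _ (h2 i (by omega)) _ (h2 (i + 1) (by omega)) _ (h2 (i + 2) hi) (h4 i hi)⟩

theorem chF_mono {r r' : α → α → Prop} {c c' : α → α → α → Prop} {Q Q' : Finset α} {p : α}
    {e : ℕ} (h : ChF r c Q p e) (hQ : Q ⊆ Q') (hr : ∀ a ∈ Q, ∀ b ∈ Q, r a b → r' a b)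
    (hc : ∀ a ∈ Q, ∀ b ∈ Q, ∀ d ∈ Q, c a b d → c' a b d) : ChF r' c' Q' p e := by
  obtain ⟨q, hq⟩ := h
  exact ⟨q, chB_mono hq hQ hr hc⟩

theorem chF_zero {r : α → α → Prop} {c : α → α → α → Prop} {Q : Finset α} {p : α}
    (hp : p ∈ Q) : ChF r c Q p 0 :=
  ⟨p, fun _ => p, rfl, rfl, fun _ _ => hp, fun i hi => absurd hi (by omega),
    fun i hi => absurd hi (by omega)⟩

theorem chF_mem {r : α → α → Prop} {c : α → α → α → Prop} {Q : Finset α} {p : α} {e : ℕ}
    (h : ChF r c Q p e) : p ∈ Q := by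
  obtain ⟨q, x, h0, _, h2, _⟩ := h
  rw [← h0]
  exact h2 0 (Nat.zero_le _)

theorem chB_mem {r : α → α → Prop} {c : α → α → α → Prop} {Q : Finset α} {p q : α} {e : ℕ}
    (h : ChB r c Q p q e) : p ∈ Q ∧ q ∈ Q := by
  obtain ⟨x, h0, h1, h2, _⟩ := h
  constructor
  · rw [← h0]
    exact h2 0 (Nat.zero_le _)
  · rw [← h1]
    exact h2 e le_rfl

theorem chB_reverse {r : α → α → Prop} {c : α → α → α → Prop} (hO : Ori c) {Q : Finset α}
    {p q : α} {e : ℕ} (h : ChB r c Q p q e) : ChB (rv r) (flip3 c) Q q p e := by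
  obtain ⟨x, h0, h1, h2, h3, h4⟩ := h
  refine ⟨fun i => x (e - i), ?_, ?_, ?_, ?_, ?_⟩
  · change x (e - 0) = q
    rw [Nat.sub_zero, h1]
  · change x (e - e) = p
    rw [Nat.sub_self, h0]
  · intro i _
    exact h2 _ (Nat.sub_le _ _)
  · intro i hi
    change r (x (e - (i + 1))) (x (e - i))
    have h5 := h3 (e - (i + 1)) (by omega)
    rwa [show e - (i + 1) + 1 = e - i by omega] at h5
  · intro i hi
    change c (x (e - (i + 1))) (x (e - i)) (x (e - (i + 2)))
    have h5 := h4 (e - (i + 2)) (by omega)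
    rw [show e - (i + 2) + 1 = e - (i + 1) by omega,
      show e - (i + 2) + 2 = e - i by omega] at h5
    exact hO.cyc _ _ _ h5

end ES13
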