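import Pool.Agent.ES13.ADef

/-!
# ES13/Before (MP_d79f1f_co)
* before_iff: induction on t - s (Int.le_induction). One step: for i != j exactly one of before w i j, before w j i
 holds (injectivity of w.symm); if not Reverses (pi t) (pi (t+1)) i j then before (pi t) i j <-> before (pi (t+1)) i j.
* exists_rev: take the move at time t0: B nonempty, b in B; the indices a = pi t0 b.1, a' = pi t0 b.2 are
 reversed (inside with p = b.1, q = b.2 and p = b.2, q = b.1: positions exchanged; b.1 < b.2). If the pair i, j is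
 reversed at t0 take t = t0. Otherwise once (t0, a, a') for k = i, l = j gives u > t0.
-/

namespace ES13

variable {α : Type*}

theorem before_iff {N : ℕ} (π : ℤ → Equiv.Perm (Fin N)) {i j : Fin N} (hij : i ≠ j) (s t : ℤ)
    (hst : s ≤ t) (h : ∀ u, s ≤ u → u < t → ¬ Reverses (π u) (π (u + 1)) i j) :
    before (π s) i j ↔ before (π t) i j := by
  obtain ⟨d, rfl⟩ := Int.le.dest hst
  clear hst
  induction d with
  | zero => simp
  | succ d ih =>
    have h1 := ih (fun u hu1 hu2 => h u hu1 (by push_cast; omega))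
    rw [h1]
    have h2 := h (s + d) (by omega) (by push_cast; omega)
    have h3 : s + (d : ℤ) + 1 = s + ((d + 1 : ℕ) : ℤ) := by push_cast; ring
    rw [h3] at h2
    have key : ∀ w : Equiv.Perm (Fin N), before w i j ∨ before w j i := by
      intro w
      rcases lt_trichotomy (w.symm i) (w.symm j) with h4 | h4 | h4
      · exact Or.inl h4
      · exact absurd (w.symm.injective h4) hij
      · exact Or.inr h4
    have key2 : ∀ w : Equiv.Perm (Fin N), before w i j → before w j i → False := by
      intro w h4 h5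
      exact lt_asymm h4 h5
    constructor
    · intro h4
      rcases key (π (s + ((d + 1 : ℕ) : ℤ))) with h5 | h5
      · exact h5
      · exact absurd (Or.inl ⟨h4, h5⟩) h2
    · intro h4
      rcases key (π (s + (d : ℤ))) with h5 | h5
      · exact h5
      · exact absurd (Or.inr ⟨h5, h4⟩) h2

theorem exists_rev {N : ℕ} {π : ℤ → Equiv.Perm (Fin N)} (h : Allowable π) {i j : Fin N}
    (hij : i ≠ j) (t0 : ℤ) : ∃ t, t0 ≤ t ∧ Reverses (π t) (π (t + 1)) i j := by
  obtain ⟨B, hB⟩ := h.move t0
  obtain ⟨b, hb⟩ := hB.ne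
  have hlt := hB.lt b hb
  have h1 : π (t0 + 1) b.2 = π t0 b.1 := hB.inside b hb b.1 b.2 le_rfl hlt.le rfl
  have h2 : π (t0 + 1) b.1 = π t0 b.2 := hB.inside b hb b.2 b.1 hlt.le le_rfl (add_comm _ _)
  have hrev : Reverses (π t0) (π (t0 + 1)) (π t0 b.1) (π t0 b.2) := by
    left
    constructor
    · change (π t0).symm (π t0 b.1) < (π t0).symm (π t0 b.2)
      rw [Equiv.symm_apply_apply, Equiv.symm_apply_apply]
      exact hlt
    · change (π (t0 + 1)).symm (π t0 b.2) < (π (t0 + 1)).symm (π t0 b.1)
      rw [← h1, ← h2, Equiv.symm_apply_apply, Equiv.symm_apply_apply]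
      exact hlt
  by_cases h3 : Reverses (π t0) (π (t0 + 1)) i j
  · exact ⟨t0, le_rfl, h3⟩
  · obtain ⟨u, hu, hu2, _⟩ := h.once t0 _ _ hrev i j hij h3
    exact ⟨u, hu.le, hu2⟩

end ES13
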