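import Pool.Agent.ES13.CountRel
import Pool.Agent.ES13.ChainFull

/-!
# ES13/CupsCaps (MP_d79f1f_co)
Cups-caps theorem (weak form) from countRel.
PROOF. T = 0: A empty. T = 1: B is nonempty, a singleton. Let T >= 2 and suppose there is no such A. Colours
c and c' = not c. Both satisfy the signotope condition on B (Mono4 is invariant under negating all entries).
A chain x with e edges (relation <, colour c, terms in B) satisfies c (x i) (x j) (x k) for all
i < j < k <= e (induction as in ES13/ChainFull; you may import and use chainFull, STO (. < .) B is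
immediate); if e + 1 >= T its first T terms form a set A with card T and MonoSet c A. So e <= T - 2. The same
for c'. countRel with index type Unit (or Fin 1), relation (. < .), colours c, c', x = y = T - 2 gives
B.card <= (2 (T-2)).choose (T-2) <= 2^(2 (T-2)) = 4^(T-2) < 4^T. Contradiction.
(Adding the import Pool.Agent.ES13.ChainFull is fine.)
-/

namespace ES13

variable {α : Type*}

theorem sto_lt (B : Finset ℕ) : STO (· < ·) B :=
  ⟨fun a _ => lt_irrefl a, fun _ _ _ _ _ _ h1 h2 => lt_trans h1 h2,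
    fun _ _ _ _ h => lt_or_gt_of_ne h⟩

theorem sig_not (c : ℕ → ℕ → ℕ → Prop) (B : Finset ℕ) (hSig : Sig c (· < ·) B) :
    Sig (fun i j k => ¬ c i j k) (· < ·) B := by
  intro a ha b hb c' hc' d hd h1 h2 h3
  obtain ⟨m1, m2, m3, m4, m5, m6, m7, m8⟩ := hSig a ha b hb c' hc' d hd h1 h2 h3
  have aux : ∀ {A B C : Prop}, (A → C → B) → (¬ B → ¬ A ∨ ¬ C) := fun {A B C} m hB =>
    Classical.by_contradiction fun h => hB (m (Classical.by_contradiction fun hA => h (Or.inl hA))
      (Classical.by_contradiction fun hC => h (Or.inr hC)))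
  have aux2 : ∀ {A B C : Prop}, (B → A ∨ C) → (¬ A → ¬ C → ¬ B) := fun {A B C} m hA hC hB =>
    (m hB).elim hA hC
  exact ⟨aux2 m2, aux m1, aux2 m4, aux m3, aux2 m6, aux m5, aux2 m8, aux m7⟩

theorem chain_to_set (c : ℕ → ℕ → ℕ → Prop) (B : Finset ℕ) (hSig : Sig c (· < ·) B) (T : ℕ)
    (p e : ℕ) (he : T ≤ e + 1) (h : ChF (· < ·) c B p e) :
    ∃ A ⊆ B, A.card = T ∧ MonoSet c A := by
  obtain ⟨q, x, -, -, hx, hlt, hc⟩ := h
  obtain ⟨hm, hcw⟩ := chainFull (sto_lt B) hSig hx hlt hc
  refine ⟨(Finset.range T).image x, ?_, ?_, ?_⟩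
  · intro y hy
    rw [Finset.mem_image] at hy
    obtain ⟨i, hi, rfl⟩ := hy
    rw [Finset.mem_range] at hi
    exact hx i (by omega)
  · rw [Finset.card_image_of_injOn, Finset.card_range]
    intro i hi j hj hij
    rw [Finset.mem_coe, Finset.mem_range] at hi hj
    rcases lt_trichotomy i j with h | h | h
    · have := hm i j h (by omega)
      rw [hij] at this
      exact absurd this (lt_irrefl _)
    · exact h
    · have := hm j i h (by omega)
      rw [hij] at this
      exact absurd this (lt_irrefl _)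
  · intro i hi j hj k hk hij hjk
    rw [Finset.mem_image] at hi hj hk
    obtain ⟨i', hi', rfl⟩ := hi
    obtain ⟨j', hj', rfl⟩ := hj
    obtain ⟨k', hk', rfl⟩ := hk
    rw [Finset.mem_range] at hi' hj' hk'
    have mono : ∀ a b, a < T → b < T → x a < x b → a < b := by
      intro a b ha hb hab
      rcases lt_trichotomy a b with h | h | h
      · exact h
      · rw [h] at hab
        exact absurd hab (lt_irrefl _)
      · have := hm b a h (by omega)
        omega
    exact hcw i' j' k' (mono i' j' hi' hj' hij) (mono j' k' hj' hk' hjk) (by omega)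

theorem cupsCaps (c : ℕ → ℕ → ℕ → Prop) (B : Finset ℕ) (hSig : Sig c (· < ·) B) (T : ℕ)
    (hB : 4 ^ T ≤ B.card) :
    ∃ A ⊆ B, A.card = T ∧ (MonoSet c A ∨ MonoSet (fun i j k => ¬ c i j k) A) := by
  by_contra hcon
  push Not at hcon
  have hT0 : T ≠ 0 := by
    rintro rfl
    have := (hcon ∅ (Finset.empty_subset B) Finset.card_empty).1
    exact this (fun i hi => absurd hi (Finset.notMem_empty i))
  have hT1 : T ≠ 1 := by
    rintro rfl
    have hne : B.Nonempty := by
      rw [← Finset.card_pos]
      omega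
    obtain ⟨b, hb⟩ := hne
    have := (hcon {b} (Finset.singleton_subset_iff.2 hb) (Finset.card_singleton b)).1
    apply this
    intro i hi j hj k hk hij hjk
    rw [Finset.mem_singleton] at hi hj
    omega
  have h1 : ∀ p e, ChF (· < ·) c B p e → e ≤ T - 2 := by
    intro p e h
    by_contra hlt
    obtain ⟨A, hA, hcard, hm⟩ := chain_to_set c B hSig T p e (by omega) h
    exact (hcon A hA hcard).1 hm
  have h2 : ∀ p e, ChF (· < ·) (fun i j k => ¬ c i j k) B p e → e ≤ T - 2 := by
    intro p e h
    by_contra hlt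
    obtain ⟨A, hA, hcard, hm⟩ := chain_to_set _ B (sig_not c B hSig) T p e (by omega) h
    exact (hcon A hA hcard).2 hm
  have key := countRel (ι := Unit) (fun _ => (· < ·)) (fun _ => c) (fun _ i j k => ¬ c i j k) B
    (fun _ => T - 2) (fun _ => T - 2)
    (fun p _ q _ hpq => ⟨(), lt_or_gt_of_ne hpq⟩)
    (fun _ p _ q _ s _ _ _ => Classical.em _)
    (fun _ p e h => h1 p e h) (fun _ p e h => h2 p e h)
  have hk : B.card ≤ ((T - 2) + (T - 2)).choose (T - 2) := by
    simpa using key
  have hk2 : ((T - 2) + (T - 2)).choose (T - 2) ≤ 2 ^ ((T - 2) + (T - 2)) :=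
    Nat.choose_le_two_pow _ _
  have hk3 : (4 : ℕ) ^ T = 2 ^ (2 * T) := by
    rw [pow_mul]
    norm_num
  have hk4 : (2 : ℕ) ^ ((T - 2) + (T - 2)) < 2 ^ (2 * T) :=
    Nat.pow_lt_pow_right (by norm_num) (by omega)
  omega

end ES13
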