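import Pool.Agent.ES13.Def

/-!
# ES13/DMap (MP_d79f1f_co)
The D-map lemma (Erdos-Szekeres labels with down-sets). No geometry, no transitivity.
PROOF. For p, q in Q with r p q let A p q = largest e such that some chain x (as in ChB r c1 Q)
with e edges has x 0 = p and x 1 = q, e >= 1 (e = 1 always works: x 0 = p, x i = q for i >= 1;
e <= x by hx since such a chain gives ChF r c1 Q p e). Let B p q be the same with colour c2. So
1 <= A p q <= x, 1 <= B p q <= y. If r p q, r q s then by hc either c1 p q s, and then prepending p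
to the longest c1-chain that starts with q, s gives A p q >= A q s + 1, or c2 p q s and then
B p q >= B q s + 1.
For p in Q and i in N let f p i = max of B p q over the q in Q with r p q and A p q >= i (0 if
there is none). f p is antitone in i, f p i <= y. Put
  D p = image of (fun i : Fin x => f p (x - i) + i), i = 0, ..., x - 1.
The function i -> f p (x - i) + i is strictly increasing with values < x + y
(i <= x - 1, f <= y), so D p has x elements and lies in range (x + y).
If D p = D q then the two strictly increasing functions Fin x -> N have the same range, hence are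
equal (StrictMono.range_inj, or Finset.orderEmbOfFin_unique), so f p i = f q i for 1 <= i <= x.
Now let r p q and suppose D p = D q. With i = A p q (1 <= i <= x): f q i = f p i >= B p q >= 1. So
there is s in Q with r q s, A q s >= A p q, B q s = f q i >= B p q, contradicting the previous
paragraph (A p q >= A q s + 1 or B p q >= B q s + 1).
(Use Classical; Finset.sup or Nat.findGreatest for the maxima. You may define auxiliary notions.)
-/

namespace ES13

variable {α : Type*}

/-- there is a chain with `e` edges in `Q` which starts with `p, q` -/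
private def DE (r : α → α → Prop) (c : α → α → α → Prop) (Q : Finset α) (p q : α) (e : ℕ) : Prop :=
  ∃ z : ℕ → α, z 0 = p ∧ z 1 = q ∧ (∀ i ≤ e, z i ∈ Q) ∧ (∀ i < e, r (z i) (z (i + 1))) ∧
    (∀ i, i + 2 ≤ e → c (z i) (z (i + 1)) (z (i + 2)))

private lemma de_chf {r : α → α → Prop} {c : α → α → α → Prop} {Q : Finset α} {p q : α} {e : ℕ}
    (h : DE r c Q p q e) : ChF r c Q p e := by
  obtain ⟨z, h0, _, h2, h3, h4⟩ := h
  exact ⟨z e, z, h0, rfl, h2, h3, h4⟩

private lemma de_one {r : α → α → Prop} {c : α → α → α → Prop} {Q : Finset α} {p q : α}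
    (hp : p ∈ Q) (hq : q ∈ Q) (h : r p q) : DE r c Q p q 1 := by
  refine ⟨fun i => if i = 0 then p else q, rfl, rfl, fun i _ => ?_, fun i hi => ?_,
    fun i hi => ?_⟩
  · dsimp only
    split_ifs
    · exact hp
    · exact hq
  · have : i = 0 := by omega
    subst this
    exact h
  · omega

private lemma de_cons {r : α → α → Prop} {c : α → α → α → Prop} {Q : Finset α} {p q s : α}
    {e : ℕ} (hp : p ∈ Q) (h : r p q) (hcc : c p q s) (hd : DE r c Q q s e) :
    DE r c Q p q (e + 1) := by
  obtain ⟨z, h0, h1, h2, h3, h4⟩ := hd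
  refine ⟨fun i => Nat.casesOn i p z, rfl, h0, fun i hi => ?_, fun i hi => ?_, fun i hi => ?_⟩
  · cases i with
    | zero => exact hp
    | succ i => exact h2 i (by omega)
  · cases i with
    | zero =>
      change r p (z 0)
      rw [h0]
      exact h
    | succ i => exact h3 i (by omega)
  · cases i with
    | zero =>
      change c p (z 0) (z 1)
      rw [h0, h1]
      exact hcc
    | succ i => exact h4 i (by omega)

theorem dmap (r : α → α → Prop) (c₁ c₂ : α → α → α → Prop) (Q : Finset α) (x y : ℕ)
    (hc : ∀ p ∈ Q, ∀ q ∈ Q, ∀ s ∈ Q, r p q → r q s → c₁ p q s ∨ c₂ p q s)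
    (hx : ∀ p e, ChF r c₁ Q p e → e ≤ x) (hy : ∀ p e, ChF r c₂ Q p e → e ≤ y) :
    ∃ D : α → Finset ℕ, (∀ p ∈ Q, D p ∈ (Finset.range (x + y)).powersetCard x) ∧
      ∀ p ∈ Q, ∀ q ∈ Q, r p q → D p ≠ D q := by
  classical
  let A : α → α → ℕ := fun p q => Nat.findGreatest (DE r c₁ Q p q) x
  let B : α → α → ℕ := fun p q => Nat.findGreatest (DE r c₂ Q p q) y
  have hAx : ∀ p q, A p q ≤ x := fun p q => Nat.findGreatest_le x
  have hBy : ∀ p q, B p q ≤ y := fun p q => Nat.findGreatest_le y
  have hx1 : ∀ p ∈ Q, ∀ q ∈ Q, r p q → 1 ≤ x := fun p hp q hq h =>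
    hx p 1 (de_chf (de_one (c := c₁) hp hq h))
  have hy1 : ∀ p ∈ Q, ∀ q ∈ Q, r p q → 1 ≤ y := fun p hp q hq h =>
    hy p 1 (de_chf (de_one (c := c₂) hp hq h))
  have hA1 : ∀ p ∈ Q, ∀ q ∈ Q, r p q → 1 ≤ A p q := fun p hp q hq h =>
    Nat.le_findGreatest (hx1 p hp q hq h) (de_one hp hq h)
  have hB1 : ∀ p ∈ Q, ∀ q ∈ Q, r p q → 1 ≤ B p q := fun p hp q hq h =>
    Nat.le_findGreatest (hy1 p hp q hq h) (de_one hp hq h)
  have hAs : ∀ p ∈ Q, ∀ q ∈ Q, r p q → DE r c₁ Q p q (A p q) := fun p hp q hq h =>
    Nat.findGreatest_spec (hx1 p hp q hq h) (de_one hp hq h)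
  have hBs : ∀ p ∈ Q, ∀ q ∈ Q, r p q → DE r c₂ Q p q (B p q) := fun p hp q hq h =>
    Nat.findGreatest_spec (hy1 p hp q hq h) (de_one hp hq h)
  have hkey : ∀ p ∈ Q, ∀ q ∈ Q, ∀ s ∈ Q, r p q → r q s →
      A q s + 1 ≤ A p q ∨ B q s + 1 ≤ B p q := by
    intro p hp q hq s hs hpq hqs
    rcases hc p hp q hq s hs hpq hqs with h | h
    · left
      have h1 := de_cons hp hpq h (hAs q hq s hs hqs)
      exact Nat.le_findGreatest (hx p _ (de_chf h1)) h1
    · right
      have h1 := de_cons hp hpq h (hBs q hq s hs hqs)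
      exact Nat.le_findGreatest (hy p _ (de_chf h1)) h1
  let f : α → ℕ → ℕ := fun p i => Q.sup (fun q => if r p q ∧ i ≤ A p q then B p q else 0)
  have hfy : ∀ p i, f p i ≤ y := by
    intro p i
    refine Finset.sup_le fun q _ => ?_
    split_ifs
    · exact hBy p q
    · exact Nat.zero_le _
  have hfanti : ∀ p i j, i ≤ j → f p j ≤ f p i := by
    intro p i j hij
    refine Finset.sup_mono_fun fun q _ => ?_
    split_ifs with h1 h2 h2
    · exact le_rfl
    · exact absurd ⟨h1.1, hij.trans h1.2⟩ h2
    · exact Nat.zero_le _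
    · exact le_rfl
  have hfle : ∀ p, ∀ q ∈ Q, ∀ i, r p q → i ≤ A p q → B p q ≤ f p i := by
    intro p q hq i hpq hi
    have := Finset.le_sup (f := fun q => if r p q ∧ i ≤ A p q then B p q else 0) hq
    simpa only [hpq, hi, and_self, if_true] using this
  have hfex : ∀ p i, 1 ≤ f p i → ∃ s ∈ Q, r p s ∧ i ≤ A p s ∧ B p s = f p i := by
    intro p i h1
    have hne : Q.Nonempty := by
      rcases Q.eq_empty_or_nonempty with h | h
      · exfalso
        have : f p i = 0 := by
          simp only [f, h, Finset.sup_empty]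
          rfl
        omega
      · exact h
    obtain ⟨s, hs, hse⟩ := Finset.exists_mem_eq_sup Q hne
      (fun q => if r p q ∧ i ≤ A p q then B p q else 0)
    have hse' : f p i = if r p s ∧ i ≤ A p s then B p s else 0 := hse
    split_ifs at hse' with h2
    · exact ⟨s, hs, h2.1, h2.2, hse'.symm⟩
    · omega
  let g : α → Fin x → ℕ := fun p i => f p (x - i) + i
  have hg : ∀ p, StrictMono (g p) := by
    intro p i j hij
    have h1 : (i : ℕ) < j := hij
    have h2 := hfanti p (x - j) (x - i) (by omega)
    change f p (x - i) + i < f p (x - j) + j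
    omega
  refine ⟨fun p => Finset.univ.image (g p), fun p _ => ?_, ?_⟩
  · rw [Finset.mem_powersetCard]
    constructor
    · intro n hn
      obtain ⟨i, _, rfl⟩ := Finset.mem_image.1 hn
      rw [Finset.mem_range]
      have h1 := hfy p (x - i)
      have h2 := i.2
      change f p (x - i) + i < x + y
      omega
    · rw [Finset.card_image_of_injective _ (hg p).injective, Finset.card_univ, Fintype.card_fin]
  · intro p hp q hq hpq hD
    have hD' : Set.range (g p) = Set.range (g q) := by
      have := congrArg (fun s : Finset ℕ => (s : Set ℕ)) hD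
      simpa using this
    have hgg : g p = g q := ((hg p).range_inj (hg q)).1 hD'
    have hff : ∀ i, 1 ≤ i → i ≤ x → f p i = f q i := by
      intro i h1 h2
      have h3 := congrFun hgg ⟨x - i, by omega⟩
      have h4 : f p (x - (x - i)) + (x - i) = f q (x - (x - i)) + (x - i) := h3
      have h5 : x - (x - i) = i := by omega
      rw [h5] at h4
      omega
    have h1 := hff (A p q) (hA1 p hp q hq hpq) (hAx p q)
    have h2 := hfle p q hq (A p q) hpq le_rfl
    have h3 := hB1 p hp q hq hpq
    obtain ⟨s, hs, hqs, hAs', hBs'⟩ := hfex q (A p q) (by omega)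
    rcases hkey p hp q hq s hs hpq hqs with h | h
    · omega
    · omega

end ES13
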