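import Pool.Agent.ES13.Level1

/-!
# ES13/MainAbs (MP_d79f1f_co)
PROOF. w = Nat.sqrt n >= 1: w^2 <= n <= w^2 + 2w <= 3 w^2, w <= sqrt n. V empty: trivial. log = Real.logb 2.
If V.card < 2^(24 (2w+3)): log V.card <= 24 * 5 w <= 120 sqrt n.
Otherwise level1; log (n+1) <= log ((w+1)^2) = 2 log (w+1) <= 2 w (w + 1 <= 2^w). (2w+3)^2 <= 25 w^2. So
 2 w log V.card <= 2 w n + 1200 w^2 + (1 + 9 + 9620) n + 32 w^2 + 4800 w^2
 <= 2 w n + (1200 + 28890 + 32 + 4800) w^2, log V.card <= n + 17461 w <= n + 20000 sqrt n.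
Then V.card = 2^(log V.card) <= 2^(n + 20000 sqrt n) (Real.rpow_logb, Real.rpow_le_rpow_of_exponent_le).
-/

namespace ES13

variable {α : Type*}

theorem mainAbs {cw : α → α → α → Prop} {lt : α → α → Prop} {V : Finset α} {n : ℕ}
    (hO : Ori cw) (hT : STO lt V) (hSig : Sig cw lt V) (hn0 : 0 < n) (hn : NoConv cw V n) :
    (V.card : ℝ) ≤ 2 ^ ((n : ℝ) + 20000 * Real.sqrt n) := by
  set w := Nat.sqrt n with hw
  have hw1 : 1 ≤ w := Nat.sqrt_pos.2 hn0
  have hwn : w * w ≤ n := Nat.sqrt_le n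
  have hnw : n ≤ w * w + w + w := Nat.sqrt_le_add n
  have hw1' : (1 : ℝ) ≤ w := by exact_mod_cast hw1
  have hwnR : (w : ℝ) * w ≤ n := by exact_mod_cast hwn
  have hnwR : (n : ℝ) ≤ w * w + w + w := by exact_mod_cast hnw
  have hws : (w : ℝ) ≤ Real.sqrt n := by
    apply Real.le_sqrt_of_sq_le
    rw [pow_two]; exact hwnR
  have hn0R : (0 : ℝ) < n := by exact_mod_cast hn0
  rcases Nat.eq_zero_or_pos V.card with h0 | hVpos
  · rw [h0]
    simp only [Nat.cast_zero]
    positivity
  have hVR : (0 : ℝ) < V.card := by exact_mod_cast hVpos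
  have key : Real.logb 2 V.card ≤ (n : ℝ) + 20000 * Real.sqrt n := by
    rcases lt_or_ge V.card (2 ^ (24 * (2 * w + 3))) with hV | hV
    · have h1 : Real.logb 2 V.card ≤ 24 * (2 * w + 3) := by
        have h2 : (V.card : ℝ) ≤ (2 : ℝ) ^ (24 * (2 * w + 3) : ℕ) := by exact_mod_cast hV.le
        have h3 := Real.logb_le_logb_of_le (b := 2) (by norm_num) hVR h2
        rw [Real.logb_pow] at h3
        have h4 : Real.logb 2 2 = 1 := Real.logb_self_eq_one (by norm_num)
        rw [h4, mul_one] at h3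
        push_cast at h3
        exact h3
      have h5 : (24 : ℝ) * (2 * w + 3) ≤ 120 * w := by linarith
      have h6 : (120 : ℝ) * w ≤ 20000 * Real.sqrt n := by linarith
      linarith
    · have h1 := level1 hO hT hSig hn0 hn hw1 hV
      have hlog : Real.logb 2 ((n : ℝ) + 1) ≤ 2 * w := by
        have h2 : ((n : ℝ) + 1) ≤ (2 : ℝ) ^ (2 * w : ℕ) := by
          have h3 : w + 1 ≤ 2 ^ w := Nat.lt_two_pow_self
          have h4 : n + 1 ≤ (w + 1) * (w + 1) := by
            have : (w + 1) * (w + 1) = w * w + w + w + 1 := by ring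
            omega
          have h5 : n + 1 ≤ 2 ^ (2 * w) := by
            calc n + 1 ≤ (w + 1) * (w + 1) := h4
              _ ≤ 2 ^ w * 2 ^ w := Nat.mul_le_mul h3 h3
              _ = 2 ^ (2 * w) := by rw [two_mul, pow_add]
          exact_mod_cast h5
        have h3 := Real.logb_le_logb_of_le (b := 2) (by norm_num) (by linarith) h2
        rw [Real.logb_pow] at h3
        have h4 : Real.logb 2 2 = 1 := Real.logb_self_eq_one (by norm_num)
        rw [h4, mul_one] at h3
        push_cast at h3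
        exact h3
      have hlog2 : 16 * (w : ℝ) * Real.logb 2 ((n : ℝ) + 1) ≤ 32 * w ^ 2 := by
        have : 16 * (w : ℝ) * Real.logb 2 ((n : ℝ) + 1) ≤ 16 * (w : ℝ) * (2 * w) :=
          mul_le_mul_of_nonneg_left hlog (by positivity)
        have e : 16 * (w : ℝ) * (2 * w) = 32 * w ^ 2 := by ring
        linarith
      have h25 : (48 : ℝ) * (2 * w + 3) ^ 2 ≤ 1200 * w ^ 2 := by
        have h5 : (2 * (w : ℝ) + 3) ≤ 5 * w := by linarith
        have h6 : (2 * (w : ℝ) + 3) ^ 2 ≤ (5 * w) ^ 2 :=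
          pow_le_pow_left₀ (by linarith) h5 2
        have h7 : (5 * (w : ℝ)) ^ 2 = 25 * w ^ 2 := by ring
        linarith
      have hww : (w : ℝ) ≤ w ^ 2 := by
        rw [pow_two]
        exact le_mul_of_one_le_left (by linarith) hw1'
      have hn3 : (n : ℝ) ≤ 3 * w ^ 2 := by
        have e : (w : ℝ) * w = w ^ 2 := by ring
        linarith
      have h2 : 2 * (w : ℝ) * Real.logb 2 V.card ≤ 2 * (w : ℝ) * (n + 17461 * w) := by
        have e1 : 2 * (w : ℝ) * (n + 17461 * w) = 2 * w * n + 34922 * w ^ 2 := by ring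
        have e2 : (w + 1) * (n : ℝ) + w * n + 9 * n + 9620 * n = 2 * w * n + 9630 * n := by ring
        rw [e1]
        have e3 : 2 * (w : ℝ) * Real.logb 2 V.card ≤
            1200 * w ^ 2 + (2 * w * n + 9630 * n) + 32 * w ^ 2 + 4800 * w ^ 2 := by
          linarith
        have e4 : (9630 : ℝ) * n ≤ 9630 * (3 * w ^ 2) := by linarith
        linarith
      have h3 : Real.logb 2 V.card ≤ n + 17461 * w := le_of_mul_le_mul_left h2 (by linarith)
      have : (17461 : ℝ) * w ≤ 20000 * Real.sqrt n := by linarith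
      linarith
  calc (V.card : ℝ) = 2 ^ (Real.logb 2 V.card) :=
        (Real.rpow_logb (by norm_num) (by norm_num) hVR).symm
    _ ≤ 2 ^ ((n : ℝ) + 20000 * Real.sqrt n) :=
        Real.rpow_le_rpow_of_exponent_le (by norm_num) key

end ES13
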