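import Pool.Agent.ES13.AllowMain
import Pool.Agent.ES13.MainAbs

/-!
# ES13/Final: the bound for f_c
-/

namespace ES13

theorem large_convex (n N : ℕ) (hn : 3 ≤ n)
    (hN : (2 : ℝ) ^ ((n : ℝ) + 20000 * Real.sqrt n) < N) (π : ℤ → Equiv.Perm (Fin N))
    (h : Allowable π) (hs : Simple π) :
    ∃ S : Finset (Fin N), S.card = n ∧ ConvexPosition π S := by
  obtain ⟨cw, lt, hO, hT, hSig, hconv⟩ := allowMain h hs
  by_contra hno
  have hnc : NoConv cw Finset.univ n := by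
    intro x _ hx
    exact hno (hconv n hn x hx)
  have := mainAbs hO hT hSig (by omega) hnc
  rw [Finset.card_univ, Fintype.card_fin] at this
  linarith

theorem floor_mem (n : ℕ) (hn : 3 ≤ n) :
    ⌊(2 : ℝ) ^ ((n : ℝ) + 20000 * Real.sqrt n)⌋₊ ∈
      {F : ℕ | ∀ N : ℕ, F < N → ∀ π : ℤ → Equiv.Perm (Fin N), Allowable π → Simple π →
        ∃ S : Finset (Fin N), S.card = n ∧ ConvexPosition π S} := by
  intro N hN π h hs
  exact large_convex n N hn (Nat.lt_of_floor_lt hN) π h hs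

theorem fc_le (n : ℕ) (hn : 3 ≤ n) :
    (fc n : ℝ) ≤ (2 : ℝ) ^ ((n : ℝ) + 20000 * Real.sqrt n) := by
  have hpos : (0 : ℝ) ≤ (2 : ℝ) ^ ((n : ℝ) + 20000 * Real.sqrt n) := by positivity
  have h1 : fc n ≤ ⌊(2 : ℝ) ^ ((n : ℝ) + 20000 * Real.sqrt n)⌋₊ := Nat.sInf_le (floor_mem n hn)
  calc (fc n : ℝ) ≤ ⌊(2 : ℝ) ^ ((n : ℝ) + 20000 * Real.sqrt n)⌋₊ := by exact_mod_cast h1
    _ ≤ _ := Nat.floor_le hpos

end ES13
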