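import Pool.Agent.ES13.Basic

/-!
# ES13/Join (MP_d79f1f_co)
Concatenation of chains. h1 is a chain x with x 0 = p that walks AWAY from p against rho1:
rv rho1 (x i) (x (i+1)) = rho1 (x (i+1)) (x i), and flip3 cw (x i) (x (i+1)) (x (i+2)) =
cw (x (i+1)) (x i) (x (i+2)), which by cyc (twice) is cw (x (i+2)) (x (i+1)) (x i).
* join2. y is the chain of h2 (y 0 = p). Let z i = x (e1 - i) for i <= e1 and z i = y (i - e1) for
i >= e1. Edges: i < e1: rho1 (z i) (z (i+1)); i >= e1: rho2. Triples i, i+1, i+2 with i + 2 <= e1 + e2: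
i + 2 <= e1: from x; i >= e1: from y; i + 1 = e1: junction hj with a = x 1, b = p, d = y 1.
p0 = z 0 = x e1, the end is y e2.
* join3. First join h2 and h3 to a chain w from p with e2 + e3 edges (w i = m i for i <= e2,
w i = y (i - e2) for i >= e2) for the relation (rho2 or rho3), colour cw everywhere (hj23 at the
junction). Then join2 with rho2 := fun a b => rho2 a b or rho3 a b (hj from hj12, hj13).
-/

namespace ES13

variable {α : Type*}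

private theorem join_glue {cw : α → α → α → Prop} {R ρ₁ ρ₂ : α → α → Prop} {Q : Finset α}
    {p0 p p' : α} {e1 e2 : ℕ} (h1 : ChB ρ₁ cw Q p0 p e1) (h2 : ChB ρ₂ cw Q p p' e2)
    (hR1 : ∀ a ∈ Q, ∀ b ∈ Q, ρ₁ a b → R a b) (hR2 : ∀ a ∈ Q, ∀ b ∈ Q, ρ₂ a b → R a b)
    (hj : ∀ a ∈ Q, ∀ b ∈ Q, ∀ d ∈ Q, ρ₁ a b → ρ₂ b d → cw a b d) :
    ChB R cw Q p0 p' (e1 + e2) := by
  obtain ⟨x, hx0, hxe, hxQ, hxr, hxc⟩ := h1
  obtain ⟨y, hy0, hye, hyQ, hyr, hyc⟩ := h2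
  have hz1 : ∀ i, i ≤ e1 → (fun i => if i ≤ e1 then x i else y (i - e1)) i = x i := by
    intro i hi
    simp [hi]
  have hz2 : ∀ j, (fun i => if i ≤ e1 then x i else y (i - e1)) (e1 + j) = y j := by
    intro j
    rcases Nat.eq_zero_or_pos j with rfl | hj0
    · simp [hxe, hy0]
    · have : ¬ (e1 + j ≤ e1) := by omega
      simp only [this, if_false]
      congr 1
      omega
  generalize (fun i => if i ≤ e1 then x i else y (i - e1)) = z at hz1 hz2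
  refine ⟨z, ?_, ?_, ?_, ?_, ?_⟩
  · rw [hz1 0 (Nat.zero_le _), hx0]
  · rw [hz2, hye]
  · intro i hi
    rcases le_or_gt i e1 with h | h
    · rw [hz1 i h]; exact hxQ i h
    · obtain ⟨j, rfl⟩ := Nat.exists_eq_add_of_le h.le
      rw [hz2]; exact hyQ j (by omega)
  · intro i hi
    rcases lt_or_ge i e1 with h | h
    · rw [hz1 i h.le, hz1 (i + 1) h]
      exact hR1 _ (hxQ i h.le) _ (hxQ (i + 1) h) (hxr i h)
    · obtain ⟨j, rfl⟩ := Nat.exists_eq_add_of_le h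
      rw [hz2, show e1 + j + 1 = e1 + (j + 1) by omega, hz2]
      exact hR2 _ (hyQ j (by omega)) _ (hyQ (j + 1) (by omega)) (hyr j (by omega))
  · intro i hi
    rcases le_or_gt e1 i with h | h
    · obtain ⟨j, rfl⟩ := Nat.exists_eq_add_of_le h
      rw [hz2, show e1 + j + 1 = e1 + (j + 1) by omega, hz2,
        show e1 + j + 2 = e1 + (j + 2) by omega, hz2]
      exact hyc j (by omega)
    · rcases le_or_gt (i + 2) e1 with h' | h'
      · rw [hz1 i (by omega), hz1 (i + 1) (by omega), hz1 (i + 2) h']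
        exact hxc i h'
      · have hi1 : i + 1 = e1 := by omega
        have e1' : z (i + 1) = x (i + 1) := hz1 (i + 1) (by omega)
        have e1'' : z (i + 1) = y 0 := by
          have := hz2 0
          rw [Nat.add_zero] at this
          rw [hi1]; exact this
        have e2' : z (i + 2) = y 1 := by
          have := hz2 1
          rw [show i + 2 = e1 + 1 by omega]; exact this
        have hr1 : ρ₁ (z i) (z (i + 1)) := by
          rw [hz1 i (by omega), e1']; exact hxr i (by omega)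
        have hr2 : ρ₂ (z (i + 1)) (z (i + 2)) := by
          rw [e1'', e2']; exact hyr 0 (by omega)
        refine hj _ ?_ _ ?_ _ ?_ hr1 hr2
        · rw [hz1 i (by omega)]; exact hxQ i (by omega)
        · rw [e1']; exact hxQ (i + 1) (by omega)
        · rw [e2']; exact hyQ 1 (by omega)

theorem join2 {cw : α → α → α → Prop} (hO : Ori cw) {R ρ₁ ρ₂ : α → α → Prop} {Q : Finset α}
    {p : α} {e1 e2 : ℕ} (h1 : ChF (rv ρ₁) (flip3 cw) Q p e1) (h2 : ChF ρ₂ cw Q p e2)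
    (hR1 : ∀ a ∈ Q, ∀ b ∈ Q, ρ₁ a b → R a b) (hR2 : ∀ a ∈ Q, ∀ b ∈ Q, ρ₂ a b → R a b)
    (hj : ∀ a ∈ Q, ∀ b ∈ Q, ∀ d ∈ Q, ρ₁ a b → ρ₂ b d → cw a b d) :
    ∃ p0, ChF R cw Q p0 (e1 + e2) := by
  obtain ⟨q, hq⟩ := h1
  obtain ⟨p', hp'⟩ := h2
  have h := chB_reverse (ori_flip hO) hq
  exact ⟨q, p', join_glue (ρ₁ := ρ₁) (ρ₂ := ρ₂) h hp' hR1 hR2 hj⟩

theorem join3 {cw : α → α → α → Prop} (hO : Ori cw) {R ρ₁ ρ₂ ρ₃ : α → α → Prop} {Q : Finset α}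
    {p p' : α} {e1 e2 e3 : ℕ} (h1 : ChF (rv ρ₁) (flip3 cw) Q p e1) (h2 : ChB ρ₂ cw Q p p' e2)
    (h3 : ChF ρ₃ cw Q p' e3)
    (hR1 : ∀ a ∈ Q, ∀ b ∈ Q, ρ₁ a b → R a b) (hR2 : ∀ a ∈ Q, ∀ b ∈ Q, ρ₂ a b → R a b)
    (hR3 : ∀ a ∈ Q, ∀ b ∈ Q, ρ₃ a b → R a b)
    (hj12 : ∀ a ∈ Q, ∀ b ∈ Q, ∀ d ∈ Q, ρ₁ a b → ρ₂ b d → cw a b d)
    (hj23 : ∀ a ∈ Q, ∀ b ∈ Q, ∀ d ∈ Q, ρ₂ a b → ρ₃ b d → cw a b d)
    (hj13 : ∀ a ∈ Q, ∀ b ∈ Q, ∀ d ∈ Q, ρ₁ a b → ρ₃ b d → cw a b d) :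
    ∃ p0, ChF R cw Q p0 (e1 + e2 + e3) := by
  obtain ⟨q, hq⟩ := h3
  have hw : ChB (fun a b => ρ₂ a b ∨ ρ₃ a b) cw Q p q (e2 + e3) :=
    join_glue h2 hq (fun a _ b _ h => Or.inl h) (fun a _ b _ h => Or.inr h) hj23
  have h := join2 hO (R := R) (ρ₂ := fun a b => ρ₂ a b ∨ ρ₃ a b) h1 ⟨q, hw⟩ hR1
    (fun a ha b hb h => h.elim (hR2 a ha b hb) (hR3 a ha b hb))
    (fun a ha b hb d hd h12 h => h.elim (hj12 a ha b hb d hd h12) (hj13 a ha b hb d hd h12))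
  rw [Nat.add_assoc]
  exact h

end ES13
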