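import Pool.Agent.ES13.JuncB
import Pool.Agent.ES13.Join
import Pool.Agent.ES13.AbsB

/-!
# ES13/GeoB (MP_d79f1f_co)
PROOF. Apply absB with X and the relations R, S, L, J2 of juncB, hO = hB.ori, hX = sto_sub hB.stoX hQ.
Unfold: pos (aroundV (flip3 cw) t') (aroundH (flip3 cw) t) p q = (flip3 cw p q t' and flip3 cw q p t) =
(cw q p t' and cw p q t) =: R2 p q. By juncB: R p q -> R2 q p; S p q -> R2 p q; L p q -> R2 q p.
neg (aroundV (flip3 cw) t') (aroundH (flip3 cw) t) p q = (cw q p t' and cw q p t).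
h1: join2 with cw := flip3 cw, R := R2, rho1 := rv R (ChF R cw Q p e1 is
  ChF (rv (rv R)) (flip3 (flip3 cw)) Q p e1), rho2 := S; junction 1 of juncB. Bounded by h2.hr.
h2: join2 with cw := cw, R := R2, rho1 := rv R, rho2 := rv L; junction 2. Bounded by h2.hl
  (flip3 (flip3 cw) = cw).
h3, h4: chF_mono from R on Q to pos X Y on P; h1.hr, h1.hl.
haS: S p q -> X p q and Y q p; chF_mono to ChF (neg X Y) cw P; h1.ha.
haL: ChF (rv L) (flip3 cw) Q p e: take the end point q, chB_reverse (for c := flip3 cw) gives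
  ChB (rv (rv L)) (flip3 (flip3 cw)) Q q p e = ChB L cw Q q p e; L is inside neg X Y; h1.ha.
haJ: J2 p q -> X p q and Y q p; h1.ha. ha2: J2 p q -> neg (..) (..) p q; ChF J2 (flip3 cw): h2.ha.
-/

namespace ES13

variable {α : Type*}

theorem geoB {cw : α → α → α → Prop} {X Y : α → α → Prop} {P Q : Finset α}
    (hB : BO cw X Y P) {t t' : α} (ht : t ∈ P) (ht' : t' ∈ P) (hQ : Q ⊆ P)
    (hb : ∀ q ∈ Q, X t q ∧ X q t' ∧ Y q t ∧ Y t' q ∧ flip3 cw t q t')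
    {n r1 l1 r2 l2 a1 a2 : ℕ} (h1 : Bd cw X Y P r1 l1 a1)
    (h2 : Bd (flip3 cw) (aroundV (flip3 cw) t') (aroundH (flip3 cw) t) Q r2 l2 a2)
    (hn : r1 ≤ n ∧ l1 ≤ n ∧ r2 ≤ n ∧ l2 ≤ n) :
    Q.card ^ 2 ≤ (n + 1) ^ 16 * 2 ^ (r1 + l1 + r2 + l2 + 10 * a1 + 4 * a2) := by
  obtain ⟨jR, jS, jL, jJ, hcov, jc1, jc2⟩ := juncB hB ht ht' hQ hb
  have hO := hB.ori
  refine absB cw X (fun p q => X p q ∧ Y p q) (fun p q => X p q ∧ cw p q t)
    (fun p q => X p q ∧ Y q p ∧ cw p q t') (fun p q => X p q ∧ cw q p t' ∧ cw q p t) Q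
    n r1 l1 r2 l2 a1 a2 hO (sto_sub hB.stoX hQ) ?_ hcov ?_ ?_ ?_ ?_ ?_ ?_ ?_ ?_ hn
  · intro p _ q _ h
    rcases h with h | h | h | h <;> exact h.1
  · intro p e1 e2 hc1 hc2
    obtain ⟨p0, hp0⟩ := join2 (cw := flip3 cw) (ori_flip hO)
      (R := pos (aroundV (flip3 cw) t') (aroundH (flip3 cw) t))
      (ρ₁ := rv (fun p q => X p q ∧ Y p q)) (ρ₂ := fun p q => X p q ∧ cw p q t)
      (Q := Q) (p := p) (e1 := e1) (e2 := e2) hc1 hc2
      (fun a ha b hb' h => jR b hb' a ha h)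
      (fun a ha b hb' h => ⟨(jS a ha b hb' h).2, h.2⟩)
      (fun a ha b hb' d hd h h' => jc1 a ha b hb' d hd h h')
    exact h2.hr p0 _ hp0
  · intro p e1 e2 hc1 hc2
    obtain ⟨p0, hp0⟩ := join2 (cw := cw) hO
      (R := pos (aroundV (flip3 cw) t') (aroundH (flip3 cw) t))
      (ρ₁ := rv (fun p q => X p q ∧ Y p q))
      (ρ₂ := rv (fun p q => X p q ∧ Y q p ∧ cw p q t'))
      (Q := Q) (p := p) (e1 := e1) (e2 := e2) hc1 hc2
      (fun a ha b hb' h => jR b hb' a ha h)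
      (fun a ha b hb' h => ⟨h.2.2, jL b hb' a ha h⟩)
      (fun a ha b hb' d hd h h' => jc2 a ha b hb' d hd h h')
    exact h2.hl p0 _ hp0
  · intro p e hc
    exact h1.hr p e (chF_mono hc hQ (fun _ _ _ _ h => h) (fun _ _ _ _ _ _ h => h))
  · intro p e hc
    exact h1.hl p e (chF_mono hc hQ (fun _ _ _ _ h => h) (fun _ _ _ _ _ _ h => h))
  · intro p e hc
    exact h1.ha p e (chF_mono hc hQ (fun a ha b hb' h => ⟨h.1, (jS a ha b hb' h).1⟩)
      (fun _ _ _ _ _ _ h => h))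
  · intro p e hc
    obtain ⟨q, hq⟩ := hc
    have hr := chB_reverse (ori_flip hO) hq
    have hr' : ChF (fun p q => X p q ∧ Y q p ∧ cw p q t') cw Q q e := ⟨p, hr⟩
    exact h1.ha q e (chF_mono hr' hQ (fun a _ b _ h => ⟨h.1, h.2.1⟩)
      (fun _ _ _ _ _ _ h => h))
  · intro p e hc
    exact h1.ha p e (chF_mono hc hQ (fun a ha b hb' h => ⟨h.1, jJ a ha b hb' h⟩)
      (fun _ _ _ _ _ _ h => h))
  · intro p e hc
    exact h2.ha p e (chF_mono hc (Finset.Subset.refl Q) (fun a _ b _ h => ⟨h.2.1, h.2.2⟩)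
      (fun _ _ _ _ _ _ h => h))

end ES13
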