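import Pool.Agent.ES13.JuncC
import Pool.Agent.ES13.Join
import Pool.Agent.ES13.AbsC

/-!
# ES13/GeoC (MP_d79f1f_co)
PROOF. Apply absC with X and U p q := X p q and cw q p t, F p q := X p q and Y p q and cw q p t',
J1 p q := X p q and Y q p, J2 p q := X p q and cw p q t' and cw p q t (the relations of juncC, juncC2),
hO = hB.ori, hX = sto_sub hB.stoX hQ, hcov from juncC. Write R2 = pos (aroundV cw t') (aroundH cw t),
i.e. R2 p q = (cw p q t' and cw q p t), R1 = pos X Y. By juncC: U p q -> R2 p q, F p q -> R2 q p,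
J1 p q -> R2 q p; U, F, J2 p q -> R1 p q.
h1: join3 with cw := cw, R := R2, rho1 := rv F (rv rho1 = F by rfl), rho2 := rv J1, rho3 := U; junctions
  (1), (2), (3) of juncC2: hj12 a b d: F b a, J1 d b; hj23: J1 b a, U b d; hj13: F b a, U b d. The
  resulting chain is bounded by h2.hr.
h2: join2 with cw := flip3 cw (ori_flip), R := R2, rho1 := U (h1 wants ChF (rv U) (flip3 (flip3 cw)) =
  ChF (rv U) cw), rho2 := rv F; junction (4). Bounded by h2.hl.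
h3: join2 with cw := cw, R := R1, rho1 := U, rho2 := F; junction (5). chF_mono to P, bounded by h1.hr.
h4: join3 with cw := flip3 cw, R := R1, rho1 := F (ChF (rv F) cw), rho2 := J2, rho3 := U; junctions
  (7) for hj12 (F a b, J2 b d), (8) for hj23 (J2 a b, U b d), (6) for hj13 (F a b, U b d). chF_mono to P,
  bounded by h1.hl.
ha1: chF_mono from J1 on Q to neg X Y on P, h1.ha. ha2: J2 p q -> neg (aroundV cw t') (aroundH cw t) p q
  = (cw p q t' and aroundH cw t q p = cw p q t), h2.ha. (2*a: the bound of absC is the goal.)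
-/

namespace ES13

variable {α : Type*}

theorem geoC {cw : α → α → α → Prop} {X Y : α → α → Prop} {P Q : Finset α}
    (hB : BO cw X Y P) {t t' : α} (ht : t ∈ P) (ht' : t' ∈ P) (hQ : Q ⊆ P)
    (hb : ∀ q ∈ Q, X t q ∧ X q t' ∧ Y t q ∧ Y q t' ∧ cw t q t')
    {n r1 l1 r2 l2 a1 a2 : ℕ} (h1 : Bd cw X Y P r1 l1 a1)
    (h2 : Bd cw (aroundV cw t') (aroundH cw t) Q r2 l2 a2)
    (hn : r1 ≤ n ∧ l1 ≤ n ∧ r2 ≤ n ∧ l2 ≤ n) :
    Q.card ^ 2 ≤ (n + 1) ^ 16 * 2 ^ (r1 + l1 + r2 + l2 + 10 * a1 + 4 * a2) := by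
  obtain ⟨kU, kF, kJ1, kJ2, kcov⟩ := juncC hB ht ht' hQ hb
  obtain ⟨j1, j2, j3, j4, j5, j6, j7, j8⟩ := juncC2 hB ht ht' hQ hb
  refine absC cw X (fun p q => X p q ∧ cw q p t) (fun p q => X p q ∧ Y p q ∧ cw q p t')
    (fun p q => X p q ∧ Y q p) (fun p q => X p q ∧ cw p q t' ∧ cw p q t) Q n r1 l1 r2 l2 a1 a2
    hB.ori (sto_sub hB.stoX hQ) ?_ kcov ?_ ?_ ?_ ?_ ?_ ?_ hn
  · rintro p _ q _ (h | h | h | h) <;> exact h.1
  · intro p p' e1 e2 e3 k1 k2 k3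
    obtain ⟨p0, h0⟩ := join3 hB.ori (R := pos (aroundV cw t') (aroundH cw t))
      (ρ₁ := rv fun p q => X p q ∧ Y p q ∧ cw q p t') (ρ₂ := rv fun p q => X p q ∧ Y q p)
      (ρ₃ := fun p q => X p q ∧ cw q p t) k1 k2 k3
      (fun a ha b hb' h => ⟨h.2.2, kF b hb' a ha h⟩)
      (fun a ha b hb' h => kJ1 b hb' a ha h)
      (fun a ha b hb' h => ⟨(kU a ha b hb' h).2, h.2⟩)
      (fun a ha b hb' d hd h h' => j1 a ha b hb' d hd h h')
      (fun a ha b hb' d hd h h' => j2 a ha b hb' d hd h h')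
      (fun a ha b hb' d hd h h' => j3 a ha b hb' d hd h h')
    exact h2.hr p0 _ h0
  · intro p e1 e2 k1 k2
    obtain ⟨p0, h0⟩ := join2 (ori_flip hB.ori) (R := pos (aroundV cw t') (aroundH cw t))
      (ρ₁ := fun p q => X p q ∧ cw q p t) (ρ₂ := rv fun p q => X p q ∧ Y p q ∧ cw q p t') k1 k2
      (fun a ha b hb' h => ⟨(kU a ha b hb' h).2, h.2⟩)
      (fun a ha b hb' h => ⟨h.2.2, kF b hb' a ha h⟩)
      (fun a ha b hb' d hd h h' => j4 a ha b hb' d hd h h')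
    exact h2.hl p0 _ h0
  · intro p e1 e2 k1 k2
    obtain ⟨p0, h0⟩ := join2 hB.ori (R := pos X Y)
      (ρ₁ := fun p q => X p q ∧ cw q p t) (ρ₂ := fun p q => X p q ∧ Y p q ∧ cw q p t') k1 k2
      (fun a ha b hb' h => ⟨h.1, (kU a ha b hb' h).1⟩)
      (fun a ha b hb' h => ⟨h.1, h.2.1⟩)
      (fun a ha b hb' d hd h h' => j5 a ha b hb' d hd h h')
    exact h1.hr p0 _ (chF_mono h0 hQ (fun _ _ _ _ h => h) fun _ _ _ _ _ _ h => h)
  · intro p p' e1 e2 e3 k1 k2 k3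
    obtain ⟨p0, h0⟩ := join3 (ori_flip hB.ori) (R := pos X Y)
      (ρ₁ := fun p q => X p q ∧ Y p q ∧ cw q p t') (ρ₂ := fun p q => X p q ∧ cw p q t' ∧ cw p q t)
      (ρ₃ := fun p q => X p q ∧ cw q p t) k1 k2 k3
      (fun a ha b hb' h => ⟨h.1, h.2.1⟩)
      (fun a ha b hb' h => ⟨h.1, kJ2 a ha b hb' h⟩)
      (fun a ha b hb' h => ⟨h.1, (kU a ha b hb' h).1⟩)
      (fun a ha b hb' d hd h h' => j7 a ha b hb' d hd h h')
      (fun a ha b hb' d hd h h' => j8 a ha b hb' d hd h h')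
      (fun a ha b hb' d hd h h' => j6 a ha b hb' d hd h h')
    exact h1.hl p0 _ (chF_mono h0 hQ (fun _ _ _ _ h => h) fun _ _ _ _ _ _ h => h)
  · intro p e k
    exact h1.ha p e (chF_mono k hQ (fun _ _ _ _ h => h) fun _ _ _ _ _ _ h => h)
  · intro p e k
    exact h2.ha p e (chF_mono k (Finset.Subset.refl Q) (fun _ _ _ _ h => ⟨h.2.1, h.2.2⟩)
      fun _ _ _ _ _ _ h => h)

end ES13
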