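import Pool.Agent.ES13.Basic

/-!
# ES13/JuncB (MP_d79f1f_co)
Junction facts for a part Q of the second level, case SW. Notation as in JuncC: [abc] = cw a b c for
X-increasing a, b, c. X-sorted: t < Q < t', now [t q t'] = 0, and Y t' q, Y q t (Y decreases).
For X p q (p, q in Q): Mono4 [tpq] [tpt']=0 [tqt']=0 [pqt'], so not both [tpq] and [pqt'] hold.
 R p q: X p q, Y p q. f2b (t,p,q): X t p, X p q, Y p t, Y p q: flip3 cw t p q, so [tpq] = 0, cw q p t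
   cyclically; f2a (p,q,t'): X p q, X q t', Y p q, Y t' q: cw p q t'.
 S p q: X p q, cw p q t, i.e. [tpq] = 1. So [pqt'] = 0: cw q p t'; not R p q, so Y q p.
 L p q: X p q, Y q p, cw p q t' ([pqt'] = 1), so [tpq] = 0: cw q p t.
 J2 p q: X p q, [pqt'] = 0, [tpq] = 0; not R p q (R gives cw p q t'), so Y q p.
Cover: X p q; if Y p q then R. Else Y q p; if [tpq] = 1: S; else if [pqt'] = 1: L; else J2.
Junction 1: R b a, S b d => flip3 cw a b d = cw b a d. X b a, Y b a, X b d, Y d b. a != d. If X a d: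
  X-order b, a, d: f2a (b,a,d): X b a, X a d, Y b a, Y d a (transitivity): cw b a d. If X d a: X-order
  b, d, a: f2b (b,d,a): X b d, X d a, Y d b, Y d a: flip3 cw b d a = cw d b a, cyclically cw b a d.
Junction 2: R b a, L d b => cw a b d. X d b, X b a, Y b d, Y b a: f2b (d,b,a): flip3 cw d b a = cw b d a,
  cyclically cw a b d.
All statements were checked on all signotopes with 7 points.
-/

namespace ES13

variable {α : Type*}

theorem juncB {cw : α → α → α → Prop} {X Y : α → α → Prop} {P Q : Finset α}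
    (hB : BO cw X Y P) {t t' : α} (ht : t ∈ P) (ht' : t' ∈ P) (hQ : Q ⊆ P)
    (hb : ∀ q ∈ Q, X t q ∧ X q t' ∧ Y q t ∧ Y t' q ∧ flip3 cw t q t') :
    let R : α → α → Prop := fun p q => X p q ∧ Y p q
    let S : α → α → Prop := fun p q => X p q ∧ cw p q t
    let L : α → α → Prop := fun p q => X p q ∧ Y q p ∧ cw p q t'
    let J2 : α → α → Prop := fun p q => X p q ∧ cw q p t' ∧ cw q p t
    (∀ p ∈ Q, ∀ q ∈ Q, R p q → cw p q t' ∧ cw q p t) ∧
    (∀ p ∈ Q, ∀ q ∈ Q, S p q → Y q p ∧ cw q p t') ∧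
    (∀ p ∈ Q, ∀ q ∈ Q, L p q → cw q p t) ∧
    (∀ p ∈ Q, ∀ q ∈ Q, J2 p q → Y q p) ∧
    (∀ p ∈ Q, ∀ q ∈ Q, X p q → R p q ∨ S p q ∨ L p q ∨ J2 p q) ∧
    (∀ a ∈ Q, ∀ b ∈ Q, ∀ d ∈ Q, R b a → S b d → flip3 cw a b d) ∧
    (∀ a ∈ Q, ∀ b ∈ Q, ∀ d ∈ Q, R b a → L d b → cw a b d) := by
  intro R S L J2
  have cyc := hB.ori.cyc
  have anti := hB.ori.anti
  have tot := hB.ori.tot
  have hR : ∀ p ∈ Q, ∀ q ∈ Q, R p q → cw p q t' ∧ cw q p t := by
    intro p hp q hq h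
    have h' : X p q ∧ Y p q := h
    obtain ⟨h1, h2⟩ := h'
    refine ⟨hB.f2a p (hQ hp) q (hQ hq) t' ht' h1 (hb q hq).2.1 h2 (hb q hq).2.2.2.1, ?_⟩
    have h3 : cw p t q := hB.f2b t ht p (hQ hp) q (hQ hq) (hb p hp).1 h1 (hb p hp).2.2.1 h2
    exact cyc _ _ _ (cyc _ _ _ h3)
  have hne : ∀ p ∈ Q, ∀ q ∈ Q, X p q → p ≠ q := fun p hp q hq h => sto_ne hB.stoX (hQ hp) h
  have hpt : ∀ p ∈ Q, t ≠ p := fun p hp => sto_ne hB.stoX ht (hb p hp).1
  have hpt' : ∀ p ∈ Q, p ≠ t' := fun p hp => sto_ne hB.stoX (hQ hp) (hb p hp).2.1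
  have hnot : ∀ p ∈ Q, ∀ q ∈ Q, X p q → cw p q t → ¬ cw p q t' := by
    intro p hp q hq h h1 h2
    have hs := hB.sigX t ht p (hQ hp) q (hQ hq) t' ht' (hb p hp).1 h (hb q hq).2.1
    have h3 : cw t p q := cyc _ _ _ (cyc _ _ _ h1)
    have h4 : cw p t t' := (hb p hp).2.2.2.2
    exact anti _ _ _ (hs.2.2.1 h3 h2) h4
  have totT : ∀ p ∈ Q, ∀ q ∈ Q, X p q → cw p q t ∨ cw q p t := fun p hp q hq h =>
    tot _ _ _ (hne p hp q hq h) (hpt q hq).symm (hpt p hp).symm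
  have totT' : ∀ p ∈ Q, ∀ q ∈ Q, X p q → cw p q t' ∨ cw q p t' := fun p hp q hq h =>
    tot _ _ _ (hne p hp q hq h) (hpt' q hq) (hpt' p hp)
  have hS : ∀ p ∈ Q, ∀ q ∈ Q, S p q → Y q p ∧ cw q p t' := by
    intro p hp q hq h
    have h' : X p q ∧ cw p q t := h
    obtain ⟨h1, h2⟩ := h'
    refine ⟨?_, (totT' p hp q hq h1).resolve_left (hnot p hp q hq h1 h2)⟩
    rcases hB.stoY.tot p (hQ hp) q (hQ hq) (hne p hp q hq h1) with h3 | h3
    · exact absurd (hR p hp q hq ⟨h1, h3⟩).2 (anti _ _ _ h2)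
    · exact h3
  have hL : ∀ p ∈ Q, ∀ q ∈ Q, L p q → cw q p t := by
    intro p hp q hq h
    have h' : X p q ∧ Y q p ∧ cw p q t' := h
    obtain ⟨h1, h2, h3⟩ := h'
    exact (totT p hp q hq h1).resolve_left (fun h4 => hnot p hp q hq h1 h4 h3)
  have hJ : ∀ p ∈ Q, ∀ q ∈ Q, J2 p q → Y q p := by
    intro p hp q hq h
    have h' : X p q ∧ cw q p t' ∧ cw q p t := h
    obtain ⟨h1, h2, h3⟩ := h'
    rcases hB.stoY.tot p (hQ hp) q (hQ hq) (hne p hp q hq h1) with h4 | h4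
    · exact absurd (hR p hp q hq ⟨h1, h4⟩).1 (anti _ _ _ h2)
    · exact h4
  refine ⟨hR, hS, hL, hJ, ?_, ?_, ?_⟩
  · intro p hp q hq h
    rcases hB.stoY.tot p (hQ hp) q (hQ hq) (hne p hp q hq h) with h4 | h4
    · exact Or.inl ⟨h, h4⟩
    · rcases totT p hp q hq h with h5 | h5
      · exact Or.inr (Or.inl ⟨h, h5⟩)
      · rcases totT' p hp q hq h with h6 | h6
        · exact Or.inr (Or.inr (Or.inl ⟨h, h4, h6⟩))
        · exact Or.inr (Or.inr (Or.inr ⟨h, h6, h5⟩))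
  · intro a ha b hb' d hd h1 h2
    have h1' : X b a ∧ Y b a := h1
    have h2' : X b d ∧ cw b d t := h2
    obtain ⟨hXba, hYba⟩ := h1'
    obtain ⟨hXbd, hc⟩ := h2'
    have hYdb : Y d b := (hS b hb' d hd h2).1
    have had : a ≠ d := by
      intro e
      subst e
      exact hB.stoY.irr b (hQ hb') (hB.stoY.trans b (hQ hb') a (hQ ha) b (hQ hb') hYba hYdb)
    have hYda : Y d a := hB.stoY.trans d (hQ hd) b (hQ hb') a (hQ ha) hYdb hYba
    show cw b a d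
    rcases hB.stoX.tot a (hQ ha) d (hQ hd) had with h3 | h3
    · exact hB.f2a b (hQ hb') a (hQ ha) d (hQ hd) hXba h3 hYba hYda
    · have h4 : cw d b a := hB.f2b b (hQ hb') d (hQ hd) a (hQ ha) hXbd h3 hYdb hYda
      exact cyc _ _ _ h4
  · intro a ha b hb' d hd h1 h2
    have h1' : X b a ∧ Y b a := h1
    have h2' : X d b ∧ Y b d ∧ cw d b t' := h2
    obtain ⟨hXba, hYba⟩ := h1'
    obtain ⟨hXdb, hYbd, hc⟩ := h2'
    have h4 : cw b d a := hB.f2b d (hQ hd) b (hQ hb') a (hQ ha) hXdb hXba hYbd hYba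
    exact cyc _ _ _ (cyc _ _ _ h4)

end ES13
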