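import Pool.Agent.ES13.Basic

/-!
# ES13/JuncC (MP_d79f1f_co)
Junction facts for a part Q of the second level, case NW. Everything happens in the order X with the
two extra points t, t': X t q, X q t' for q in Q, so (X-sorted) t < Q < t'. Signs of X-sorted triples:
write [abc] for cw a b c with a, b, c X-increasing; for such a triple cw b a c <-> not [abc], and cw is
cyclic. [t q t'] = 1. For p, q in Q with X p q: hB.sigX for (t,p,q,t') reads
Mono4 [tpq] [tpt']=1 [tqt']=1 [pqt'], so [tpq] or [pqt'] holds (not both 0).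
 U p q: X p q and [tpq] = 0 (cw q p t is cyclically cw t q p). Hence [pqt'] = 1.
 F p q: X p q, Y p q, [pqt'] = 0. Hence [tpq] = 1.
 J1 p q: X p q, Y q p. Then [tpq] = 1 by f2a (t,p,q): X t p, X p q, Y t p, Y q p; and [pqt'] = 0 by
   f2b (p,q,t'): X p q, X q t', Y q p, Y q t'.
 J2 p q: X p q, [pqt'] = 1, [tpq] = 1.
juncC: U p q -> Y p q: otherwise Y q p (stoY.tot), J1 p q, [tpq] = 1, contradiction. J2 p q -> Y p q:
otherwise J1 and [pqt'] = 0. The cover: if [tpq] = 0: U. Else if [pqt'] = 1: J2. Else F or J1 by Y.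
juncC2 (a, b, d in Q are distinct):
(1) F b a, J1 d b => cw a b d: X d b, X b a, Y b d.. J1 d b: Y b d; F b a: Y b a. f2b (d,b,a): X d b, X b a,
  Y b d, Y b a gives flip3 cw d b a = cw b d a, cyclically cw a b d.
(2) J1 b a, U b d => cw a b d: X b a, Y a b, X b d, Y b d (from U). a != d. If X a d: X-order b, a, d:
  f2b (b,a,d): X b a, X a d, Y a b, Y a d (Y a b, Y b d transitivity): flip3 cw b a d = cw a b d.
  If X d a: X-order b, d, a: f2a (b,d,a): X b d, X d a, Y b d, Y a d: cw b d a, cyclically cw a b d.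
(3) F b a, U b d => cw a b d: [b a t'] = 0, [t b a] = 1, [t b d] = 0, [b d t'] = 1. If X a d: sigX for
  (t,b,a,d): Mono4 [tba]=1 [tbd]=0 [tad] [bad]: [bad] = 0, i.e. cw a b d. If X d a: (b,d,a,t'):
  Mono4 [bda] [bdt']=1 [bat']=0 [dat']: [bda] = 1, cyclically cw a b d.
(4) U a b, F d b => flip3 cw a b d: [tab]=0, [abt']=1, [dbt']=0, [tdb]=1. If X a d: (t,a,d,b):
  Mono4 [tad] [tab]=0 [tdb]=1 [adb]: [adb] = 1, cw a d b, cyclically cw b a d = flip3 cw a b d. If X d a: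
  (d,a,b,t'): Mono4 [dab] [dat'] [dbt']=0 [abt']=1: [dab] = 0: cw a d b, the same.
(5) U a b, F b d => cw a b d: X-order a, b, d, t': Mono4 [abd] [abt']=1 [adt'] [bdt']=0: [abd] = 1.
(6) F a b, U b d => flip3 cw a b d: (t,a,b,d): Mono4 [tab]=1 [tad] [tbd]=0 [abd]: [abd] = 0.
(7) F a b, J2 b d: (a,b,d,t'): Mono4 [abd] [abt']=0 [adt'] [bdt']=1: [abd] = 0.
(8) J2 a b, U b d: (t,a,b,d): Mono4 [tab]=1 [tad] [tbd]=0 [abd]: [abd] = 0.
All statements were checked on all signotopes with 7 points.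
-/

namespace ES13

variable {α : Type*}

/-- basic facts used in `juncC` and `juncC2` -/
theorem juncC_aux {cw : α → α → α → Prop} {X Y : α → α → Prop} {P Q : Finset α}
    (hB : BO cw X Y P) {t t' : α} (ht : t ∈ P) (ht' : t' ∈ P) (hQ : Q ⊆ P)
    (hb : ∀ q ∈ Q, X t q ∧ X q t' ∧ Y t q ∧ Y q t' ∧ cw t q t') :
    (∀ p ∈ Q, ∀ q ∈ Q, X p q → Mono4 (cw t p q) True True (cw p q t')) ∧
    (∀ p ∈ Q, ∀ q ∈ Q, X p q → (¬ cw t p q ↔ cw q p t)) ∧
    (∀ p ∈ Q, ∀ q ∈ Q, X p q → (¬ cw p q t' ↔ cw q p t')) ∧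
    (∀ p ∈ Q, ∀ q ∈ Q, cw t p q ↔ cw p q t) ∧
    (∀ p ∈ Q, ∀ q ∈ Q, X p q → Y q p → cw t p q ∧ ¬ cw p q t') := by
  have hO := hB.ori
  have rot : ∀ a b c, cw a b c ↔ cw b c a := fun a b c =>
    ⟨hO.cyc a b c, fun h => hO.cyc _ _ _ (hO.cyc _ _ _ h)⟩
  have swap : ∀ a b c, a ≠ b → b ≠ c → a ≠ c → (¬ cw a b c ↔ cw b a c) := by
    intro a b c h1 h2 h3
    constructor
    · intro h
      rcases hO.tot a b c h1 h2 h3 with h4 | h4
      · exact absurd h4 h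
      · exact h4
    · intro h h'
      exact hO.anti _ _ _ h h'
  have ne : ∀ {a b : α}, a ∈ P → X a b → a ≠ b := fun ha h => sto_ne hB.stoX ha h
  refine ⟨?_, ?_, ?_, fun p _ q _ => rot t p q, ?_⟩
  · intro p hp q hq hpq
    have := hB.sigX t ht p (hQ hp) q (hQ hq) t' ht' (hb p hp).1 hpq (hb q hq).2.1
    have h1 := (hb p hp).2.2.2.2
    have h2 := (hb q hq).2.2.2.2
    obtain ⟨m1, m2, m3, m4, m5, m6, m7, m8⟩ := this
    exact ⟨fun _ _ => trivial, fun _ => Or.inr trivial, fun _ _ => trivial, fun _ => m4 h1,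
      fun _ _ => trivial, fun _ => m6 h2, fun _ _ => trivial, fun _ => Or.inl trivial⟩
  · intro p hp q hq hpq
    rw [← rot t q p |>.symm.symm]
    have h1 : t ≠ p := ne ht (hb p hp).1
    have h2 : t ≠ q := ne ht (hb q hq).1
    have h3 : p ≠ q := ne (hQ hp) hpq
    rw [rot t p q, swap p q t h3 h2.symm h1.symm, rot q p t, rot p t q]
  · intro p hp q hq hpq
    have h1 : p ≠ t' := ne (hQ hp) (hb p hp).2.1
    have h2 : q ≠ t' := ne (hQ hq) (hb q hq).2.1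
    have h3 : p ≠ q := ne (hQ hp) hpq
    exact swap p q t' h3 h2 h1
  · intro p hp q hq hpq hy
    constructor
    · exact hB.f2a t ht p (hQ hp) q (hQ hq) (hb p hp).1 hpq (hb p hp).2.2.1 hy
    · have := hB.f2b p (hQ hp) q (hQ hq) t' ht' hpq (hb q hq).2.1 hy (hb q hq).2.2.2.1
      intro h
      exact hO.anti _ _ _ this h

/-- junction facts, case NW -/
theorem juncC {cw : α → α → α → Prop} {X Y : α → α → Prop} {P Q : Finset α}
    (hB : BO cw X Y P) {t t' : α} (ht : t ∈ P) (ht' : t' ∈ P) (hQ : Q ⊆ P)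
    (hb : ∀ q ∈ Q, X t q ∧ X q t' ∧ Y t q ∧ Y q t' ∧ cw t q t') :
    let U : α → α → Prop := fun p q => X p q ∧ cw q p t
    let F : α → α → Prop := fun p q => X p q ∧ Y p q ∧ cw q p t'
    let J1 : α → α → Prop := fun p q => X p q ∧ Y q p
    let J2 : α → α → Prop := fun p q => X p q ∧ cw p q t' ∧ cw p q t
    (∀ p ∈ Q, ∀ q ∈ Q, U p q → Y p q ∧ cw p q t') ∧
    (∀ p ∈ Q, ∀ q ∈ Q, F p q → cw p q t) ∧
    (∀ p ∈ Q, ∀ q ∈ Q, J1 p q → cw q p t' ∧ cw p q t) ∧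
    (∀ p ∈ Q, ∀ q ∈ Q, J2 p q → Y p q) ∧
    (∀ p ∈ Q, ∀ q ∈ Q, X p q → U p q ∨ F p q ∨ J1 p q ∨ J2 p q) := by
  intro U F J1 J2
  obtain ⟨hM, hA, hC, hR, hJ⟩ := juncC_aux hB ht ht' hQ hb
  have hO := hB.ori
  refine ⟨?_, ?_, ?_, ?_, ?_⟩
  · rintro p hp q hq ⟨h1, h2⟩
    have h3 := (hA p hp q hq h1).2 h2
    have h4 := (hM p hp q hq h1).2.2.2.1
    constructor
    · rcases hB.stoY.tot p (hQ hp) q (hQ hq) (sto_ne hB.stoX (hQ hp) h1) with h | h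
      · exact h
      · exact absurd (hJ p hp q hq h1 h).1 h3
    · have := (hM p hp q hq h1).2.2.2.1 trivial
      exact this.resolve_left h3
  · rintro p hp q hq ⟨h1, _, h2⟩
    have h3 := (hC p hp q hq h1).2 h2
    have := (hM p hp q hq h1).2.2.2.1 trivial
    exact (hR p hp q hq).1 (this.resolve_right h3)
  · rintro p hp q hq ⟨h1, h2⟩
    have := hJ p hp q hq h1 h2
    exact ⟨(hC p hp q hq h1).1 this.2, (hR p hp q hq).1 this.1⟩
  · rintro p hp q hq ⟨h1, h2, h3⟩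
    rcases hB.stoY.tot p (hQ hp) q (hQ hq) (sto_ne hB.stoX (hQ hp) h1) with h | h
    · exact h
    · exact absurd h2 (hJ p hp q hq h1 h).2
  · intro p hp q hq h1
    by_cases h2 : cw t p q
    · by_cases h3 : cw p q t'
      · exact Or.inr (Or.inr (Or.inr ⟨h1, h3, (hR p hp q hq).1 h2⟩))
      · rcases hB.stoY.tot p (hQ hp) q (hQ hq) (sto_ne hB.stoX (hQ hp) h1) with h | h
        · exact Or.inr (Or.inl ⟨h1, h, (hC p hp q hq h1).1 h3⟩)
        · exact Or.inr (Or.inr (Or.inl ⟨h1, h⟩))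
    · exact Or.inl ⟨h1, (hA p hp q hq h1).1 h2⟩

theorem juncC2 {cw : α → α → α → Prop} {X Y : α → α → Prop} {P Q : Finset α}
    (hB : BO cw X Y P) {t t' : α} (ht : t ∈ P) (ht' : t' ∈ P) (hQ : Q ⊆ P)
    (hb : ∀ q ∈ Q, X t q ∧ X q t' ∧ Y t q ∧ Y q t' ∧ cw t q t') :
    let U : α → α → Prop := fun p q => X p q ∧ cw q p t
    let F : α → α → Prop := fun p q => X p q ∧ Y p q ∧ cw q p t'
    let J1 : α → α → Prop := fun p q => X p q ∧ Y q p
    let J2 : α → α → Prop := fun p q => X p q ∧ cw p q t' ∧ cw p q t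
    (∀ a ∈ Q, ∀ b ∈ Q, ∀ d ∈ Q, F b a → J1 d b → cw a b d) ∧
    (∀ a ∈ Q, ∀ b ∈ Q, ∀ d ∈ Q, J1 b a → U b d → cw a b d) ∧
    (∀ a ∈ Q, ∀ b ∈ Q, ∀ d ∈ Q, F b a → U b d → cw a b d) ∧
    (∀ a ∈ Q, ∀ b ∈ Q, ∀ d ∈ Q, U a b → F d b → flip3 cw a b d) ∧
    (∀ a ∈ Q, ∀ b ∈ Q, ∀ d ∈ Q, U a b → F b d → cw a b d) ∧
    (∀ a ∈ Q, ∀ b ∈ Q, ∀ d ∈ Q, F a b → U b d → flip3 cw a b d) ∧
    (∀ a ∈ Q, ∀ b ∈ Q, ∀ d ∈ Q, F a b → J2 b d → flip3 cw a b d) ∧
    (∀ a ∈ Q, ∀ b ∈ Q, ∀ d ∈ Q, J2 a b → U b d → flip3 cw a b d) := by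
  intro U F J1 J2
  obtain ⟨hM, hA, hC, hR, hJ⟩ := juncC_aux hB ht ht' hQ hb
  obtain ⟨k1, k2, k3, k4, k5⟩ := juncC hB ht ht' hQ hb
  have hO := hB.ori
  have cyc := hO.cyc
  have ne : ∀ {a b : α}, a ∈ Q → X a b → a ≠ b := fun ha h => sto_ne hB.stoX (hQ ha) h
  have sw : ∀ a b c, a ≠ b → b ≠ c → a ≠ c → ¬ cw a b c → cw b a c := by
    intro a b c h1 h2 h3 h
    exact (hO.tot a b c h1 h2 h3).resolve_left h
  have tX := hB.stoX.trans
  have tY := hB.stoY.trans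
  refine ⟨?_, ?_, ?_, ?_, ?_, ?_, ?_, ?_⟩
  · rintro a ha b hb' d hd ⟨h1, h2, h3⟩ ⟨h4, h5⟩
    exact cyc _ _ _ (cyc _ _ _ (hB.f2b d (hQ hd) b (hQ hb') a (hQ ha) h4 h1 h5 h2))
  · rintro a ha b hb' d hd ⟨h1, h2⟩ hU
    have h3 := (k1 b hb' d hd hU).1
    obtain ⟨h4, h5⟩ := hU
    have hya : Y a d := tY a (hQ ha) b (hQ hb') d (hQ hd) h2 h3
    have had : a ≠ d := sto_ne hB.stoY (hQ ha) hya
    rcases hB.stoX.tot a (hQ ha) d (hQ hd) had with h | h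
    · exact hB.f2b b (hQ hb') a (hQ ha) d (hQ hd) h1 h h2 hya
    · exact cyc _ _ _ (cyc _ _ _ (hB.f2a b (hQ hb') d (hQ hd) a (hQ ha) h4 h h3 hya))
  · rintro a ha b hb' d hd hF hU
    have f1 := hF.1
    have u1 := hU.1
    have f2 : ¬ cw b a t' := (hC b hb' a ha f1).2 hF.2.2
    have u2 : ¬ cw t b d := (hA b hb' d hd u1).2 hU.2
    have f3 : cw t b a := (hR b hb' a ha).2 (k2 b hb' a ha hF)
    have u3 : cw b d t' := (k1 b hb' d hd hU).2
    have had : a ≠ d := by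
      rintro rfl
      exact u2 f3
    rcases hB.stoX.tot a (hQ ha) d (hQ hd) had with h | h
    · obtain ⟨m1, m2, m3, m4, m5, m6, m7, m8⟩ :=
        hB.sigX t ht b (hQ hb') a (hQ ha) d (hQ hd) (hb b hb').1 f1 h
      have h3 : ¬ cw b a d := fun hh => u2 (m3 f3 hh)
      exact sw b a d (ne hb' f1) had (ne hb' u1) h3
    · obtain ⟨m1, m2, m3, m4, m5, m6, m7, m8⟩ :=
        hB.sigX b (hQ hb') d (hQ hd) a (hQ ha) t' ht' u1 h (hb a ha).2.1
      have h3 : cw b d a := (m2 u3).resolve_right f2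
      exact cyc _ _ _ (cyc _ _ _ h3)
  · rintro a ha b hb' d hd hU hF
    have u1 := hU.1
    have f1 := hF.1
    have u2 : ¬ cw t a b := (hA a ha b hb' u1).2 hU.2
    have f2 : ¬ cw d b t' := (hC d hd b hb' f1).2 hF.2.2
    have f3 : cw t d b := (hR d hd b hb').2 (k2 d hd b hb' hF)
    have u3 : cw a b t' := (k1 a ha b hb' hU).2
    have had : a ≠ d := by
      rintro rfl
      exact u2 f3
    rcases hB.stoX.tot a (hQ ha) d (hQ hd) had with h | h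
    · obtain ⟨m1, m2, m3, m4, m5, m6, m7, m8⟩ :=
        hB.sigX t ht a (hQ ha) d (hQ hd) b (hQ hb') (hb a ha).1 h f1
      have h3 : cw a d b := (m8 f3).resolve_left u2
      exact cyc _ _ _ (cyc _ _ _ h3)
    · obtain ⟨m1, m2, m3, m4, m5, m6, m7, m8⟩ :=
        hB.sigX d (hQ hd) a (hQ ha) b (hQ hb') t' ht' h u1 (hb b hb').2.1
      have h3 : ¬ cw d a b := fun hh => f2 (m5 hh u3)
      have h4 : cw a d b := sw d a b had.symm (ne ha u1) (ne hd f1) h3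
      exact cyc _ _ _ (cyc _ _ _ h4)
  · rintro a ha b hb' d hd hU hF
    have u1 := hU.1
    have f1 := hF.1
    have f2 : ¬ cw b d t' := (hC b hb' d hd f1).2 hF.2.2
    have u3 : cw a b t' := (k1 a ha b hb' hU).2
    obtain ⟨m1, m2, m3, m4, m5, m6, m7, m8⟩ :=
      hB.sigX a (hQ ha) b (hQ hb') d (hQ hd) t' ht' u1 f1 (hb d hd).2.1
    exact (m4 u3).resolve_right f2
  · rintro a ha b hb' d hd hF hU
    have f1 := hF.1
    have u1 := hU.1
    have u2 : ¬ cw t b d := (hA b hb' d hd u1).2 hU.2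
    have f3 : cw t a b := (hR a ha b hb').2 (k2 a ha b hb' hF)
    obtain ⟨m1, m2, m3, m4, m5, m6, m7, m8⟩ :=
      hB.sigX t ht a (hQ ha) b (hQ hb') d (hQ hd) (hb a ha).1 f1 u1
    have h3 : ¬ cw a b d := fun hh => u2 (m5 f3 hh)
    have had : X a d := tX a (hQ ha) b (hQ hb') d (hQ hd) f1 u1
    exact sw a b d (ne ha f1) (ne hb' u1) (ne ha had) h3
  · rintro a ha b hb' d hd hF hJ2
    have f1 := hF.1
    have u1 := hJ2.1
    have f2 : ¬ cw a b t' := (hC a ha b hb' f1).2 hF.2.2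
    obtain ⟨m1, m2, m3, m4, m5, m6, m7, m8⟩ :=
      hB.sigX a (hQ ha) b (hQ hb') d (hQ hd) t' ht' f1 u1 (hb d hd).2.1
    have h3 : ¬ cw a b d := fun hh => f2 (m3 hh hJ2.2.1)
    have had : X a d := tX a (hQ ha) b (hQ hb') d (hQ hd) f1 u1
    exact sw a b d (ne ha f1) (ne hb' u1) (ne ha had) h3
  · rintro a ha b hb' d hd hJ2 hU
    have f1 := hJ2.1
    have u1 := hU.1
    have u2 : ¬ cw t b d := (hA b hb' d hd u1).2 hU.2
    have f3 : cw t a b := (hR a ha b hb').2 hJ2.2.2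
    obtain ⟨m1, m2, m3, m4, m5, m6, m7, m8⟩ :=
      hB.sigX t ht a (hQ ha) b (hQ hb') d (hQ hd) (hb a ha).1 f1 u1
    have h3 : ¬ cw a b d := fun hh => u2 (m5 f3 hh)
    have had : X a d := tX a (hQ ha) b (hQ hb') d (hQ hd) f1 u1
    exact sw a b d (ne ha f1) (ne hb' u1) (ne ha had) h3

end ES13
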