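import Pool.Agent.ES13.CupsCaps

/-!
# ES13/PFFiber (MP_d79f1f_co)
Odd skeletons of the monochromatic (2m+1)-sets.
PROOF. For a finite set A of naturals with 2m+1 elements let a 0 < a 1 < ... < a (2m) be its elements (a i =
A.orderEmbOfFin or the i-th element of the sorted list; extend by 0). Let phi A = {a 0, a 2, ..., a (2m)} (m+1
elements of range N). Since F.card = sum over S in powersetCard (m+1) (range N) of the number of A in F with
phi A = S, and there are N.choose (m+1) sets S, some S has F.card <= N.choose (m+1) * card (fibre S); the fibre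
is nonempty since F is. Let s 0 < ... < s m be the elements of S (s (j) for j > m arbitrary, e.g. 0) and for
j < m let Q j = set of q in range N with s j < q < s (j+1) and: c (s i) (s i') q for i < i' <= j,
c (s i) q (s i') for i <= j < i' <= m, c q (s i) (s i') for j < i < i' <= m. Then Skel holds: s j in range N,
increasing, cap since S = phi A is contained in the monochromatic A; the other fields by definition of Q.
The fibre injects into the product of the Q j (Finset.pi or Fintype.piFinset over Fin m):
A -> (j -> a (2j+1)); a (2j+1) is in Q j because A is monochromatic and contains S; and A = S union of the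
a (2j+1), so the map is injective. Hence card (fibre S) <= prod_{j<m} (Q j).card
(Finset.prod_range or Fin.prod_univ_eq_prod_range).
(For a i = s (i/2) for even i: phi A = S means that the increasing enumeration of S is j -> a (2j); use
uniqueness of the increasing enumeration, Finset.orderEmbOfFin_unique.)
-/

namespace ES13

variable {α : Type*}

/-- the increasing enumeration of a finite set of naturals, extended by `0` -/
private noncomputable def en (A : Finset ℕ) (i : ℕ) : ℕ :=
  if h : i < A.card then A.orderEmbOfFin rfl ⟨i, h⟩ else 0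

private lemma en_mem {A : Finset ℕ} {i : ℕ} (h : i < A.card) : en A i ∈ A := by
  rw [en, dif_pos h]
  exact A.orderEmbOfFin_mem rfl _

private lemma en_lt {A : Finset ℕ} {i j : ℕ} (hij : i < j) (h : j < A.card) :
    en A i < en A j := by
  rw [en, en, dif_pos h, dif_pos (hij.trans h)]
  exact (A.orderEmbOfFin rfl).strictMono (by simpa using hij)

private lemma en_surj {A : Finset ℕ} {a : ℕ} (h : a ∈ A) : ∃ i < A.card, en A i = a := by
  have h1 : a ∈ Set.range (A.orderEmbOfFin rfl) := by
    rw [Finset.range_orderEmbOfFin]; exact h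
  obtain ⟨⟨i, hi⟩, rfl⟩ := h1
  exact ⟨i, hi, by rw [en, dif_pos hi]⟩

private lemma en_unique {A : Finset ℕ} {k : ℕ} (hA : A.card = k) {f : ℕ → ℕ}
    (hf : ∀ i < k, f i ∈ A) (hm : ∀ i j, i < j → j < k → f i < f j) :
    ∀ i < k, en A i = f i := by
  subst hA
  intro i hi
  have h1 : (fun x : Fin A.card => f x) = A.orderEmbOfFin rfl := by
    apply Finset.orderEmbOfFin_unique rfl
    · intro x; exact hf x x.2
    · intro x y hxy; exact hm x y hxy y.2
  have h2 := congrFun h1 ⟨i, hi⟩
  rw [en, dif_pos hi]
  exact h2.symm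

theorem pfFiber (c : ℕ → ℕ → ℕ → Prop) (N m : ℕ) (F : Finset (Finset ℕ)) (hne : F.Nonempty)
    (h : ∀ A ∈ F, A ⊆ Finset.range N ∧ A.card = 2 * m + 1 ∧ MonoSet c A) :
    ∃ s : ℕ → ℕ, ∃ Q : ℕ → Finset ℕ, Skel c (· < ·) (Finset.range N) m s Q ∧
      F.card ≤ N.choose (m + 1) * ∏ j ∈ Finset.range m, (Q j).card := by
  classical
  set phi : Finset ℕ → Finset ℕ := fun A => (Finset.range (m + 1)).image fun j => en A (2 * j)
    with hphi
  have hmemphi : ∀ A ∈ F, ∀ j < m + 1, en A (2 * j) ∈ phi A := fun A _ j hj =>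
    Finset.mem_image_of_mem _ (Finset.mem_range.2 hj)
  have hcard : ∀ A ∈ F, (phi A).card = m + 1 := by
    intro A hA
    rw [hphi]
    simp only
    rw [Finset.card_image_of_injOn, Finset.card_range]
    intro i hi j hj hij
    simp only [Finset.coe_range, Set.mem_Iio] at hi hj
    simp only at hij
    have hc := (h A hA).2.1
    rcases lt_trichotomy i j with hlt | heq | hgt
    · have := en_lt (A := A) (i := 2 * i) (j := 2 * j) (by omega) (by omega)
      omega
    · exact heq
    · have := en_lt (A := A) (i := 2 * j) (j := 2 * i) (by omega) (by omega)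
      omega
  have hsub : ∀ A ∈ F, phi A ⊆ A := by
    intro A hA x hx
    rw [hphi] at hx
    simp only [Finset.mem_image, Finset.mem_range] at hx
    obtain ⟨j, hj, rfl⟩ := hx
    exact en_mem (by have := (h A hA).2.1; omega)
  have hen : ∀ A ∈ F, ∀ j < m + 1, en (phi A) j = en A (2 * j) := by
    intro A hA
    have hc := (h A hA).2.1
    refine en_unique (f := fun j => en A (2 * j)) (hcard A hA) (hmemphi A hA) ?_
    intro i j hij hj
    exact en_lt (by omega) (by omega)
  set t : Finset (Finset ℕ) := Finset.powersetCard (m + 1) (Finset.range N) with ht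
  have hmap : ∀ A ∈ F, phi A ∈ t := by
    intro A hA
    rw [ht, Finset.mem_powersetCard]
    exact ⟨(hsub A hA).trans (h A hA).1, hcard A hA⟩
  obtain ⟨A₁, hA₁⟩ := hne
  have hFpos : 0 < F.card := Finset.card_pos.2 ⟨A₁, hA₁⟩
  obtain ⟨S, hSt, hSmax⟩ := Finset.exists_max_image t
    (fun S => (F.filter fun A => phi A = S).card) ⟨phi A₁, hmap A₁ hA₁⟩
  set FS : Finset (Finset ℕ) := F.filter fun A => phi A = S with hFS
  have hcount : F.card ≤ N.choose (m + 1) * FS.card := by
    rw [Finset.card_eq_sum_card_fiberwise (f := phi) (t := t) (fun A hA => hmap A hA)]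
    refine le_trans (Finset.sum_le_card_nsmul t _ FS.card fun S' hS' => hSmax S' hS') ?_
    rw [ht, Finset.card_powersetCard, Finset.card_range, smul_eq_mul]
  have hFSpos : 0 < FS.card := by
    rcases Nat.eq_zero_or_pos FS.card with h0 | h0
    · rw [h0, mul_zero] at hcount; omega
    · exact h0
  obtain ⟨A₀, hA₀⟩ := Finset.card_pos.1 hFSpos
  have hFSF : ∀ A ∈ FS, A ∈ F ∧ phi A = S := fun A hA => by
    rw [hFS, Finset.mem_filter] at hA; exact hA
  set s : ℕ → ℕ := fun j => en S j with hs
  have hsA : ∀ A ∈ FS, ∀ j < m + 1, s j = en A (2 * j) := by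
    intro A hA j hj
    obtain ⟨hAF, hAS⟩ := hFSF A hA
    rw [← hen A hAF j hj, hAS]
  obtain ⟨hA₀F, -⟩ := hFSF A₀ hA₀
  have hc₀ := (h A₀ hA₀F).2.1
  have hsmem : ∀ j < m + 1, s j ∈ A₀ := fun j hj => by
    rw [hsA A₀ hA₀ j hj]; exact en_mem (by omega)
  have hinc : ∀ i j, i < j → j ≤ m → s i < s j := fun i j hij hj => by
    rw [hsA A₀ hA₀ i (by omega), hsA A₀ hA₀ j (by omega)]
    exact en_lt (by omega) (by omega)
  have hle : ∀ i j, i ≤ j → j ≤ m → s i ≤ s j := fun i j hij hj => by
    rcases Nat.lt_or_eq_of_le hij with h' | h'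
    · exact (hinc i j h' hj).le
    · rw [h']
  set Q : ℕ → Finset ℕ := fun j => (Finset.range N).filter fun q =>
    s j < q ∧ q < s (j + 1) ∧ (∀ i i', i < i' → i' ≤ j → c (s i) (s i') q) ∧
    (∀ i i', i ≤ j → j < i' → i' ≤ m → c (s i) q (s i')) ∧
    (∀ i i', j < i → i < i' → i' ≤ m → c q (s i) (s i')) with hQ
  have hQm : ∀ j q, q ∈ Q j ↔ q ∈ Finset.range N ∧
    s j < q ∧ q < s (j + 1) ∧ (∀ i i', i < i' → i' ≤ j → c (s i) (s i') q) ∧
    (∀ i i', i ≤ j → j < i' → i' ≤ m → c (s i) q (s i')) ∧
    (∀ i i', j < i → i < i' → i' ≤ m → c q (s i) (s i')) := fun j q => by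
    rw [hQ]; simp only [Finset.mem_filter]
  refine ⟨s, Q, ?_, ?_⟩
  · refine ⟨?_, hinc, ?_, ?_, ?_, ?_, ?_, ?_, ?_⟩
    · intro j hj
      exact (h A₀ hA₀F).1 (hsmem j (by omega))
    · intro i j k hij hjk hk
      exact (h A₀ hA₀F).2.2 _ (hsmem i (by omega)) _ (hsmem j (by omega)) _
        (hsmem k (by omega)) (hinc i j hij (by omega)) (hinc j k hjk hk)
    · intro j _ q hq
      exact ((hQm j q).1 hq).1
    · intro j hj q hq i hi
      exact lt_of_le_of_lt (hle i j hi (by omega)) ((hQm j q).1 hq).2.1
    · intro j hj q hq i hji hi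
      exact lt_of_lt_of_le ((hQm j q).1 hq).2.2.1 (hle (j + 1) i hji hi)
    · intro j _ q hq i i' h1 h2
      exact ((hQm j q).1 hq).2.2.2.1 i i' h1 h2
    · intro j _ q hq i i' h1 h2 h3
      exact ((hQm j q).1 hq).2.2.2.2.1 i i' h1 h2 h3
    · intro j _ q hq i i' h1 h2 h3
      exact ((hQm j q).1 hq).2.2.2.2.2 i i' h1 h2 h3
  · refine le_trans hcount (Nat.mul_le_mul_left _ ?_)
    rw [← Finset.card_pi]
    refine Finset.card_le_card_of_injOn (fun A => fun j _ => en A (2 * j + 1)) ?_ ?_
    · intro A hA
      have hA' : A ∈ FS := hA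
      obtain ⟨hAF, -⟩ := hFSF A hA'
      have hc := (h A hAF).2.1
      have hM := (h A hAF).2.2
      have hmem : ∀ i < 2 * m + 1, en A i ∈ A := fun i hi => en_mem (by omega)
      have hlt : ∀ i j, i < j → j < 2 * m + 1 → en A i < en A j := fun i j h1 h2 =>
        en_lt h1 (by omega)
      show (fun j _ => en A (2 * j + 1)) ∈ ((Finset.range m).pi Q : Finset _)
      rw [Finset.mem_pi]
      intro j hj
      have hj' : j < m := Finset.mem_range.1 hj
      rw [hQm]
      refine ⟨(h A hAF).1 (hmem _ (by omega)), ?_, ?_, ?_, ?_, ?_⟩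
      · rw [hsA A hA' j (by omega)]
        exact hlt _ _ (by omega) (by omega)
      · rw [hsA A hA' (j + 1) (by omega)]
        exact hlt _ _ (by omega) (by omega)
      · intro i i' h1 h2
        rw [hsA A hA' i (by omega), hsA A hA' i' (by omega)]
        exact hM _ (hmem _ (by omega)) _ (hmem _ (by omega)) _ (hmem _ (by omega))
          (hlt _ _ (by omega) (by omega)) (hlt _ _ (by omega) (by omega))
      · intro i i' h1 h2 h3
        rw [hsA A hA' i (by omega), hsA A hA' i' (by omega)]
        exact hM _ (hmem _ (by omega)) _ (hmem _ (by omega)) _ (hmem _ (by omega))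
          (hlt _ _ (by omega) (by omega)) (hlt _ _ (by omega) (by omega))
      · intro i i' h1 h2 h3
        rw [hsA A hA' i (by omega), hsA A hA' i' (by omega)]
        exact hM _ (hmem _ (by omega)) _ (hmem _ (by omega)) _ (hmem _ (by omega))
          (hlt _ _ (by omega) (by omega)) (hlt _ _ (by omega) (by omega))
    · intro A hA B hB hAB
      have hA' : A ∈ FS := hA
      have hB' : B ∈ FS := hB
      have hcA := (h A (hFSF A hA').1).2.1
      have hcB := (h B (hFSF B hB').1).2.1
      have hall : ∀ i < 2 * m + 1, en A i = en B i := by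
        intro i hi
        rcases Nat.even_or_odd' i with ⟨j, hj | hj⟩
        · rw [hj, ← hsA A hA' j (by omega), ← hsA B hB' j (by omega)]
        · have h1 := congrFun (congrFun hAB j) (Finset.mem_range.2 (by omega))
          rw [hj]
          exact h1
      apply Finset.Subset.antisymm
      · intro a ha
        obtain ⟨i, hi, rfl⟩ := en_surj ha
        rw [hall i (by omega)]
        exact en_mem (by omega)
      · intro a ha
        obtain ⟨i, hi, rfl⟩ := en_surj ha
        rw [← hall i (by omega)]
        exact en_mem (by omega)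

end ES13
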