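import Mathlib

/-!
# ES13/PFNum (MP_d79f1f_co)
PROOF. T = 2m+1. N >= 2^(24 m) >= 4m (so N - 2m >= N/2, 2 (N - 2m) >= N), N >= T.
(a) Nat.choose_mul: N.choose T * T.choose (m+1) = N.choose (m+1) * (N-(m+1)).choose m.
(b) Nat.pow_le_choose (or the multiplicative version): (N-(m+1) + 1 - m)^m <= m! * (N-(m+1)).choose m, i.e.
 (N - 2m)^m <= m! * (N-m-1).choose m. Hence N^m <= 2^m (N-2m)^m <= 2^m m! (N-m-1).choose m.
(c) So N^m * N.choose (m+1) <= 2^m m! N.choose T * T.choose (m+1)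
 <= 2^m m! * 2^T * 2 t * (4^T).choose T <= 2^m m! 2^(T+1) (4^T)^T * N.choose (m+1) * X.
 Cancel N.choose (m+1) > 0.
(d) m! <= m^m <= 2^(m^2), (4^T).choose T <= (4^T)^T = 2^(2 T^2) (Nat.choose_le_pow..), exponent:
 m + m^2 + (2m+2) + 2 (2m+1)^2 = 9 m^2 + 11 m + 4 <= 24 m^2 for m >= 1.
-/

namespace ES13

variable {α : Type*}

theorem pfNum (N m t X : ℕ) (hm : 1 ≤ m) (hN : 2 ^ (24 * m) ≤ N)
    (h1 : N.choose (2 * m + 1) ≤ 2 * t * (4 ^ (2 * m + 1)).choose (2 * m + 1))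
    (h2 : t ≤ N.choose (m + 1) * X) : N ^ m ≤ 2 ^ (24 * m ^ 2) * X := by
  have hN4 : 4 * m + 1 ≤ N := by
    have h3 : 24 * m < 2 ^ (24 * m) := Nat.lt_two_pow_self
    omega
  have hmN : m + 1 ≤ 2 * m + 1 := by omega
  have hTN : 2 * m + 1 ≤ N := by omega
  have ha : N.choose (2 * m + 1) * (2 * m + 1).choose (m + 1)
      = N.choose (m + 1) * (N - (m + 1)).choose m := by
    rw [Nat.choose_mul hmN]
    congr 2
    omega
  have hb : (N - 2 * m) ^ m ≤ m.factorial * (N - (m + 1)).choose m := by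
    have h4 := Nat.pow_sub_le_descFactorial (N - (m + 1)) m
    rw [Nat.descFactorial_eq_factorial_mul_choose] at h4
    have h5 : N - (m + 1) + 1 - m = N - 2 * m := by omega
    rwa [h5] at h4
  have hb2 : N ^ m ≤ 2 ^ m * (m.factorial * (N - (m + 1)).choose m) := by
    calc N ^ m ≤ (2 * (N - 2 * m)) ^ m := Nat.pow_le_pow_left (by omega) m
      _ = 2 ^ m * (N - 2 * m) ^ m := by rw [mul_pow]
      _ ≤ _ := Nat.mul_le_mul_left _ hb
  have hpos : 0 < N.choose (m + 1) := Nat.choose_pos (by omega)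
  have hT2 : (2 * m + 1).choose (m + 1) ≤ 2 ^ (2 * m + 1) := Nat.choose_le_two_pow _ _
  have h4T : (4 ^ (2 * m + 1)).choose (2 * m + 1) ≤ 2 ^ (2 * (2 * m + 1) ^ 2) := by
    calc (4 ^ (2 * m + 1)).choose (2 * m + 1) ≤ (4 ^ (2 * m + 1)) ^ (2 * m + 1) :=
          Nat.choose_le_pow _ _
      _ = 2 ^ (2 * (2 * m + 1) ^ 2) := by
          rw [show (4 : ℕ) = 2 ^ 2 by norm_num, ← pow_mul, ← pow_mul]
          congr 1
          ring
  have hfac : m.factorial ≤ 2 ^ (m ^ 2) := by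
    calc m.factorial ≤ m ^ m := Nat.factorial_le_pow m
      _ ≤ (2 ^ m) ^ m := Nat.pow_le_pow_left Nat.lt_two_pow_self.le m
      _ = 2 ^ (m ^ 2) := by rw [← pow_mul, sq]
  have key : N.choose (m + 1) * N ^ m ≤ N.choose (m + 1) * (2 ^ (24 * m ^ 2) * X) := by
    calc N.choose (m + 1) * N ^ m
        ≤ N.choose (m + 1) * (2 ^ m * (m.factorial * (N - (m + 1)).choose m)) :=
          Nat.mul_le_mul_left _ hb2
      _ = 2 ^ m * m.factorial * (N.choose (2 * m + 1) * (2 * m + 1).choose (m + 1)) := by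
          rw [ha]; ring
      _ ≤ 2 ^ m * 2 ^ (m ^ 2) * ((2 * (N.choose (m + 1) * X) * 2 ^ (2 * (2 * m + 1) ^ 2))
            * 2 ^ (2 * m + 1)) := by
          refine Nat.mul_le_mul (Nat.mul_le_mul_left _ hfac) (Nat.mul_le_mul ?_ hT2)
          refine h1.trans (Nat.mul_le_mul (Nat.mul_le_mul_left _ h2) h4T)
      _ = N.choose (m + 1) * (2 ^ (m + m ^ 2 + 1 + 2 * (2 * m + 1) ^ 2 + (2 * m + 1)) * X) := by
          rw [pow_add, pow_add, pow_add, pow_add]
          ring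
      _ ≤ _ := by
          refine Nat.mul_le_mul_left _ (Nat.mul_le_mul_right _ ?_)
          refine Nat.pow_le_pow_right (by norm_num) ?_
          nlinarith [hm, Nat.le_self_pow (n := 2) (by norm_num) m]
  exact Nat.le_of_mul_le_mul_left key hpos

end ES13
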