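import Pool.Agent.ES13.Supersat
import Pool.Agent.ES13.CupsCaps
import Pool.Agent.ES13.PFFiber
import Pool.Agent.ES13.PFNum

/-!
# ES13/PFCore (MP_d79f1f_co)
PROOF. T = 2m+1, M = 4^T <= N (4^(2m+1) = 2^(4m+2) <= 2^(24m)). Let F = all A in powersetCard T (range N) with
MonoSet c A or MonoSet (not c) A. By cupsCaps (hSig restricted to subsets) every M-subset of range N contains
a member of F. supersat: N.choose T <= F.card * M.choose T (T <= M). F is the union of F1 (MonoSet c) and F2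
(MonoSet not c), so F.card <= 2 * max; choose c' in {c, not c} with F.card <= 2 * (F').card, F' the
corresponding family. N.choose T > 0 so F' is nonempty. pfFiber for c' gives s, Q with
F'.card <= N.choose (m+1) * prod. pfNum with t = F'.card, X = prod gives the claim.
-/

namespace ES13

variable {α : Type*}

theorem pfCore (c : ℕ → ℕ → ℕ → Prop) (N m : ℕ) (hm : 1 ≤ m) (hN : 2 ^ (24 * m) ≤ N)
    (hSig : Sig c (· < ·) (Finset.range N)) :
    ∃ c' : ℕ → ℕ → ℕ → Prop, (c' = c ∨ c' = fun i j k => ¬ c i j k) ∧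
      ∃ s : ℕ → ℕ, ∃ Q : ℕ → Finset ℕ, Skel c' (· < ·) (Finset.range N) m s Q ∧
      N ^ m ≤ 2 ^ (24 * m ^ 2) * ∏ j ∈ Finset.range m, (Q j).card := by
  classical
  have hMN : 4 ^ (2 * m + 1) ≤ N := by
    refine le_trans ?_ hN
    rw [show (4 : ℕ) = 2 ^ 2 by norm_num, ← pow_mul]
    exact Nat.pow_le_pow_right (by norm_num) (by omega)
  have hTM : 2 * m + 1 ≤ 4 ^ (2 * m + 1) := (Nat.lt_pow_self (by norm_num)).le
  -- the key step for one colour
  have key : ∀ c' : ℕ → ℕ → ℕ → Prop, ∀ F : Finset (Finset ℕ),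
      (∀ A ∈ F, A ⊆ Finset.range N ∧ A.card = 2 * m + 1 ∧ MonoSet c' A) →
      N.choose (2 * m + 1) ≤ 2 * F.card * (4 ^ (2 * m + 1)).choose (2 * m + 1) →
      ∃ s : ℕ → ℕ, ∃ Q : ℕ → Finset ℕ, Skel c' (· < ·) (Finset.range N) m s Q ∧
        N ^ m ≤ 2 ^ (24 * m ^ 2) * ∏ j ∈ Finset.range m, (Q j).card := by
    intro c' F hF hcard
    have hpos : 0 < N.choose (2 * m + 1) := Nat.choose_pos (le_trans hTM hMN)
    have hne : F.Nonempty := by
      rw [← Finset.card_pos]
      by_contra h0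
      have h1 : F.card = 0 := by omega
      rw [h1] at hcard
      simp only [mul_zero, zero_mul] at hcard
      omega
    obtain ⟨s, Q, hS, hQ⟩ := pfFiber c' N m F hne hF
    exact ⟨s, Q, hS, pfNum N m F.card _ hm hN hcard hQ⟩
  let F1 := ((Finset.range N).powersetCard (2 * m + 1)).filter (fun A => MonoSet c A)
  let F2 := ((Finset.range N).powersetCard (2 * m + 1)).filter
    (fun A => MonoSet (fun i j k => ¬ c i j k) A)
  have hF1 : ∀ A ∈ F1, A ⊆ Finset.range N ∧ A.card = 2 * m + 1 ∧ MonoSet c A := by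
    intro A hA
    have h1 := Finset.mem_filter.mp hA
    have h2 := Finset.mem_powersetCard.mp h1.1
    exact ⟨h2.1, h2.2, h1.2⟩
  have hF2 : ∀ A ∈ F2, A ⊆ Finset.range N ∧ A.card = 2 * m + 1 ∧
      MonoSet (fun i j k => ¬ c i j k) A := by
    intro A hA
    have h1 := Finset.mem_filter.mp hA
    have h2 := Finset.mem_powersetCard.mp h1.1
    exact ⟨h2.1, h2.2, h1.2⟩
  have hsup := supersat (Finset.range N) (2 * m + 1) (4 ^ (2 * m + 1)) hTM
    (by rw [Finset.card_range]; exact hMN) (F1 ∪ F2)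
    (by
      intro A hA
      rcases Finset.mem_union.mp hA with h | h
      · exact (Finset.mem_filter.mp h).1
      · exact (Finset.mem_filter.mp h).1)
    (by
      intro B hB
      obtain ⟨hB1, hB2⟩ := Finset.mem_powersetCard.mp hB
      obtain ⟨A, hAB, hAc, hA⟩ := cupsCaps c B
        (fun a ha b hb d hd e he => hSig a (hB1 ha) b (hB1 hb) d (hB1 hd) e (hB1 he))
        (2 * m + 1) hB2.ge
      refine ⟨A, ?_, hAB⟩
      rw [Finset.mem_union]
      rcases hA with hA | hA
      · exact Or.inl (Finset.mem_filter.mpr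
          ⟨Finset.mem_powersetCard.mpr ⟨hAB.trans hB1, hAc⟩, hA⟩)
      · exact Or.inr (Finset.mem_filter.mpr
          ⟨Finset.mem_powersetCard.mpr ⟨hAB.trans hB1, hAc⟩, hA⟩))
  rw [Finset.card_range] at hsup
  have hun : (F1 ∪ F2).card ≤ F1.card + F2.card := Finset.card_union_le _ _
  rcases le_total F2.card F1.card with h | h
  · refine ⟨c, Or.inl rfl, key c F1 hF1 (hsup.trans ?_)⟩
    exact Nat.mul_le_mul_right _ (by omega)
  · refine ⟨_, Or.inr rfl, key _ F2 hF2 (hsup.trans ?_)⟩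
    exact Nat.mul_le_mul_right _ (by omega)

end ES13
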