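import Pool.Agent.ES13.Basic
import Pool.Agent.ES13.PFCore

/-!
# ES13/PosFrac (MP_d79f1f_co)
* enumSTO: induction on the cardinality or: rank p = card of the set of q in P with lt q p is injective on P
 (strictly increasing) with values < P.card, hence a bijection P -> range P.card; e = its inverse.
* posFrac: N = P.card, e from enumSTO, c0 i j k := cw (e i) (e j) (e k). Sig c0 (. < .) (range N) from hSig. pfCore gives
 c', s, Q. If c' = c0: take colour cw, skeleton e o s, parts Q' j = image of Q j under e (e is injective on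
 range N). If c' = not c0: take flip3 cw: for i < j < k < N: not cw (e i) (e j) (e k) <-> cw (e j) (e i) (e k)
 (distinct points, tot). All Skel fields transfer (the indices s i are < N). card (Q' j) = card (Q j).
 For J inside range m: N^m <= 2^(24 m^2) prod_{j<m} card (Q' j), and prod_{j<m} = prod_J * prod over the
 complement <= prod_J * N^(m - card J) (Finset.prod_sdiff, card (Q' j) <= N, Finset.prod_le_pow_card). N > 0, so
 cancelling N^(m - card J) gives N^(card J) <= 2^(24 m^2) prod_J.
-/

namespace ES13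

variable {α : Type*}

theorem enumSTO {lt : α → α → Prop} {P : Finset α} (hT : STO lt P) (hP : P.Nonempty) :
    ∃ e : ℕ → α, (∀ i < P.card, e i ∈ P) ∧ (∀ i j, i < j → j < P.card → lt (e i) (e j)) ∧
      ∀ p ∈ P, ∃ i < P.card, e i = p := by
  classical
  obtain ⟨p0, hp0⟩ := hP
  set rk : α → ℕ := fun p => (P.filter (fun q => lt q p)).card with hrk
  have hlt : ∀ p ∈ P, ∀ q ∈ P, lt p q → rk p < rk q := by
    intro p hp q hq hpq
    apply Finset.card_lt_card
    rw [Finset.ssubset_iff_of_subset]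
    · exact ⟨p, by simp [hp, hpq], by simp [hp, hT.irr p hp]⟩
    · intro x hx
      simp only [Finset.mem_filter] at hx ⊢
      exact ⟨hx.1, hT.trans x hx.1 p hp q hq hx.2 hpq⟩
  have hbd : ∀ p ∈ P, rk p < P.card := by
    intro p hp
    apply Finset.card_lt_card
    rw [Finset.ssubset_iff_of_subset (Finset.filter_subset _ _)]
    exact ⟨p, hp, by simp [hT.irr p hp]⟩
  have hinj : Set.InjOn rk P := by
    intro p hp q hq hpq
    by_contra hne
    rcases hT.tot p hp q hq hne with h | h
    · exact absurd hpq (hlt p hp q hq h).ne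
    · exact absurd hpq (hlt q hq p hp h).ne'
  have himg : P.image rk = Finset.range P.card := by
    apply Finset.eq_of_subset_of_card_le
    · intro x hx
      obtain ⟨p, hp, rfl⟩ := Finset.mem_image.1 hx
      exact Finset.mem_range.2 (hbd p hp)
    · rw [Finset.card_range, Finset.card_image_of_injOn hinj]
  have hsurj : ∀ i < P.card, ∃ p ∈ P, rk p = i := by
    intro i hi
    have : i ∈ P.image rk := by rw [himg]; exact Finset.mem_range.2 hi
    exact Finset.mem_image.1 this
  set e : ℕ → α := fun i => if h : i < P.card then (hsurj i h).choose else p0 with he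
  have he1 : ∀ i < P.card, e i ∈ P ∧ rk (e i) = i := by
    intro i hi
    have : e i = (hsurj i hi).choose := by simp [he, hi]
    rw [this]
    exact (hsurj i hi).choose_spec
  refine ⟨e, fun i hi => (he1 i hi).1, ?_, ?_⟩
  · intro i j hij hj
    have hi : i < P.card := hij.trans hj
    have h1 := he1 i hi
    have h2 := he1 j hj
    have hne : e i ≠ e j := by
      intro h
      rw [h] at h1
      omega
    rcases hT.tot _ h1.1 _ h2.1 hne with h | h
    · exact h
    · have := hlt _ h2.1 _ h1.1 h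
      omega
  · intro p hp
    refine ⟨rk p, hbd p hp, ?_⟩
    have h1 := he1 (rk p) (hbd p hp)
    exact hinj h1.1 hp h1.2

/-- transport of a skeleton on `range N` -/
theorem skel_transport {cw : α → α → α → Prop} {lt : α → α → Prop} {P : Finset α}
    {e : ℕ → α} (he1 : ∀ i < P.card, e i ∈ P)
    (he2 : ∀ i j, i < j → j < P.card → lt (e i) (e j))
    {c : ℕ → ℕ → ℕ → Prop}
    (hc : ∀ i j k, i < j → j < k → k < P.card → c i j k → cw (e i) (e j) (e k))
    {m : ℕ} {s : ℕ → ℕ} {Q : ℕ → Finset ℕ}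
    (h : Skel c (· < ·) (Finset.range P.card) m s Q) [DecidableEq α] :
    Skel cw lt P m (fun i => e (s i)) (fun i => (Q i).image e) := by
  have hs : ∀ j ≤ m, s j < P.card := fun j hj => Finset.mem_range.1 (h.mem j hj)
  have hq : ∀ j < m, ∀ q ∈ Q j, q < P.card := fun j hj q hq =>
    Finset.mem_range.1 (h.sub j hj hq)
  refine ⟨?_, ?_, ?_, ?_, ?_, ?_, ?_, ?_, ?_⟩
  · intro j hj
    exact he1 _ (hs j hj)
  · intro i j hij hj
    exact he2 _ _ (h.inc i j hij hj) (hs j hj)
  · intro i j k hij hjk hk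
    exact hc _ _ _ (h.inc i j hij (by omega)) (h.inc j k hjk hk) (hs k hk)
      (h.cap i j k hij hjk hk)
  · intro j hj x hx
    obtain ⟨q, hq', rfl⟩ := Finset.mem_image.1 hx
    exact he1 _ (hq j hj q hq')
  · intro j hj x hx i hi
    obtain ⟨q, hq', rfl⟩ := Finset.mem_image.1 hx
    exact he2 _ _ (h.lo j hj q hq' i hi) (hq j hj q hq')
  · intro j hj x hx i hi hi'
    obtain ⟨q, hq', rfl⟩ := Finset.mem_image.1 hx
    exact he2 _ _ (h.hi j hj q hq' i hi hi') (hs i hi')
  · intro j hj x hx i i' hi hi'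
    obtain ⟨q, hq', rfl⟩ := Finset.mem_image.1 hx
    exact hc _ _ _ (h.inc i i' hi (by omega)) (h.lo j hj q hq' i' hi') (hq j hj q hq')
      (h.cap1 j hj q hq' i i' hi hi')
  · intro j hj x hx i i' hi hi' hi''
    obtain ⟨q, hq', rfl⟩ := Finset.mem_image.1 hx
    exact hc _ _ _ (h.lo j hj q hq' i hi) (h.hi j hj q hq' i' hi' hi'') (hs i' hi'')
      (h.cap2 j hj q hq' i i' hi hi' hi'')
  · intro j hj x hx i i' hi hi' hi''
    obtain ⟨q, hq', rfl⟩ := Finset.mem_image.1 hx
    exact hc _ _ _ (h.hi j hj q hq' i hi (by omega)) (h.inc i i' hi' hi'') (hs i' hi'')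
      (h.cap3 j hj q hq' i i' hi hi' hi'')

theorem posFrac_prod {N m C : ℕ} (hN : 0 < N) (a : ℕ → ℕ) (ha : ∀ j < m, a j ≤ N)
    (h : N ^ m ≤ C * ∏ j ∈ Finset.range m, a j) (J : Finset ℕ) (hJ : J ⊆ Finset.range m) :
    N ^ J.card ≤ C * ∏ j ∈ J, a j := by
  classical
  have h1 : (∏ j ∈ Finset.range m \ J, a j) ≤ N ^ (m - J.card) := by
    have := Finset.prod_le_pow_card (Finset.range m \ J) a N (by
      intro j hj
      exact ha j (Finset.mem_range.1 (Finset.mem_sdiff.1 hj).1))
    rwa [Finset.card_sdiff_of_subset hJ, Finset.card_range] at this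
  have h2 : J.card ≤ m := by
    have := Finset.card_le_card hJ
    rwa [Finset.card_range] at this
  have h3 : N ^ J.card * N ^ (m - J.card) ≤ (C * ∏ j ∈ J, a j) * N ^ (m - J.card) := by
    rw [← pow_add, Nat.add_sub_cancel' h2]
    calc N ^ m ≤ C * ∏ j ∈ Finset.range m, a j := h
      _ = C * ((∏ j ∈ Finset.range m \ J, a j) * ∏ j ∈ J, a j) := by
          rw [Finset.prod_sdiff hJ]
      _ = (C * ∏ j ∈ J, a j) * ∏ j ∈ Finset.range m \ J, a j := by ring
      _ ≤ _ := Nat.mul_le_mul_left _ h1
  exact Nat.le_of_mul_le_mul_right h3 (pow_pos hN _)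

theorem posFrac {cw : α → α → α → Prop} {lt : α → α → Prop} {P : Finset α} (hO : Ori cw)
    (hT : STO lt P) (hSig : Sig cw lt P) {m : ℕ} (hm : 1 ≤ m) (hP : 2 ^ (24 * m) ≤ P.card) :
    ∃ c : α → α → α → Prop, (c = cw ∨ c = flip3 cw) ∧
      ∃ s : ℕ → α, ∃ Q : ℕ → Finset α, Skel c lt P m s Q ∧
      ∀ J ⊆ Finset.range m, P.card ^ J.card ≤ 2 ^ (24 * m ^ 2) * ∏ j ∈ J, (Q j).card := by
  classical
  have hpos : 0 < P.card := lt_of_lt_of_le (by positivity) hP
  obtain ⟨e, he1, he2, _⟩ := enumSTO hT (Finset.card_pos.1 hpos)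
  set c0 : ℕ → ℕ → ℕ → Prop := fun i j k => cw (e i) (e j) (e k) with hc0
  have hSig0 : Sig c0 (· < ·) (Finset.range P.card) := by
    intro a ha b hb c hc d hd hab hbc hcd
    simp only [Finset.mem_range] at ha hb hc hd
    exact hSig _ (he1 a ha) _ (he1 b hb) _ (he1 c hc) _ (he1 d hd) (he2 a b hab hb)
      (he2 b c hbc hc) (he2 c d hcd hd)
  obtain ⟨c', hc', s, Q, hSk, hprod⟩ := pfCore c0 P.card m hm hP hSig0
  have hinj : Set.InjOn e (Finset.range P.card : Finset ℕ) := by
    intro i hi j hj hij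
    simp only [Finset.coe_range, Set.mem_Iio] at hi hj
    by_contra hne
    rcases Nat.lt_or_gt_of_ne hne with h | h
    · have := he2 i j h hj
      rw [hij] at this
      exact hT.irr _ (he1 j hj) this
    · have := he2 j i h hi
      rw [hij] at this
      exact hT.irr _ (he1 j hj) this
  have hcard : ∀ j < m, ((Q j).image e).card = (Q j).card := by
    intro j hj
    apply Finset.card_image_of_injOn
    intro x hx y hy hxy
    exact hinj (hSk.sub j hj hx) (hSk.sub j hj hy) hxy
  have hfin : ∀ J ⊆ Finset.range m,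
      P.card ^ J.card ≤ 2 ^ (24 * m ^ 2) * ∏ j ∈ J, ((Q j).image e).card := by
    intro J hJ
    have h1 := posFrac_prod hpos (fun j => (Q j).card) (fun j hj => by
      have := Finset.card_le_card (hSk.sub j hj)
      rwa [Finset.card_range] at this) hprod J hJ
    have h2 : ∏ j ∈ J, ((Q j).image e).card = ∏ j ∈ J, (Q j).card :=
      Finset.prod_congr rfl (fun j hj => hcard j (Finset.mem_range.1 (hJ hj)))
    rw [h2]
    exact h1
  rcases hc' with hc' | hc'
  · refine ⟨cw, Or.inl rfl, fun i => e (s i), fun i => (Q i).image e, ?_, hfin⟩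
    refine skel_transport he1 he2 ?_ hSk
    intro i j k _ _ _ h
    rw [hc'] at h
    exact h
  · refine ⟨flip3 cw, Or.inr rfl, fun i => e (s i), fun i => (Q i).image e, ?_, hfin⟩
    refine skel_transport he1 he2 ?_ hSk
    intro i j k hij hjk hk h
    rw [hc'] at h
    have h1 : e i ≠ e j := sto_ne hT (he1 i (by omega)) (he2 i j hij (by omega))
    have h2 : e j ≠ e k := sto_ne hT (he1 j (by omega)) (he2 j k hjk hk)
    have h3 : e i ≠ e k := sto_ne hT (he1 i (by omega)) (he2 i k (by omega) hk)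
    rcases hO.tot _ _ _ h1 h2 h3 with h4 | h4
    · exact absurd h4 h
    · exact h4

end ES13
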