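import Pool.Agent.ES13.Level2Prod
import Pool.Agent.ES13.PosFrac

/-!
# ES13/Level2Main (MP_d79f1f_co)
* level2Main: posFrac for (cw, X, P), m = 4k+6 >= 1, gives c, s, Q and Skel c X P (4k+6) s Q. level2Prod gives J
 with card k. posFrac for J: P.card^k <= 2^(24 (4k+6)^2) * prod_J (Q j).card; square it
 (Finset.prod_pow, pow_mul).
* level2Log: put k = w + a1 >= 1, so a1 <= 2k+3. Real.logb 2 is written log.
 Case P.card < 2^(24(4k+6)): log P.card <= 24 (4k+6) <= 240 k, so 2 log <= 480 (w + a1) <= right side (all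
 the other terms are >= 0, Real.logb_nonneg).
 Case 2^(24(4k+6)) <= P.card: take log of level2Main: 2k log P.card <= 16 k log (n+1) + 48 (4k+6)^2 +
 k (r1+l1+10a1) + (k+9) n. Divide by k >= 1: 2 log P.card <= 16 log (n+1) + 48 (4k+6)^2/k + r1 + l1 + 10 a1 +
 n + 9 n/k; (4k+6)^2 <= 100 k^2, so the second term is <= 4800 k = 4800 w + 4800 a1; 9 n/k <= 9 n/w.
-/

namespace ES13

variable {α : Type*}

theorem level2Main {cw : α → α → α → Prop} {X Y : α → α → Prop} {P : Finset α}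
    {n k r1 l1 a1 : ℕ} (hB : BO cw X Y P) (hn0 : 0 < n)
    (hn : NoConv cw P n) (h1 : Bd cw X Y P r1 l1 a1) (hr : r1 ≤ n) (hl : l1 ≤ n)
    (hk : 1 ≤ k) (ha : a1 ≤ 2 * k + 3) (hP : 2 ^ (24 * (4 * k + 6)) ≤ P.card) :
    P.card ^ (2 * k) ≤
      (n + 1) ^ (16 * k) * 2 ^ (48 * (4 * k + 6) ^ 2 + k * (r1 + l1 + 10 * a1) + (k + 9) * n) := by
  obtain ⟨c, hc, s, Q, hS, hJ⟩ := posFrac hB.ori hB.stoX hB.sigX (m := 4 * k + 6) (by omega) hP
  obtain ⟨J, hJs, hJc, hprod⟩ := level2Prod hB hn0 hn h1 hr hl ha hc hS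
  have h2 := hJ J hJs
  rw [hJc] at h2
  have h3 : P.card ^ (2 * k) ≤ (2 ^ (24 * (4 * k + 6) ^ 2) * ∏ j ∈ J, (Q j).card) ^ 2 := by
    rw [mul_comm 2 k, pow_mul]
    exact Nat.pow_le_pow_left h2 2
  rw [mul_pow, ← Finset.prod_pow] at h3
  refine h3.trans ((Nat.mul_le_mul_left _ hprod).trans (le_of_eq ?_))
  have h4 : 48 * (4 * k + 6) ^ 2 + k * (r1 + l1 + 10 * a1) + (k + 9) * n =
      24 * (4 * k + 6) ^ 2 * 2 + (k * (r1 + l1 + 10 * a1) + (k + 9) * n) := by ring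
  rw [h4, pow_add 2 (24 * (4 * k + 6) ^ 2 * 2), pow_mul 2 (24 * (4 * k + 6) ^ 2) 2]
  generalize 2 ^ (24 * (4 * k + 6) ^ 2) = u
  generalize 2 ^ (k * (r1 + l1 + 10 * a1) + (k + 9) * n) = v
  ring

theorem level2Log {cw : α → α → α → Prop} {X Y : α → α → Prop} {P : Finset α}
    {n w r1 l1 a1 : ℕ} (hB : BO cw X Y P) (hn0 : 0 < n)
    (hn : NoConv cw P n) (h1 : Bd cw X Y P r1 l1 a1) (hr : r1 ≤ n) (hl : l1 ≤ n)
    (hw : 1 ≤ w) (hP : P.Nonempty) :
    2 * Real.logb 2 P.card ≤ (r1 : ℝ) + l1 + n + 9 * n / w + 16 * Real.logb 2 (n + 1)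
      + 4810 * a1 + 4800 * w := by
  obtain ⟨k, hk⟩ : ∃ k, k = w + a1 := ⟨_, rfl⟩
  have hk1 : 1 ≤ k := by omega
  have hkR : (k : ℝ) = w + a1 := by
    rw [hk]
    push_cast
    ring
  have hk1R : (1 : ℝ) ≤ k := by exact_mod_cast hk1
  have hwR : (1 : ℝ) ≤ w := by exact_mod_cast hw
  have ha0 : (0 : ℝ) ≤ a1 := Nat.cast_nonneg a1
  have hr0 : (0 : ℝ) ≤ r1 := Nat.cast_nonneg r1
  have hl0 : (0 : ℝ) ≤ l1 := Nat.cast_nonneg l1
  have hn0R : (0 : ℝ) ≤ n := Nat.cast_nonneg n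
  have hlog0 : 0 ≤ Real.logb 2 ((n : ℝ) + 1) := Real.logb_nonneg (by norm_num) (by linarith)
  have hPc : 0 < P.card := hP.card_pos
  have hPcR : (0 : ℝ) < P.card := by exact_mod_cast hPc
  have hdiv0 : 0 ≤ 9 * (n : ℝ) / w := by positivity
  obtain ⟨D, hD⟩ : ∃ D, D = 24 * (4 * k + 6) := ⟨_, rfl⟩
  rcases lt_or_ge P.card (2 ^ D) with h | h
  · have h2 : Real.logb 2 P.card ≤ (D : ℝ) := by
      rw [Real.logb_le_iff_le_rpow (by norm_num) hPcR, Real.rpow_natCast]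
      exact_mod_cast h.le
    rw [hD] at h2
    push_cast at h2
    linarith
  · rw [hD] at h
    have h2 := level2Main hB hn0 hn h1 hr hl hk1 (by omega) h
    obtain ⟨E, hE⟩ : ∃ E, E = 48 * (4 * k + 6) ^ 2 + k * (r1 + l1 + 10 * a1) + (k + 9) * n :=
      ⟨_, rfl⟩
    rw [← hE] at h2
    have h3 : Real.logb 2 ((P.card : ℝ) ^ (2 * k)) ≤
        Real.logb 2 (((n : ℝ) + 1) ^ (16 * k) * 2 ^ E) := by
      refine Real.logb_le_logb_of_le (by norm_num) (by positivity) ?_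
      exact_mod_cast h2
    rw [Real.logb_mul (by positivity) (by positivity), Real.logb_pow, Real.logb_pow,
      Real.logb_pow, Real.logb_self_eq_one (by norm_num), hE] at h3
    push_cast at h3
    have h4 : 9 * (n : ℝ) ≤ k * (9 * (n : ℝ) / w) := by
      have h5 : (w : ℝ) ≤ k := by linarith
      have h6 := mul_le_mul_of_nonneg_right h5 hdiv0
      have h7 : (w : ℝ) * (9 * (n : ℝ) / w) = 9 * n := by
        field_simp
      linarith
    have h5 : (4 * (k : ℝ) + 6) ^ 2 ≤ 100 * k ^ 2 := by nlinarith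
    have h6 : (k : ℝ) * (2 * Real.logb 2 P.card) ≤ k * ((r1 : ℝ) + l1 + n + 9 * n / w +
        16 * Real.logb 2 (n + 1) + 4810 * a1 + 4800 * w) := by
      have h7 : (k : ℝ) * (4800 * k) = k * (4800 * w) + k * (4800 * a1) := by
        rw [hkR]
        ring
      have h8 : (k : ℝ) * ((r1 : ℝ) + l1 + n + 9 * n / w +
        16 * Real.logb 2 (n + 1) + 4810 * a1 + 4800 * w) = k * r1 + k * l1 + k * n +
        k * (9 * n / w) + 16 * k * Real.logb 2 (n + 1) + 10 * (k * a1) +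
        (k * (4800 * w) + k * (4800 * a1)) := by ring
      rw [h8, ← h7]
      nlinarith
    exact le_of_mul_le_mul_left h6 (by linarith)


end ES13
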