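import Pool.Agent.ES13.ArrSum
import Pool.Agent.ES13.PosFrac
import Pool.Agent.ES13.Level2Main

/-!
# ES13/Level1 (MP_d79f1f_co)
PROOF. m = 2w+3. posFrac (hV) gives c in {cw, flip3 cw}, s, Q with Skel c lt V (2w+3) s Q. Put J = image of
range w under i -> 2 i + 2, card w: V.card^w <= 2^(24 (2w+3)^2) prod_{i<w} (Q (2i+2)).card. c is an
orientation with Sig and NoConv (ori_flip, sig_flip, noConv_flip); from now on write c.
arrSum with k = w: r, l, a. For i < w: P = Q (2i+2) is nonempty (the product is positive since V.card^w > 0),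
BO c (aroundV c (s (2i+5))) (aroundH c (s (2i))) P by skel_base with g = 2i, NoConv c P n, so level2Log:
 2 log P.card <= r i + l i + n + 9 n/w + 16 log (n+1) + 4810 a i + 4800 w (log = Real.logb 2).
Take the logarithm of the first inequality and multiply by 2:
 2 w log V.card <= 48 (2w+3)^2 + sum_i 2 log (Q (2i+2)).card
 <= 48 (2w+3)^2 + (w+1) n + w n + 9 n + 16 w log (n+1) + 4810 * 2 n + 4800 w^2. (w * (9 n / w) = 9 n.)
-/

namespace ES13

variable {α : Type*}

private theorem level1_aux {c : α → α → α → Prop} {lt : α → α → Prop} {V : Finset α} {n w : ℕ}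
    {s : ℕ → α} {Q : ℕ → Finset α}
    (hO : Ori c) (hT : STO lt V) (hSig : Sig c lt V) (hn0 : 0 < n) (hn : NoConv c V n)
    (hw : 1 ≤ w) (hV : 0 < V.card) (hSk : Skel c lt V (2 * w + 3) s Q)
    (hJ : ∀ J ⊆ Finset.range (2 * w + 3),
      V.card ^ J.card ≤ 2 ^ (24 * (2 * w + 3) ^ 2) * ∏ j ∈ J, (Q j).card) :
    2 * (w : ℝ) * Real.logb 2 V.card ≤ 48 * (2 * w + 3) ^ 2 + (w + 1) * n + w * n + 9 * n
      + 16 * w * Real.logb 2 (n + 1) + 9620 * n + 4800 * w ^ 2 := by
  have hinj : Set.InjOn (fun i : ℕ => 2 * i + 2) (Finset.range w) := by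
    intro a _ b _ hab
    have hab' : 2 * a + 2 = 2 * b + 2 := hab
    omega
  have h1 := hJ ((Finset.range w).image (fun i => 2 * i + 2)) (by
    intro j hj
    obtain ⟨i, hi, rfl⟩ := Finset.mem_image.1 hj
    rw [Finset.mem_range] at hi ⊢
    omega)
  rw [Finset.card_image_of_injOn hinj, Finset.card_range, Finset.prod_image hinj] at h1
  -- nonempty parts
  have hpos : ∀ i ∈ Finset.range w, 0 < (Q (2 * i + 2)).card := by
    intro i hi
    rcases Nat.eq_zero_or_pos (Q (2 * i + 2)).card with h0 | h0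
    · exfalso
      rw [Finset.prod_eq_zero hi h0, mul_zero] at h1
      exact absurd h1 (not_le.2 (pow_pos hV w))
    · exact h0
  -- logarithm
  have h2 : (w : ℝ) * Real.logb 2 V.card ≤ 24 * (2 * w + 3) ^ 2 +
      ∑ i ∈ Finset.range w, Real.logb 2 ((Q (2 * i + 2)).card : ℝ) := by
    have h3 : ((V.card : ℝ)) ^ w ≤ (2 : ℝ) ^ (24 * (2 * w + 3) ^ 2) *
        ∏ i ∈ Finset.range w, ((Q (2 * i + 2)).card : ℝ) := by
      exact_mod_cast h1
    have h4 : (0 : ℝ) < (V.card : ℝ) ^ w := pow_pos (by exact_mod_cast hV) w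
    have h5 := Real.logb_le_logb_of_le (b := 2) (by norm_num) h4 h3
    have h6 : ∀ i ∈ Finset.range w, ((Q (2 * i + 2)).card : ℝ) ≠ 0 := by
      intro i hi
      have := hpos i hi
      positivity
    have h7 : ∏ i ∈ Finset.range w, ((Q (2 * i + 2)).card : ℝ) ≠ 0 := Finset.prod_ne_zero_iff.2 h6
    rw [Real.logb_pow, Real.logb_mul (by positivity) h7, Real.logb_pow,
      Real.logb_self_eq_one (by norm_num), mul_one, Real.logb_prod _ _ h6] at h5
    push_cast at h5
    exact h5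
  obtain ⟨r, l, a, hBd, hrl, hs1, hs2⟩ := arrSum hO hT hSig hn0 hn hSk
  have hw0 : (0 : ℝ) < w := by exact_mod_cast hw
  have h3 : ∀ i ∈ Finset.range w, 2 * Real.logb 2 ((Q (2 * i + 2)).card : ℝ) ≤
      ((r i + l i : ℕ) : ℝ) + 4810 * ((a i : ℕ) : ℝ) +
        (n + 9 * n / w + 16 * Real.logb 2 (n + 1) + 4800 * w) := by
    intro i hi
    have hi' : i < w := Finset.mem_range.1 hi
    have hB := skel_base hO hT hSig hSk (g := 2 * i) (by omega)
    have h4 := level2Log (w := w) hB hn0 (noConv_sub hn (hSk.sub _ (by omega))) (hBd i hi')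
      (hrl i hi').1 (hrl i hi').2 hw (Finset.card_pos.1 (hpos i hi))
    push_cast
    linarith
  have h4 := Finset.sum_le_sum h3
  rw [Finset.sum_add_distrib, Finset.sum_add_distrib, Finset.sum_const, Finset.card_range,
    ← Finset.mul_sum, ← Finset.mul_sum, nsmul_eq_mul, ← Nat.cast_sum, ← Nat.cast_sum] at h4
  have h5 : ((∑ i ∈ Finset.range w, (r i + l i) : ℕ) : ℝ) ≤ (w + 1) * n := by
    exact_mod_cast hs1
  have h6 : ((∑ i ∈ Finset.range w, a i : ℕ) : ℝ) ≤ 2 * n := by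
    exact_mod_cast hs2
  have h7 : (w : ℝ) * (n + 9 * n / w + 16 * Real.logb 2 (n + 1) + 4800 * w) =
      w * n + 9 * n + 16 * w * Real.logb 2 (n + 1) + 4800 * w ^ 2 := by
    field_simp
  rw [h7] at h4
  linarith

theorem level1 {cw : α → α → α → Prop} {lt : α → α → Prop} {V : Finset α} {n w : ℕ}
    (hO : Ori cw) (hT : STO lt V) (hSig : Sig cw lt V) (hn0 : 0 < n) (hn : NoConv cw V n)
    (hw : 1 ≤ w) (hV : 2 ^ (24 * (2 * w + 3)) ≤ V.card) :
    2 * (w : ℝ) * Real.logb 2 V.card ≤ 48 * (2 * w + 3) ^ 2 + (w + 1) * n + w * n + 9 * n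
      + 16 * w * Real.logb 2 (n + 1) + 9620 * n + 4800 * w ^ 2 := by
  obtain ⟨c, hc, s, Q, hSk, hJ⟩ := posFrac hO hT hSig (m := 2 * w + 3) (by omega) hV
  have hV0 : 0 < V.card := lt_of_lt_of_le (by positivity) hV
  rcases hc with rfl | rfl
  · exact level1_aux hO hT hSig hn0 hn hw hV0 hSk hJ
  · exact level1_aux (ori_flip hO) hT (sig_flip hO hT hSig) hn0 (noConv_flip hO hn) hw hV0 hSk hJ

end ES13
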