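import Pool.Agent.ES13.GeoB
import Pool.Agent.ES13.ArrSum

/-!
# ES13/Level2B (MP_d79f1f_co)
PROOF. arrSum for (flip3 cw, X, P) (ori_flip, hB.stoX, sig_flip, noConv_flip) and the skeleton h gives
r, l, a : N -> N with Bd (flip3 cw) (aroundV (flip3 cw) (s (2i+5))) (aroundH (flip3 cw) (s (2i))) (Q (2i+2)).
For i < k let t = s (2i), t' = s (2i+5), Q0 = Q (2i+2). geoB applies with r2, l2, a2 = r i, l i, a i. Its
hypothesis hb for q in Q0: X t q (h.lo), X q t' (h.hi), flip3 cw t q t' (h.cap2). Y (s (2i+3)) q: otherwise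
Y q (s (2i+3)) and Y (s (2i+4)) (s (2i+3)) (hY): f2a for (q, s (2i+3), s (2i+4)) gives
cw q (s (2i+3)) (s (2i+4)), against h.cap3 (flip3 cw) and anti. So Y t' q by transitivity
(Y t' (s (2i+4)), Y (s (2i+4)) (s (2i+3))). Y q t: otherwise Y t q and f2a for (t, q, t') (Y t q, Y t' q) gives
cw t q t', against h.cap2. The product is estimated exactly as in Level2C.
-/

namespace ES13

variable {α : Type*}

theorem level2B {cw : α → α → α → Prop} {X Y : α → α → Prop} {P : Finset α}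
    {s : ℕ → α} {Q : ℕ → Finset α} {n k r1 l1 a1 : ℕ} (hB : BO cw X Y P) (hn0 : 0 < n)
    (hn : NoConv cw P n) (h1 : Bd cw X Y P r1 l1 a1) (hr : r1 ≤ n) (hl : l1 ≤ n)
    (h : Skel (flip3 cw) X P (2 * k + 3) s Q) (hY : ∀ i < 2 * k + 3, Y (s (i + 1)) (s i)) :
    ∏ i ∈ Finset.range k, (Q (2 * i + 2)).card ^ 2 ≤
      (n + 1) ^ (16 * k) * 2 ^ (k * (r1 + l1 + 10 * a1) + (k + 9) * n) := by
  obtain ⟨r, l, a, hBd, hrl, hs1, hs2⟩ := arrSum (ori_flip hB.ori) hB.stoX
    (sig_flip hB.ori hB.stoX hB.sigX) hn0 (noConv_flip hB.ori hn) h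
  have key : ∀ i ∈ Finset.range k, (Q (2 * i + 2)).card ^ 2 ≤
      (n + 1) ^ 16 * 2 ^ (r1 + l1 + r i + l i + 10 * a1 + 4 * a i) := by
    intro i hi
    have hi' : i < k := Finset.mem_range.mp hi
    have ht : s (2 * i) ∈ P := h.mem _ (by omega)
    have ht5 : s (2 * i + 5) ∈ P := h.mem _ (by omega)
    have ht3 : s (2 * i + 3) ∈ P := h.mem _ (by omega)
    have ht4 : s (2 * i + 4) ∈ P := h.mem _ (by omega)
    have hQ : Q (2 * i + 2) ⊆ P := h.sub _ (by omega)
    refine geoB hB ht ht5 hQ ?_ h1 (hBd i hi') ⟨hr, hl, (hrl i hi').1, (hrl i hi').2⟩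
    intro q hq
    have hqP : q ∈ P := hQ hq
    have hX1 : X (s (2 * i)) q := h.lo (2 * i + 2) (by omega) q hq (2 * i) (by omega)
    have hX2 : X q (s (2 * i + 5)) :=
      h.hi (2 * i + 2) (by omega) q hq (2 * i + 5) (by omega) (by omega)
    have hX3 : X q (s (2 * i + 3)) :=
      h.hi (2 * i + 2) (by omega) q hq (2 * i + 3) (by omega) (by omega)
    have hX4 : X (s (2 * i + 3)) (s (2 * i + 4)) := h.inc _ _ (by omega) (by omega)
    have hc : flip3 cw (s (2 * i)) q (s (2 * i + 5)) :=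
      h.cap2 (2 * i + 2) (by omega) q hq (2 * i) (2 * i + 5) (by omega) (by omega) (by omega)
    have hc3 : flip3 cw q (s (2 * i + 3)) (s (2 * i + 4)) :=
      h.cap3 (2 * i + 2) (by omega) q hq (2 * i + 3) (2 * i + 4) (by omega) (by omega) (by omega)
    have hY3 : Y (s (2 * i + 4)) (s (2 * i + 3)) := hY (2 * i + 3) (by omega)
    have hY4 : Y (s (2 * i + 5)) (s (2 * i + 4)) := hY (2 * i + 4) (by omega)
    have hYq : Y (s (2 * i + 3)) q := by
      rcases hB.stoY.tot _ hqP _ ht3 (sto_ne hB.stoX hqP hX3) with h5 | h5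
      · exact absurd hc3 (hB.ori.anti _ _ _ (hB.f2a _ hqP _ ht3 _ ht4 hX3 hX4 h5 hY3))
      · exact h5
    have hY5q : Y (s (2 * i + 5)) q :=
      hB.stoY.trans _ ht5 _ ht4 _ hqP hY4 (hB.stoY.trans _ ht4 _ ht3 _ hqP hY3 hYq)
    have hYt : Y q (s (2 * i)) := by
      rcases hB.stoY.tot _ ht _ hqP (sto_ne hB.stoX ht hX1) with h5 | h5
      · exact absurd hc (hB.ori.anti _ _ _ (hB.f2a _ ht _ hqP _ ht5 hX1 hX2 h5 hY5q))
      · exact h5
    exact ⟨hX1, hX2, hYt, hY5q, hc⟩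
  calc ∏ i ∈ Finset.range k, (Q (2 * i + 2)).card ^ 2
      ≤ ∏ i ∈ Finset.range k,
        ((n + 1) ^ 16 * 2 ^ (r1 + l1 + r i + l i + 10 * a1 + 4 * a i)) :=
        Finset.prod_le_prod' key
    _ = (n + 1) ^ (16 * k) *
        2 ^ (∑ i ∈ Finset.range k, (r1 + l1 + r i + l i + 10 * a1 + 4 * a i)) := by
        rw [Finset.prod_mul_distrib, Finset.prod_const, Finset.card_range, ← pow_mul,
          Finset.prod_pow_eq_pow_sum]
    _ ≤ (n + 1) ^ (16 * k) * 2 ^ (k * (r1 + l1 + 10 * a1) + (k + 9) * n) := by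
        apply Nat.mul_le_mul_left
        apply Nat.pow_le_pow_right (by norm_num)
        have h5 : ∑ i ∈ Finset.range k, (r1 + l1 + r i + l i + 10 * a1 + 4 * a i) =
            k * (r1 + l1 + 10 * a1) + (∑ i ∈ Finset.range k, (r i + l i)) +
              4 * ∑ i ∈ Finset.range k, a i := by
          have h6 : ∑ _i ∈ Finset.range k, (r1 + l1 + 10 * a1) = k * (r1 + l1 + 10 * a1) := by
            rw [Finset.sum_const, Finset.card_range, smul_eq_mul]
          rw [Finset.mul_sum, ← h6, ← Finset.sum_add_distrib, ← Finset.sum_add_distrib]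
          apply Finset.sum_congr rfl
          intro i _
          ring
        rw [h5]
        nlinarith [hs1, hs2]

end ES13
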