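import Pool.Agent.ES13.GeoC
import Pool.Agent.ES13.ArrSum

/-!
# ES13/Level2C (MP_d79f1f_co)
PROOF. arrSum for (cw, X, P) (hO = hB.ori, hB.stoX, hB.sigX, hn) and the skeleton h gives r, l, a : N -> N.
For i < k let t = s (2i), t' = s (2i+5), Q0 = Q (2i+2). geoC applies with r2, l2, a2 = r i, l i, a i. Its
hypothesis hb for q in Q0: X t q (h.lo), X q t' (h.hi), cw t q t' (h.cap2). Y q (s (2i+3)): otherwise
Y (s (2i+3)) q (hB.stoY.tot, q != s(2i+3) by X) and Y (s (2i+3)) (s (2i+4)) (hY, 2i+3 < 2k+3): f2b for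
(q, s (2i+3), s (2i+4)) gives flip3 cw q (s (2i+3)) (s (2i+4)), against h.cap3 and anti. So Y q t' by
transitivity (Y (s (2i+3)) (s (2i+4)) (s (2i+5))). Y t q: otherwise Y q t and f2b for (t, q, t') (Y q t, Y q t')
gives flip3 cw t q t' against h.cap2. So
 (Q (2i+2)).card^2 <= (n+1)^16 * 2^(r1 + l1 + r i + l i + 10 a1 + 4 a i).
Multiply over i < k (Finset.prod_le_prod', Finset.prod_mul_distrib, Finset.prod_pow_eq_pow_sum): the exponent
is k (r1 + l1 + 10 a1) + sum (r i + l i) + 4 sum a i <= k (r1+l1+10 a1) + (k+1) n + 8 n.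
-/

namespace ES13

variable {α : Type*}

theorem level2C {cw : α → α → α → Prop} {X Y : α → α → Prop} {P : Finset α}
    {s : ℕ → α} {Q : ℕ → Finset α} {n k r1 l1 a1 : ℕ} (hB : BO cw X Y P) (hn0 : 0 < n)
    (hn : NoConv cw P n) (h1 : Bd cw X Y P r1 l1 a1) (hr : r1 ≤ n) (hl : l1 ≤ n)
    (h : Skel cw X P (2 * k + 3) s Q) (hY : ∀ i < 2 * k + 3, Y (s i) (s (i + 1))) :
    ∏ i ∈ Finset.range k, (Q (2 * i + 2)).card ^ 2 ≤
      (n + 1) ^ (16 * k) * 2 ^ (k * (r1 + l1 + 10 * a1) + (k + 9) * n) := by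
  obtain ⟨r, l, a, hbd, hrl, hs1, hs2⟩ := arrSum hB.ori hB.stoX hB.sigX hn0 hn h
  have key : ∀ i ∈ Finset.range k, (Q (2 * i + 2)).card ^ 2 ≤
      (n + 1) ^ 16 * 2 ^ (r1 + l1 + r i + l i + 10 * a1 + 4 * a i) := by
    intro i hi
    rw [Finset.mem_range] at hi
    have hj : 2 * i + 2 < 2 * k + 3 := by omega
    have m0 : s (2 * i) ∈ P := h.mem _ (by omega)
    have m3 : s (2 * i + 3) ∈ P := h.mem _ (by omega)
    have m4 : s (2 * i + 4) ∈ P := h.mem _ (by omega)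
    have m5 : s (2 * i + 5) ∈ P := h.mem _ (by omega)
    refine geoC hB m0 m5 (h.sub _ hj) ?_ h1 (hbd i hi) ⟨hr, hl, hrl i hi⟩
    intro q hq
    have hqP : q ∈ P := h.sub _ hj hq
    have x0 : X (s (2 * i)) q := h.lo _ hj q hq _ (by omega)
    have x5 : X q (s (2 * i + 5)) := h.hi _ hj q hq _ (by omega) (by omega)
    have x3 : X q (s (2 * i + 3)) := h.hi _ hj q hq _ (by omega) (by omega)
    have c5 : cw (s (2 * i)) q (s (2 * i + 5)) :=
      h.cap2 _ hj q hq _ _ (by omega) (by omega) (by omega)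
    have y34 : Y (s (2 * i + 3)) (s (2 * i + 4)) := hY _ (by omega)
    have y45 : Y (s (2 * i + 4)) (s (2 * i + 5)) := hY _ (by omega)
    have yq3 : Y q (s (2 * i + 3)) := by
      rcases hB.stoY.tot q hqP _ m3 (sto_ne hB.stoX hqP x3) with h2 | h2
      · exact h2
      · exfalso
        have h3 := hB.f2b q hqP _ m3 _ m4 x3 (h.inc _ _ (by omega) (by omega)) h2 y34
        exact hB.ori.anti _ _ _ (h.cap3 _ hj q hq (2 * i + 3) (2 * i + 4) (by omega) (by omega)
          (by omega)) h3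
    have yq5 : Y q (s (2 * i + 5)) :=
      hB.stoY.trans q hqP _ m4 _ m5 (hB.stoY.trans q hqP _ m3 _ m4 yq3 y34) y45
    have y0q : Y (s (2 * i)) q := by
      rcases hB.stoY.tot _ m0 q hqP (sto_ne hB.stoX m0 x0) with h2 | h2
      · exact h2
      · exfalso
        have h3 := hB.f2b _ m0 q hqP _ m5 x0 x5 h2 yq5
        exact hB.ori.anti _ _ _ c5 h3
    exact ⟨x0, x5, y0q, yq5, c5⟩
  refine (Finset.prod_le_prod' key).trans ?_
  rw [Finset.prod_mul_distrib, Finset.prod_const, Finset.card_range,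
    Finset.prod_pow_eq_pow_sum, ← pow_mul]
  refine Nat.mul_le_mul_left _ (Nat.pow_le_pow_right (by norm_num) ?_)
  have e1 : ∑ i ∈ Finset.range k, (r1 + l1 + r i + l i + 10 * a1 + 4 * a i) =
      k * (r1 + l1 + 10 * a1) + ∑ i ∈ Finset.range k, (r i + l i) +
        4 * ∑ i ∈ Finset.range k, a i := by
    have e2 : ∀ i ∈ Finset.range k, r1 + l1 + r i + l i + 10 * a1 + 4 * a i =
        (r1 + l1 + 10 * a1) + (r i + l i) + 4 * a i := fun i _ => by ring
    rw [Finset.sum_congr rfl e2, Finset.sum_add_distrib, Finset.sum_add_distrib,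
      Finset.sum_const, Finset.card_range, smul_eq_mul, Finset.mul_sum]
  rw [e1]
  have e3 : (k + 9) * n = (k + 1) * n + 8 * n := by ring
  rw [e3]
  omega

end ES13
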