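import Pool.Agent.ES13.Basic

/-!
# ES13/Swap (MP_d79f1f_co)
Exchanging the two orders and the orientation.
* bo_swap: ori_flip, sig_flip for sigX, sigY. f2a for the new structure: p, q, r in P with Y p q, Y q r,
X p q, X r q must satisfy flip3 cw p q r = cw q p r. p != r. By totality of X: if X r p: the X-order is
r, p, q and Y r p fails: Y p r by transitivity (Y p q, Y q r), Y p q, so old f2b for (r, p, q) (X r p,
X p q, Y p r, Y p q) gives flip3 cw r p q = cw p r q, cyclically cw q p r. If X p r: old f2a for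
(p, r, q): X p r, X r q, Y p r, Y q r gives cw p r q, cyclically cw q p r. f2b for the new structure:
Y p q, Y q r, X q p, X q r must give flip3 (flip3 cw) p q r = cw p q r. If X p r: X-order q, p, r;
Y p q, Y p r (transitivity): f2b (q, p, r): X q p, X p r, Y p q, Y p r: flip3 cw q p r = cw p q r.
If X r p: X-order q, r, p: X q r, X r p, Y q r, Y p r: f2a (q, r, p): cw q r p, cyclically cw p q r.
* bd_swap: pos Y X and pos X Y are equivalent, flip3 (flip3 cw) = cw (rfl): hr, hl exchange.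
ha: ChF (neg Y X) (flip3 cw) P p e gives a chain from p to q; chB_reverse gives
ChB (rv (neg Y X)) (flip3 (flip3 cw)) P q p e, and rv (neg Y X) a b = Y b a and X a b = neg X Y a b; so
ChF (neg X Y) cw P q e.
-/

namespace ES13

variable {α : Type*}

theorem bo_swap {cw : α → α → α → Prop} {X Y : α → α → Prop} {P : Finset α}
    (h : BO cw X Y P) : BO (flip3 cw) Y X P := by
  have hpr : ∀ p ∈ P, ∀ q ∈ P, ∀ r ∈ P, Y p q → Y q r → p ≠ r := by
    rintro p hp q hq r hr h1 h2 rfl
    exact h.stoY.irr p hp (h.stoY.trans p hp q hq p hp h1 h2)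
  refine ⟨ori_flip h.ori, h.stoY, h.stoX, sig_flip h.ori h.stoY h.sigY,
    sig_flip h.ori h.stoX h.sigX, ?_, ?_⟩
  · intro p hp q hq r hr h1 h2 h3 h4
    have h5 := h.stoY.trans p hp q hq r hr h1 h2
    show cw q p r
    rcases h.stoX.tot p hp r hr (hpr p hp q hq r hr h1 h2) with h6 | h6
    · exact h.ori.cyc _ _ _ (h.ori.cyc _ _ _ (h.f2a p hp r hr q hq h6 h4 h5 h2))
    · have h7 : cw p r q := h.f2b r hr p hp q hq h6 h3 h5 h1
      exact h.ori.cyc _ _ _ (h.ori.cyc _ _ _ h7)
  · intro p hp q hq r hr h1 h2 h3 h4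
    have h5 := h.stoY.trans p hp q hq r hr h1 h2
    show cw p q r
    rcases h.stoX.tot p hp r hr (hpr p hp q hq r hr h1 h2) with h6 | h6
    · exact h.f2b q hq p hp r hr h3 h6 h1 h5
    · exact h.ori.cyc _ _ _ (h.ori.cyc _ _ _ (h.f2a q hq r hr p hp h4 h6 h2 h5))

theorem bd_swap {cw : α → α → α → Prop} {X Y : α → α → Prop} {P : Finset α} {r l a : ℕ}
    (hO : Ori cw) (h : Bd cw X Y P r l a) : Bd (flip3 cw) Y X P l r a := by
  refine ⟨fun p e h1 => h.hl p e (chF_mono h1 (Finset.Subset.refl P)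
    (fun _ _ _ _ h2 => h2.symm) fun _ _ _ _ _ _ h2 => h2),
    fun p e h1 => h.hr p e (chF_mono h1 (Finset.Subset.refl P)
    (fun _ _ _ _ h2 => h2.symm) fun _ _ _ _ _ _ h2 => h2), ?_⟩
  rintro p e ⟨q, h1⟩
  have h2 := chB_reverse (ori_flip hO) h1
  exact h.ha q e ⟨p, chB_mono h2 (Finset.Subset.refl P)
    (fun _ _ _ _ h3 => h3.symm) fun _ _ _ _ _ _ h3 => h3⟩

end ES13
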