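import Pool.Agent.ES13.Basic

/-!
# ES13/Unimod (MP_d79f1f_co)
BO: X, Y orders, hB.f2a: for X-increasing p, q, r with Y p q and Y r q: cw p q r; hB.f2b: with Y q p and
Y q r: flip3 cw p q r. All s i (i <= m) are in P.
* unimod_cap (skeleton cw): for i + 2 <= m not (Y (s (i+1)) (s i) and Y (s (i+1)) (s (i+2))): otherwise f2b gives
 cw (s (i+1)) (s i) (s (i+2)), contradicting anti and cap. So once a step decreases all later steps
 decrease. c = number of initial increasing steps (Nat.find of the first i < m with not Y (s i) (s (i+1)), or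
 c = m; by stoY.tot the step is then decreasing (s i != s (i+1) by X), and induction).
* unimod_cup (skeleton flip3 cw): for i + 2 <= m not (Y (s i) (s (i+1)) and Y (s (i+2)) (s (i+1))): f2a would give
 cw (s i) (s (i+1)) (s (i+2)), but flip3 cw .. holds, anti. So once increasing, always increasing.
* skel_swap: Q' 0 = empty, Q' i = Q i for i >= 1 (e.g. fun i => if i = 0 then empty else Q i). inc: Y increases
 along s by transitivity. cap, cap1, cap2, cap3, mem, sub: the same as before. lo and hi for 1 <= j < m and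
 q in Q j: first Y q (s (j+1)): otherwise (totality, q != s (j+1) by X) Y (s (j+1)) q, then Y (s j) q by
 transitivity and f2a for (s j, q, s (j+1)): X (s j) q, X q (s (j+1)), Y (s j) q, Y (s (j+1)) q gives
 cw (s j) q (s (j+1)), contradicting cap2 (flip3 cw (s j) q (s (j+1))) and anti. Second Y (s j) q: otherwise
 Y q (s j) and f2a for (s (j-1), s j, q): Y (s (j-1)) (s j), Y q (s j) gives cw (s (j-1)) (s j) q, against
 cap1 for flip3 cw. Transitivity gives all i <= j and all i > j.
-/

namespace ES13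

variable {α : Type*}

private theorem Unimod_aux (m : ℕ) (A B : ℕ → Prop) (h : ∀ i < m, A i ∨ B i)
    (h2 : ∀ i, i + 2 ≤ m → B i → ¬ A (i + 1)) :
    ∃ c ≤ m, (∀ i < c, A i) ∧ ∀ i, c ≤ i → i < m → B i := by
  classical
  by_cases hall : ∀ i < m, A i
  · exact ⟨m, le_rfl, hall, fun i h1 h3 => absurd h1 (not_le.2 h3)⟩
  · have hex : ∃ i, i < m ∧ ¬ A i := by
      by_contra hcon
      apply hall
      intro i hi
      by_contra hA
      exact hcon ⟨i, hi, hA⟩
    obtain ⟨hc1, hc2⟩ := Nat.find_spec hex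
    refine ⟨Nat.find hex, hc1.le, ?_, ?_⟩
    · intro i hi
      have := Nat.find_min hex hi
      by_contra hA
      exact this ⟨hi.trans hc1, hA⟩
    · intro i hi
      induction i, hi using Nat.le_induction with
      | base =>
        intro _
        rcases h _ hc1 with hA | hB
        · exact absurd hA hc2
        · exact hB
      | succ i hi ih =>
        intro him
        have hB := ih (by omega)
        rcases h (i + 1) him with hA | hB'
        · exact absurd hA (h2 i (by omega) hB)
        · exact hB'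

theorem unimod_cap {cw : α → α → α → Prop} {X Y : α → α → Prop} {P : Finset α}
    {s : ℕ → α} {Q : ℕ → Finset α} {m : ℕ} (hB : BO cw X Y P) (h : Skel cw X P m s Q) :
    ∃ c ≤ m, (∀ i < c, Y (s i) (s (i + 1))) ∧ ∀ i, c ≤ i → i < m → Y (s (i + 1)) (s i) := by
  refine Unimod_aux m (fun i => Y (s i) (s (i + 1))) (fun i => Y (s (i + 1)) (s i)) ?_ ?_
  · intro i hi
    have h1 := h.inc i (i + 1) (Nat.lt_succ_self i) hi
    exact hB.stoY.tot _ (h.mem i hi.le) _ (h.mem (i + 1) hi) (sto_ne hB.stoX (h.mem i hi.le) h1)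
  · intro i hi hb ha
    have h1 := hB.f2b (s i) (h.mem i (by omega)) (s (i + 1)) (h.mem (i + 1) (by omega))
      (s (i + 1 + 1)) (h.mem (i + 1 + 1) hi) (h.inc _ _ (by omega) (by omega))
      (h.inc _ _ (by omega) hi) hb ha
    exact hB.ori.anti _ _ _ (h.cap i (i + 1) (i + 1 + 1) (by omega) (by omega) hi) h1

theorem unimod_cup {cw : α → α → α → Prop} {X Y : α → α → Prop} {P : Finset α}
    {s : ℕ → α} {Q : ℕ → Finset α} {m : ℕ} (hB : BO cw X Y P) (h : Skel (flip3 cw) X P m s Q) :
    ∃ c ≤ m, (∀ i < c, Y (s (i + 1)) (s i)) ∧ ∀ i, c ≤ i → i < m → Y (s i) (s (i + 1)) := by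
  refine Unimod_aux m (fun i => Y (s (i + 1)) (s i)) (fun i => Y (s i) (s (i + 1))) ?_ ?_
  · intro i hi
    have h1 := h.inc i (i + 1) (Nat.lt_succ_self i) hi
    exact (hB.stoY.tot _ (h.mem i hi.le) _ (h.mem (i + 1) hi)
      (sto_ne hB.stoX (h.mem i hi.le) h1)).symm
  · intro i hi hb ha
    have h1 := hB.f2a (s i) (h.mem i (by omega)) (s (i + 1)) (h.mem (i + 1) (by omega))
      (s (i + 1 + 1)) (h.mem (i + 1 + 1) hi) (h.inc _ _ (by omega) (by omega))
      (h.inc _ _ (by omega) hi) hb ha
    exact hB.ori.anti _ _ _ h1 (h.cap i (i + 1) (i + 1 + 1) (by omega) (by omega) hi)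

theorem skel_swap {cw : α → α → α → Prop} {X Y : α → α → Prop} {P : Finset α}
    {s : ℕ → α} {Q : ℕ → Finset α} {m : ℕ} (hB : BO cw X Y P)
    (h : Skel (flip3 cw) X P m s Q) (hY : ∀ i < m, Y (s i) (s (i + 1))) :
    ∃ Q' : ℕ → Finset α, (∀ i, 1 ≤ i → Q' i = Q i) ∧ Skel (flip3 cw) Y P m s Q' := by
  classical
  have hQ : ∀ j, ∀ q ∈ (if j = 0 then (∅ : Finset α) else Q j), 1 ≤ j ∧ q ∈ Q j := by
    intro j q hq
    by_cases hj : j = 0
    · rw [if_pos hj] at hq
      exact absurd hq (Finset.notMem_empty q)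
    · rw [if_neg hj] at hq
      exact ⟨by omega, hq⟩
  have hinc : ∀ i j, i < j → j ≤ m → Y (s i) (s j) := by
    intro i j hij
    induction j, hij using Nat.le_induction with
    | base => intro hj; exact hY i hj
    | succ j hij ih =>
      intro hj
      exact hB.stoY.trans _ (h.mem i (by omega)) _ (h.mem j (by omega)) _ (h.mem (j + 1) hj)
        (ih (by omega)) (hY j hj)
  have hup : ∀ j < m, ∀ q ∈ Q j, Y q (s (j + 1)) := by
    intro j hj q hq
    have hqP := h.sub j hj hq
    have x1 := h.lo j hj q hq j le_rfl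
    have x2 := h.hi j hj q hq (j + 1) (Nat.lt_succ_self j) hj
    by_contra hcon
    have y1 : Y (s (j + 1)) q := by
      rcases hB.stoY.tot q hqP (s (j + 1)) (h.mem (j + 1) hj) (sto_ne hB.stoX hqP x2) with h1 | h1
      · exact absurd h1 hcon
      · exact h1
    have y2 : Y (s j) q := hB.stoY.trans _ (h.mem j hj.le) _ (h.mem (j + 1) hj) _ hqP (hY j hj) y1
    have h1 := hB.f2a _ (h.mem j hj.le) _ hqP _ (h.mem (j + 1) hj) x1 x2 y2 y1
    exact hB.ori.anti _ _ _ h1 (h.cap2 j hj q hq j (j + 1) le_rfl (Nat.lt_succ_self j) hj)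
  have hlo : ∀ j < m, 1 ≤ j → ∀ q ∈ Q j, Y (s j) q := by
    intro j hj hj1 q hq
    have hqP := h.sub j hj hq
    have x1 := h.lo j hj q hq j le_rfl
    by_contra hcon
    have y1 : Y q (s j) := by
      rcases hB.stoY.tot (s j) (h.mem j hj.le) q hqP (sto_ne hB.stoX (h.mem j hj.le) x1)
        with h1 | h1
      · exact absurd h1 hcon
      · exact h1
    have h1 := hB.f2a _ (h.mem (j - 1) (by omega)) _ (h.mem j hj.le) _ hqP
      (h.inc (j - 1) j (by omega) hj.le) x1 (hinc (j - 1) j (by omega) hj.le) y1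
    exact hB.ori.anti _ _ _ h1 (h.cap1 j hj q hq (j - 1) j (by omega) le_rfl)
  refine ⟨fun i => if i = 0 then ∅ else Q i, ?_, ?_⟩
  · intro i hi
    exact if_neg (by omega)
  · refine ⟨h.mem, hinc, h.cap, ?_, ?_, ?_, ?_, ?_, ?_⟩
    · intro j hj q hq
      exact h.sub j hj (hQ j q hq).2
    · intro j hj q hq i hi
      obtain ⟨h1, h2⟩ := hQ j q hq
      have h3 := hlo j hj h1 q h2
      rcases hi.eq_or_lt with rfl | hi
      · exact h3
      · exact hB.stoY.trans _ (h.mem i (by omega)) _ (h.mem j hj.le) _ (h.sub j hj h2)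
          (hinc i j hi hj.le) h3
    · intro j hj q hq i hi him
      obtain ⟨h1, h2⟩ := hQ j q hq
      have h3 := hup j hj q h2
      rcases (Nat.succ_le_of_lt hi).eq_or_lt with h4 | h4
      · rw [← h4]
        exact h3
      · exact hB.stoY.trans _ (h.sub j hj h2) _ (h.mem (j + 1) hj) _ (h.mem i him)
          h3 (hinc (j + 1) i h4 him)
    · intro j hj q hq
      exact h.cap1 j hj q (hQ j q hq).2
    · intro j hj q hq
      exact h.cap2 j hj q (hQ j q hq).2
    · intro j hj q hq
      exact h.cap3 j hj q (hQ j q hq).2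

end ES13
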