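import Pool.Agent.ES13.Level2C
import Pool.Agent.ES13.Level2B
import Pool.Agent.ES13.Unimod
import Pool.Agent.ES13.Swap

/-!
# ES13/Level2Prod (MP_d79f1f_co)
PROOF. m = 4k+6. J will be the image of range k under i -> c0 + 2 i + 2 (injective; product over J =
product over range k, Finset.prod_image), where the sub-skeleton s' i = s (c0 + i), Q' i = Q (c0 + i),
i <= 2k+3 (skel_restrict c0 (2k+3), c0 + 2k+3 <= 4k+6) is used; then 2 i + 2 < 2k+3 so J is in range (4k+6).
Case c = cw: unimod_cap gives c1 <= m. The steps c1, ..., m-1 decrease in Y, so s c1, ..., s m is a chain with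
m - c1 edges for neg X Y and colour cw (cap): h1.ha gives m - c1 <= a1 <= 2k+3, so c1 >= 2k+3. Take c0 = 0
and level2C.
Case c = flip3 cw: unimod_cup gives c1. If c1 >= 2k+3: c0 = 0 and level2B. Otherwise m - c1 >= 2k+3: c0 = c1;
Y increases along the restricted skeleton. skel_swap gives Q'' with Q'' i = Q' i (i >= 1) and
Skel (flip3 cw) Y P (2k+3) s' Q''. Apply level2C to the BO structure bo_swap hB (orientation flip3 cw, first
order Y, second order X), NoConv (flip3 cw) P n (noConv_flip), bd_swap h1 : Bd (flip3 cw) Y X P l1 r1 a1; the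
hypothesis hY of level2C is now X (s' i) (s' (i+1)), from the old skeleton. The bound has l1 + r1 = r1 + l1.
-/

namespace ES13

variable {α : Type*}

theorem level2Prod {cw : α → α → α → Prop} {X Y : α → α → Prop} {P : Finset α}
    {n k r1 l1 a1 : ℕ} (hB : BO cw X Y P) (hn0 : 0 < n)
    (hn : NoConv cw P n) (h1 : Bd cw X Y P r1 l1 a1) (hr : r1 ≤ n) (hl : l1 ≤ n)
    (ha : a1 ≤ 2 * k + 3) {c : α → α → α → Prop} (hc : c = cw ∨ c = flip3 cw)
    {s : ℕ → α} {Q : ℕ → Finset α} (h : Skel c X P (4 * k + 6) s Q) :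
    ∃ J ⊆ Finset.range (4 * k + 6), J.card = k ∧
    ∏ j ∈ J, (Q j).card ^ 2 ≤
      (n + 1) ^ (16 * k) * 2 ^ (k * (r1 + l1 + 10 * a1) + (k + 9) * n) := by
  classical
  have key : ∀ c0 : ℕ, c0 + (2 * k + 3) ≤ 4 * k + 6 →
      (∏ i ∈ Finset.range k, (Q (c0 + (2 * i + 2))).card ^ 2 ≤
        (n + 1) ^ (16 * k) * 2 ^ (k * (r1 + l1 + 10 * a1) + (k + 9) * n)) →
      ∃ J ⊆ Finset.range (4 * k + 6), J.card = k ∧
      ∏ j ∈ J, (Q j).card ^ 2 ≤
        (n + 1) ^ (16 * k) * 2 ^ (k * (r1 + l1 + 10 * a1) + (k + 9) * n) := by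
    intro c0 hc0 hp
    have hinj : Set.InjOn (fun i : ℕ => c0 + (2 * i + 2)) (Finset.range k : Set ℕ) := by
      intro a _ b _ hab
      have : c0 + (2 * a + 2) = c0 + (2 * b + 2) := hab
      omega
    refine ⟨(Finset.range k).image (fun i => c0 + (2 * i + 2)), ?_, ?_, ?_⟩
    · intro j hj
      rw [Finset.mem_image] at hj
      obtain ⟨i, hi, rfl⟩ := hj
      rw [Finset.mem_range] at hi ⊢
      omega
    · rw [Finset.card_image_of_injOn hinj, Finset.card_range]
    · rw [Finset.prod_image hinj]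
      exact hp
  rcases hc with rfl | rfl
  · obtain ⟨c1, hc1, hup, hdown⟩ := unimod_cap hB h
    have hc1' : 2 * k + 3 ≤ c1 := by
      have := h1.ha (s c1) (4 * k + 6 - c1) ⟨s (4 * k + 6), fun i => s (c1 + i), rfl, ?_, ?_, ?_, ?_⟩
      · omega
      · show s (c1 + (4 * k + 6 - c1)) = s (4 * k + 6)
        congr 1; omega
      · intro i hi
        exact h.mem _ (by omega)
      · intro i hi
        exact ⟨h.inc _ _ (by omega) (by omega), hdown (c1 + i) (by omega) (by omega)⟩
      · intro i hi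
        exact h.cap _ _ _ (by omega) (by omega) (by omega)
    have h2 := skel_restrict h 0 (2 * k + 3) (by omega)
    refine key 0 (by omega) ?_
    exact level2C hB hn0 hn h1 hr hl h2 (fun i hi => by
      have := hup i (by omega)
      simpa using this)
  · obtain ⟨c1, hc1, hdown, hup⟩ := unimod_cup hB h
    by_cases hc1' : 2 * k + 3 ≤ c1
    · have h2 := skel_restrict h 0 (2 * k + 3) (by omega)
      refine key 0 (by omega) ?_
      exact level2B hB hn0 hn h1 hr hl h2 (fun i hi => by
        have := hdown i (by omega)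
        simpa using this)
    · have h2 := skel_restrict h c1 (2 * k + 3) (by omega)
      obtain ⟨Q'', hQ'', h3⟩ := skel_swap hB h2 (fun i hi => hup (c1 + i) (by omega) (by omega))
      refine key c1 (by omega) ?_
      have h4 := level2C (bo_swap hB) hn0 (noConv_flip hB.ori hn) (bd_swap hB.ori h1) hl hr h3
        (fun i hi => h2.inc i (i + 1) (by omega) (by omega))
      have h5 : ∏ i ∈ Finset.range k, (Q (c1 + (2 * i + 2))).card ^ 2
          = ∏ i ∈ Finset.range k, (Q'' (2 * i + 2)).card ^ 2 := by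
        refine Finset.prod_congr rfl (fun i _ => ?_)
        rw [hQ'' (2 * i + 2) (by omega)]
      rw [h5, add_comm r1 l1]
      exact h4

end ES13
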