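import Pool.Agent.ES13.Around

/-!
# ES13/MakeBO (MP_d79f1f_co)
The two orders of a part form a BO structure.
ori, stoX, sigX, stoY, sigY: hypothesis, around_v, around_h (lt h p, lt p v).
f2a, f2b (p, q, r in P distinct, between h and v, caps cw h p v, cw h q v, cw h r v):
X p q = cw p q v, X q r = cw q r v, Y p q = cw q p h (so in terms of h, p, q: Y p q iff the triple
h, p, q is counterclockwise: cw q p h <-> cw p h q <-> cw h q p). f2a: cw p q v, cw q r v, cw q p h,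
cw q r h (Y r q) => cw p q r. f2b: cw p q v, cw q r v, cw p q h (Y q p), cw r q h (Y q r) => cw q p r.
Checked on all signotopes on 5 points. PROOF by the six orders of p, q, r with respect to lt, using the
Mono4 conditions of the sorted quadruples from {h,p,q,r,v}. Useful: for a < b (in P): cw h a b or
cw a b v (else Mono4 (cw h a b) (cw h a v) (cw h b v) (cw a b v) = (0,1,1,0)).
-/

namespace ES13

variable {α : Type*}

private lemma MakeBO_norm {cw : α → α → α → Prop} (hO : Ori cw) {x y z : α} (h1 : x ≠ y)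
    (h2 : y ≠ z) (h3 : x ≠ z) : (cw y z x ↔ cw x y z) ∧ (cw z x y ↔ cw x y z) ∧
      (cw y x z ↔ ¬ cw x y z) ∧ (cw x z y ↔ ¬ cw x y z) ∧ (cw z y x ↔ ¬ cw x y z) := by
  have c1 : ∀ a b c, cw a b c ↔ cw b c a := fun a b c =>
    ⟨hO.cyc a b c, fun h => hO.cyc c a b (hO.cyc b c a h)⟩
  have c2 : cw y x z ↔ ¬ cw x y z :=
    ⟨fun h => hO.anti y x z h, fun h => (hO.tot x y z h1 h2 h3).resolve_left h⟩
  refine ⟨(c1 x y z).symm, c1 z x y, c2, ?_, ?_⟩
  · rw [← c2, c1 x z y, c1 z y x]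
  · rw [← c2, c1 z y x]

private lemma MakeBO_a123 {s012 s013 s014 s023 s024 s034 s123 s124 s134 s234 : Prop}
    (m0 : Mono4 s012 s013 s023 s123)
    (m1 : Mono4 s012 s014 s024 s124)
    (m2 : Mono4 s013 s014 s034 s134)
    (m3 : Mono4 s023 s024 s034 s234)
    (m4 : Mono4 s123 s124 s134 s234)
    (k1 : s014) (k2 : s024) (k3 : s034)
    (h1 : s124) (h2 : s234) (h3 : ¬ s012) (h4 : s023) :
    s123 := by
  unfold Mono4 at *
  grind

private lemma MakeBO_a132 {s012 s013 s014 s023 s024 s034 s123 s124 s134 s234 : Prop}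
    (m0 : Mono4 s012 s013 s023 s123)
    (m1 : Mono4 s012 s014 s024 s124)
    (m2 : Mono4 s013 s014 s034 s134)
    (m3 : Mono4 s023 s024 s034 s234)
    (m4 : Mono4 s123 s124 s134 s234)
    (k1 : s014) (k2 : s024) (k3 : s034)
    (h1 : s134) (h2 : ¬ s234) (h3 : ¬ s013) (h4 : ¬ s023) :
    ¬ s123 := by
  unfold Mono4 at *
  grind

private lemma MakeBO_a213 {s012 s013 s014 s023 s024 s034 s123 s124 s134 s234 : Prop}
    (m0 : Mono4 s012 s013 s023 s123)
    (m1 : Mono4 s012 s014 s024 s124)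
    (m2 : Mono4 s013 s014 s034 s134)
    (m3 : Mono4 s023 s024 s034 s234)
    (m4 : Mono4 s123 s124 s134 s234)
    (k1 : s014) (k2 : s024) (k3 : s034)
    (h1 : ¬ s124) (h2 : s134) (h3 : s012) (h4 : s013) :
    ¬ s123 := by
  unfold Mono4 at *
  grind

private lemma MakeBO_a231 {s012 s013 s014 s023 s024 s034 s123 s124 s134 s234 : Prop}
    (m0 : Mono4 s012 s013 s023 s123)
    (m1 : Mono4 s012 s014 s024 s124)
    (m2 : Mono4 s013 s014 s034 s134)
    (m3 : Mono4 s023 s024 s034 s234)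
    (m4 : Mono4 s123 s124 s134 s234)
    (k1 : s014) (k2 : s024) (k3 : s034)
    (h1 : s234) (h2 : ¬ s134) (h3 : ¬ s023) (h4 : ¬ s013) :
    s123 := by
  unfold Mono4 at *
  grind

private lemma MakeBO_a312 {s012 s013 s014 s023 s024 s034 s123 s124 s134 s234 : Prop}
    (m0 : Mono4 s012 s013 s023 s123)
    (m1 : Mono4 s012 s014 s024 s124)
    (m2 : Mono4 s013 s014 s034 s134)
    (m3 : Mono4 s023 s024 s034 s234)
    (m4 : Mono4 s123 s124 s134 s234)
    (k1 : s014) (k2 : s024) (k3 : s034)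
    (h1 : ¬ s134) (h2 : s124) (h3 : s013) (h4 : s012) :
    s123 := by
  unfold Mono4 at *
  grind

private lemma MakeBO_a321 {s012 s013 s014 s023 s024 s034 s123 s124 s134 s234 : Prop}
    (m0 : Mono4 s012 s013 s023 s123)
    (m1 : Mono4 s012 s014 s024 s124)
    (m2 : Mono4 s013 s014 s034 s134)
    (m3 : Mono4 s023 s024 s034 s234)
    (m4 : Mono4 s123 s124 s134 s234)
    (k1 : s014) (k2 : s024) (k3 : s034)
    (h1 : ¬ s234) (h2 : ¬ s124) (h3 : s023) (h4 : ¬ s012) :
    ¬ s123 := by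
  unfold Mono4 at *
  grind

private lemma MakeBO_b123 {s012 s013 s014 s023 s024 s034 s123 s124 s134 s234 : Prop}
    (m0 : Mono4 s012 s013 s023 s123)
    (m1 : Mono4 s012 s014 s024 s124)
    (m2 : Mono4 s013 s014 s034 s134)
    (m3 : Mono4 s023 s024 s034 s234)
    (m4 : Mono4 s123 s124 s134 s234)
    (k1 : s014) (k2 : s024) (k3 : s034)
    (h1 : s124) (h2 : s234) (h3 : s012) (h4 : ¬ s023) :
    ¬ s123 := by
  unfold Mono4 at *
  grind

private lemma MakeBO_b132 {s012 s013 s014 s023 s024 s034 s123 s124 s134 s234 : Prop}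
    (m0 : Mono4 s012 s013 s023 s123)
    (m1 : Mono4 s012 s014 s024 s124)
    (m2 : Mono4 s013 s014 s034 s134)
    (m3 : Mono4 s023 s024 s034 s234)
    (m4 : Mono4 s123 s124 s134 s234)
    (k1 : s014) (k2 : s024) (k3 : s034)
    (h1 : s134) (h2 : ¬ s234) (h3 : s013) (h4 : s023) :
    s123 := by
  unfold Mono4 at *
  grind

private lemma MakeBO_b213 {s012 s013 s014 s023 s024 s034 s123 s124 s134 s234 : Prop}
    (m0 : Mono4 s012 s013 s023 s123)
    (m1 : Mono4 s012 s014 s024 s124)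
    (m2 : Mono4 s013 s014 s034 s134)
    (m3 : Mono4 s023 s024 s034 s234)
    (m4 : Mono4 s123 s124 s134 s234)
    (k1 : s014) (k2 : s024) (k3 : s034)
    (h1 : ¬ s124) (h2 : s134) (h3 : ¬ s012) (h4 : ¬ s013) :
    s123 := by
  unfold Mono4 at *
  grind

private lemma MakeBO_b231 {s012 s013 s014 s023 s024 s034 s123 s124 s134 s234 : Prop}
    (m0 : Mono4 s012 s013 s023 s123)
    (m1 : Mono4 s012 s014 s024 s124)
    (m2 : Mono4 s013 s014 s034 s134)
    (m3 : Mono4 s023 s024 s034 s234)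
    (m4 : Mono4 s123 s124 s134 s234)
    (k1 : s014) (k2 : s024) (k3 : s034)
    (h1 : s234) (h2 : ¬ s134) (h3 : s023) (h4 : s013) :
    ¬ s123 := by
  unfold Mono4 at *
  grind

private lemma MakeBO_b312 {s012 s013 s014 s023 s024 s034 s123 s124 s134 s234 : Prop}
    (m0 : Mono4 s012 s013 s023 s123)
    (m1 : Mono4 s012 s014 s024 s124)
    (m2 : Mono4 s013 s014 s034 s134)
    (m3 : Mono4 s023 s024 s034 s234)
    (m4 : Mono4 s123 s124 s134 s234)
    (k1 : s014) (k2 : s024) (k3 : s034)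
    (h1 : ¬ s134) (h2 : s124) (h3 : ¬ s013) (h4 : ¬ s012) :
    ¬ s123 := by
  unfold Mono4 at *
  grind

private lemma MakeBO_b321 {s012 s013 s014 s023 s024 s034 s123 s124 s134 s234 : Prop}
    (m0 : Mono4 s012 s013 s023 s123)
    (m1 : Mono4 s012 s014 s024 s124)
    (m2 : Mono4 s013 s014 s034 s134)
    (m3 : Mono4 s023 s024 s034 s234)
    (m4 : Mono4 s123 s124 s134 s234)
    (k1 : s014) (k2 : s024) (k3 : s034)
    (h1 : ¬ s234) (h2 : ¬ s124) (h3 : ¬ s023) (h4 : s012) :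
    s123 := by
  unfold Mono4 at *
  grind

private lemma MakeBO_fa {cw : α → α → α → Prop} {lt : α → α → Prop} {V P : Finset α} (hO : Ori cw)
    (hT : STO lt V) (hSig : Sig cw lt V) {h v : α} (hh : h ∈ V) (hv : v ∈ V) (hPV : P ⊆ V)
    (hl : ∀ p ∈ P, lt h p) (hr : ∀ p ∈ P, lt p v) (hc : ∀ p ∈ P, cw h p v) {p q r : α}
    (hp : p ∈ P) (hq : q ∈ P) (hr' : r ∈ P) (h1 : cw p q v) (h2 : cw q r v)
    (h3 : cw q p h) (h4 : cw q r h) : cw p q r := by
  have epq : p ≠ q := (ori_ne hO h1).1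
  have eqr : q ≠ r := (ori_ne hO h2).1
  have epr : p ≠ r := by
    intro e
    rw [e] at h1
    exact hO.anti _ _ _ h1 h2
  have tr : ∀ x ∈ P, ∀ y ∈ P, ∀ z ∈ P, lt x y → lt y z → lt x z := fun x hx y hy z hz h1 h2 =>
    hT.trans x (hPV hx) y (hPV hy) z (hPV hz) h1 h2
  have ne : ∀ x ∈ P, ∀ y ∈ P, lt x y → x ≠ y := fun x hx y _ h => sto_ne hT (hPV hx) h
  have nv : ∀ x ∈ P, x ≠ v := fun x hx => sto_ne hT (hPV hx) (hr x hx)
  have nh : ∀ x ∈ P, h ≠ x := fun x hx => sto_ne hT hh (hl x hx)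
  have nhv : h ≠ v := by
    have h5 := hT.trans h hh p (hPV hp) v hv (hl p hp) (hr p hp)
    exact sto_ne hT hh h5
  have M0 : ∀ x ∈ P, ∀ y ∈ P, ∀ z ∈ P, lt x y → lt y z →
      Mono4 (cw h x y) (cw h x z) (cw h y z) (cw x y z) := fun x hx y hy z hz l1 l2 =>
    hSig h hh x (hPV hx) y (hPV hy) z (hPV hz) (hl x hx) l1 l2
  have M1 : ∀ x ∈ P, ∀ y ∈ P, lt x y →
      Mono4 (cw h x y) (cw h x v) (cw h y v) (cw x y v) := fun x hx y hy l1 =>
    hSig h hh x (hPV hx) y (hPV hy) v hv (hl x hx) l1 (hr y hy)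
  have M4 : ∀ x ∈ P, ∀ y ∈ P, ∀ z ∈ P, lt x y → lt y z →
      Mono4 (cw x y z) (cw x y v) (cw x z v) (cw y z v) := fun x hx y hy z hz l1 l2 =>
    hSig x (hPV hx) y (hPV hy) z (hPV hz) v hv l1 l2 (hr z hz)
  rcases hT.tot q (hPV hq) p (hPV hp) epq.symm with h_qp | h_pq
  · rcases hT.tot r (hPV hr') q (hPV hq) eqr.symm with h_rq | h_qr
    · have l13 := tr r hr' q hq p hp h_rq h_qp
      have n012 := MakeBO_norm hO (nh r hr') (ne r hr' q hq h_rq) (nh q hq)
      have n023 := MakeBO_norm hO (nh q hq) (ne q hq p hp h_qp) (nh p hp)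
      have n123 := MakeBO_norm hO (ne r hr' q hq h_rq) (ne q hq p hp h_qp) (ne r hr' p hp l13)
      have n124 := MakeBO_norm hO (ne r hr' q hq h_rq) (nv q hq) (nv r hr')
      have n234 := MakeBO_norm hO (ne q hq p hp h_qp) (nv p hp) (nv q hq)
      exact (n123.2.2.2.2).2 (MakeBO_a321
        (M0 r hr' q hq p hp h_rq h_qp)
        (M1 r hr' q hq h_rq)
        (M1 r hr' p hp l13)
        (M1 q hq p hp h_qp)
        (M4 r hr' q hq p hp h_rq h_qp)
        (hc r hr') (hc q hq) (hc p hp)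
        ((n234.2.2.1).1 h1) ((n124.2.2.1).1 h2) ((n023.1).1 h3) ((n012.2.2.2.2).1 h4))
    · rcases hT.tot r (hPV hr') p (hPV hp) epr.symm with h_rp | h_pr
      · have l13 := tr q hq r hr' p hp h_qr h_rp
        have n012 := MakeBO_norm hO (nh q hq) (ne q hq r hr' h_qr) (nh r hr')
        have n013 := MakeBO_norm hO (nh q hq) (ne q hq p hp l13) (nh p hp)
        have n123 := MakeBO_norm hO (ne q hq r hr' h_qr) (ne r hr' p hp h_rp) (ne q hq p hp l13)
        have n134 := MakeBO_norm hO (ne q hq p hp l13) (nv p hp) (nv q hq)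
        exact (n123.2.1).2 (MakeBO_a312
          (M0 q hq r hr' p hp h_qr h_rp)
          (M1 q hq r hr' h_qr)
          (M1 q hq p hp l13)
          (M1 r hr' p hp h_rp)
          (M4 q hq r hr' p hp h_qr h_rp)
          (hc q hq) (hc r hr') (hc p hp)
          ((n134.2.2.1).1 h1) ((Iff.rfl).1 h2) ((n013.1).1 h3) ((n012.1).1 h4))
      · have l13 := tr q hq p hp r hr' h_qp h_pr
        have n012 := MakeBO_norm hO (nh q hq) (ne q hq p hp h_qp) (nh p hp)
        have n013 := MakeBO_norm hO (nh q hq) (ne q hq r hr' l13) (nh r hr')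
        have n123 := MakeBO_norm hO (ne q hq p hp h_qp) (ne p hp r hr' h_pr) (ne q hq r hr' l13)
        have n124 := MakeBO_norm hO (ne q hq p hp h_qp) (nv p hp) (nv q hq)
        exact (n123.2.2.1).2 (MakeBO_a213
          (M0 q hq p hp r hr' h_qp h_pr)
          (M1 q hq p hp h_qp)
          (M1 q hq r hr' l13)
          (M1 p hp r hr' h_pr)
          (M4 q hq p hp r hr' h_qp h_pr)
          (hc q hq) (hc p hp) (hc r hr')
          ((n124.2.2.1).1 h1) ((Iff.rfl).1 h2) ((n012.1).1 h3) ((n013.1).1 h4))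
  · rcases hT.tot r (hPV hr') p (hPV hp) epr.symm with h_rp | h_pr
    · have l13 := tr r hr' p hp q hq h_rp h_pq
      have n013 := MakeBO_norm hO (nh r hr') (ne r hr' q hq l13) (nh q hq)
      have n023 := MakeBO_norm hO (nh p hp) (ne p hp q hq h_pq) (nh q hq)
      have n123 := MakeBO_norm hO (ne r hr' p hp h_rp) (ne p hp q hq h_pq) (ne r hr' q hq l13)
      have n134 := MakeBO_norm hO (ne r hr' q hq l13) (nv q hq) (nv r hr')
      exact (n123.1).2 (MakeBO_a231
        (M0 r hr' p hp q hq h_rp h_pq)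
        (M1 r hr' p hp h_rp)
        (M1 r hr' q hq l13)
        (M1 p hp q hq h_pq)
        (M4 r hr' p hp q hq h_rp h_pq)
        (hc r hr') (hc p hp) (hc q hq)
        ((Iff.rfl).1 h1) ((n134.2.2.1).1 h2) ((n023.2.2.2.2).1 h3) ((n013.2.2.2.2).1 h4))
    · rcases hT.tot r (hPV hr') q (hPV hq) eqr.symm with h_rq | h_qr
      · have l13 := tr p hp r hr' q hq h_pr h_rq
        have n013 := MakeBO_norm hO (nh p hp) (ne p hp q hq l13) (nh q hq)
        have n023 := MakeBO_norm hO (nh r hr') (ne r hr' q hq h_rq) (nh q hq)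
        have n123 := MakeBO_norm hO (ne p hp r hr' h_pr) (ne r hr' q hq h_rq) (ne p hp q hq l13)
        have n234 := MakeBO_norm hO (ne r hr' q hq h_rq) (nv q hq) (nv r hr')
        exact (n123.2.2.2.1).2 (MakeBO_a132
          (M0 p hp r hr' q hq h_pr h_rq)
          (M1 p hp r hr' h_pr)
          (M1 p hp q hq l13)
          (M1 r hr' q hq h_rq)
          (M4 p hp r hr' q hq h_pr h_rq)
          (hc p hp) (hc r hr') (hc q hq)
          ((Iff.rfl).1 h1) ((n234.2.2.1).1 h2) ((n013.2.2.2.2).1 h3) ((n023.2.2.2.2).1 h4))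
      · have l13 := tr p hp q hq r hr' h_pq h_qr
        have n012 := MakeBO_norm hO (nh p hp) (ne p hp q hq h_pq) (nh q hq)
        have n023 := MakeBO_norm hO (nh q hq) (ne q hq r hr' h_qr) (nh r hr')
        exact (Iff.rfl).2 (MakeBO_a123
          (M0 p hp q hq r hr' h_pq h_qr)
          (M1 p hp q hq h_pq)
          (M1 p hp r hr' l13)
          (M1 q hq r hr' h_qr)
          (M4 p hp q hq r hr' h_pq h_qr)
          (hc p hp) (hc q hq) (hc r hr')
          ((Iff.rfl).1 h1) ((Iff.rfl).1 h2) ((n012.2.2.2.2).1 h3) ((n023.1).1 h4))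

private lemma MakeBO_fb {cw : α → α → α → Prop} {lt : α → α → Prop} {V P : Finset α} (hO : Ori cw)
    (hT : STO lt V) (hSig : Sig cw lt V) {h v : α} (hh : h ∈ V) (hv : v ∈ V) (hPV : P ⊆ V)
    (hl : ∀ p ∈ P, lt h p) (hr : ∀ p ∈ P, lt p v) (hc : ∀ p ∈ P, cw h p v) {p q r : α}
    (hp : p ∈ P) (hq : q ∈ P) (hr' : r ∈ P) (h1 : cw p q v) (h2 : cw q r v)
    (h3 : cw p q h) (h4 : cw r q h) : cw q p r := by
  have epq : p ≠ q := (ori_ne hO h1).1
  have eqr : q ≠ r := (ori_ne hO h2).1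
  have epr : p ≠ r := by
    intro e
    rw [e] at h1
    exact hO.anti _ _ _ h1 h2
  have tr : ∀ x ∈ P, ∀ y ∈ P, ∀ z ∈ P, lt x y → lt y z → lt x z := fun x hx y hy z hz h1 h2 =>
    hT.trans x (hPV hx) y (hPV hy) z (hPV hz) h1 h2
  have ne : ∀ x ∈ P, ∀ y ∈ P, lt x y → x ≠ y := fun x hx y _ h => sto_ne hT (hPV hx) h
  have nv : ∀ x ∈ P, x ≠ v := fun x hx => sto_ne hT (hPV hx) (hr x hx)
  have nh : ∀ x ∈ P, h ≠ x := fun x hx => sto_ne hT hh (hl x hx)
  have nhv : h ≠ v := by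
    have h5 := hT.trans h hh p (hPV hp) v hv (hl p hp) (hr p hp)
    exact sto_ne hT hh h5
  have M0 : ∀ x ∈ P, ∀ y ∈ P, ∀ z ∈ P, lt x y → lt y z →
      Mono4 (cw h x y) (cw h x z) (cw h y z) (cw x y z) := fun x hx y hy z hz l1 l2 =>
    hSig h hh x (hPV hx) y (hPV hy) z (hPV hz) (hl x hx) l1 l2
  have M1 : ∀ x ∈ P, ∀ y ∈ P, lt x y →
      Mono4 (cw h x y) (cw h x v) (cw h y v) (cw x y v) := fun x hx y hy l1 =>
    hSig h hh x (hPV hx) y (hPV hy) v hv (hl x hx) l1 (hr y hy)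
  have M4 : ∀ x ∈ P, ∀ y ∈ P, ∀ z ∈ P, lt x y → lt y z →
      Mono4 (cw x y z) (cw x y v) (cw x z v) (cw y z v) := fun x hx y hy z hz l1 l2 =>
    hSig x (hPV hx) y (hPV hy) z (hPV hz) v hv l1 l2 (hr z hz)
  rcases hT.tot q (hPV hq) p (hPV hp) epq.symm with h_qp | h_pq
  · rcases hT.tot r (hPV hr') q (hPV hq) eqr.symm with h_rq | h_qr
    · have l13 := tr r hr' q hq p hp h_rq h_qp
      have n012 := MakeBO_norm hO (nh r hr') (ne r hr' q hq h_rq) (nh q hq)
      have n023 := MakeBO_norm hO (nh q hq) (ne q hq p hp h_qp) (nh p hp)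
      have n123 := MakeBO_norm hO (ne r hr' q hq h_rq) (ne q hq p hp h_qp) (ne r hr' p hp l13)
      have n124 := MakeBO_norm hO (ne r hr' q hq h_rq) (nv q hq) (nv r hr')
      have n234 := MakeBO_norm hO (ne q hq p hp h_qp) (nv p hp) (nv q hq)
      exact (n123.1).2 (MakeBO_b321
        (M0 r hr' q hq p hp h_rq h_qp)
        (M1 r hr' q hq h_rq)
        (M1 r hr' p hp l13)
        (M1 q hq p hp h_qp)
        (M4 r hr' q hq p hp h_rq h_qp)
        (hc r hr') (hc q hq) (hc p hp)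
        ((n234.2.2.1).1 h1) ((n124.2.2.1).1 h2) ((n023.2.2.2.2).1 h3) ((n012.1).1 h4))
    · rcases hT.tot r (hPV hr') p (hPV hp) epr.symm with h_rp | h_pr
      · have l13 := tr q hq r hr' p hp h_qr h_rp
        have n012 := MakeBO_norm hO (nh q hq) (ne q hq r hr' h_qr) (nh r hr')
        have n013 := MakeBO_norm hO (nh q hq) (ne q hq p hp l13) (nh p hp)
        have n123 := MakeBO_norm hO (ne q hq r hr' h_qr) (ne r hr' p hp h_rp) (ne q hq p hp l13)
        have n134 := MakeBO_norm hO (ne q hq p hp l13) (nv p hp) (nv q hq)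
        exact (n123.2.2.2.1).2 (MakeBO_b312
          (M0 q hq r hr' p hp h_qr h_rp)
          (M1 q hq r hr' h_qr)
          (M1 q hq p hp l13)
          (M1 r hr' p hp h_rp)
          (M4 q hq r hr' p hp h_qr h_rp)
          (hc q hq) (hc r hr') (hc p hp)
          ((n134.2.2.1).1 h1) ((Iff.rfl).1 h2) ((n013.2.2.2.2).1 h3) ((n012.2.2.2.2).1 h4))
      · have l13 := tr q hq p hp r hr' h_qp h_pr
        have n012 := MakeBO_norm hO (nh q hq) (ne q hq p hp h_qp) (nh p hp)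
        have n013 := MakeBO_norm hO (nh q hq) (ne q hq r hr' l13) (nh r hr')
        have n124 := MakeBO_norm hO (ne q hq p hp h_qp) (nv p hp) (nv q hq)
        exact (Iff.rfl).2 (MakeBO_b213
          (M0 q hq p hp r hr' h_qp h_pr)
          (M1 q hq p hp h_qp)
          (M1 q hq r hr' l13)
          (M1 p hp r hr' h_pr)
          (M4 q hq p hp r hr' h_qp h_pr)
          (hc q hq) (hc p hp) (hc r hr')
          ((n124.2.2.1).1 h1) ((Iff.rfl).1 h2) ((n012.2.2.2.2).1 h3) ((n013.2.2.2.2).1 h4))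
  · rcases hT.tot r (hPV hr') p (hPV hp) epr.symm with h_rp | h_pr
    · have l13 := tr r hr' p hp q hq h_rp h_pq
      have n013 := MakeBO_norm hO (nh r hr') (ne r hr' q hq l13) (nh q hq)
      have n023 := MakeBO_norm hO (nh p hp) (ne p hp q hq h_pq) (nh q hq)
      have n123 := MakeBO_norm hO (ne r hr' p hp h_rp) (ne p hp q hq h_pq) (ne r hr' q hq l13)
      have n134 := MakeBO_norm hO (ne r hr' q hq l13) (nv q hq) (nv r hr')
      exact (n123.2.2.2.2).2 (MakeBO_b231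
        (M0 r hr' p hp q hq h_rp h_pq)
        (M1 r hr' p hp h_rp)
        (M1 r hr' q hq l13)
        (M1 p hp q hq h_pq)
        (M4 r hr' p hp q hq h_rp h_pq)
        (hc r hr') (hc p hp) (hc q hq)
        ((Iff.rfl).1 h1) ((n134.2.2.1).1 h2) ((n023.1).1 h3) ((n013.1).1 h4))
    · rcases hT.tot r (hPV hr') q (hPV hq) eqr.symm with h_rq | h_qr
      · have l13 := tr p hp r hr' q hq h_pr h_rq
        have n013 := MakeBO_norm hO (nh p hp) (ne p hp q hq l13) (nh q hq)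
        have n023 := MakeBO_norm hO (nh r hr') (ne r hr' q hq h_rq) (nh q hq)
        have n123 := MakeBO_norm hO (ne p hp r hr' h_pr) (ne r hr' q hq h_rq) (ne p hp q hq l13)
        have n234 := MakeBO_norm hO (ne r hr' q hq h_rq) (nv q hq) (nv r hr')
        exact (n123.2.1).2 (MakeBO_b132
          (M0 p hp r hr' q hq h_pr h_rq)
          (M1 p hp r hr' h_pr)
          (M1 p hp q hq l13)
          (M1 r hr' q hq h_rq)
          (M4 p hp r hr' q hq h_pr h_rq)
          (hc p hp) (hc r hr') (hc q hq)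
          ((Iff.rfl).1 h1) ((n234.2.2.1).1 h2) ((n013.1).1 h3) ((n023.1).1 h4))
      · have l13 := tr p hp q hq r hr' h_pq h_qr
        have n012 := MakeBO_norm hO (nh p hp) (ne p hp q hq h_pq) (nh q hq)
        have n023 := MakeBO_norm hO (nh q hq) (ne q hq r hr' h_qr) (nh r hr')
        have n123 := MakeBO_norm hO (ne p hp q hq h_pq) (ne q hq r hr' h_qr) (ne p hp r hr' l13)
        exact (n123.2.2.1).2 (MakeBO_b123
          (M0 p hp q hq r hr' h_pq h_qr)
          (M1 p hp q hq h_pq)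
          (M1 p hp r hr' l13)
          (M1 q hq r hr' h_qr)
          (M4 p hp q hq r hr' h_pq h_qr)
          (hc p hp) (hc q hq) (hc r hr')
          ((Iff.rfl).1 h1) ((Iff.rfl).1 h2) ((n012.1).1 h3) ((n023.2.2.2.2).1 h4))

theorem makeBO {cw : α → α → α → Prop} {lt : α → α → Prop} {V P : Finset α} (hO : Ori cw)
    (hT : STO lt V) (hSig : Sig cw lt V) {h v : α} (hh : h ∈ V) (hv : v ∈ V) (hPV : P ⊆ V)
    (hl : ∀ p ∈ P, lt h p) (hr : ∀ p ∈ P, lt p v) (hc : ∀ p ∈ P, cw h p v) :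
    BO cw (aroundV cw v) (aroundH cw h) P := by
  obtain ⟨a1, a2⟩ := around_v hO hT hSig hv hPV hr
  obtain ⟨b1, b2⟩ := around_h hO hT hSig hh hPV hl
  exact ⟨hO, a1, b1, a2, b2, fun p hp q hq r hr' h1 h2 h3 h4 =>
    MakeBO_fa hO hT hSig hh hv hPV hl hr hc hp hq hr' h1 h2 h3 h4, fun p hp q hq r hr' h1 h2 h3 h4 =>
    MakeBO_fb hO hT hSig hh hv hPV hl hr hc hp hq hr' h1 h2 h3 h4⟩

end ES13
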