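import Pool.Agent.ES13.MainAbs

/-!
# ES13/Points: the bound for planar point sets in general position
-/

namespace ES13

/-- no three of the points are on a line -/
def GenPos (P : Finset (ℝ × ℝ)) : Prop :=
  ∀ a ∈ P, ∀ b ∈ P, ∀ c ∈ P, a ≠ b → b ≠ c → a ≠ c → ¬ Collinear ℝ {a, b, c}

/-- twice the signed area of a triangle -/
def area (a b c : ℝ × ℝ) : ℝ := (b.1 - a.1) * (c.2 - a.2) - (b.2 - a.2) * (c.1 - a.1)

theorem points_collinear {a b c : ℝ × ℝ} (hab : a ≠ b) (h : area a b c = 0) :
    Collinear ℝ {a, b, c} := by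
  have key : ∃ r : ℝ, c = r • (b - a) + a := by
    unfold area at h
    by_cases h1 : b.1 - a.1 = 0
    · have h2 : b.2 - a.2 ≠ 0 := by
        intro h2
        exact hab (Prod.ext (by linarith) (by linarith))
      refine ⟨(c.2 - a.2) / (b.2 - a.2), Prod.ext ?_ ?_⟩
      · simp only [Prod.fst_add, Prod.smul_fst, Prod.fst_sub, smul_eq_mul]
        rw [h1] at h ⊢
        have : (b.2 - a.2) * (c.1 - a.1) = 0 := by linarith
        rcases mul_eq_zero.1 this with h3 | h3
        · exact absurd h3 h2
        · linarith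
      · simp only [Prod.snd_add, Prod.smul_snd, Prod.snd_sub, smul_eq_mul]
        rw [div_mul_cancel₀ _ h2]
        ring
    · refine ⟨(c.1 - a.1) / (b.1 - a.1), Prod.ext ?_ ?_⟩
      · simp only [Prod.fst_add, Prod.smul_fst, Prod.fst_sub, smul_eq_mul]
        rw [div_mul_cancel₀ _ h1]
        ring
      · simp only [Prod.snd_add, Prod.smul_snd, Prod.snd_sub, smul_eq_mul]
        have : (c.1 - a.1) / (b.1 - a.1) * (b.2 - a.2) = c.2 - a.2 := by
          field_simp
          linarith
        rw [this]
        ring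
  obtain ⟨r, hr⟩ := key
  rw [collinear_iff_of_mem (show a ∈ ({a, b, c} : Set (ℝ × ℝ)) by simp)]
  refine ⟨b - a, ?_⟩
  intro p hp
  simp only [Set.mem_insert_iff, Set.mem_singleton_iff] at hp
  rcases hp with rfl | rfl | rfl
  · exact ⟨0, by simp⟩
  · exact ⟨1, by simp⟩
  · exact ⟨r, by rw [vadd_eq_add]; exact hr⟩

theorem points_shear (P : Finset (ℝ × ℝ)) :
    ∃ t : ℝ, ∀ a ∈ P, ∀ b ∈ P, a ≠ b → a.1 + t * a.2 ≠ b.1 + t * b.2 := by
  classical
  obtain ⟨t, ht⟩ := Infinite.exists_notMem_finset
    ((P ×ˢ P).image (fun z : (ℝ × ℝ) × (ℝ × ℝ) => -(z.1.1 - z.2.1) / (z.1.2 - z.2.2)))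
  refine ⟨t, ?_⟩
  intro a ha b hb hab h
  apply ht
  rw [Finset.mem_image]
  refine ⟨(a, b), by simp [ha, hb], ?_⟩
  by_cases h2 : a.2 - b.2 = 0
  · exfalso
    apply hab
    have h3 : a.2 = b.2 := by linarith
    rw [h3] at h
    exact Prod.ext (by linarith) h3
  · simp only
    rw [div_eq_iff h2]
    linarith

theorem points_mono4 (xa xb xc xd A B C D : ℝ) (hab : xa < xb) (hbc : xb < xc) (hcd : xc < xd)
    (hA : A ≠ 0) (hB : B ≠ 0) (hC : C ≠ 0) (hD : D ≠ 0)
    (h1 : B * (xc - xa) = A * (xd - xa) + C * (xb - xa))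
    (h2 : B * (xc - xb) = A * (xd - xb) + D * (xb - xa))
    (h3 : C * (xc - xb) = A * (xd - xc) + D * (xc - xa))
    (h4 : C * (xd - xb) = B * (xd - xc) + D * (xd - xa)) :
    Mono4 (A < 0) (B < 0) (C < 0) (D < 0) := by
  have p1 : 0 < xc - xa := by linarith
  have p2 : 0 < xd - xa := by linarith
  have p3 : 0 < xb - xa := by linarith
  have p4 : 0 < xc - xb := by linarith
  have p5 : 0 < xd - xb := by linarith
  have p6 : 0 < xd - xc := by linarith
  have neg : ∀ {u v : ℝ}, u < 0 → 0 < v → u * v < 0 := fun hu hv => mul_neg_of_neg_of_pos hu hv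
  have posm : ∀ {u v : ℝ}, 0 < u → 0 < v → 0 < u * v := fun hu hv => mul_pos hu hv
  have sgn : ∀ {u v : ℝ}, u * v < 0 → 0 < v → u < 0 := by
    intro u v h hv
    by_contra hu
    push Not at hu
    exact absurd h (not_lt.2 (mul_nonneg hu hv.le))
  have sgp : ∀ {u : ℝ}, u ≠ 0 → ¬ u < 0 → 0 < u := fun h h' => lt_of_le_of_ne (not_lt.1 h') (Ne.symm h)
  refine ⟨?_, ?_, ?_, ?_, ?_, ?_, ?_, ?_⟩
  · intro a c
    exact sgn (by rw [h1]; exact add_neg (neg a p2) (neg c p3)) p1
  · intro b
    by_contra hn
    push Not at hn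
    have a := sgp hA (not_lt.2 hn.1)
    have c := sgp hC (not_lt.2 hn.2)
    have := neg b p1
    rw [h1] at this
    exact absurd this (not_lt.2 (add_pos (posm a p2) (posm c p3)).le)
  · intro a d
    exact sgn (by rw [h2]; exact add_neg (neg a p5) (neg d p3)) p4
  · intro b
    by_contra hn
    push Not at hn
    have a := sgp hA (not_lt.2 hn.1)
    have d := sgp hD (not_lt.2 hn.2)
    have := neg b p4
    rw [h2] at this
    exact absurd this (not_lt.2 (add_pos (posm a p5) (posm d p3)).le)
  · intro a d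
    exact sgn (by rw [h3]; exact add_neg (neg a p6) (neg d p1)) p4
  · intro c
    by_contra hn
    push Not at hn
    have a := sgp hA (not_lt.2 hn.1)
    have d := sgp hD (not_lt.2 hn.2)
    have := neg c p4
    rw [h3] at this
    exact absurd this (not_lt.2 (add_pos (posm a p6) (posm d p1)).le)
  · intro b d
    exact sgn (by rw [h4]; exact add_neg (neg b p6) (neg d p2)) p5
  · intro c
    by_contra hn
    push Not at hn
    have b := sgp hB (not_lt.2 hn.1)
    have d := sgp hD (not_lt.2 hn.2)
    have := neg c p5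
    rw [h4] at this
    exact absurd this (not_lt.2 (add_pos (posm b p6) (posm d p2)).le)

theorem points_halfplane (a b : ℝ × ℝ) : Convex ℝ {z : ℝ × ℝ | area a b z < 0 ∨ z = b} := by
  rw [convex_iff_forall_pos]
  intro u hu v hv s t hs ht hst
  have hl : area a b (s • u + t • v) = s * area a b u + t * area a b v := by
    unfold area
    simp only [Prod.fst_add, Prod.snd_add, Prod.smul_fst, Prod.smul_snd, smul_eq_mul]
    have : s = 1 - t := by linarith
    subst this
    ring
  have hb : area a b b = 0 := by unfold area; ring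
  simp only [Set.mem_ofPred_eq] at hu hv ⊢
  rcases hu with hu | hu
  · left
    rw [hl]
    have h1 := mul_neg_of_pos_of_neg hs hu
    rcases hv with hv | hv
    · have h2 := mul_neg_of_pos_of_neg ht hv
      linarith
    · rw [hv, hb]
      linarith
  · rcases hv with hv | hv
    · left
      rw [hl, hu, hb]
      have h2 := mul_neg_of_pos_of_neg ht hv
      linarith
    · right
      rw [hu, hv, ← add_smul, hst, one_smul]

/-- a clockwise sequence of points is convexly independent -/
theorem points_convex {n : ℕ} (hn : 3 ≤ n) (x : ℕ → ℝ × ℝ)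
    (h : ∀ i j k, i < j → j < k → k < n → area (x i) (x j) (x k) < 0) :
    ConvexIndependent ℝ (fun i : Fin n => x i) := by
  have hcyc : ∀ a b c : ℝ × ℝ, area b c a = area a b c := by
    intro a b c
    unfold area
    ring
  intro s i hi
  by_contra his
  obtain ⟨b, hb, hbi, hside⟩ : ∃ b, b < n ∧ b ≠ (i : ℕ) ∧
      ∀ j, j < n → j ≠ (i : ℕ) → j ≠ b → area (x i) (x b) (x j) < 0 := by
    by_cases hin : (i : ℕ) + 1 < n
    · refine ⟨i + 1, hin, by omega, ?_⟩
      intro j hj hji hjb
      rcases Nat.lt_or_gt_of_ne hji with h1 | h1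
      · rw [hcyc (x j)]
        exact h j i (i + 1) h1 (by omega) hin
      · exact h i (i + 1) j (by omega) (by omega) hj
    · have hin' : (i : ℕ) = n - 1 := by
        have := i.2
        omega
      refine ⟨0, by omega, by omega, ?_⟩
      intro j hj hji hjb
      have h1 := h 0 j i (by omega) (by omega) i.2
      rw [← hcyc, ← hcyc] at h1
      exact h1
  have hab : x i ≠ x b := by
    intro hab
    obtain ⟨j, hj, hji, hjb⟩ : ∃ j, j < n ∧ j ≠ (i : ℕ) ∧ j ≠ b := by
      by_contra hno
      push Not at hno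
      have h0 := hno 0 (by omega)
      have h1 := hno 1 (by omega)
      have h2 := hno 2 (by omega)
      omega
    have := hside j hj hji hjb
    rw [hab] at this
    unfold area at this
    simp at this
  have hsub : (fun i : Fin n => x i) '' s ⊆ {z : ℝ × ℝ | area (x i) (x b) z < 0 ∨ z = x b} := by
    rintro z ⟨j, hj, rfl⟩
    have hji : (j : ℕ) ≠ (i : ℕ) := by
      intro h1
      have : j = i := Fin.ext h1
      exact his (this ▸ hj)
    by_cases hjb : (j : ℕ) = b
    · right
      simp only [hjb]
    · left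
      exact hside j j.2 hji hjb
  have := convexHull_min hsub (points_halfplane (x i) (x b)) hi
  rcases this with h1 | h1
  · unfold area at h1
    simp at h1
  · exact hab h1

theorem large_convex_points (n : ℕ) (hn : 3 ≤ n) (P : Finset (ℝ × ℝ)) (hP : GenPos P)
    (hcard : (2 : ℝ) ^ ((n : ℝ) + 20000 * Real.sqrt n) < P.card) :
    ∃ S ⊆ P, S.card = n ∧ ConvexIndependent ℝ ((↑) : S → ℝ × ℝ) := by
  classical
  obtain ⟨t, ht⟩ := points_shear P
  let cw : {z // z ∈ P} → {z // z ∈ P} → {z // z ∈ P} → Prop := fun a b c =>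
    area a.1 b.1 c.1 < 0
  let f : {z // z ∈ P} → ℝ := fun a => a.1.1 + t * a.1.2
  let lt : {z // z ∈ P} → {z // z ∈ P} → Prop := fun a b => f a < f b
  have hne : ∀ a b c : {z // z ∈ P}, a ≠ b → b ≠ c → a ≠ c → area a.1 b.1 c.1 ≠ 0 := by
    intro a b c hab hbc hac h0
    have hab' : a.1 ≠ b.1 := fun h => hab (Subtype.ext h)
    exact hP a.1 a.2 b.1 b.2 c.1 c.2 hab' (fun h => hbc (Subtype.ext h))
      (fun h => hac (Subtype.ext h)) (points_collinear hab' h0)
  have hO : Ori cw := by
    refine ⟨?_, ?_, ?_⟩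
    · intro a b c h
      have : area b.1 c.1 a.1 = area a.1 b.1 c.1 := by unfold area; ring
      show area b.1 c.1 a.1 < 0
      rw [this]
      exact h
    · intro a b c h h'
      have h1 : area b.1 a.1 c.1 = - area a.1 b.1 c.1 := by unfold area; ring
      have h2 : area b.1 a.1 c.1 < 0 := h'
      have h3 : area a.1 b.1 c.1 < 0 := h
      linarith
    · intro a b c hab hbc hac
      have h1 : area b.1 a.1 c.1 = - area a.1 b.1 c.1 := by unfold area; ring
      rcases lt_or_gt_of_ne (hne a b c hab hbc hac) with h | h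
      · exact Or.inl h
      · right
        show area b.1 a.1 c.1 < 0
        linarith
  have hT : STO lt Finset.univ := by
    refine ⟨?_, ?_, ?_⟩
    · intro a _ h
      exact lt_irrefl _ h
    · intro a _ b _ c _ h h'
      exact lt_trans h h'
    · intro a _ b _ hab
      exact lt_or_gt_of_ne (ht a.1 a.2 b.1 b.2 (fun h => hab (Subtype.ext h)))
  have hSig : Sig cw lt Finset.univ := by
    intro a _ b _ c _ d _ hab hbc hcd
    have hab' : a ≠ b := by rintro rfl; exact lt_irrefl _ hab
    have hbc' : b ≠ c := by rintro rfl; exact lt_irrefl _ hbc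
    have hcd' : c ≠ d := by rintro rfl; exact lt_irrefl _ hcd
    have hac : f a < f c := lt_trans hab hbc
    have hbd : f b < f d := lt_trans hbc hcd
    have had : f a < f d := lt_trans hab hbd
    have hac' : a ≠ c := by rintro rfl; exact lt_irrefl _ hac
    have hbd' : b ≠ d := by rintro rfl; exact lt_irrefl _ hbd
    have had' : a ≠ d := by rintro rfl; exact lt_irrefl _ had
    refine points_mono4 (f a) (f b) (f c) (f d) _ _ _ _ hab hbc hcd (hne a b c hab' hbc' hac')
      (hne a b d hab' hbd' had') (hne a c d hac' hcd' had') (hne b c d hbc' hcd' hbd') ?_ ?_ ?_ ?_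
    all_goals
      simp only [f, area]
      ring
  by_contra hno
  have hnc : NoConv cw Finset.univ n := by
    intro x _ hx
    apply hno
    have hx' : ∀ i j k, i < j → j < k → k < n → area (x i).1 (x j).1 (x k).1 < 0 :=
      fun i j k h1 h2 h3 => hx i j k h1 h2 h3
    have hci := points_convex hn (fun i => (x i).1) hx'
    have hinj : Function.Injective (fun i : Fin n => (x i).1) := hci.injective
    refine ⟨Finset.univ.image (fun i : Fin n => (x i).1), ?_, ?_, ?_⟩
    · intro z hz
      obtain ⟨i, _, rfl⟩ := Finset.mem_image.1 hz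
      exact (x i).2
    · rw [Finset.card_image_of_injective _ hinj, Finset.card_univ, Fintype.card_fin]
    · have h1 := hci.range
      have h2 : ((Finset.univ.image (fun i : Fin n => (x i).1) : Finset (ℝ × ℝ)) : Set (ℝ × ℝ)) =
          Set.range (fun i : Fin n => (x i).1) := by
        ext z
        simp
      intro s z hz
      have h3 := h1.comp_embedding (⟨fun w => ⟨w.1, by rw [← h2]; exact_mod_cast w.2⟩,
        fun u v huv => Subtype.ext (by simpa using huv)⟩ :
        {z // z ∈ (Finset.univ.image (fun i : Fin n => (x i).1) : Finset (ℝ × ℝ))} ↪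
          Set.range (fun i : Fin n => (x i).1))
      exact h3 s z hz
  have := mainAbs hO hT hSig (by omega) hnc
  rw [Finset.card_univ, Fintype.card_coe] at this
  linarith

end ES13
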