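import Pool.Agent.ES13.Before

/-!
# ES13/Sigma (MP_d79f1f_co)
PROOF. For i != j let s i j be the least t >= 0 with Reverses (pi t) (pi (t+1)) i j (exists_rev with t0 = 0;
Nat.find on natural numbers t, or Int.exists_least_of_bdd); s i i = 0. Reverses is symmetric in i, j, so s is
symmetric (define it as the unique least element, or s i j via a symmetric predicate).
Second reversals: CLAIM for i != j, k != l there is no reversal of i, j at a time u with s i j < u <= s k l. Assume
there is one; If k, l is not reversed at time s i j then once (s i j, i, j, k, l) gives a reversal of k, l at a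
time u' > s i j with no reversal of i, j in (s i j, u'], so u' < u <= s k l, contradiction with the minimality of
s k l (u' >= 0). If k, l is reversed at time s i j, then s k l <= s i j < u, contradiction.
Third part: 0 <= t <= s k l. If t <= s i j: no reversal of i, j in [0, t), before_iff. If s i j < t: up to s i j the
order is that of pi 0; the reversal at s i j exchanges it; no reversal in (s i j, t) by the claim (t <= s k l), so
before (pi t) i j <-> before (pi (s i j + 1)) i j <-> before (pi (s i j)) j i <-> before (pi 0) j i.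
-/

namespace ES13

variable {α : Type*}

private theorem sigma_symm {N : ℕ} (w w' : Equiv.Perm (Fin N)) (i j : Fin N) :
    Reverses w w' i j ↔ Reverses w w' j i := by
  unfold Reverses
  constructor
  · rintro (h | h)
    · exact Or.inr h
    · exact Or.inl h
  · rintro (h | h)
    · exact Or.inr h
    · exact Or.inl h

private theorem sigma_total {N : ℕ} (w : Equiv.Perm (Fin N)) {i j : Fin N} (hij : i ≠ j) :
    ¬ before w i j ↔ before w j i := by
  unfold before
  rcases lt_trichotomy (w.symm i) (w.symm j) with h4 | h4 | h4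
  · exact ⟨fun h => absurd h4 h, fun h => absurd h4 (lt_asymm h)⟩
  · exact absurd (w.symm.injective h4) hij
  · exact ⟨fun _ => h4, fun h => lt_asymm h⟩

private theorem sigma_rev {N : ℕ} {w w' : Equiv.Perm (Fin N)} {i j : Fin N}
    (h : Reverses w w' i j) : before w' i j ↔ before w j i := by
  rcases h with ⟨h1, h2⟩ | ⟨h1, h2⟩
  · exact ⟨fun h3 => absurd h2 (lt_asymm h3), fun h3 => absurd h1 (lt_asymm h3)⟩
  · exact ⟨fun _ => h1, fun _ => h2⟩

theorem exists_sigma {N : ℕ} {π : ℤ → Equiv.Perm (Fin N)} (h : Allowable π) :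
    ∃ σ : Fin N → Fin N → ℤ, (∀ i j, σ i j = σ j i) ∧
      (∀ i j, i ≠ j → 0 ≤ σ i j ∧ Reverses (π (σ i j)) (π (σ i j + 1)) i j ∧
        ∀ t, 0 ≤ t → t < σ i j → ¬ Reverses (π t) (π (t + 1)) i j) ∧
      ∀ i j k l, i ≠ j → k ≠ l → ∀ t, 0 ≤ t → t ≤ σ k l →
        (before (π t) i j ↔ (t ≤ σ i j ∧ before (π 0) i j) ∨ (σ i j < t ∧ before (π 0) j i)) := by
  set S : Fin N → Fin N → Set ℕ := fun i j =>
    {n : ℕ | Reverses (π (n : ℤ)) (π ((n : ℤ) + 1)) i j} with hS
  have hne : ∀ i j, i ≠ j → (S i j).Nonempty := by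
    intro i j hij
    obtain ⟨t, ht0, ht⟩ := exists_rev h hij 0
    obtain ⟨n, rfl⟩ := Int.eq_ofNat_of_zero_le ht0
    exact ⟨n, ht⟩
  have hsym : ∀ i j, S i j = S j i := by
    intro i j
    ext n
    exact sigma_symm _ _ i j
  set σ : Fin N → Fin N → ℤ := fun i j => ((sInf (S i j) : ℕ) : ℤ) with hσ
  have hmin : ∀ i j, i ≠ j → 0 ≤ σ i j ∧ Reverses (π (σ i j)) (π (σ i j + 1)) i j ∧
        ∀ t, 0 ≤ t → t < σ i j → ¬ Reverses (π t) (π (t + 1)) i j := by
    intro i j hij
    refine ⟨Int.natCast_nonneg _, Nat.sInf_mem (hne i j hij), ?_⟩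
    intro t ht0 ht hr
    obtain ⟨n, rfl⟩ := Int.eq_ofNat_of_zero_le ht0
    have h1 : n < sInf (S i j) := by
      have h2 : ((n : ℕ) : ℤ) < ((sInf (S i j) : ℕ) : ℤ) := ht
      exact_mod_cast h2
    exact Nat.notMem_of_lt_sInf h1 hr
  refine ⟨σ, ?_, hmin, ?_⟩
  · intro i j
    change ((sInf (S i j) : ℕ) : ℤ) = ((sInf (S j i) : ℕ) : ℤ)
    rw [hsym i j]
  · intro i j k l hij hkl t ht0 ht
    obtain ⟨hij0, hijr, hijm⟩ := hmin i j hij
    obtain ⟨hkl0, hklr, hklm⟩ := hmin k l hkl
    have claim : ∀ u, σ i j < u → u ≤ σ k l → ¬ Reverses (π u) (π (u + 1)) i j := by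
      intro u hu1 hu2 hu
      by_cases h1 : Reverses (π (σ i j)) (π (σ i j + 1)) k l
      · have h2 : σ k l ≤ σ i j := by
          by_contra h3
          exact hklm (σ i j) hij0 (not_le.1 h3) h1
        omega
      · obtain ⟨u', hu', hr', hv⟩ := h.once (σ i j) i j hijr k l hkl h1
        have h2 : u' < u := by
          by_contra h3
          exact hv u hu1 (not_lt.1 h3) hu
        exact hklm u' (by omega) (by omega) hr'
    have hpre : ∀ v, 0 ≤ v → v ≤ σ i j → (before (π 0) i j ↔ before (π v) i j) := by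
      intro v hv0 hv
      exact before_iff π hij 0 v hv0 (fun u hu1 hu2 => hijm u hu1 (by omega))
    rcases le_or_gt t (σ i j) with h1 | h1
    · rw [← hpre t ht0 h1]
      constructor
      · intro h2
        exact Or.inl ⟨h1, h2⟩
      · rintro (⟨_, h2⟩ | ⟨h2, _⟩)
        · exact h2
        · omega
    · have h2 : before (π (σ i j + 1)) i j ↔ before (π t) i j :=
        before_iff π hij _ t (by omega) (fun u hu1 hu2 => claim u (by omega) (by omega))
      rw [← h2, sigma_rev hijr]
      have h3 := hpre (σ i j) hij0 le_rfl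
      have h4 : before (π (σ i j)) j i ↔ before (π 0) j i := by
        rw [← sigma_total _ hij, ← sigma_total _ hij, h3]
      rw [h4]
      constructor
      · intro h5
        exact Or.inr ⟨h1, h5⟩
      · rintro (⟨h5, _⟩ | ⟨_, h5⟩)
        · omega
        · exact h5

end ES13
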