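import Pool.Agent.ES13.ADef

/-!
# ES13/SimpleMove (MP_d79f1f_co)
One simple move. NOTE w : position -> index, before w i j means w.symm i < w.symm j.
-/

namespace ES13

variable {α : Type*}

/-- In a simple move every position changes by at most one. -/
private lemma SimpleMove_close {N : ℕ} {w w' : Equiv.Perm (Fin N)}
    (h : ∃ B, IsMove w w' B ∧ ∀ b ∈ B, (b.2 : ℕ) = (b.1 : ℕ) + 1) (x : Fin N) :
    (w'.symm x : ℕ) ≤ (w.symm x : ℕ) + 1 ∧ (w.symm x : ℕ) ≤ (w'.symm x : ℕ) + 1 := by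
  obtain ⟨B, hB, hs⟩ := h
  by_cases hx : ∃ b ∈ B, b.1 ≤ w.symm x ∧ w.symm x ≤ b.2
  · obtain ⟨b, hb, h1, h2⟩ := hx
    have h1' : (b.1 : ℕ) ≤ (w.symm x : ℕ) := h1
    have h2' : (w.symm x : ℕ) ≤ (b.2 : ℕ) := h2
    have h3 := hs b hb
    have hle : b.1 ≤ b.2 := (hB.lt b hb).le
    rcases (by omega : (w.symm x : ℕ) = (b.1 : ℕ) ∨ (w.symm x : ℕ) = (b.2 : ℕ)) with h4 | h4
    · have h5 : w.symm x = b.1 := Fin.ext h4
      have h6 : w' b.2 = w b.1 := hB.inside b hb b.1 b.2 le_rfl hle rfl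
      have h7 : w b.1 = x := by rw [← h5, Equiv.apply_symm_apply]
      have h8 : w'.symm x = b.2 := by rw [← h7, ← h6, Equiv.symm_apply_apply]
      rw [h8, h5]
      omega
    · have h5 : w.symm x = b.2 := Fin.ext h4
      have h6 : w' b.1 = w b.2 := hB.inside b hb b.2 b.1 hle le_rfl (Nat.add_comm _ _)
      have h7 : w b.2 = x := by rw [← h5, Equiv.apply_symm_apply]
      have h8 : w'.symm x = b.1 := by rw [← h7, ← h6, Equiv.symm_apply_apply]
      rw [h8, h5]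
      omega
  · push Not at hx
    have h6 : w' (w.symm x) = w (w.symm x) := by
      refine hB.outside _ fun b hb hcon => ?_
      exact absurd (hx b hb hcon.1) (not_lt.2 hcon.2)
    rw [Equiv.apply_symm_apply] at h6
    have h8 : w'.symm x = w.symm x := by
      rw [Equiv.symm_apply_eq]
      exact h6.symm
    rw [h8]
    omega

private lemma SimpleMove_core {N : ℕ} {w w' : Equiv.Perm (Fin N)}
    (h : ∃ B, IsMove w w' B ∧ ∀ b ∈ B, (b.2 : ℕ) = (b.1 : ℕ) + 1) {i j k : Fin N}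
    (h1 : before w i j) (h2 : before w' j i) (hki : k ≠ i) (hkj : k ≠ j) :
    (before w k i ∧ before w k j ∧ before w' k i ∧ before w' k j) ∨
      (before w i k ∧ before w j k ∧ before w' i k ∧ before w' j k) := by
  have hi := SimpleMove_close h i
  have hj := SimpleMove_close h j
  have hk := SimpleMove_close h k
  have h1' : (w.symm i : ℕ) < (w.symm j : ℕ) := h1
  have h2' : (w'.symm j : ℕ) < (w'.symm i : ℕ) := h2
  have a1 : (w.symm k : ℕ) ≠ (w.symm i : ℕ) := fun hc => hki (w.symm.injective (Fin.ext hc))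
  have a2 : (w.symm k : ℕ) ≠ (w.symm j : ℕ) := fun hc => hkj (w.symm.injective (Fin.ext hc))
  have a3 : (w'.symm k : ℕ) ≠ (w'.symm i : ℕ) := fun hc => hki (w'.symm.injective (Fin.ext hc))
  have a4 : (w'.symm k : ℕ) ≠ (w'.symm j : ℕ) := fun hc => hkj (w'.symm.injective (Fin.ext hc))
  rcases lt_or_gt_of_ne a1 with hlt | hgt
  · left
    refine ⟨?_, ?_, ?_, ?_⟩
    · show (w.symm k : ℕ) < (w.symm i : ℕ)
      omega
    · show (w.symm k : ℕ) < (w.symm j : ℕ)
      omega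
    · show (w'.symm k : ℕ) < (w'.symm i : ℕ)
      omega
    · show (w'.symm k : ℕ) < (w'.symm j : ℕ)
      omega
  · right
    refine ⟨?_, ?_, ?_, ?_⟩
    · show (w.symm i : ℕ) < (w.symm k : ℕ)
      omega
    · show (w.symm j : ℕ) < (w.symm k : ℕ)
      omega
    · show (w'.symm i : ℕ) < (w'.symm k : ℕ)
      omega
    · show (w'.symm j : ℕ) < (w'.symm k : ℕ)
      omega

private lemma SimpleMove_asymm {N : ℕ} {w : Equiv.Perm (Fin N)} {i j : Fin N}
    (h1 : before w i j) (h2 : before w j i) : False :=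
  lt_asymm (h1 : w.symm i < w.symm j) h2

theorem simple_move {N : ℕ} {w w' : Equiv.Perm (Fin N)}
    (h : ∃ B, IsMove w w' B ∧ ∀ b ∈ B, (b.2 : ℕ) = (b.1 : ℕ) + 1) {i j k : Fin N}
    (hij : Reverses w w' i j) (hki : k ≠ i) (hkj : k ≠ j) :
    ¬ Reverses w w' i k ∧ ¬ Reverses w w' j k ∧ (before w k i ↔ before w k j) := by
  have key : (before w k i ∧ before w k j ∧ before w' k i ∧ before w' k j) ∨
      (before w i k ∧ before w j k ∧ before w' i k ∧ before w' j k) := by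
    rcases hij with ⟨h1, h2⟩ | ⟨h1, h2⟩
    · exact SimpleMove_core h h1 h2 hki hkj
    · rcases SimpleMove_core h h1 h2 hkj hki with ⟨a, b, c, d⟩ | ⟨a, b, c, d⟩
      · exact Or.inl ⟨b, a, d, c⟩
      · exact Or.inr ⟨b, a, d, c⟩
  rcases key with ⟨a, b, c, d⟩ | ⟨a, b, c, d⟩
  · refine ⟨?_, ?_, ⟨fun _ => b, fun _ => a⟩⟩
    · rintro (⟨h1, _⟩ | ⟨_, h2⟩)
      · exact SimpleMove_asymm h1 a
      · exact SimpleMove_asymm h2 c
    · rintro (⟨h1, _⟩ | ⟨_, h2⟩)
      · exact SimpleMove_asymm h1 b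
      · exact SimpleMove_asymm h2 d
  · refine ⟨?_, ?_, ⟨fun h3 => (SimpleMove_asymm h3 a).elim,
      fun h3 => (SimpleMove_asymm h3 b).elim⟩⟩
    · rintro (⟨_, h2⟩ | ⟨h1, _⟩)
      · exact SimpleMove_asymm h2 c
      · exact SimpleMove_asymm h1 a
    · rintro (⟨_, h2⟩ | ⟨h1, _⟩)
      · exact SimpleMove_asymm h2 d
      · exact SimpleMove_asymm h1 b

end ES13
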