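import Pool.Agent.ES13.Basic

/-!
# ES13/SkelBasic (MP_d79f1f_co)
* skel_restrict: immediate from the fields (omega for the indices).
* skel_pair: write [abc] for the sign cw a b c of an lt-increasing triple. lt q r: q < s (j+1) < r
 (lt (s i) r for i <= j'). Everything is in V, transitivity of lt.
 (between) j < i <= j': there are at least two skeleton points between q and r. Let a < b be skeleton
 indices with j < a < b <= j' (a = i or b = i; e.g. if i > j + 1 take a = j + 1, b = i, otherwise
 a = i, b = i + 1). Mono4 for (q, s a, s b, r): [q sa sb] = 1 (cap3), [sa sb r] = 1 (cap1, b <= j'), so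
 [q sa r] and [q sb r] hold.
 (before) i <= j: (s i, q, s (j+1), r): [si q s(j+1)] = 1 (cap2), [si s(j+1) r] = 1 (cap1 for r),
 [q s(j+1) r] = 1 (between), so the second sign [si q r] = 1 (Mono4 A B C D, A and D true).
 (after) j' < i <= m: (q, s j', r, s i): [q sj' r] = 1 (between), [q sj' si] = 1 (cap3), [sj' r si] = 1
 (cap2 for r), so the third sign [q r si] = 1.
* skel_triple: (q, r, s j'', u): [q r sj''] = 1 (pair (q,r), j'' > j', after), [q sj'' u] = 1 (pair (q,u),
 between: j < j'' <= j''), [r sj'' u] = 1 (pair (r,u), between), so [q r u] = 1.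
-/

namespace ES13

variable {α : Type*}

theorem skel_restrict {cw : α → α → α → Prop} {lt : α → α → Prop} {V : Finset α} {m : ℕ}
    {s : ℕ → α} {Q : ℕ → Finset α} (h : Skel cw lt V m s Q) (c m' : ℕ) (hc : c + m' ≤ m) :
    Skel cw lt V m' (fun i => s (c + i)) (fun i => Q (c + i)) := by
  refine ⟨?_, ?_, ?_, ?_, ?_, ?_, ?_, ?_, ?_⟩
  · intro j hj
    exact h.mem _ (by omega)
  · intro i j hij hj
    exact h.inc _ _ (by omega) (by omega)
  · intro i j k hij hjk hk
    exact h.cap _ _ _ (by omega) (by omega) (by omega)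
  · intro j hj
    exact h.sub _ (by omega)
  · intro j hj q hq i hi
    exact h.lo (c + j) (by omega) q hq (c + i) (by omega)
  · intro j hj q hq i hi hi'
    exact h.hi (c + j) (by omega) q hq (c + i) (by omega) (by omega)
  · intro j hj q hq i i' hi hi'
    exact h.cap1 (c + j) (by omega) q hq (c + i) (c + i') (by omega) (by omega)
  · intro j hj q hq i i' hi hi' hi''
    exact h.cap2 (c + j) (by omega) q hq (c + i) (c + i') (by omega) (by omega) (by omega)
  · intro j hj q hq i i' hi hi' hi''
    exact h.cap3 (c + j) (by omega) q hq (c + i) (c + i') (by omega) (by omega) (by omega)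

/-- between: two skeleton points between `q` and `r` -/
private theorem skel_between2 {cw : α → α → α → Prop} {lt : α → α → Prop} {V : Finset α} {m : ℕ}
    {s : ℕ → α} {Q : ℕ → Finset α} (hSig : Sig cw lt V)
    (h : Skel cw lt V m s Q) {j j' a b : ℕ} (hj' : j' < m)
    {q r : α} (hq : q ∈ Q j) (hr : r ∈ Q j') (ha : j < a) (hab : a < b) (hb : b ≤ j') :
    cw q (s a) r ∧ cw q (s b) r := by
  have hM := hSig q (h.sub j (by omega) hq) (s a) (h.mem a (by omega)) (s b) (h.mem b (by omega)) r
    (h.sub j' hj' hr) (h.hi j (by omega) q hq a ha (by omega)) (h.inc a b hab (by omega))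
    (h.lo j' hj' r hr b hb)
  have h1 := h.cap3 j (by omega) q hq a b ha hab (by omega)
  have h2 := h.cap1 j' hj' r hr a b hab hb
  obtain ⟨_, _, h3, _, h4, _, _, _⟩ := hM
  exact ⟨h3 h1 h2, h4 h1 h2⟩

/-- two or three points in different gaps (at least one gap between them) -/
theorem skel_pair {cw : α → α → α → Prop} {lt : α → α → Prop} {V : Finset α} {m : ℕ}
    {s : ℕ → α} {Q : ℕ → Finset α} (hT : STO lt V) (hSig : Sig cw lt V)
    (h : Skel cw lt V m s Q) {j j' : ℕ} (hj : j + 2 ≤ j') (hj' : j' < m)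
    {q r : α} (hq : q ∈ Q j) (hr : r ∈ Q j') :
    lt q r ∧ (∀ i ≤ j, cw (s i) q r) ∧ (∀ i, j < i → i ≤ j' → cw q (s i) r) ∧
      (∀ i, j' < i → i ≤ m → cw q r (s i)) := by
  have hqV := h.sub j (by omega) hq
  have hrV := h.sub j' hj' hr
  have hlt : lt q r :=
    hT.trans q hqV (s (j + 1)) (h.mem _ (by omega)) r hrV
      (h.hi j (by omega) q hq (j + 1) (by omega) (by omega)) (h.lo j' hj' r hr (j + 1) (by omega))
  have hbet : ∀ i, j < i → i ≤ j' → cw q (s i) r := by
    intro i hi hi'
    by_cases hc : i = j + 1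
    · exact (skel_between2 hSig h hj' hq hr (a := i) (b := i + 1) hi (by omega) (by omega)).1
    · exact (skel_between2 hSig h hj' hq hr (a := j + 1) (b := i) (by omega) (by omega) hi').2
  refine ⟨hlt, ?_, hbet, ?_⟩
  · intro i hi
    have hM := hSig (s i) (h.mem i (by omega)) q hqV (s (j + 1)) (h.mem _ (by omega)) r hrV
      (h.lo j (by omega) q hq i hi) (h.hi j (by omega) q hq (j + 1) (by omega) (by omega))
      (h.lo j' hj' r hr (j + 1) (by omega))
    have h1 := h.cap2 j (by omega) q hq i (j + 1) hi (by omega) (by omega)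
    have h2 := hbet (j + 1) (by omega) (by omega)
    exact hM.2.2.1 h1 h2
  · intro i hi hi'
    have hM := hSig q hqV (s j') (h.mem _ (by omega)) r hrV (s i) (h.mem i (by omega))
      (h.hi j (by omega) q hq j' (by omega) (by omega)) (h.lo j' hj' r hr j' (by omega))
      (h.hi j' hj' r hr i hi hi')
    have h1 := hbet j' (by omega) (by omega)
    have h2 := h.cap2 j' hj' r hr j' i (by omega) hi hi'
    exact hM.2.2.2.2.1 h1 h2

theorem skel_triple {cw : α → α → α → Prop} {lt : α → α → Prop} {V : Finset α} {m : ℕ}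
    {s : ℕ → α} {Q : ℕ → Finset α} (hT : STO lt V) (hSig : Sig cw lt V)
    (h : Skel cw lt V m s Q) {j j' j'' : ℕ} (hj : j + 2 ≤ j') (hj' : j' + 2 ≤ j'') (hj'' : j'' < m)
    {q r u : α} (hq : q ∈ Q j) (hr : r ∈ Q j') (hu : u ∈ Q j'') : cw q r u := by
  have hqV := h.sub j (by omega) hq
  have hrV := h.sub j' (by omega) hr
  have huV := h.sub j'' hj'' hu
  obtain ⟨h1, _, _, h2⟩ := skel_pair hT hSig h hj (by omega) hq hr
  obtain ⟨_, _, h3, _⟩ := skel_pair hT hSig h hj' hj'' hr hu
  have hM := hSig q hqV r hrV (s j'') (h.mem _ (by omega)) u huV h1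
    (h.hi j' (by omega) r hr j'' (by omega) (by omega)) (h.lo j'' hj'' u hu j'' (by omega))
  exact hM.2.2.1 (h2 j'' (by omega) (by omega)) (h3 j'' (by omega) (by omega))

end ES13
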