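import Pool.Agent.ES13.MakeBO
import Pool.Agent.ES13.SkelBasic

/-!
# ES13/SkelL (MP_d79f1f_co)
Notation: [abc] = cw a b c for lt-increasing triples; for a < b < c: cw b a c <-> not [abc]. h = s g,
v = s (g+5), c = s (g+3). Part Q (g+2): s g < s (g+2) < q < s (g+3) < s (g+5).
* skel_L4 (p, q in Q (g+2), positive, r in Q (g+4)): cw p q r. p != q (ori_ne).
 If lt p q: cw q p (s g) is [h p q] = 0. Mono4 for (h,p,q,c): [hpq]=0, [hpc]=1 (cap2), so ... [hqc]=1,
 hence [pqc] = 1 (0,1,1,? gives 1). Then (p,q,c,r): [pqc]=1, [pcr]=1, [qcr]=1 (skel_pair between, index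
 g+3, j = g+2, j' = g+4), so [pqr] = 1.
 If lt q p: cw p q v is [q p v] = 0. (q,p,r,v): [qpr], [qpv]=0, [qrv]=1, [prv]=1 (skel_pair after, index
 g+5 > g+4), so [qpr] = 0, i.e. cw p q r.
* skel_L4' (r in Q g): flip3 cw p q r = cw q p r. r < p, q. If lt p q: [hpq]=0; (h,r,p,q): [hrp]=1, [hrq]=1
 (skel_pair before, j = g, i = g, h = s g), [hpq]=0, so [rpq] = 0, i.e. cw q p r cyclically.
 If lt q p: [qpv] = 0. Let c' = s (g+2): r < c' < q < p < v. (c',q,p,v): [c'qp], [c'qv]=1, [c'pv]=1 (cap2),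
 [qpv]=0, so [c'qp] = 1. (r,c',q,p): [rc'q]=1, [rc'p]=1 (skel_pair between), [rqp], [c'qp]=1, so [rqp]=1,
 cyclically cw q p r.
* skel_L5 (cw p q v, cw p q h): first lt p q: otherwise lt q p, [qpv] = 0 and [hqp] = 0 (cw p q h cyclically
 cw h p q, i.e. not [hqp]); Mono4 for (h,q,p,v): ([hqp]=0,[hqv]=1,[hpv]=1,[qpv]=0) impossible. So
 [pqv] = 1 and [hpq] = 1. Later part j >= g+5, r in Q j: (p,q,v,r): [pqv]=1, [pvr]=1, [qvr]=1 (skel_pair
 between: g+2 < g+5 <= j), so [pqr]=1. Earlier part, j + 1 <= g, r in Q j: (r,h,p,q): [rhp]=1, [rhq]=1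
 (skel_pair between, j < g <= g+2), [rpq], [hpq]=1, so [rpq] = 1, cyclically cw p q r.
* skel_base: makeBO with h := s g, v := s (g+5), P := Q (g+2), caps by cap2 (g <= g+2 < g+5).
-/

namespace ES13

variable {α : Type*}

/-- (L4) a positive pair and a point of the next part -/
theorem skel_L4 {cw : α → α → α → Prop} {lt : α → α → Prop} {V : Finset α} {m : ℕ}
    {s : ℕ → α} {Q : ℕ → Finset α} (hO : Ori cw) (hT : STO lt V) (hSig : Sig cw lt V)
    (h : Skel cw lt V m s Q) {g : ℕ} (hg : g + 5 ≤ m) {p q r : α}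
    (hp : p ∈ Q (g + 2)) (hq : q ∈ Q (g + 2)) (hpq : cw p q (s (g + 5)) ∧ cw q p (s g))
    (hr : r ∈ Q (g + 4)) : cw p q r := by
  obtain ⟨hpv, hqh⟩ := hpq
  have hpV := h.sub (g + 2) (by omega) hp
  have hqV := h.sub (g + 2) (by omega) hq
  have hrV := h.sub (g + 4) (by omega) hr
  have hne := (ori_ne hO hpv).1
  obtain ⟨hpr, _, _, hprv⟩ := skel_pair hT hSig h (j := g + 2) (j' := g + 4) (by omega)
    (by omega) hp hr
  obtain ⟨hqr, _, hqcr, _⟩ := skel_pair hT hSig h (j := g + 2) (j' := g + 4) (by omega)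
    (by omega) hq hr
  rcases hT.tot p hpV q hqV hne with hlt | hlt
  · have hM := hSig (s g) (h.mem g (by omega)) p hpV q hqV (s (g + 3)) (h.mem _ (by omega))
      (h.lo (g + 2) (by omega) p hp g (by omega)) hlt
      (h.hi (g + 2) (by omega) q hq (g + 3) (by omega) (by omega))
    have hA : ¬ cw (s g) p q := fun hc => hO.anti _ _ _ hqh (hO.cyc _ _ _ hc)
    have hB := h.cap2 (g + 2) (by omega) p hp g (g + 3) (by omega) (by omega) (by omega)
    have hD := (hM.2.2.2.1 hB).resolve_left hA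
    have hM2 := hSig p hpV q hqV (s (g + 3)) (h.mem _ (by omega)) r hrV hlt
      (h.hi (g + 2) (by omega) q hq (g + 3) (by omega) (by omega))
      (h.lo (g + 4) (by omega) r hr (g + 3) (by omega))
    exact hM2.2.2.1 hD (hqcr (g + 3) (by omega) (by omega))
  · have hM := hSig q hqV p hpV r hrV (s (g + 5)) (h.mem _ (by omega)) hlt hpr
      (h.hi (g + 4) (by omega) r hr (g + 5) (by omega) (by omega))
    have hn : ¬ cw q p r := fun hc =>
      hO.anti _ _ _ (hM.2.2.1 hc (hprv (g + 5) (by omega) (by omega))) hpv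
    exact (hO.tot p q r hne (sto_ne hT hqV hqr) (sto_ne hT hpV hpr)).resolve_right hn

theorem skel_L4' {cw : α → α → α → Prop} {lt : α → α → Prop} {V : Finset α} {m : ℕ}
    {s : ℕ → α} {Q : ℕ → Finset α} (hO : Ori cw) (hT : STO lt V) (hSig : Sig cw lt V)
    (h : Skel cw lt V m s Q) {g : ℕ} (hg : g + 5 ≤ m) {p q r : α}
    (hp : p ∈ Q (g + 2)) (hq : q ∈ Q (g + 2)) (hpq : cw p q (s (g + 5)) ∧ cw q p (s g))
    (hr : r ∈ Q g) : flip3 cw p q r := by
  obtain ⟨hpv, hqh⟩ := hpq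
  have hpV := h.sub (g + 2) (by omega) hp
  have hqV := h.sub (g + 2) (by omega) hq
  have hrV := h.sub g (by omega) hr
  have hne := (ori_ne hO hpv).1
  obtain ⟨hrp, hhrp, hrcp, _⟩ := skel_pair hT hSig h (j := g) (j' := g + 2) (by omega)
    (by omega) hr hp
  obtain ⟨hrq, hhrq, hrcq, _⟩ := skel_pair hT hSig h (j := g) (j' := g + 2) (by omega)
    (by omega) hr hq
  rcases hT.tot p hpV q hqV hne with hlt | hlt
  · have hM := hSig (s g) (h.mem g (by omega)) r hrV p hpV q hqV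
      (h.lo g (by omega) r hr g le_rfl) hrp hlt
    have hA : ¬ cw (s g) p q := fun hc => hO.anti _ _ _ hqh (hO.cyc _ _ _ hc)
    have hn : ¬ cw r p q := fun hc => hA (hM.2.2.2.2.2.2.1 (hhrq g le_rfl) hc)
    have h1 := (hO.tot r p q (sto_ne hT hrV hrp) hne (sto_ne hT hrV hrq)).resolve_left hn
    exact hO.cyc _ _ _ (hO.cyc _ _ _ h1)
  · have hM := hSig (s (g + 2)) (h.mem _ (by omega)) q hqV p hpV (s (g + 5)) (h.mem _ (by omega))
      (h.lo (g + 2) (by omega) q hq (g + 2) le_rfl) hlt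
      (h.hi (g + 2) (by omega) p hp (g + 5) (by omega) (by omega))
    have hB := h.cap2 (g + 2) (by omega) q hq (g + 2) (g + 5) (by omega) (by omega) (by omega)
    have hn : ¬ cw q p (s (g + 5)) := fun hc => hO.anti _ _ _ hc hpv
    have hA := (hM.2.2.2.1 hB).resolve_right hn
    have hM2 := hSig r hrV (s (g + 2)) (h.mem _ (by omega)) q hqV p hpV
      (h.hi g (by omega) r hr (g + 2) (by omega) (by omega))
      (h.lo (g + 2) (by omega) q hq (g + 2) le_rfl) hlt
    exact hO.cyc _ _ _ (hM2.2.2.2.2.1 (hrcq (g + 2) (by omega) (by omega)) hA)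

/-- (L5) an outer pair and a far point -/
theorem skel_L5 {cw : α → α → α → Prop} {lt : α → α → Prop} {V : Finset α} {m : ℕ}
    {s : ℕ → α} {Q : ℕ → Finset α} (hO : Ori cw) (hT : STO lt V) (hSig : Sig cw lt V)
    (h : Skel cw lt V m s Q) {g : ℕ} (hg : g + 5 ≤ m) {p q : α}
    (hp : p ∈ Q (g + 2)) (hq : q ∈ Q (g + 2)) (hpq : cw p q (s (g + 5)) ∧ cw p q (s g)) :
    (∀ j, g + 5 ≤ j → j < m → ∀ r ∈ Q j, cw p q r) ∧ (∀ j, j + 1 ≤ g → ∀ r ∈ Q j, cw p q r) := by
  obtain ⟨hpv, hph⟩ := hpq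
  have hpV := h.sub (g + 2) (by omega) hp
  have hqV := h.sub (g + 2) (by omega) hq
  have hne := (ori_ne hO hpv).1
  have hlt : lt p q := by
    refine (hT.tot p hpV q hqV hne).resolve_right fun hlt => ?_
    have hM := hSig (s g) (h.mem g (by omega)) q hqV p hpV (s (g + 5)) (h.mem _ (by omega))
      (h.lo (g + 2) (by omega) q hq g (by omega)) hlt
      (h.hi (g + 2) (by omega) p hp (g + 5) (by omega) (by omega))
    have hB := h.cap2 (g + 2) (by omega) q hq g (g + 5) (by omega) (by omega) (by omega)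
    rcases hM.2.2.2.1 hB with hc | hc
    · exact hO.anti _ _ _ (hO.cyc _ _ _ hc) hph
    · exact hO.anti _ _ _ hc hpv
  constructor
  · intro j hj hjm r hr
    have hrV := h.sub j hjm hr
    obtain ⟨_, _, h1, _⟩ := skel_pair hT hSig h (j := g + 2) (j' := j) (by omega) hjm hq hr
    have hM := hSig p hpV q hqV (s (g + 5)) (h.mem _ (by omega)) r hrV hlt
      (h.hi (g + 2) (by omega) q hq (g + 5) (by omega) (by omega))
      (h.lo j hjm r hr (g + 5) hj)
    exact hM.2.2.1 hpv (h1 (g + 5) (by omega) hj)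
  · intro j hj r hr
    have hrV := h.sub j (by omega) hr
    obtain ⟨_, _, h1, _⟩ := skel_pair hT hSig h (j := j) (j' := g + 2) (by omega) (by omega) hr hp
    have hM := hSig r hrV (s g) (h.mem g (by omega)) p hpV q hqV
      (h.hi j (by omega) r hr g (by omega) (by omega))
      (h.lo (g + 2) (by omega) p hp g (by omega)) hlt
    exact hO.cyc _ _ _
      (hM.2.2.2.2.1 (h1 g (by omega) (by omega)) (hO.cyc _ _ _ (hO.cyc _ _ _ hph)))

/-- the base of the part `Q (g+2)` -/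
theorem skel_base {cw : α → α → α → Prop} {lt : α → α → Prop} {V : Finset α} {m : ℕ}
    {s : ℕ → α} {Q : ℕ → Finset α} (hO : Ori cw) (hT : STO lt V) (hSig : Sig cw lt V)
    (h : Skel cw lt V m s Q) {g : ℕ} (hg : g + 5 ≤ m) :
    BO cw (aroundV cw (s (g + 5))) (aroundH cw (s g)) (Q (g + 2)) :=
  makeBO hO hT hSig (h.mem g (by omega)) (h.mem _ (by omega)) (h.sub _ (by omega))
    (fun p hp => h.lo (g + 2) (by omega) p hp g (by omega))
    (fun p hp => h.hi (g + 2) (by omega) p hp (g + 5) (by omega) (by omega))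
    (fun p hp => h.cap2 (g + 2) (by omega) p hp g (g + 5) (by omega) (by omega) (by omega))

end ES13
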