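import Mathlib

/-!
# ES13/Supersat (MP_d79f1f_co)
PROOF. Double counting of the pairs (A, B), A in F, B in powersetCard M P, A subset of B. Every B has at least one
A: so P.card.choose M <= number of pairs. Every A (a T-subset of P) lies in exactly
(P.card - T).choose (M - T) sets B (B -> B minus A is a bijection to powersetCard (M-T) (P minus A)). So
P.card.choose M <= F.card * (P.card - T).choose (M - T). Multiply by M.choose T and use
Nat.choose_mul (P.card.choose M * M.choose T = P.card.choose T * (P.card - T).choose (M - T)):
P.card.choose T * (P.card-T).choose (M-T) <= F.card * M.choose T * (P.card-T).choose (M-T); the last factor is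
positive (M - T <= P.card - T); cancel.
-/

namespace ES13

variable {α : Type*}

theorem supersat {β : Type*} [DecidableEq β] (P : Finset β) (T M : ℕ) (hTM : T ≤ M)
    (hM : M ≤ P.card) (F : Finset (Finset β)) (hF : F ⊆ P.powersetCard T)
    (h : ∀ B ∈ P.powersetCard M, ∃ A ∈ F, A ⊆ B) :
    P.card.choose T ≤ F.card * M.choose T := by
  classical
  have hfib : ∀ A ∈ F, ((P.powersetCard M).filter (fun B => A ⊆ B)).card
      ≤ (P.card - T).choose (M - T) := by
    intro A hA
    have hA' := hF hA
    rw [Finset.mem_powersetCard] at hA'
    have : (P.card - T).choose (M - T) = ((P \ A).powersetCard (M - T)).card := by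
      rw [Finset.card_powersetCard, Finset.card_sdiff_of_subset hA'.1, hA'.2]
    rw [this]
    apply Finset.card_le_card_of_injOn (fun B => B \ A)
    · intro B hB
      have hB' := hB
      simp only [Finset.coe_filter, Finset.mem_powersetCard, Set.mem_ofPred_eq] at hB'
      simp only [Finset.mem_coe, Finset.mem_powersetCard]
      refine ⟨Finset.sdiff_subset_sdiff hB'.1.1 (Finset.Subset.refl _), ?_⟩
      rw [Finset.card_sdiff_of_subset hB'.2, hB'.1.2, hA'.2]
    · intro B hB C hC hBC
      simp only [Finset.coe_filter, Finset.mem_powersetCard, Set.mem_ofPred_eq] at hB hC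
      have hBC' : B \ A = C \ A := hBC
      rw [← Finset.sdiff_union_of_subset hB.2, ← Finset.sdiff_union_of_subset hC.2, hBC']
  have hcover : P.powersetCard M ⊆
      F.biUnion (fun A => (P.powersetCard M).filter (fun B => A ⊆ B)) := by
    intro B hB
    obtain ⟨A, hA, hAB⟩ := h B hB
    rw [Finset.mem_biUnion]
    exact ⟨A, hA, Finset.mem_filter.2 ⟨hB, hAB⟩⟩
  have h1 : P.card.choose M ≤ F.card * (P.card - T).choose (M - T) := by
    rw [← Finset.card_powersetCard]
    refine (Finset.card_le_card hcover).trans ?_
    refine Finset.card_biUnion_le_card_mul _ _ _ hfib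
  have h2 : P.card.choose M * M.choose T = P.card.choose T * (P.card - T).choose (M - T) :=
    Nat.choose_mul hTM
  have hpos : 0 < (P.card - T).choose (M - T) := Nat.choose_pos (by omega)
  refine Nat.le_of_mul_le_mul_right ?_ hpos
  rw [← h2]
  calc P.card.choose M * M.choose T ≤ F.card * (P.card - T).choose (M - T) * M.choose T :=
        Nat.mul_le_mul_right _ h1
    _ = F.card * M.choose T * (P.card - T).choose (M - T) := by ring

end ES13
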