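import Pool.Agent.ES13.SimpleMove

/-!
# ES13/Triple (MP_d79f1f_co)
PROOF. a, b, c are distinct (before (pi 0) a c by transitivity). Let t = s a c. The pair a, c is reversed at t. By
simple_move (i = a, j = c, k = b): the pairs a,b and b,c are not reversed at t, so s a b != t, s b c != t, and
before (pi t) b a <-> before (pi t) b c. By h2 (k l := a c): before (pi t) b a <-> s a b < t (the other
alternative needs before (pi 0) b a, impossible; s b a = s a b), and before (pi t) b c <-> t <= s b c. Hence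
either s a b < t and t < s b c, or t < s a b (t <= s a b, different) and s b c < t.
-/

namespace ES13

variable {α : Type*}

theorem sigma_triple {N : ℕ} {π : ℤ → Equiv.Perm (Fin N)} (hs : Simple π)
    {σ : Fin N → Fin N → ℤ} (hsym : ∀ i j, σ i j = σ j i)
    (h1 : ∀ i j, i ≠ j → 0 ≤ σ i j ∧ Reverses (π (σ i j)) (π (σ i j + 1)) i j ∧
        ∀ t, 0 ≤ t → t < σ i j → ¬ Reverses (π t) (π (t + 1)) i j)
    (h2 : ∀ i j k l, i ≠ j → k ≠ l → ∀ t, 0 ≤ t → t ≤ σ k l →
        (before (π t) i j ↔ (t ≤ σ i j ∧ before (π 0) i j) ∨ (σ i j < t ∧ before (π 0) j i)))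
    {a b c : Fin N} (hab : before (π 0) a b) (hbc : before (π 0) b c) :
    (σ a b < σ a c ∧ σ a c < σ b c) ∨ (σ b c < σ a c ∧ σ a c < σ a b) := by
  have hne : ∀ {i j : Fin N}, before (π 0) i j → i ≠ j := by
    rintro i j h rfl
    exact lt_irrefl _ h
  have hns : ∀ {i j : Fin N}, before (π 0) i j → ¬ before (π 0) j i := fun h h' =>
    lt_asymm h h'
  have hac : before (π 0) a c := lt_trans hab hbc
  obtain ⟨h0, hrev, -⟩ := h1 a c (hne hac)
  obtain ⟨m1, m2, m3⟩ := simple_move (hs (σ a c)) hrev (hne hab).symm (hne hbc)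
  have n1 : σ a b ≠ σ a c := by
    intro h
    have h3 := (h1 a b (hne hab)).2.1
    rw [h] at h3
    exact m1 h3
  have n2 : σ b c ≠ σ a c := by
    intro h
    have h3 := (h1 c b (hne hbc).symm).2.1
    rw [hsym c b, h] at h3
    exact m2 h3
  have e1 := h2 b a a c (hne hab).symm (hne hac) (σ a c) h0 le_rfl
  have e2 := h2 b c a c (hne hbc) (hne hac) (σ a c) h0 le_rfl
  rw [e1, e2, hsym b a] at m3
  have k1 := hns hab
  have k2 := hns hbc
  by_cases h : σ a b < σ a c
  · left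
    rcases m3.1 (Or.inr ⟨h, hab⟩) with ⟨h3, -⟩ | ⟨-, h3⟩
    · exact ⟨h, lt_of_le_of_ne h3 n2.symm⟩
    · exact absurd h3 k2
  · right
    have h3 : σ a c < σ a b := lt_of_le_of_ne (not_lt.1 h) n1.symm
    refine ⟨?_, h3⟩
    by_contra h4
    rcases m3.2 (Or.inl ⟨not_lt.1 h4, hbc⟩) with ⟨-, h5⟩ | ⟨h5, -⟩
    · exact k1 h5
    · exact h h5

end ES13
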