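import Pool.Agent.ES13.SkelL
import Pool.Agent.ES13.ChainFull

/-!
# ES13/UnitePos (MP_d79f1f_co)
PROOF. Let x be the chain of h1 (terms in Q (g+2)), y the chain of h2 (terms in Q (g+4)). By
skel_base (g) the orders aroundV.., aroundH.. are STO and Sig holds on Q (g+2); pos implies aroundV, so
chainFull (order aroundV cw (s (g+5))) gives CwSeq cw (e+1) x. Similarly with skel_base (g+2) (needs
g + 2 + 5 <= m) and the orientation flip3 cw (sig_flip) CwSeq (flip3 cw) (e'+1) y. Moreover for i < j <= e:
pos (x i) (x j) (transitivity of both orders: apply the first part of chainFull also to aroundH, or use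
transitivity by induction) and the same for y.
Put z i = x i for i <= e and z (e + 1 + i) = y (e' - i) for i <= e'. Then CwSeq cw (e + e' + 2) z:
triples i < j < k: all in x: known. All in y: cw (y c) (y b) (y a) for a < b < c from
flip3 cw (y a) (y b) (y c) = cw (y b) (y a) (y c) by cyc. Two in x: cw (x i) (x j) r with r in Q (g+4):
skel_L4. One in x (call it r, in Q (g+2)), two in y: cw r (y b) (y a) with a < b: skel_L4' with g := g + 2
(p = y a, q = y b, r in Q (g+2)) gives cw (y b) (y a) r, cyclically cw r (y b) (y a).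
If e + e' + 2 >= n, then the first n terms of z contradict hn (CwSeq cw n z).
-/

namespace ES13

variable {α : Type*}

/-- clockwise positive chain of a part + counterclockwise positive chain of the next part -/
theorem unite_pos {cw : α → α → α → Prop} {lt : α → α → Prop} {V : Finset α} {m : ℕ}
    {s : ℕ → α} {Q : ℕ → Finset α} {n : ℕ} (hO : Ori cw) (hT : STO lt V) (hSig : Sig cw lt V)
    (hn : NoConv cw V n) (h : Skel cw lt V m s Q) {g : ℕ} (hg : g + 7 ≤ m) {p p' : α} {e e' : ℕ}
    (h1 : ChF (pos (aroundV cw (s (g + 5))) (aroundH cw (s g))) cw (Q (g + 2)) p e)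
    (h2 : ChF (pos (aroundV cw (s (g + 7))) (aroundH cw (s (g + 2)))) (flip3 cw) (Q (g + 4)) p' e') :
    e + e' + 2 < n := by
  have B : BO cw (aroundV cw (s (g + 5))) (aroundH cw (s g)) (Q (g + 2)) :=
    skel_base hO hT hSig h (by omega)
  have B' : BO cw (aroundV cw (s (g + 7))) (aroundH cw (s (g + 2))) (Q (g + 4)) :=
    skel_base hO hT hSig h (g := g + 2) (by omega)
  obtain ⟨p1, x, _, _, hxQ, hxr, hxc⟩ := h1
  obtain ⟨p2, y, _, _, hyQ, hyr, hyc⟩ := h2
  obtain ⟨hxX, hxcw⟩ := chainFull B.stoX B.sigX hxQ (fun i hi => (hxr i hi).1) hxc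
  obtain ⟨hxY, _⟩ := chainFull B.stoY B.sigY hxQ (fun i hi => (hxr i hi).2) hxc
  obtain ⟨hyX, hycw⟩ := chainFull B'.stoX (sig_flip B'.ori B'.stoX B'.sigX) hyQ
    (fun i hi => (hyr i hi).1) hyc
  obtain ⟨hyY, _⟩ := chainFull B'.stoY (sig_flip B'.ori B'.stoY B'.sigY) hyQ
    (fun i hi => (hyr i hi).2) hyc
  by_contra hcon
  have hcon' : n ≤ e + e' + 2 := Nat.le_of_not_lt hcon
  set z : ℕ → α := fun i => if i ≤ e then x i else y (e + e' + 1 - i) with hz
  have zx : ∀ i, i ≤ e → z i = x i := fun i hi => if_pos hi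
  have zy : ∀ i, ¬ i ≤ e → z i = y (e + e' + 1 - i) := fun i hi => if_neg hi
  refine hn z ?_ ?_
  · intro i hi
    by_cases hie : i ≤ e
    · rw [zx i hie]
      exact h.sub (g + 2) (by omega) (hxQ i hie)
    · rw [zy i hie]
      exact h.sub (g + 4) (by omega) (hyQ _ (by omega))
  · intro i j k hij hjk hk
    by_cases hke : k ≤ e
    · rw [zx i (by omega), zx j (by omega), zx k hke]
      exact hxcw i j k hij hjk (by omega)
    · rw [zy k hke]
      by_cases hje : j ≤ e
      · rw [zx i (by omega), zx j hje]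
        exact skel_L4 hO hT hSig h (by omega) (hxQ i (by omega)) (hxQ j hje)
          ⟨hxX i j hij hje, hxY i j hij hje⟩ (hyQ _ (by omega))
      · rw [zy j hje]
        have hb : e + e' + 1 - k < e + e' + 1 - j := by omega
        by_cases hie : i ≤ e
        · rw [zx i hie]
          have h3 := skel_L4' hO hT hSig h (g := g + 2) (by omega)
            (p := y (e + e' + 1 - k)) (q := y (e + e' + 1 - j)) (r := x i)
            (hyQ _ (by omega)) (hyQ _ (by omega))
            ⟨hyX _ _ hb (by omega), hyY _ _ hb (by omega)⟩ (hxQ i hie)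
          exact hO.cyc _ _ _ (hO.cyc _ _ _ h3)
        · rw [zy i hie]
          have hc : e + e' + 1 - j < e + e' + 1 - i := by omega
          have h3 := hycw _ _ _ hb hc (by omega)
          exact hO.cyc _ _ _ (hO.cyc _ _ _ h3)

end ES13
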